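import Pool.Agent.TH650.Emb.HDefs
import Pool.Agent.TH592.Nag.Bridge

/-! JOB C (bridge from explicit singular chains to Mathlib's singular homology). -/

set_option autoImplicit false

open scoped Manifold ContDiff Topology
open Set CategoryTheory AlgebraicTopology

namespace Pool.Agent.TH650.Emb

open Pool.Agent.H904R2 (Ch IsCyc IsBdy RAcyc psh)

noncomputable section

theorem bridge_zero (X : Type) [TopologicalSpace X] [PathConnectedSpace X] :
    Nonempty (HZ 0 X ≅ ModuleCat.of ℤ ℤ) := by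
  have h : IsIso ((TopCat.of X).singularHomology₀ε (ModuleCat.of ℤ ℤ)) :=
    have : PathConnectedSpace (TopCat.of X) := ‹PathConnectedSpace X›
    inferInstance
  exact ⟨asIso ((TopCat.of X).singularHomology₀ε (ModuleCat.of ℤ ℤ))⟩

namespace BrAux

open Pool.Agent.TH592.Nag (KK toC ofC toC_ofC ofC_toC toC_injective d_toC cyc bou Hm HQ)
open Pool.Agent.Helper922.HB.Sc (sbd)

theorem bd_eq {X : Type} [TopologicalSpace X] (k : ℕ) (c : Ch X (k + 1)) :
    Pool.Agent.TH592.Nag.bd ℤ X k c = sbd X k c := by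
  have h : Pool.Agent.TH592.Nag.bd ℤ X k = sbd X k := by
    apply Finsupp.lhom_ext'
    intro σ
    apply LinearMap.ext_ring
    simp only [LinearMap.comp_apply, Finsupp.lsingle_apply]
    rw [Pool.Agent.Helper922.HB.Sc.sbd, Pool.Agent.Helper922.HB.Sc.bd_single,
      Pool.Agent.TH592.Nag.bd, Finsupp.linearCombination_single, one_smul]
    rfl
  exact LinearMap.congr_fun h c

theorem mem_cyc {X : Type} [TopologicalSpace X] {k : ℕ} (hk : 1 ≤ k) (c : Ch X k) :
    c ∈ cyc ℤ X k ↔ IsCyc k c := by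
  obtain ⟨m, rfl⟩ : ∃ m, k = m + 1 := ⟨k - 1, by omega⟩
  constructor
  · intro h
    have h2 : Pool.Agent.TH592.Nag.bd ℤ X m c = 0 := h
    rw [bd_eq] at h2
    exact h2
  · intro h
    have h2 : sbd X m c = 0 := h
    change Pool.Agent.TH592.Nag.bd ℤ X m c = 0
    rw [bd_eq, h2]

theorem mem_bou {X : Type} [TopologicalSpace X] {k : ℕ} (c : Ch X k) :
    c ∈ bou ℤ X k ↔ IsBdy k c := by
  constructor
  · rintro ⟨y, hy⟩
    exact ⟨y, by rw [← bd_eq]; exact hy⟩
  · rintro ⟨y, hy⟩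
    exact ⟨y, by rw [bd_eq]; exact hy⟩

section generic

variable {R : Type} [CommRing R]

/-- the chain map of a continuous map -/
abbrev kmapR (R : Type) [CommRing R] {A X : Type} [TopologicalSpace A] [TopologicalSpace X]
    (f : C(A, X)) : KK R A ⟶ KK R X :=
  SSet.chainComplexMap (TopCat.toSSet.map (TopCat.ofHom f)) (ModuleCat.of R R)

theorem kmapR_toC {A X : Type} [TopologicalSpace A] [TopologicalSpace X] (f : C(A, X)) (n : ℕ)
    (c : Pool.Agent.Helper381.Sing A n →₀ R) : ((kmapR R f).f n).hom (toC R A n c) =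
      toC R X n (Finsupp.lmapDomain R R
        (fun σ : Pool.Agent.Helper381.Sing A n => (f.comp σ : Pool.Agent.Helper381.Sing X n)) c) := by
  have h : ((kmapR R f).f n).hom ∘ₗ toC R A n = toC R X n ∘ₗ (Finsupp.lmapDomain R R
        (fun σ : Pool.Agent.Helper381.Sing A n =>
          (f.comp σ : Pool.Agent.Helper381.Sing X n))) := by
    refine Finsupp.lhom_ext' fun σ => LinearMap.ext_ring ?_
    simp only [LinearMap.comp_apply, Finsupp.lsingle_apply]
    rw [Finsupp.lmapDomain_apply, Finsupp.mapDomain_single, toC, toC,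
      Finsupp.linearCombination_single, Finsupp.linearCombination_single, one_smul, one_smul,
      Pool.Agent.TH592.Nag.bas, Pool.Agent.TH592.Nag.bas, ← ModuleCat.comp_apply,
      SSet.ι_chainComplexMap_f]
    rfl
  exact LinearMap.congr_fun h c

/-- the morphism given by an element -/
def eltR {M : ModuleCat.{0} R} (x : M) : ModuleCat.of R R ⟶ M :=
  ModuleCat.ofHom (LinearMap.toSpanSingleton R M x)

theorem eltR_one {M : ModuleCat.{0} R} (x : M) : (eltR x).hom (1 : R) = x :=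
  one_smul _ x

end generic

/-- the chain map of a continuous map -/
abbrev kmap {A X : Type} [TopologicalSpace A] [TopologicalSpace X] (f : C(A, X)) :
    KK ℤ A ⟶ KK ℤ X := kmapR ℤ f

theorem kmap_toC {A X : Type} [TopologicalSpace A] [TopologicalSpace X] (f : C(A, X)) (n : ℕ)
    (c : Ch A n) : ((kmap f).f n).hom (toC ℤ A n c) = toC ℤ X n (psh f n c) :=
  kmapR_toC f n c

/-- the morphism given by an element -/
def elt {M : ModuleCat.{0} ℤ} (x : M) : ModuleCat.of ℤ ℤ ⟶ M := eltR x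

theorem elt_one {M : ModuleCat.{0} ℤ} (x : M) : (elt x).hom (1 : ℤ) = x := eltR_one x

theorem elt_comp {M M' : ModuleCat.{0} ℤ} (x : M) (g : M ⟶ M') :
    elt x ≫ g = elt (g.hom x) := by
  apply ModuleCat.hom_ext
  refine LinearMap.ext_ring ?_
  show g.hom ((elt x).hom (1 : ℤ)) = (elt (g.hom x)).hom (1 : ℤ)
  rw [elt_one, elt_one]

theorem elt_zero {M : ModuleCat.{0} ℤ} : elt (0 : M) = 0 := by
  apply ModuleCat.hom_ext
  refine LinearMap.ext_ring ?_
  rw [elt_one]
  rfl

/-- cycles are elements killed by the differential -/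
theorem exists_cycle (K : ChainComplex (ModuleCat.{0} ℤ) ℕ) (n : ℕ) (x : K.X n)
    (hx : (K.d n ((ComplexShape.down ℕ).next n)).hom x = 0) :
    ∃ z : K.cycles n, (K.iCycles n).hom z = x := by
  have h : elt x ≫ K.d n ((ComplexShape.down ℕ).next n) = 0 := by
    rw [elt_comp, hx, elt_zero]
  refine ⟨(K.liftCycles (elt x) _ rfl h).hom (1 : ℤ), ?_⟩
  rw [← ModuleCat.comp_apply, HomologicalComplex.liftCycles_i]
  exact elt_one x

theorem d_of_cycle (K : ChainComplex (ModuleCat.{0} ℤ) ℕ) (n : ℕ) (z : K.cycles n) :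
    (K.d n ((ComplexShape.down ℕ).next n)).hom ((K.iCycles n).hom z) = 0 := by
  rw [← ModuleCat.comp_apply, HomologicalComplex.iCycles_d]
  rfl

theorem iCycles_inj (K : ChainComplex (ModuleCat.{0} ℤ) ℕ) (n : ℕ) :
    Function.Injective (K.iCycles n).hom :=
  (ModuleCat.mono_iff_injective (K.iCycles n)).1 inferInstance

theorem homologyπ_surj (K : ChainComplex (ModuleCat.{0} ℤ) ℕ) (n : ℕ) :
    Function.Surjective (K.homologyπ n).hom :=
  (ModuleCat.epi_iff_surjective (K.homologyπ n)).1 inferInstance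

theorem π_toCycles (K : ChainComplex (ModuleCat.{0} ℤ) ℕ) (i n : ℕ) (y : K.X i) :
    (K.homologyπ n).hom ((K.toCycles i n).hom y) = 0 := by
  rw [← ModuleCat.comp_apply, HomologicalComplex.toCycles_comp_homologyπ]
  rfl

theorem d_one {X : Type} [TopologicalSpace X] (c : Ch X 1) :
    ((KK ℤ X).d 1 ((ComplexShape.down ℕ).next 1)).hom (toC ℤ X 1 c) = 0 ↔ IsCyc 1 c := by
  rw [← mem_cyc le_rfl]
  exact (Pool.Agent.TH592.Nag.cyc_iff c).symm

end BrAux

open BrAux Pool.Agent.TH592.Nag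

theorem bridge_Z (X : Type) [TopologicalSpace X] (k : ℕ) (hk : 1 ≤ k) (h : HasZ X k) :
    Nonempty (HZ k X ≅ ModuleCat.of ℤ ℤ) := by
  obtain ⟨g, hg, hsp, hinj⟩ := h
  obtain ⟨e⟩ := bridge ℤ X k
  let g' : cyc ℤ X k := ⟨g, (mem_cyc hk g).2 hg⟩
  let φ : ℤ →ₗ[ℤ] Hm ℤ X k :=
    LinearMap.toSpanSingleton ℤ (Hm ℤ X k) (Submodule.Quotient.mk g')
  have hφ : ∀ a : ℤ, φ a = Submodule.Quotient.mk (a • g') := fun a => rfl
  have hb : Function.Bijective φ := by
    constructor
    · rw [← LinearMap.ker_eq_bot, LinearMap.ker_eq_bot']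
      intro a ha
      rw [hφ, Submodule.Quotient.mk_eq_zero] at ha
      exact hinj a ((mem_bou (a • g)).1 ha)
    · intro y
      obtain ⟨z, rfl⟩ := Submodule.Quotient.mk_surjective _ y
      obtain ⟨a, ha⟩ := hsp z.1 ((mem_cyc hk z.1).1 z.2)
      refine ⟨a, ?_⟩
      rw [hφ]
      symm
      rw [Submodule.Quotient.eq]
      exact (mem_bou (z.1 - a • g)).2 ha
  exact ⟨(e.trans (LinearEquiv.ofBijective φ hb).symm).toModuleIso⟩

theorem bridge_acyc (X : Type) [TopologicalSpace X] (k : ℕ) (hk : 1 ≤ k) (h : RAcyc X k) :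
    Limits.IsZero (HZ k X) := by
  obtain ⟨e⟩ := bridge ℤ X k
  have hs : Subsingleton (Hm ℤ X k) := by
    refine ⟨fun a b => ?_⟩
    obtain ⟨x, rfl⟩ := Submodule.Quotient.mk_surjective _ a
    obtain ⟨y, rfl⟩ := Submodule.Quotient.mk_surjective _ b
    rw [Submodule.Quotient.eq]
    exact (mem_bou _).2 (h _ ((mem_cyc hk _).1 (x - y).2))
  have : Subsingleton (HZ k X) := e.toEquiv.subsingleton
  exact ModuleCat.isZero_of_subsingleton _

theorem bridge_onto {X Y : Type} [TopologicalSpace X] [TopologicalSpace Y] (f : C(X, Y)) :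
    Function.Surjective (HZmap 1 f).hom ↔ H1Onto f := by
  have hmap : HZmap 1 f = HomologicalComplex.homologyMap (kmap f) 1 := rfl
  constructor
  · intro hs z hz
    have hs' : Epi (HomologicalComplex.homologyMap (kmap f) 1) := by
      rw [← hmap]
      exact (ModuleCat.epi_iff_surjective _).2 hs
    rw [HomologicalComplex.epi_homologyMap_iff_up_to_refinements (kmap f) 2 1
      ((ComplexShape.down ℕ).next 1) (by simp) rfl] at hs'
    obtain ⟨A, π, hπ, x₂, hx₂, y₁, hy⟩ := hs' (elt (toC ℤ Y 1 z)) (by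
      rw [elt_comp, (d_one z).2 hz, elt_zero])
    have hsu : Function.Surjective π := (ModuleCat.epi_iff_surjective π).1 hπ
    obtain ⟨a, ha⟩ := hsu (1 : ℤ)
    refine ⟨(ofC ℤ X 1).hom (x₂.hom a), ?_, ?_⟩
    · rw [← d_one, toC_ofC, ← ModuleCat.comp_apply, hx₂]
      rfl
    · refine ⟨(ofC ℤ Y 2).hom (y₁.hom a), ?_⟩
      apply toC_injective (R := ℤ)
      rw [← bd_eq, ← d_toC, toC_ofC, map_sub, ← kmap_toC, toC_ofC]
      have h2 : (π ≫ elt (toC ℤ Y 1 z)).hom a =
          (x₂ ≫ (kmap f).f 1 + y₁ ≫ (KK ℤ Y).d 2 1).hom a := by rw [hy]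
      have h3 : (π ≫ elt (toC ℤ Y 1 z)).hom a = toC ℤ Y 1 z := by
        show (elt (toC ℤ Y 1 z)).hom (π.hom a) = toC ℤ Y 1 z
        have ha' : π.hom a = (1 : ℤ) := ha
        rw [ha', elt_one]
      have h4 : (x₂ ≫ (kmap f).f 1 + y₁ ≫ (KK ℤ Y).d 2 1).hom a =
          ((kmap f).f 1).hom (x₂.hom a) + ((KK ℤ Y).d 2 1).hom (y₁.hom a) := rfl
      rw [h3, h4] at h2
      rw [h2]
      exact (add_sub_cancel_left _ _).symm
  · intro h hom0
    obtain ⟨z, rfl⟩ := homologyπ_surj (KK ℤ Y) 1 hom0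
    obtain ⟨w, hw, b, hb⟩ := h ((ofC ℤ Y 1).hom (((KK ℤ Y).iCycles 1).hom z)) (by
      rw [← d_one, toC_ofC]
      exact d_of_cycle _ _ z)
    obtain ⟨zw, hzw⟩ := exists_cycle (KK ℤ X) 1 (toC ℤ X 1 w) ((d_one w).2 hw)
    refine ⟨((KK ℤ X).homologyπ 1).hom zw, ?_⟩
    have h1 : (HomologicalComplex.homologyMap (kmap f) 1).hom (((KK ℤ X).homologyπ 1).hom zw) =
        ((KK ℤ Y).homologyπ 1).hom ((HomologicalComplex.cyclesMap (kmap f) 1).hom zw) := by
      rw [← ModuleCat.comp_apply, ← ModuleCat.comp_apply,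
        HomologicalComplex.homologyπ_naturality]
    have h2 : z = (HomologicalComplex.cyclesMap (kmap f) 1).hom zw +
        ((KK ℤ Y).toCycles 2 1).hom (toC ℤ Y 2 b) := by
      apply iCycles_inj (KK ℤ Y) 1
      rw [map_add, ← ModuleCat.comp_apply, ← ModuleCat.comp_apply,
        HomologicalComplex.cyclesMap_i, HomologicalComplex.toCycles_i, ModuleCat.comp_apply,
        hzw, kmap_toC, d_toC, bd_eq, hb, map_sub, toC_ofC]
      exact (add_sub_cancel _ _).symm
    change (HomologicalComplex.homologyMap (kmap f) 1).hom (((KK ℤ X).homologyπ 1).hom zw) = _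
    rw [h1]
    have h5 : ((KK ℤ Y).homologyπ 1).hom z = ((KK ℤ Y).homologyπ 1).hom
        ((HomologicalComplex.cyclesMap (kmap f) 1).hom zw) := by
      rw [h2, map_add, π_toCycles, add_zero]
    exact h5.symm

end

end Pool.Agent.TH650.Emb
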