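import Pool.Agent.TH650.Emb.Ann

/-! Homology of `Circle × S3`. -/

set_option autoImplicit false

open Set

namespace Pool.Agent.TH650.MT

open Pool.Agent.Helper922.HB Pool.Agent.TH650.Emb
open Pool.Agent.H904R2 (Pc)

noncomputable section

/-- the vector of `Pc 4` -/
def ev4 (v : Pc 4) : EuclideanSpace ℝ (Fin 4) := WithLp.toLp 2 v.1

theorem ev4_ne (v : Pc 4) : ev4 v ≠ 0 := by
  intro h
  apply v.2
  have : (ev4 v).ofLp = 0 := by rw [h]; rfl
  exact this

theorem cont_ev4 : Continuous ev4 :=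
  (PiLp.continuous_toLp 2 _).comp continuous_subtype_val

/-- radial projection -/
def gS : C(Pc 4, S3) :=
  ⟨fun v => ⟨(1 / ‖ev4 v‖) • ev4 v, by
    have h := norm_pos_iff.2 (ev4_ne v)
    rw [mem_sphere_zero_iff_norm, norm_smul, Real.norm_of_nonneg (by positivity)]
    field_simp⟩, by
    have h : Continuous fun v : Pc 4 => 1 / ‖ev4 v‖ :=
      continuous_const.div cont_ev4.norm fun v => norm_ne_zero_iff.2 (ev4_ne v)
    exact (h.smul cont_ev4).subtype_mk _⟩

theorem s3_ne (x : S3) : (x.1).ofLp ≠ 0 := by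
  intro h
  have h1 : x.1 = 0 := by
    rw [← WithLp.toLp_ofLp 2 x.1, h]
    rfl
  have h2 := x.2
  rw [h1] at h2
  simp at h2

/-- inclusion -/
def fS : C(S3, Pc 4) := ⟨fun x => ⟨(x.1).ofLp, s3_ne x⟩,
  ((PiLp.continuous_ofLp 2 _).comp continuous_subtype_val).subtype_mk _⟩

theorem gS_HE : HE gS := by
  have hu : Continuous fun q : (Pc 4) × unitInterval => ((q.2 : unitInterval) : ℝ) :=
    continuous_subtype_val.comp continuous_snd
  have hpos : ∀ q : (Pc 4) × unitInterval, 0 < (1 - (q.2 : ℝ)) + q.2 * (1 / ‖ev4 q.1‖) := by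
    intro q
    have h3 := norm_pos_iff.2 (ev4_ne q.1)
    have h4 : 0 < 1 / ‖ev4 q.1‖ := by positivity
    have h5 := q.2.2.1
    have h6 := q.2.2.2
    rcases eq_or_lt_of_le h6 with h7 | h7
    · rw [h7]; linarith
    · nlinarith
  have hc : Continuous fun q : (Pc 4) × unitInterval =>
      (⟨((1 - (q.2 : ℝ)) + q.2 * (1 / ‖ev4 q.1‖)) • q.1.1,
        smul_ne_zero (hpos q).ne' q.1.2⟩ : Pc 4) := by
    refine Continuous.subtype_mk (Continuous.smul ((continuous_const.sub hu).add (hu.mul ?_))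
      (by fun_prop)) _
    exact continuous_const.div (cont_ev4.comp continuous_fst).norm
      fun q => norm_ne_zero_iff.2 (ev4_ne q.1)
  refine HE_of_homotopyEquiv gS fS ⟨_, hc⟩ ⟨Prod.fst, continuous_fst⟩ ?_ ?_ (fun _ => rfl) ?_
  · intro v
    apply Subtype.ext
    show ((1 - ((0 : unitInterval) : ℝ)) + ((0 : unitInterval) : ℝ) * (1 / ‖ev4 v‖)) • v.1 = v.1
    simp
  · intro v
    apply Subtype.ext
    show ((1 - ((1 : unitInterval) : ℝ)) + ((1 : unitInterval) : ℝ) * (1 / ‖ev4 v‖)) • v.1 =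
      ((1 / ‖ev4 v‖) • ev4 v).ofLp
    rw [Set.Icc.coe_one, sub_self, zero_add, one_mul]
    rfl
  · intro x
    apply Subtype.ext
    show x.1 = (1 / ‖ev4 (fS x)‖) • ev4 (fS x)
    have e : ev4 (fS x) = x.1 := rfl
    have h : ‖x.1‖ = 1 := mem_sphere_zero_iff_norm.1 x.2
    rw [e, h]
    simp

theorem acyS (m : ℕ) (h : m + 1 ≠ 3) : Acy S3 (m + 1) :=
  Acy.of_HE gS_HE (Pool.Agent.H904R2.pc_acyc 3 (m + 1) h)

theorem hzP4 : HZt (Pc 4) 3 (Pool.Agent.H904R2.fund 3) := by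
  refine ⟨Pool.Agent.H904R2.fund_cyc 3, ?_, ?_⟩
  · intro z hz
    obtain ⟨a, ha⟩ := Pool.Agent.H904R2.pc_gen 3 z hz
    exact ⟨a, ha⟩
  · intro a ha
    obtain ⟨ω, h1, h2⟩ := Pool.Agent.H904R2.pc_coc 3
    obtain ⟨y, hy⟩ := ho_zero.1 ha
    have h3 := Pool.Agent.H904R2.Sph.evm_sbd h1 y
    have h4 : Pool.Agent.Helper922.HB.Sc.sbd (Pc 4) 3 y = a • Pool.Agent.H904R2.fund 3 := hy
    rw [h4, map_smul, h2] at h3
    simpa using h3

theorem hzS3 : HZt S3 3 (push gS 3 (Pool.Agent.H904R2.fund 3)) := hzP4.of_HE gS_HE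

instance pathConnected_S3 : PathConnectedSpace S3 := by
  have h : IsPathConnected (Metric.sphere (0 : EuclideanSpace ℝ (Fin 4)) 1) := by
    apply isPathConnected_sphere _ 0 zero_le_one
    rw [← Module.finrank_eq_rank]
    simp
  exact isPathConnected_iff_pathConnectedSpace.1 h

end

end Pool.Agent.TH650.MT

namespace Pool.Agent.TH650.Emb

open Pool.Agent.H904R2 (Ch IsCyc IsBdy RAcyc psh Pc)
open Pool.Agent.TH650.MT Pool.Agent.Helper922.HB

noncomputable section

theorem hom_S1S3 : HasZ (Circle × S3) 1 ∧ RAcyc (Circle × S3) 2 ∧ HasZ (Circle × S3) 3 ∧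
    HasZ (Circle × S3) 4 ∧ ∀ k, 5 ≤ k → RAcyc (Circle × S3) k := by
  obtain ⟨x0⟩ := (inferInstance : Nonempty S3)
  obtain ⟨z0, hz, hc⟩ := circ_make (V := S3) (n := 0)
    (t0 := Finsupp.single (ContinuousMap.const _ x0) 1) Submodule.mem_top
  have h1 := circ_top (acyS 0 (by norm_num)) (pc_HZt _) hz hc
  have h3 := circ_slice hzS3 (acyS 1 (by norm_num))
  have h4 := top_HZt (acyS 3 (by norm_num)) hzS3
  refine ⟨h1.hasZ, acy_iff.1 (circ_acy (acyS 1 (by norm_num)) (acyS 0 (by norm_num))), h3.hasZ,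
    h4.hasZ, ?_⟩
  intro k hk
  obtain ⟨m, rfl⟩ := Nat.exists_eq_add_of_le' hk
  exact acy_iff.1 (circ_acy (n := m + 4) (acyS (m + 4) (by omega)) (acyS (m + 3) (by omega)))

instance pathConnected_S1S3 : PathConnectedSpace (Circle × S3) := by
  have := pathConnected_circle
  infer_instance

/-- `fst : Circle × S3 → Circle` is onto on `H_1` -/
theorem onto_fst : H1Onto (ContinuousMap.fst : C(Circle × S3, Circle)) := by
  intro z hz
  obtain ⟨x0⟩ := (inferInstance : Nonempty S3)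
  let s : C(Circle, Circle × S3) := ⟨fun c => (c, x0), by fun_prop⟩
  refine ⟨push s 1 z, push_mem_Cyc s 1 z hz, ?_⟩
  have e : psh (ContinuousMap.fst : C(Circle × S3, Circle)) 1 (push s 1 z) = z := by
    have h1 := push_push s (ContinuousMap.fst : C(Circle × S3, Circle)) 1 z
    have h2 : (ContinuousMap.fst : C(Circle × S3, Circle)).comp s = ContinuousMap.id Circle := rfl
    rw [h2, push_id] at h1
    exact h1
  rw [e, sub_self]
  exact (Bdy Circle 1).zero_mem

theorem onto_comp {X Y Z : Type} [TopologicalSpace X] [TopologicalSpace Y] [TopologicalSpace Z]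
    {f : C(X, Y)} {g : C(Y, Z)} (hg : H1Onto g) (hf : H1Onto f) : H1Onto (g.comp f) := by
  intro z hz
  obtain ⟨y, hy, h1⟩ := hg z hz
  obtain ⟨x, hx, h2⟩ := hf y hy
  refine ⟨x, hx, ?_⟩
  have h1' : Ho z (push g 1 y) := h1
  have h2' : Ho y (push f 1 x) := h2
  have h3 := h1'.trans (h2'.push g)
  rw [push_push] at h3
  exact h3

end

end Pool.Agent.TH650.Emb
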