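import Mathlib

/-! Logarithms of circle valued functions. -/

set_option autoImplicit false

open Set Topology
open scoped unitInterval

namespace Pool.Agent.TH650.Log

noncomputable section

/-- a circle valued function which is homotopic to a constant has a logarithm -/
theorem exists_log {A : Type*} [TopologicalSpace A] (f : A → Circle) (H : C(I × A, Circle))
    (c : Circle) (h0 : ∀ a, H (0, a) = c) (h1 : ∀ a, H (1, a) = f a) :
    ∃ θ : C(A, ℝ), ∀ a, Circle.exp (θ a) = f a := by
  have cov := Circle.isCoveringMap_exp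
  have h0' : ∀ a, H (0, a) = Circle.exp ((ContinuousMap.const A (Complex.arg c)) a) := by
    intro a
    rw [h0, ContinuousMap.const_apply, Circle.exp_arg]
  let L := cov.liftHomotopy H (ContinuousMap.const A (Complex.arg c)) h0'
  have hL := cov.liftHomotopy_lifts H (ContinuousMap.const A (Complex.arg c)) h0'
  refine ⟨L.comp ⟨fun a => (1, a), by fun_prop⟩, fun a => ?_⟩
  have := congrFun hL (1, a)
  rw [← h1 a]
  exact this

/-- circle valued functions on real vector spaces have logarithms -/
theorem exists_log_vec {E : Type*} [AddCommGroup E] [Module ℝ E] [TopologicalSpace E]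
    [ContinuousSMul ℝ E] (f : E → Circle) (hf : Continuous f) :
    ∃ θ : C(E, ℝ), ∀ a, Circle.exp (θ a) = f a := by
  refine exists_log f ⟨fun p => f ((p.1 : ℝ) • p.2), ?_⟩ (f 0) ?_ ?_
  · exact hf.comp ((continuous_subtype_val.comp continuous_fst).smul continuous_snd)
  · intro a
    show f (((0 : I) : ℝ) • a) = f 0
    rw [Set.Icc.coe_zero, zero_smul]
  · intro a
    show f (((1 : I) : ℝ) • a) = f a
    rw [Set.Icc.coe_one, one_smul]

/-- a continuous function with values in `2π ℤ` is constant -/
theorem const_int {A : Type*} [TopologicalSpace A] [PreconnectedSpace A] (δ : A → ℝ)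
    (hδ : Continuous δ) (h : ∀ a, Circle.exp (δ a) = 1) (a0 : A) :
    ∃ X : ℤ, ∀ a, δ a = X * (2 * Real.pi) := by
  have h' : ∀ a, ∃ m : ℤ, δ a = m * (2 * Real.pi) := by
    intro a
    have := h a
    rw [← Circle.exp_zero, Circle.exp_eq_exp] at this
    obtain ⟨m, hm⟩ := this
    exact ⟨m, by rw [hm, zero_add]⟩
  choose m hm using h'
  have hpi : (2 * Real.pi) ≠ 0 := by positivity
  have hc : Continuous m := by
    rw [Int.isClosedEmbedding_coe_real.isEmbedding.continuous_iff]
    have : ((fun n : ℤ => (n : ℝ)) ∘ m) = fun a => δ a / (2 * Real.pi) := by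
      funext a
      rw [Function.comp_apply, hm a, mul_div_cancel_right₀ _ hpi]
    rw [this]
    exact hδ.div_const _
  refine ⟨m a0, fun a => ?_⟩
  rw [hm a, PreconnectedSpace.constant (f := m) inferInstance hc (x := a) (y := a0)]

theorem exp_open : IsOpenQuotientMap (Circle.exp : ℝ → Circle) :=
  ⟨fun s => ⟨Complex.arg s, Circle.exp_arg s⟩, Circle.exp.continuous,
    isLocalHomeomorph_circleExp.isOpenMap⟩

theorem exp_arg_exp (t : ℝ) : ∃ m : ℤ, Complex.arg (Circle.exp t : ℂ) = t + m * (2 * Real.pi) := by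
  have : Circle.exp (Complex.arg (Circle.exp t : ℂ)) = Circle.exp t := Circle.exp_arg _
  exact Circle.exp_eq_exp.1 this

/-- descend a periodic function -/
theorem descend {P Y : Type*} [TopologicalSpace P] [TopologicalSpace Y] (φ : ℝ × P → Y)
    (hφ : Continuous φ) (h : ∀ t p, φ (t + 2 * Real.pi, p) = φ (t, p)) :
    ∃ ψ : Circle × P → Y, Continuous ψ ∧ ∀ t p, ψ (Circle.exp t, p) = φ (t, p) := by
  have hz : ∀ (m : ℤ) t p, φ (t + m * (2 * Real.pi), p) = φ (t, p) := by
    intro m t p
    induction m using Int.induction_on with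
    | zero => simp
    | succ k ih =>
      have := h (t + k * (2 * Real.pi)) p
      push_cast at ih ⊢
      rw [← ih, ← this]
      congr 2
      ring
    | pred k ih =>
      have := h (t + (-k - 1) * (2 * Real.pi)) p
      push_cast at ih ⊢
      rw [← ih, ← this]
      congr 2
      ring
  refine ⟨fun q => φ (Complex.arg (q.1 : ℂ), q.2), ?_, ?_⟩
  · have hq : IsOpenQuotientMap (Prod.map (Circle.exp : ℝ → Circle) (id : P → P)) :=
      exp_open.prodMap .id
    rw [hq.isQuotientMap.continuous_iff]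
    have : (fun q : Circle × P => φ (Complex.arg (q.1 : ℂ), q.2)) ∘
        Prod.map (Circle.exp : ℝ → Circle) (id : P → P) = φ := by
      funext ⟨t, p⟩
      obtain ⟨m, hm⟩ := exp_arg_exp t
      show φ (Complex.arg (Circle.exp t : ℂ), p) = φ (t, p)
      rw [hm, hz]
    rw [this]
    exact hφ
  · intro t p
    obtain ⟨m, hm⟩ := exp_arg_exp t
    show φ (Complex.arg (Circle.exp t : ℂ), p) = φ (t, p)
    rw [hm, hz]

theorem exp_zmul (X : ℤ) (t : ℝ) : Circle.exp (X * t) = Circle.exp t ^ X := by
  rw [← zsmul_eq_mul]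
  exact Circle.exp_zsmul t X

/-- the classification step -/
theorem class_step {P : Type*} [TopologicalSpace P] [PreconnectedSpace P] [Nonempty P]
    (h : Circle × P → Circle) (θ : ℝ × P → ℝ) (hθ : Continuous θ)
    (e : ∀ t p, h (Circle.exp t, p) = Circle.exp (θ (t, p))) :
    ∃ (X : ℤ) (φ : Circle × P → ℝ), Continuous φ ∧ ∀ s p, h (s, p) = s ^ X * Circle.exp (φ (s, p)) := by
  obtain ⟨p0⟩ := (inferInstance : Nonempty P)
  obtain ⟨X, hX⟩ := const_int (fun q : ℝ × P => θ (q.1 + 2 * Real.pi, q.2) - θ q) (by fun_prop)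
    (by
      rintro ⟨t, p⟩
      rw [Circle.exp_sub, div_eq_one]
      rw [← e, ← e, Circle.exp_add, Circle.exp_two_pi, mul_one]) (0, p0)
  obtain ⟨φ, h1, h2⟩ := descend (fun q : ℝ × P => θ q - X * q.1) (by fun_prop) (by
    intro t p
    have := hX (t, p)
    simp only at this ⊢
    linarith)
  refine ⟨X, φ, h1, ?_⟩
  intro s p
  obtain ⟨t, rfl⟩ : ∃ t : ℝ, Circle.exp t = s := ⟨Complex.arg s, Circle.exp_arg s⟩
  rw [e, h2, ← exp_zmul, ← Circle.exp_add]
  congr 1
  ring

/-- classification of maps from `Circle × vector space` to the circle -/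
theorem solid_class {E : Type*} [AddCommGroup E] [Module ℝ E] [TopologicalSpace E]
    [ContinuousSMul ℝ E] [IsTopologicalAddGroup E] (h : Circle × E → Circle) (hh : Continuous h) :
    ∃ (X : ℤ) (φ : Circle × E → ℝ), Continuous φ ∧ ∀ s p, h (s, p) = s ^ X * Circle.exp (φ (s, p)) := by
  obtain ⟨θ, hθ⟩ := exists_log_vec (fun q : ℝ × E => h (Circle.exp q.1, q.2)) (by fun_prop)
  have : PreconnectedSpace E := inferInstance
  exact class_step h θ θ.continuous fun t p => (hθ (t, p)).symm

/-- classification of maps from the torus to the circle -/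
theorem torus_class (h : Circle × Circle → Circle) (hh : Continuous h) :
    ∃ (X Z : ℤ) (φ : Circle × Circle → ℝ), Continuous φ ∧
      ∀ s w, h (s, w) = s ^ X * w ^ Z * Circle.exp (φ (s, w)) := by
  obtain ⟨X, φ1, h1, h2⟩ := solid_class (fun q : Circle × ℝ => h (q.1, Circle.exp q.2))
    (by fun_prop)
  obtain ⟨Z, φ2, h3, h4⟩ := class_step (P := Circle) (fun q => h (q.2, q.1) * (q.2 ^ X)⁻¹)
    (fun q => φ1 (q.2, q.1)) (by fun_prop) (by
      intro t p
      have := h2 p t
      simp only at this ⊢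
      rw [this]
      rw [mul_comm (p ^ X), mul_inv_cancel_right])
  refine ⟨X, Z, fun q => φ2 (q.2, q.1), by fun_prop, ?_⟩
  intro s w
  have := h4 w s
  simp only at this
  rw [mul_inv_eq_iff_eq_mul] at this
  rw [this]
  simp only
  rw [mul_assoc, mul_assoc, mul_comm (s ^ X), mul_assoc]

theorem torus_unique (X Z : ℤ) (φ : Circle × Circle → ℝ) (hφ : Continuous φ)
    (h : ∀ s w, s ^ X * w ^ Z * Circle.exp (φ (s, w)) = 1) : X = 0 ∧ Z = 0 := by
  obtain ⟨m, hm⟩ := const_int (fun q : ℝ × ℝ => X * q.1 + Z * q.2 + φ (Circle.exp q.1, Circle.exp q.2))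
    (by fun_prop) (by
      rintro ⟨t, u⟩
      simp only
      rw [Circle.exp_add, Circle.exp_add, exp_zmul, exp_zmul]
      exact h _ _) (0, 0)
  have e0 := hm (0, 0)
  have e1 := hm (2 * Real.pi, 0)
  have e2 := hm (0, 2 * Real.pi)
  simp only [Circle.exp_two_pi, Circle.exp_zero, mul_zero, add_zero, zero_add] at e0 e1 e2
  have hpi : (2 * Real.pi) ≠ 0 := by positivity
  constructor
  · have : (X : ℝ) * (2 * Real.pi) = 0 := by linarith
    rcases mul_eq_zero.1 this with h | h
    · exact_mod_cast h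
    · exact absurd h hpi
  · have : (Z : ℝ) * (2 * Real.pi) = 0 := by linarith
    rcases mul_eq_zero.1 this with h | h
    · exact_mod_cast h
    · exact absurd h hpi

end

end Pool.Agent.TH650.Log
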