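import Pool.Agent.TH650.Emb.CDefs
import Pool.Agent.TH650.Emb.Log

/-! Winding numbers of singular 1-chains of the circle. -/

set_option autoImplicit false

open scoped Topology
open Set

namespace Pool.Agent.TH650.Emb

open Pool.Agent.H904R2 (Ch IsCyc IsBdy RAcyc psh)
open Pool.Agent.H904R2.Sph (psh_single sbd_single sbd_psh)
open Pool.Agent.Helper922.HB.Sc (Sing sface sbd)
open Pool.Agent.TH650.Log

noncomputable section

/-- segments in the simplex -/
theorem seg_mem {n : ℕ} (t : unitInterval) (x y : stdSimplex ℝ (Fin (n + 1))) :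
    (1 - (t : ℝ)) • (x : Fin (n + 1) → ℝ) + (t : ℝ) • (y : Fin (n + 1) → ℝ) ∈
      stdSimplex ℝ (Fin (n + 1)) :=
  convex_stdSimplex ℝ (Fin (n + 1)) x.2 y.2 (by linarith [t.2.2]) t.2.1 (by ring)

theorem exists_lift_simplex {m : ℕ} (σ : Sing Circle m) :
    ∃ θ : C(stdSimplex ℝ (Fin (m + 1)), ℝ), ∀ x, Circle.exp (θ x) = σ x := by
  let v : stdSimplex ℝ (Fin (m + 1)) := stdSimplex.vertex 0
  have hc : Continuous fun p : unitInterval × stdSimplex ℝ (Fin (m + 1)) =>
      (⟨_, seg_mem p.1 v p.2⟩ : stdSimplex ℝ (Fin (m + 1))) := by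
    apply Continuous.subtype_mk
    fun_prop
  refine exists_log σ ⟨fun p => σ ⟨_, seg_mem p.1 v p.2⟩, σ.continuous.comp hc⟩ (σ v) ?_ ?_
  · intro a
    show σ ⟨_, seg_mem 0 v a⟩ = σ v
    congr 1
    apply Subtype.ext
    show (1 - ((0 : unitInterval) : ℝ)) • (v : Fin (m + 1) → ℝ) + ((0 : unitInterval) : ℝ) • (a : Fin (m + 1) → ℝ) = v
    simp
  · intro a
    show σ ⟨_, seg_mem 1 v a⟩ = σ a
    congr 1
    apply Subtype.ext
    show (1 - ((1 : unitInterval) : ℝ)) • (v : Fin (m + 1) → ℝ) + ((1 : unitInterval) : ℝ) • (a : Fin (m + 1) → ℝ) = a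
    simp

/-- two lifts differ by a constant -/
theorem lift_diff {m : ℕ} (θ θ' : C(stdSimplex ℝ (Fin (m + 1)), ℝ))
    (h : ∀ x, Circle.exp (θ x) = Circle.exp (θ' x)) :
    ∃ X : ℤ, ∀ x, θ x - θ' x = X * (2 * Real.pi) :=
  const_int (fun x => θ x - θ' x) (by fun_prop)
    (fun x => by rw [Circle.exp_sub, h, div_self']) (stdSimplex.vertex 0)

/-- the winding of a singular 1-simplex -/
def wnS (σ : Sing Circle 1) : ℝ :=
  ((exists_lift_simplex σ).choose (stdSimplex.vertex 1) -
    (exists_lift_simplex σ).choose (stdSimplex.vertex 0)) / (2 * Real.pi)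

theorem wnS_eq (σ : Sing Circle 1) (θ : C(stdSimplex ℝ (Fin 2), ℝ))
    (h : ∀ x, Circle.exp (θ x) = σ x) :
    wnS σ = (θ (stdSimplex.vertex 1) - θ (stdSimplex.vertex 0)) / (2 * Real.pi) := by
  obtain ⟨X, hX⟩ := lift_diff (exists_lift_simplex σ).choose θ
    (fun x => by rw [(exists_lift_simplex σ).choose_spec, h])
  have h1 := hX (stdSimplex.vertex 1)
  have h0 := hX (stdSimplex.vertex 0)
  unfold wnS
  congr 1
  linarith

/-- the winding functional -/
def wn : Ch Circle 1 →ₗ[ℤ] ℝ := Finsupp.linearCombination ℤ wnS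

theorem wn_single (σ : Sing Circle 1) (a : ℤ) : wn (Finsupp.single σ a) = a * wnS σ := by
  rw [wn, Finsupp.linearCombination_single, zsmul_eq_mul]

theorem sface_vertex {X : Type} [TopologicalSpace X] (n : ℕ) (i : Fin (n + 2)) (σ : Sing X (n + 1))
    (j : Fin (n + 1)) : sface n i σ (stdSimplex.vertex j) = σ (stdSimplex.vertex (i.succAbove j)) := by
  show σ (stdSimplex.map i.succAbove (stdSimplex.vertex j)) = _
  rw [stdSimplex.map_vertex]

theorem wn_sbd (y : Ch Circle 2) : wn (sbd Circle 1 y) = 0 := by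
  have : wn.comp (sbd Circle 1) = 0 := by
    apply Finsupp.lhom_ext'
    intro τ
    apply LinearMap.ext_ring
    show wn (sbd Circle 1 (Finsupp.single τ 1)) = 0
    obtain ⟨θ, hθ⟩ := exists_lift_simplex τ
    rw [sbd_single, Fin.sum_univ_three, map_add, map_add, map_smul, map_smul, map_smul,
      wn_single, wn_single, wn_single]
    have e : ∀ i : Fin 3, wnS (sface 1 i τ) = (θ (stdSimplex.vertex (i.succAbove 1)) -
        θ (stdSimplex.vertex (i.succAbove 0))) / (2 * Real.pi) := by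
      intro i
      rw [wnS_eq (sface 1 i τ) (θ.comp ⟨stdSimplex.map i.succAbove, stdSimplex.continuous_map _⟩)
        (fun x => hθ _)]
      simp only [ContinuousMap.comp_apply, ContinuousMap.coe_mk, stdSimplex.map_vertex]
    rw [e 0, e 1, e 2]
    have a0 : (0 : Fin 3).succAbove (0 : Fin 2) = 1 := rfl
    have a1 : (0 : Fin 3).succAbove (1 : Fin 2) = 2 := rfl
    have b0 : (1 : Fin 3).succAbove (0 : Fin 2) = 0 := rfl
    have b1 : (1 : Fin 3).succAbove (1 : Fin 2) = 2 := rfl
    have c0 : (2 : Fin 3).succAbove (0 : Fin 2) = 0 := rfl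
    have c1 : (2 : Fin 3).succAbove (1 : Fin 2) = 1 := rfl
    rw [a0, a1, b0, b1, c0, c1]
    simp only [Fin.val_zero, Fin.val_one, Fin.val_two, pow_zero, pow_one, one_smul, neg_smul,
      Int.cast_one, one_mul]
    norm_num
    ring
  exact LinearMap.congr_fun this y

theorem wn_bdy {z : Ch Circle 1} (h : IsBdy 1 z) : wn z = 0 := by
  obtain ⟨y, rfl⟩ := h
  exact wn_sbd y

/-- evaluation of a function on 0-chains -/
def ev0 {X : Type} [TopologicalSpace X] (g : X → ℝ) : Ch X 0 →ₗ[ℤ] ℝ :=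
  Finsupp.linearCombination ℤ fun σ => g (σ (stdSimplex.vertex 0))

theorem ev0_sbd {X : Type} [TopologicalSpace X] (g : X → ℝ) (σ : Sing X 1) :
    ev0 g (sbd X 0 (Finsupp.single σ 1)) =
      g (σ (stdSimplex.vertex 1)) - g (σ (stdSimplex.vertex 0)) := by
  rw [sbd_single, Fin.sum_univ_two, map_add, map_smul, map_smul]
  unfold ev0
  rw [Finsupp.linearCombination_single, Finsupp.linearCombination_single, sface_vertex,
    sface_vertex]
  have a0 : (0 : Fin 2).succAbove (0 : Fin 1) = 1 := rfl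
  have a1 : (1 : Fin 2).succAbove (0 : Fin 1) = 0 := rfl
  rw [a0, a1]
  simp
  ring

theorem wn_exp {X : Type} [TopologicalSpace X] (g : C(X, ℝ)) (u : C(X, Circle))
    (hu : ∀ x, Circle.exp (g x) = u x) (w : Ch X 1) :
    wn (psh u 1 w) = ev0 g (sbd X 0 w) / (2 * Real.pi) := by
  have hpi : (2 * Real.pi) ≠ 0 := by positivity
  induction w using Finsupp.induction_linear with
  | zero => simp
  | add a b ha hb => rw [map_add, map_add, ha, hb, map_add, map_add, add_div]
  | single σ n =>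
    have e1 : (Finsupp.single σ n : Ch X 1) = n • Finsupp.single σ 1 := by simp
    rw [e1, map_smul, map_smul, map_smul, map_smul, psh_single, wn_single, ev0_sbd,
      wnS_eq (u.comp σ) (g.comp σ) (fun x => hu _)]
    simp only [ContinuousMap.comp_apply, zsmul_eq_mul, Int.cast_one, one_mul]
    ring

theorem wn_exp_cyc {X : Type} [TopologicalSpace X] (g : C(X, ℝ)) (u : C(X, Circle))
    (hu : ∀ x, Circle.exp (g x) = u x) {w : Ch X 1} (hw : IsCyc 1 w) : wn (psh u 1 w) = 0 := by
  rw [wn_exp g u hu]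
  have : sbd X 0 w = 0 := hw
  rw [this, map_zero, zero_div]

/-- the power map -/
def cpw (k : ℤ) : C(Circle, Circle) := ⟨fun s => s ^ k, by fun_prop⟩

theorem wn_pow (k : ℤ) (z : Ch Circle 1) : wn (psh (cpw k) 1 z) = k * wn z := by
  induction z using Finsupp.induction_linear with
  | zero => simp
  | add a b ha hb => rw [map_add, map_add, ha, hb, map_add, mul_add]
  | single σ n =>
    obtain ⟨θ, hθ⟩ := exists_lift_simplex σ
    rw [psh_single, wn_single, wn_single, wnS_eq σ θ hθ,
      wnS_eq ((cpw k).comp σ) ((ContinuousMap.const _ (k : ℝ)) * θ) (fun x => by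
        show Circle.exp (k * θ x) = σ x ^ k
        rw [exp_zmul, hθ])]
    simp only [ContinuousMap.mul_apply, ContinuousMap.const_apply]
    ring

theorem wn_int' (z : Ch Circle 1) :
    ∃ n : ℤ, wn z = ev0 (fun s : Circle => Complex.arg (s : ℂ)) (sbd Circle 0 z) / (2 * Real.pi) + n := by
  have hpi : (2 * Real.pi) ≠ 0 := by positivity
  induction z using Finsupp.induction_linear with
  | zero => exact ⟨0, by simp⟩
  | add a b ha hb =>
    obtain ⟨n, hn⟩ := ha
    obtain ⟨m, hm⟩ := hb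
    refine ⟨n + m, ?_⟩
    rw [map_add, map_add, map_add, hn, hm]
    push_cast
    ring
  | single σ n =>
    obtain ⟨θ, hθ⟩ := exists_lift_simplex σ
    have key : ∀ x, ∃ m : ℤ, θ x = Complex.arg (σ x : ℂ) + m * (2 * Real.pi) := by
      intro x
      have h1 : Circle.exp (θ x) = Circle.exp (Complex.arg (σ x : ℂ)) := by
        rw [hθ, Circle.exp_arg]
      exact Circle.exp_eq_exp.1 h1
    obtain ⟨m1, h1⟩ := key (stdSimplex.vertex 1)
    obtain ⟨m0, h0⟩ := key (stdSimplex.vertex 0)
    refine ⟨n * (m1 - m0), ?_⟩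
    have e1 : (Finsupp.single σ n : Ch Circle 1) = n • Finsupp.single σ 1 := by simp
    rw [e1, map_smul, map_smul, map_smul, wn_single, ev0_sbd, wnS_eq σ θ hθ, h1, h0]
    simp only [zsmul_eq_mul]
    push_cast
    field_simp
    ring

theorem wn_int {z : Ch Circle 1} (hz : IsCyc 1 z) : ∃ n : ℤ, wn z = n := by
  obtain ⟨n, hn⟩ := wn_int' z
  have : sbd Circle 0 z = 0 := hz
  rw [this, map_zero, zero_div, zero_add] at hn
  exact ⟨n, hn⟩

/-- the lift of the standard loop -/
def lpT : C(stdSimplex ℝ (Fin 2), ℝ) := ⟨fun x => 2 * Real.pi * x.1 1,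
  continuous_const.mul ((continuous_apply (1 : Fin 2)).comp continuous_subtype_val)⟩

/-- the standard loop -/
def lpS : Sing Circle 1 := ⟨fun x => Circle.exp (lpT x), Circle.exp.continuous.comp lpT.continuous⟩

theorem wnS_lp : wnS lpS = 1 := by
  rw [wnS_eq lpS lpT (fun x => rfl)]
  simp only [lpT, ContinuousMap.coe_mk, stdSimplex.vertex]
  have hpi : (2 * Real.pi) ≠ 0 := by positivity
  simp [Real.pi_ne_zero]

theorem lp_face (i : Fin 2) : sface 0 i lpS = ContinuousMap.const _ 1 := by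
  apply ContinuousMap.ext
  intro x
  have hx : x = stdSimplex.vertex 0 := Subsingleton.elim _ _
  rw [hx, sface_vertex]
  show Circle.exp (2 * Real.pi * (stdSimplex.vertex (i.succAbove 0) : stdSimplex ℝ (Fin 2)).1 1) = 1
  fin_cases i
  · simp [stdSimplex.vertex]
  · simp [stdSimplex.vertex]

/-- the loop as a chain -/
def lp : Ch Circle 1 := Finsupp.single lpS 1

theorem lp_cyc : IsCyc 1 lp := by
  show sbd Circle 0 (Finsupp.single lpS 1) = 0
  rw [sbd_single, Fin.sum_univ_two, lp_face, lp_face]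
  simp

theorem wn_lp : wn lp = 1 := by
  rw [lp, wn_single, wnS_lp]
  simp

end

end Pool.Agent.TH650.Emb
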