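import Pool.Agent.TH650.Emb.TP1
import Pool.Agent.TH650.Emb.Wn

/-! From a map `Y3 → Circle` to functions on the fundamental domain. -/

set_option autoImplicit false

open Set

namespace Pool.Agent.TH650.Emb

open Pool.Agent.H904R2 (Ch IsCyc IsBdy RAcyc psh)
open Pool.Agent.TH650.AS Pool.Agent.TH650.Log

noncomputable section

/-- functions on the fundamental domain compatible with the glueing descend to `Y3` -/
theorem desc {Z : Type} [TopologicalSpace Z] (f : Circle × ℂ → Z) (hf : ContinuousOn f (Dom L2))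
    (hσ : ∀ p ∈ btube ℂ 1, f (sg L2 p) = f p) :
    ∃ F : C(Y3, Z), ∀ p : Om L2, p.1 ∈ Dom L2 → F (mk L2 p) = f p.1 := by
  let q : Dom L2 → Y3 := fun p => mk L2 ⟨p.1, Dom_sub_Om L2 p.2⟩
  have hq : Continuous q := (continuous_mk L2).comp (continuous_subtype_val.subtype_mk _)
  have hs : Function.Surjective q := by
    intro y
    obtain ⟨p, hp, rfl⟩ := exists_Dom L2 y
    exact ⟨⟨p.1, hp⟩, rfl⟩
  have : CompactSpace (Dom L2) := isCompact_iff_compactSpace.1 (isCompact_Dom L2)
  have hQ : Topology.IsQuotientMap q := (hq.isClosedMap).isQuotientMap hq hs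
  have hwd : ∀ p p' : Dom L2, q p = q p' → f p.1 = f p'.1 := by
    intro p p' h
    rcases mk_Dom L2 _ _ p.2 p'.2 h with h | ⟨h1, h2⟩ | ⟨h1, h2⟩
    · have := congrArg Subtype.val h
      simp only at this
      rw [this]
    · simp only at h1 h2
      rw [h2, hσ _ h1]
    · simp only at h1 h2
      rw [h2, hσ _ h1]
  let F : Y3 → Z := fun y => f (hs y).choose.1
  have hF : ∀ p : Dom L2, F (q p) = f p.1 := fun p => hwd _ _ (hs (q p)).choose_spec
  refine ⟨⟨F, ?_⟩, ?_⟩
  · rw [hQ.continuous_iff]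
    have : F ∘ q = fun p : Dom L2 => f p.1 := funext hF
    rw [this]
    exact continuousOn_iff_continuous_restrict.1 hf
  · intro p hp
    exact hF ⟨p.1, hp⟩

/-- if the map `Y3 → Circle` is onto on `H_1` then `k = ± 1` -/
theorem k_unit (u : C(Y3, Circle)) (hu : H1Onto u) (G : Circle × ℂ → ℝ) (k : ℤ)
    (hG : ContinuousOn G (Dom L2))
    (hg : ∀ p : Om L2, p.1 ∈ Dom L2 → Circle.exp (2 * Real.pi * G p.1) = u (mk L2 p))
    (hσ : ∀ p ∈ btube ℂ 1, G (sg L2 p) = G p + k) : k = 1 ∨ k = -1 := by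
  obtain ⟨w, hw, hb⟩ := hu lp lp_cyc
  have h1 : wn (psh u 1 w) = 1 := by
    have := wn_bdy hb
    rw [map_sub, wn_lp, sub_eq_zero] at this
    exact this.symm
  by_cases hk : k = 0
  · exfalso
    subst hk
    obtain ⟨F, hF⟩ := desc (fun p => 2 * Real.pi * G p) (continuousOn_const.mul hG) (by
      intro p hp
      simp only [hσ p hp, Int.cast_zero, add_zero])
    have : wn (psh u 1 w) = 0 := by
      refine wn_exp_cyc F u ?_ hw
      intro y
      obtain ⟨p, hp, rfl⟩ := exists_Dom L2 y
      rw [hF p hp]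
      exact hg p hp
    rw [this] at h1
    exact zero_ne_one h1
  · have hkR : (k : ℝ) ≠ 0 := by exact_mod_cast hk
    obtain ⟨ξ, hξ⟩ := desc (fun p => Circle.exp (2 * Real.pi * (G p / k)))
      (Circle.exp.continuous.comp_continuousOn (continuousOn_const.mul (hG.div_const _))) (by
      intro p hp
      simp only [hσ p hp]
      have : 2 * Real.pi * ((G p + k) / k) = 2 * Real.pi * (G p / k) + 2 * Real.pi := by
        field_simp
      rw [this, Circle.exp_add, Circle.exp_two_pi, mul_one])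
    have hu' : u = (cpw k).comp ξ := by
      apply ContinuousMap.ext
      intro y
      obtain ⟨p, hp, rfl⟩ := exists_Dom L2 y
      rw [ContinuousMap.comp_apply, hξ p hp, ← hg p hp]
      show _ = Circle.exp (2 * Real.pi * (G p.1 / k)) ^ k
      rw [← exp_zmul]
      congr 1
      field_simp
    rw [hu', ← Pool.Agent.H904R2.Sph.psh_comp, wn_pow] at h1
    obtain ⟨n, hn⟩ := wn_int (Pool.Agent.H904R2.Sph.cyc_psh ξ hw)
    rw [hn] at h1
    have h2 : k * n = 1 := by exact_mod_cast h1
    exact Int.eq_one_or_neg_one_of_mul_eq_one h2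

end

end Pool.Agent.TH650.Emb
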