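import Pool.Agent.TH650.Emb.Sep
import Pool.Agent.TH650.Emb.TP

/-! `Y3` has no `H_1`-surjective topological embedding in `Circle × S3`. -/

set_option autoImplicit false

open Set

namespace Pool.Agent.TH650.AS

open Pool.Agent.Helper554.Smith Pool.Agent.TH650.Emb Pool.Agent.TH650.Log

noncomputable section

/-- the data extracted from an embedding -/
structure Dat where
  G : Circle × ℂ → ℝ
  k : ℤ
  h : Circle × ℂ → S3
  hG : ContinuousOn G DD
  hh : ContinuousOn h DD
  hk : k = 1 ∨ k = -1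
  sG : ∀ p ∈ TT, G (sg L2 p) = G p + k
  sh : ∀ p ∈ TT, h (sg L2 p) = h p
  inj : ∀ p ∈ DD, ∀ q ∈ DD, Circle.exp (2 * Real.pi * G p) = Circle.exp (2 * Real.pi * G q) →
    h p = h q → p = q ∨ (p ∈ TT ∧ q = sg L2 p) ∨ (q ∈ TT ∧ p = sg L2 q)

theorem exp_mod (n : ℕ) [NeZero n] (x : ℝ) (k : ℤ) (a b : ℕ) (h : (a : ZMod n) = b) :
    Circle.exp (2 * Real.pi * ((x + k * a) / n)) = Circle.exp (2 * Real.pi * ((x + k * b) / n)) := by
  have hn : (n : ℝ) ≠ 0 := by exact_mod_cast NeZero.ne n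
  have h1 : ((a : ℤ) : ZMod n) = ((b : ℤ) : ZMod n) := by exact_mod_cast h
  rw [ZMod.intCast_eq_intCast_iff_dvd_sub] at h1
  obtain ⟨m, hm⟩ := h1
  have h2 : (a : ℝ) = b - n * m := by
    have : ((b : ℤ) : ℝ) - ((a : ℤ) : ℝ) = (n : ℝ) * m := by exact_mod_cast hm
    push_cast at this
    linarith
  rw [Circle.exp_eq_exp]
  refine ⟨-(k * m), ?_⟩
  rw [h2]
  push_cast
  field_simp
  ring

theorem exp_eq_imp (n : ℕ) [NeZero n] (x : ℝ) (k : ℤ) (hk : k = 1 ∨ k = -1) (a b : ℕ)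
    (h : Circle.exp (2 * Real.pi * ((x + k * a) / n)) =
      Circle.exp (2 * Real.pi * ((x + k * b) / n))) : (a : ZMod n) = b := by
  have hn : (n : ℝ) ≠ 0 := by exact_mod_cast NeZero.ne n
  have hpi : (Real.pi : ℝ) ≠ 0 := Real.pi_ne_zero
  rw [Circle.exp_eq_exp] at h
  obtain ⟨m, hm⟩ := h
  have h1 : (k : ℝ) * a = k * b + n * m := by
    field_simp at hm
    have : 2 * (x + k * a) = 2 * (x + k * b + n * m) := by
      linarith
    linarith
  have h2 : k * (a : ℤ) = k * b + n * m := by exact_mod_cast h1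
  have h3 : ((b : ℤ) - a) = n * (-(k * m)) := by
    rcases hk with rfl | rfl <;> linarith
  have h4 : ((a : ℤ) : ZMod n) = ((b : ℤ) : ZMod n) := by
    rw [ZMod.intCast_eq_intCast_iff_dvd_sub]
    exact ⟨_, h3⟩
  exact_mod_cast h4

namespace Dat

variable (D : Dat) (n : ℕ) [NeZero n]

/-- the map `F_i` -/
def F (i : ZMod n) (p : Circle × ℂ) : XX :=
  (Circle.exp (2 * Real.pi * ((D.G p + D.k * i.val) / n)), D.h p)

theorem F_nat (j : ℕ) (p : Circle × ℂ) :
    D.F n (j : ZMod n) p = (Circle.exp (2 * Real.pi * ((D.G p + D.k * j) / n)), D.h p) := by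
  unfold F
  rw [exp_mod n (D.G p) D.k (j : ZMod n).val j (ZMod.natCast_zmod_val _)]

theorem F_glue (i : ZMod n) (p : Circle × ℂ) (hp : p ∈ TT) :
    D.F n i (sg L2 p) = D.F n (i + 1) p := by
  have e : i + 1 = ((i.val + 1 : ℕ) : ZMod n) := by
    push_cast
    rw [ZMod.natCast_zmod_val]
  rw [e, F_nat]
  unfold F
  rw [D.sG p hp, D.sh p hp]
  congr 3
  push_cast
  ring

theorem F_pow (i : ZMod n) (p : Circle × ℂ) :
    (D.F n i p).1 ^ (n : ℤ) = Circle.exp (2 * Real.pi * D.G p) := by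
  have hn : (n : ℝ) ≠ 0 := by exact_mod_cast NeZero.ne n
  unfold F
  rw [← exp_zmul, Circle.exp_eq_exp]
  refine ⟨D.k * i.val, ?_⟩
  push_cast
  field_simp

theorem F_same {i j : ZMod n} {p : Circle × ℂ} (h : D.F n i p = D.F n j p) : i = j := by
  have h1 := exp_eq_imp n (D.G p) D.k D.hk i.val j.val (congrArg Prod.fst h)
  rwa [ZMod.natCast_zmod_val, ZMod.natCast_zmod_val] at h1

/-- the chain -/
def chain : Chain XX n where
  F := D.F n
  cont i := by
    unfold F
    refine ContinuousOn.prodMk ?_ D.hh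
    exact Circle.exp.continuous.comp_continuousOn
      (continuousOn_const.mul ((D.hG.add continuousOn_const).div_const _))
  glue := D.F_glue n
  inj i j p hp q hq h := by
    have h1 : Circle.exp (2 * Real.pi * D.G p) = Circle.exp (2 * Real.pi * D.G q) := by
      rw [← D.F_pow n i p, ← D.F_pow n j q, h]
    rcases D.inj p hp q hq h1 (congrArg Prod.snd h) with h2 | ⟨h2, h3⟩ | ⟨h2, h3⟩
    · subst h2
      exact Or.inl ⟨D.F_same n h, rfl⟩
    · subst h3
      rw [D.F_glue n j p h2] at h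
      exact Or.inr (Or.inr ⟨D.F_same n h, h2, rfl⟩)
    · subst h3
      rw [D.F_glue n i q h2] at h
      exact Or.inr (Or.inl ⟨(D.F_same n h).symm, h2, rfl⟩)

theorem ang : Ang (D.chain n) (a1 (Z := S3)) D.G D.k where
  cma := CM_a1 _
  hG := D.hG
  hk := D.hk
  hσ := D.sG
  ha i hi p hp := by
    have hpi : (Real.pi : ℝ) ≠ 0 := Real.pi_ne_zero
    obtain ⟨m, hm⟩ := exp_arg_exp (2 * Real.pi * ((D.G p + D.k * i) / n))
    refine ⟨m, ?_⟩
    show a1 (D.F n (i : ZMod n) p) = _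
    rw [F_nat]
    unfold a1
    simp only
    rw [hm]
    field_simp

/-- the rotation -/
def rot (e : ℤ) (x : XX) : XX := (Circle.exp (2 * Real.pi * (e * D.k / n)) * x.1, x.2)

theorem rot_cont (e : ℤ) : Continuous (D.rot n e) := by
  unfold rot
  exact (continuous_const.mul continuous_fst).prodMk continuous_snd

theorem rot_rot (e : ℤ) (x : XX) : D.rot n e (D.rot n (-e) x) = x := by
  unfold rot
  apply Prod.ext
  · simp only
    rw [← mul_assoc, ← Circle.exp_add]
    have : 2 * Real.pi * ((e : ℝ) * D.k / n) + 2 * Real.pi * (((-e : ℤ) : ℝ) * D.k / n) = 0 := by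
      push_cast
      ring
    rw [this, Circle.exp_zero, one_mul]
  · rfl

theorem rot_F (i : ZMod n) (p : Circle × ℂ) : D.rot n 1 (D.F n i p) = D.F n (i + 1) p := by
  have e : i + 1 = ((i.val + 1 : ℕ) : ZMod n) := by
    push_cast
    rw [ZMod.natCast_zmod_val]
  rw [e, F_nat]
  unfold F rot
  apply Prod.ext
  · simp only
    rw [← Circle.exp_add]
    congr 1
    push_cast
    ring
  · rfl

theorem conn (hn : 6 ∣ n) : IsPreconnected ((D.chain n).A)ᶜ :=
  no_sep hn (D.ang n) (D.rot_cont n 1) (D.rot_cont n (-1)) (D.rot_rot n 1)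
    (fun x => by
      have := D.rot_rot n (-1) x
      rwa [neg_neg] at this) (D.rot_F n)

/-- the threefold covering -/
def cov (x : XX) : XX := (x.1 ^ 3, x.2)

theorem cov_cont : Continuous cov := by
  unfold cov
  fun_prop

theorem cov_maps : MapsTo cov (D.chain 18).A (D.chain 6).A := by
  intro x hx
  obtain ⟨i, p, hp, rfl⟩ := mem_iUnion.1 hx
  have : cov ((D.chain 18).F i p) = (D.chain 6).F (i.val : ZMod 6) p := by
    show cov (D.F 18 i p) = D.F 6 (i.val : ZMod 6) p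
    rw [F_nat]
    unfold cov F
    apply Prod.ext
    · simp only
      have e : ∀ s : Circle, s ^ 3 = s ^ (3 : ℤ) := fun s => by
        rw [← zpow_natCast]; rfl
      rw [e, ← exp_zmul]
      congr 1
      push_cast
      ring
    · rfl
  rw [this]
  exact (D.chain 6).P_sub _ ⟨p, hp, rfl⟩

theorem absurd' (D : Dat) : False := by
  have hn6 : 6 ∣ 6 := ⟨1, rfl⟩
  have hn18 : 6 ∣ 18 := ⟨3, rfl⟩
  set C := D.chain 18 with hC
  set B := D.chain 6 with hB
  obtain ⟨w, hw, hgen⟩ := X_gen4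
  have hpw : Coc univ 4 (pb (Prod.snd : XX → S3) w) := by
    refine Coc_pb isCompact_univ continuous_snd.continuousOn (mapsTo_univ _ _) hw
  -- `pb snd w` vanishes on `C.A`
  obtain ⟨w1, q1, r1⟩ := B.ex hn6 0 1 0
  obtain ⟨w2, q2, r2⟩ := B.ex hn6 0 0 1
  obtain ⟨ν, hν⟩ := B.top_gen hn6 (D.ang 6) w1 w2 q1 q2 r1 r2 (pb Prod.snd w)
    (hpw.mono (subset_univ _))
  have hz : Cob C.A 2 (pb cov (wc (a1 (Z := S3)))) := by
    rw [pb_wc]
    have hc3 : CM C.A (fun x => ((3 : ℤ) : ℝ) * a1 (Z := S3) x) := by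
      unfold CM
      have e : (fun x : XX => Circle.exp (2 * Real.pi * (((3 : ℤ) : ℝ) * a1 x))) =
          fun x : XX => (Circle.exp (2 * Real.pi * a1 x)) ^ (3 : ℤ) := by
        funext x
        rw [← exp_zmul]
        congr 1
        ring
      rw [e]
      exact (CM_a1 C.A).zpow 3
    have k1 : Cob C.A 2 (wc (a1 ∘ cov) - wc (fun x => ((3 : ℤ) : ℝ) * a1 (Z := S3) x)) := by
      refine wc_congr' C.compact hc3 (φ := fun _ => 0) continuousOn_const ?_
      intro x _
      have hpi : (Real.pi : ℝ) ≠ 0 := Real.pi_ne_zero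
      have e1 : x.1 = Circle.exp (Complex.arg (x.1 : ℂ)) := (Circle.exp_arg _).symm
      have e2 : x.1 ^ 3 = Circle.exp (3 * Complex.arg (x.1 : ℂ)) := by
        conv_lhs => rw [e1]
        have e : ∀ s : Circle, s ^ 3 = s ^ (3 : ℤ) := fun s => by
          rw [← zpow_natCast]; rfl
        rw [e, ← exp_zmul]
        congr 1
      obtain ⟨m, hm⟩ := exp_arg_exp (3 * Complex.arg (x.1 : ℂ))
      refine ⟨m, ?_⟩
      show Complex.arg ((x.1 ^ 3 : Circle) : ℂ) / (2 * Real.pi) = ((3 : ℤ) : ℝ) *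
        (Complex.arg (x.1 : ℂ) / (2 * Real.pi)) + 0 + m
      rw [e2, hm]
      push_cast
      field_simp
      ring
    have k2 := (wc_zmul C.compact (CM_a1 (Z := S3) C.A) 3).cob
    have k3 := k1.add k2
    rw [sub_add_sub_cancel] at k3
    have e3 : ((3 : ℤ) : ZMod 3) = 0 := by decide
    rwa [e3, zero_smul, sub_zero] at k3
  have hw0 : Cob C.A 4 (pb (Prod.snd : XX → S3) w) := by
    have k1 := Cob_pb C.compact cov_cont.continuousOn D.cov_maps hν
    rw [pb_sub', pb_smul', pb_cup, pb_cup, pb_pb] at k1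
    have e0 : (Prod.snd : XX → S3) ∘ cov = Prod.snd := rfl
    rw [e0] at k1
    have k2 : Coc C.A 3 (cup (pb cov w1) (pb cov w2)) := by
      refine coc_cup ?_ ?_
      · exact Coc_pb C.compact cov_cont.continuousOn D.cov_maps q1
      · exact Coc_pb C.compact cov_cont.continuousOn D.cov_maps q2
    have k3 : Cob C.A 4 (cup (pb cov (wc (a1 (Z := S3)))) (cup (pb cov w1) (pb cov w2)) -
        cup 0 (cup (pb cov w1) (pb cov w2))) := cob_cup_left (by rw [sub_zero]; exact hz) k2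
    have e1 : cup (0 : List XX → ZMod 3) (cup (pb cov w1) (pb cov w2)) = 0 := by
      have := cup_smul_left (0 : ZMod 3) (0 : List XX → ZMod 3) (cup (pb cov w1) (pb cov w2))
      rwa [zero_smul, zero_smul] at this
    rw [e1, sub_zero] at k3
    have k4 := k1.add (k3.smul ν)
    rwa [sub_add_cancel] at k4
  -- extension of the top class
  obtain ⟨v1, a1', b1⟩ := C.ex hn18 0 1 0
  obtain ⟨v2, a2', b2⟩ := C.ex hn18 0 0 1
  apply C.top_ne hn18 (D.ang 18) v1 v2 a1' a2' b1 b2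
  have hy : Coc C.A 4 (cup (wc a1) (cup v1 v2)) :=
    coc_cup (coc_wc C.compact (CM_a1 _)) (coc_cup a1' a2')
  obtain ⟨c, hc1, hc2⟩ := X_sep C.A C.compact (D.conn 18 hn18) _ hy
  obtain ⟨μ, hμ⟩ := hgen c hc1
  have k1 := ((hμ.mono (subset_univ _)).add (hw0.smul μ)).sub hc2
  have e : c - μ • pb Prod.snd w + μ • pb Prod.snd w - (c - cup (wc a1) (cup v1 v2)) =
      cup (wc a1) (cup v1 v2) := by abel
  rwa [e] at k1

end Dat

/-- `Y3` has no `H_1`-surjective topological embedding in `Circle × S3`. -/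
theorem no_embedding (ι : C(Y3, Circle × S3)) (hi : Function.Injective ι)
    (ho : H1Onto ((ContinuousMap.fst : C(Circle × S3, Circle)).comp ι)) : False := by
  classical
  let u : C(Y3, Circle) := (ContinuousMap.fst : C(Circle × S3, Circle)).comp ι
  let e : Circle × ℂ → Circle × S3 := fun p =>
    if hp : p ∈ Om L2 then ι (mk L2 ⟨p, hp⟩) else (1, eS3 OnePoint.infty)
  have he : ∀ (p : Circle × ℂ) (hp : p ∈ Om L2), e p = ι (mk L2 ⟨p, hp⟩) := fun p hp => dif_pos hp
  have hec : ContinuousOn e (Dom L2) := by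
    rw [continuousOn_iff_continuous_domRestrict]
    have : (Dom L2).domRestrict e = fun p : Dom L2 => ι (mk L2 ⟨p.1, Dom_sub_Om L2 p.2⟩) := by
      funext p
      exact he p.1 (Dom_sub_Om L2 p.2)
    rw [this]
    exact ι.continuous.comp ((continuous_mk L2).comp (continuous_subtype_val.subtype_mk _))
  have hes : ∀ p ∈ TT, e (sg L2 p) = e p := by
    intro p hp
    have h1 := Dom_sub_Om L2 (TT_sub_DD hp)
    have h2 := Dom_sub_Om L2 (sgTT_sub_DD hp)
    rw [he _ h1, he _ h2]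
    congr 1
    rw [mk_eq_iff]
    exact ⟨1, Or.inr rfl⟩
  obtain ⟨G, k, hG, hexp, hσ⟩ := lift_Dom (fun p => (e p).1)
    (continuous_fst.comp_continuousOn hec) (fun p hp => by rw [hes p hp])
  have hk : k = 1 ∨ k = -1 := by
    refine k_unit u ho G k hG ?_ hσ
    intro p hp
    rw [hexp p.1 hp, he p.1 p.2]
    rfl
  refine Dat.absurd' ⟨G, k, fun p => (e p).2, hG, continuous_snd.comp_continuousOn hec, hk, hσ,
    fun p hp => by rw [hes p hp], ?_⟩
  intro p hp q hq h1 h2
  rw [hexp p hp, hexp q hq] at h1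
  have h3 : e p = e q := Prod.ext h1 h2
  have hp' := Dom_sub_Om L2 hp
  have hq' := Dom_sub_Om L2 hq
  rw [he p hp', he q hq'] at h3
  rcases mk_Dom L2 ⟨p, hp'⟩ ⟨q, hq'⟩ hp hq (hi h3) with h | ⟨h, h'⟩ | ⟨h, h'⟩
  · exact Or.inl (congrArg Subtype.val h)
  · exact Or.inr (Or.inl ⟨h, h'⟩)
  · exact Or.inr (Or.inr ⟨h, h'⟩)

end

end Pool.Agent.TH650.AS
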