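import Pool.Agent.TH650.Emb.Model

/-! Smooth structures on `Y3` and `X4`. -/

set_option autoImplicit false

open scoped Manifold ContDiff Topology
open Set

namespace Pool.Agent.TH650.Emb

noncomputable section

namespace SmoothAux

section
variable {E : Type} [NormedAddCommGroup E] [NormedSpace ℝ E]

/-- smooth with positive Jacobian determinant -/
def Gd (g : E → E) (a : E) : Prop := ContDiffAt ℝ ∞ g a ∧ 0 < (fderiv ℝ g a).det

theorem Gd.differentiableAt {g : E → E} {a : E} (h : Gd g a) : DifferentiableAt ℝ g a :=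
  h.1.differentiableAt (by simp)

theorem det_comp' (A B : E →L[ℝ] E) : (A.comp B).det = A.det * B.det := by
  show LinearMap.det ((A : E →ₗ[ℝ] E) ∘ₗ (B : E →ₗ[ℝ] E)) = _
  rw [LinearMap.det_comp]

theorem Gd.comp {g h : E → E} {a : E} (hg : Gd g (h a)) (hh : Gd h a) : Gd (g ∘ h) a := by
  refine ⟨hg.1.comp a hh.1, ?_⟩
  rw [fderiv_comp a hg.differentiableAt hh.differentiableAt, det_comp']
  exact mul_pos hg.2 hh.2

theorem gd_id (a : E) : Gd (id : E → E) a := by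
  refine ⟨contDiffAt_id, ?_⟩
  rw [fderiv_id]
  show 0 < LinearMap.det (LinearMap.id : E →ₗ[ℝ] E)
  rw [LinearMap.det_id]
  exact one_pos

theorem gd_add (c a : E) : Gd (fun x => x + c) a := by
  refine ⟨contDiffAt_id.add contDiffAt_const, ?_⟩
  rw [fderiv_add_const, fderiv_fun_id]
  show 0 < LinearMap.det (LinearMap.id : E →ₗ[ℝ] E)
  rw [LinearMap.det_id]
  exact one_pos

theorem Gd.iterate {g : E → E} (h : ∀ a, Gd g a) (j : ℕ) (a : E) : Gd g^[j] a := by
  induction j generalizing a with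
  | zero => exact gd_id a
  | succ j ih =>
    rw [Function.iterate_succ]
    exact (ih (g a)).comp (h a)

theorem Gd.congr {g h : E → E} {a : E} (hg : Gd g a) (e : h =ᶠ[𝓝 a] g) : Gd h a := by
  refine ⟨hg.1.congr_of_eventuallyEq e, ?_⟩
  rw [e.fderiv_eq]
  exact hg.2

/-- The inverse of a map with positive determinant. -/
theorem gd_inv {g h : E → E} (hg : ContDiff ℝ ∞ g) (hh : ContDiff ℝ ∞ h)
    (hgh : ∀ x, g (h x) = x) (hhg : ∀ x, h (g x) = x) (hn : ∀ a, 0 ≤ (fderiv ℝ g a).det) (a : E) :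
    Gd g a ∧ Gd h a := by
  have key : ∀ b, (fderiv ℝ h (g b)).det * (fderiv ℝ g b).det = 1 := by
    intro b
    have h1 : DifferentiableAt ℝ g b := hg.contDiffAt.differentiableAt (by simp)
    have h2 : DifferentiableAt ℝ h (g b) := hh.contDiffAt.differentiableAt (by simp)
    rw [← det_comp', ← fderiv_comp b h2 h1]
    have : h ∘ g = id := funext hhg
    rw [this, fderiv_id]
    show LinearMap.det (LinearMap.id : E →ₗ[ℝ] E) = 1
    rw [LinearMap.det_id]
  have pos : ∀ b, 0 < (fderiv ℝ g b).det := by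
    intro b
    refine lt_of_le_of_ne (hn b) fun h0 => ?_
    have := key b
    rw [← h0, mul_zero] at this
    exact zero_ne_one this
  refine ⟨⟨hg.contDiffAt, pos a⟩, hh.contDiffAt, ?_⟩
  have h1 := key (h a)
  rw [hgh] at h1
  have h2 := pos (h a)
  by_contra h3
  have h4 : (fderiv ℝ h a).det * (fderiv ℝ g (h a)).det ≤ 0 :=
    mul_nonpos_of_nonpos_of_nonneg (not_lt.1 h3) h2.le
  linarith

end

section
variable {V : Type} [NormedAddCommGroup V] [NormedSpace ℝ V]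

/-- the lift of `σ` -/
def sW (L : ℂ →ₗᵢ[ℝ] V) (p : ℝ × V) : ℝ × V :=
  (2 * p.1, (1 / 4 : ℝ) • p.2 + (1 / 2 : ℝ) • L (Complex.exp (p.1 * Complex.I)))

/-- the inverse of the lift of `σ` -/
def sWi (L : ℂ →ₗᵢ[ℝ] V) (p : ℝ × V) : ℝ × V :=
  (p.1 / 2, (4 : ℝ) • (p.2 - (1 / 2 : ℝ) • L (Complex.exp ((p.1 / 2 : ℝ) * Complex.I))))

theorem sW_sWi (L : ℂ →ₗᵢ[ℝ] V) (p : ℝ × V) : sW L (sWi L p) = p := by
  apply Prod.ext
  · show 2 * (p.1 / 2) = p.1
    ring
  · show (1 / 4 : ℝ) • ((4 : ℝ) • (p.2 - (1 / 2 : ℝ) • L (Complex.exp ((p.1 / 2 : ℝ) * Complex.I)))) +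
      (1 / 2 : ℝ) • L (Complex.exp ((p.1 / 2 : ℝ) * Complex.I)) = p.2
    rw [smul_smul]
    norm_num

theorem sWi_sW (L : ℂ →ₗᵢ[ℝ] V) (p : ℝ × V) : sWi L (sW L p) = p := by
  have e : (2 * p.1) / 2 = p.1 := by ring
  apply Prod.ext
  · show (2 * p.1) / 2 = p.1
    exact e
  · show (4 : ℝ) • ((1 / 4 : ℝ) • p.2 + (1 / 2 : ℝ) • L (Complex.exp (p.1 * Complex.I)) -
      (1 / 2 : ℝ) • L (Complex.exp (((2 * p.1) / 2 : ℝ) * Complex.I))) = p.2
    rw [e, add_sub_cancel_right, smul_smul]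
    norm_num

theorem contDiff_expL (L : ℂ →ₗᵢ[ℝ] V) :
    ContDiff ℝ ∞ fun t : ℝ => L (Complex.exp (t * Complex.I)) := by
  have h1 : ContDiff ℝ ∞ fun t : ℝ => Complex.exp (t * Complex.I) := by
    have h2 : ContDiff ℝ ∞ fun t : ℝ => (t : ℂ) * Complex.I :=
      Complex.ofRealCLM.contDiff.mul contDiff_const
    exact h2.cexp
  exact L.toContinuousLinearMap.contDiff.comp h1

theorem contDiff_sW (L : ℂ →ₗᵢ[ℝ] V) : ContDiff ℝ ∞ (sW L) := by
  unfold sW
  refine (contDiff_const.mul contDiff_fst).prodMk ?_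
  exact (contDiff_snd.const_smul _).add (((contDiff_expL L).comp contDiff_fst).const_smul _)

theorem contDiff_sWi (L : ℂ →ₗᵢ[ℝ] V) : ContDiff ℝ ∞ (sWi L) := by
  unfold sWi
  have h1 : ContDiff ℝ ∞ fun p : ℝ × V => p.1 / 2 := contDiff_fst.div_const 2
  refine h1.prodMk ?_
  exact (contDiff_snd.sub (((contDiff_expL L).comp h1).const_smul _)).const_smul _

/-- the shape of the derivative -/
def DD (α β : ℝ) (c : V) : ℝ × V →L[ℝ] ℝ × V :=
  (α • ContinuousLinearMap.fst ℝ ℝ V).prod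
    (β • ContinuousLinearMap.snd ℝ ℝ V + (ContinuousLinearMap.fst ℝ ℝ V).smulRight c)

theorem DD_comp (α β : ℝ) (c : V) : (DD α β c).comp (DD α β c) = DD (α ^ 2) (β ^ 2) ((α + β) • c) := by
  ext p
  · simp [DD]
    try ring
  · simp [DD, add_smul, add_comm]
  · simp [DD]
    try ring
  · simp [DD, smul_smul]
    try ring_nf

theorem hasFDerivAt_sW (L : ℂ →ₗᵢ[ℝ] V) (p : ℝ × V) : ∃ c : V, HasFDerivAt (sW L) (DD 2 (1 / 4) c) p := by
  have h1 : DifferentiableAt ℝ (fun t : ℝ => L (Complex.exp (t * Complex.I))) p.1 :=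
    (contDiff_expL L).contDiffAt.differentiableAt (by simp)
  set d := deriv (fun t : ℝ => L (Complex.exp (t * Complex.I))) p.1 with hd
  have h2 : HasDerivAt (fun t : ℝ => L (Complex.exp (t * Complex.I))) d p.1 := h1.hasDerivAt
  refine ⟨(1 / 2 : ℝ) • d, ?_⟩
  have h3 : HasFDerivAt (fun p : ℝ × V => p.1) (ContinuousLinearMap.fst ℝ ℝ V) p := hasFDerivAt_fst
  have h4 : HasFDerivAt (fun p : ℝ × V => p.2) (ContinuousLinearMap.snd ℝ ℝ V) p := hasFDerivAt_snd
  have h5 : HasFDerivAt (fun p : ℝ × V => L (Complex.exp (p.1 * Complex.I)))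
      ((ContinuousLinearMap.fst ℝ ℝ V).smulRight d) p := by
    have := h2.hasFDerivAt.comp p h3
    refine this.congr_fderiv ?_
    ext <;> simp
  have h6 := (h3.const_mul 2).prodMk ((h4.const_smul (1 / 4 : ℝ)).add (h5.const_smul (1 / 2 : ℝ)))
  refine h6.congr_fderiv ?_
  ext <;> simp [DD, smul_smul]

end

section
variable {V E : Type} [NormedAddCommGroup V] [NormedSpace ℝ V] [NormedAddCommGroup E]
  [NormedSpace ℝ E]

/-- the lift of `σ` to `E` -/
def st (A : E ≃L[ℝ] ℝ × V) (L : ℂ →ₗᵢ[ℝ] V) (x : E) : E := A.symm (sW L (A x))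

/-- the inverse of the lift of `σ` to `E` -/
def sti (A : E ≃L[ℝ] ℝ × V) (L : ℂ →ₗᵢ[ℝ] V) (x : E) : E := A.symm (sWi L (A x))

theorem gd_st (A : E ≃L[ℝ] ℝ × V) (L : ℂ →ₗᵢ[ℝ] V) (a : E) : Gd (st A L) a ∧ Gd (sti A L) a := by
  refine gd_inv ?_ ?_ ?_ ?_ ?_ a
  · exact A.symm.contDiff.comp ((contDiff_sW L).comp A.contDiff)
  · exact A.symm.contDiff.comp ((contDiff_sWi L).comp A.contDiff)
  · intro x
    rw [st, sti, ContinuousLinearEquiv.apply_symm_apply, sW_sWi,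
      ContinuousLinearEquiv.symm_apply_apply]
  · intro x
    rw [st, sti, ContinuousLinearEquiv.apply_symm_apply, sWi_sW,
      ContinuousLinearEquiv.symm_apply_apply]
  · intro a
    obtain ⟨c, hc⟩ := hasFDerivAt_sW L (A a)
    have h1 : HasFDerivAt (st A L)
        ((A.symm : ℝ × V →L[ℝ] E).comp ((DD 2 (1 / 4) c).comp (A : E →L[ℝ] ℝ × V))) a :=
      A.symm.hasFDerivAt.comp a (hc.comp a A.hasFDerivAt)
    rw [h1.fderiv]
    have hs : Real.sqrt 2 ^ 2 = 2 := Real.sq_sqrt (by norm_num)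
    have hne : Real.sqrt 2 + 1 / 2 ≠ 0 := by positivity
    have h2 : DD 2 (1 / 4) c = (DD (Real.sqrt 2) (1 / 2) ((Real.sqrt 2 + 1 / 2)⁻¹ • c)).comp
        (DD (Real.sqrt 2) (1 / 2) ((Real.sqrt 2 + 1 / 2)⁻¹ • c)) := by
      rw [DD_comp, hs, smul_smul, mul_inv_cancel₀ hne, one_smul]
      norm_num
    have h3 : (A.symm : ℝ × V →L[ℝ] E).comp ((DD 2 (1 / 4) c).comp (A : E →L[ℝ] ℝ × V)) =
        ((A.symm : ℝ × V →L[ℝ] E).comp ((DD (Real.sqrt 2) (1 / 2)
          ((Real.sqrt 2 + 1 / 2)⁻¹ • c)).comp (A : E →L[ℝ] ℝ × V))).comp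
        ((A.symm : ℝ × V →L[ℝ] E).comp ((DD (Real.sqrt 2) (1 / 2)
          ((Real.sqrt 2 + 1 / 2)⁻¹ • c)).comp (A : E →L[ℝ] ℝ × V))) := by
      rw [h2]
      ext x
      simp
    rw [h3, det_comp']
    exact mul_self_nonneg _

/-- `kap` on a general space -/
def kp (A : E ≃L[ℝ] ℝ × V) (e : E) : Circle × V := (Circle.exp (A e).1, (A e).2)

theorem kp_st (A : E ≃L[ℝ] ℝ × V) (L : ℂ →ₗᵢ[ℝ] V) (x : E) : kp A (st A L x) = sg L (kp A x) := by
  unfold kp st sg
  rw [ContinuousLinearEquiv.apply_symm_apply]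
  apply Prod.ext
  · show Circle.exp (2 * (A x).1) = Circle.exp (A x).1 * Circle.exp (A x).1
    rw [two_mul, Circle.exp_add]
  · show (1 / 4 : ℝ) • (A x).2 + (1 / 2 : ℝ) • L (Complex.exp ((A x).1 * Complex.I)) =
      (1 / 4 : ℝ) • (A x).2 + (1 / 2 : ℝ) • L (Circle.exp (A x).1 : ℂ)
    rw [Circle.coe_exp]

theorem kp_st_iter (A : E ≃L[ℝ] ℝ × V) (L : ℂ →ₗᵢ[ℝ] V) (j : ℕ) (x : E) :
    kp A ((st A L)^[j] x) = (sg L)^[j] (kp A x) := by
  induction j generalizing x with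
  | zero => rfl
  | succ j ih => rw [Function.iterate_succ_apply, ih, kp_st, Function.iterate_succ_apply]

theorem st_sti (A : E ≃L[ℝ] ℝ × V) (L : ℂ →ₗᵢ[ℝ] V) (x : E) : st A L (sti A L x) = x := by
  rw [st, sti, ContinuousLinearEquiv.apply_symm_apply, sW_sWi,
      ContinuousLinearEquiv.symm_apply_apply]

theorem st_sti_iter (A : E ≃L[ℝ] ℝ × V) (L : ℂ →ₗᵢ[ℝ] V) (j : ℕ) (x : E) :
    (st A L)^[j] ((sti A L)^[j] x) = x :=
  Function.LeftInverse.iterate (st_sti A L) j x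

theorem sti_st_iter (A : E ≃L[ℝ] ℝ × V) (L : ℂ →ₗᵢ[ℝ] V) (j : ℕ) (x : E) :
    (sti A L)^[j] ((st A L)^[j] x) = x := by
  refine Function.LeftInverse.iterate (fun x => ?_) j x
  rw [st, sti, ContinuousLinearEquiv.apply_symm_apply, sWi_sW,
      ContinuousLinearEquiv.symm_apply_apply]

theorem kp_eq (A : E ≃L[ℝ] ℝ × V) {x y : E} (h : kp A x = kp A y) :
    ∃ c : E, x = y + c ∧ ∀ z, kp A (z + c) = kp A z := by
  have h1 : Circle.exp (A x).1 = Circle.exp (A y).1 := congrArg Prod.fst h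
  have h2 : (A x).2 = (A y).2 := congrArg (fun p : Circle × V => p.2) h
  obtain ⟨m, hm⟩ := Circle.exp_eq_exp.1 h1
  refine ⟨A.symm (m * (2 * Real.pi), 0), ?_, fun z => ?_⟩
  · apply A.injective
    rw [map_add, ContinuousLinearEquiv.apply_symm_apply]
    apply Prod.ext
    · exact hm
    · show (A x).2 = (A y).2 + 0
      rw [add_zero, h2]
  · unfold kp
    rw [map_add, ContinuousLinearEquiv.apply_symm_apply]
    apply Prod.ext
    · show Circle.exp ((A z).1 + m * (2 * Real.pi)) = Circle.exp (A z).1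
      exact Circle.exp_eq_exp.2 ⟨m, rfl⟩
    · show (A z).2 + 0 = (A z).2
      rw [add_zero]

/-- Two points over the same point of the quotient are related by a good map. -/
theorem exists_good (A : E ≃L[ℝ] ℝ × V) (L : ℂ →ₗᵢ[ℝ] V) {a b : E} (ha : kp A a ∈ Om L)
    (hb : kp A b ∈ Om L) (h : mk L ⟨kp A a, ha⟩ = mk L ⟨kp A b, hb⟩) :
    ∃ g : E → E, g a = b ∧ Gd g a ∧ ∀ x (hx : kp A x ∈ Om L) (hg : kp A (g x) ∈ Om L),
      mk L ⟨kp A (g x), hg⟩ = mk L ⟨kp A x, hx⟩ := by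
  rw [mk_eq_iff] at h
  obtain ⟨j, h | h⟩ := h
  · have h' : kp A b = kp A ((st A L)^[j] a) := by
      rw [kp_st_iter]
      exact h.symm
    obtain ⟨c, hc, hc'⟩ := kp_eq A h'
    refine ⟨(fun x => x + c) ∘ (st A L)^[j], hc.symm,
      (gd_add c _).comp (Gd.iterate (fun a => (gd_st A L a).1) j a), ?_⟩
    intro x hx hg
    rw [mk_eq_iff]
    refine ⟨j, Or.inr ?_⟩
    show (sg L)^[j] (kp A x) = kp A ((st A L)^[j] x + c)
    rw [hc', kp_st_iter]
  · have h' : kp A ((st A L)^[j] b) = kp A a := by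
      rw [kp_st_iter]
      exact h
    obtain ⟨c, hc, hc'⟩ := kp_eq A h'
    refine ⟨(sti A L)^[j] ∘ (fun x => x + c), ?_,
      (Gd.iterate (fun a => (gd_st A L a).2) j _).comp (gd_add c a), ?_⟩
    · show (sti A L)^[j] (a + c) = b
      rw [← hc, sti_st_iter]
    · intro x hx hg
      rw [mk_eq_iff]
      refine ⟨j, Or.inl ?_⟩
      show (sg L)^[j] (kp A ((sti A L)^[j] (x + c))) = kp A x
      rw [← kp_st_iter, st_sti_iter, hc']

/-! ### charts -/

/-- the atlas -/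
def At (A : E ≃L[ℝ] ℝ × V) (L : ℂ →ₗᵢ[ℝ] V) : Set (OpenPartialHomeomorph (Q L) E) :=
  {e | ∀ x ∈ e.target, ∃ hx : kp A x ∈ Om L, e.symm x = mk L ⟨kp A x, hx⟩}

theorem exists_chart [ProperSpace V] (A : E ≃L[ℝ] ℝ × V) (L : ℂ →ₗᵢ[ℝ] V) {a : E}
    (ha : kp A a ∈ Om L) : ∃ e ∈ At A L, a ∈ e.target := by
  obtain ⟨e0, h0, h0'⟩ := isLocalHomeomorph_circleExp (A a).1
  obtain ⟨e1, h1, h1'⟩ := isLocalHomeomorph_mk L ⟨kp A a, ha⟩
  have : Nonempty (Om L) := ⟨⟨kp A a, ha⟩⟩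
  let io : OpenPartialHomeomorph (Om L) (Circle × V) :=
    (isOpen_Om L).isOpenEmbedding_subtypeVal.toOpenPartialHomeomorph Subtype.val
  have io_apply : ∀ x : Om L, io x = x.1 := fun x => rfl
  have io_target : io.target = Om L := by
    rw [Topology.IsOpenEmbedding.toOpenPartialHomeomorph_target]
    exact Subtype.range_val
  have io_symm : ∀ x (hx : x ∈ Om L), io.symm x = ⟨x, hx⟩ := by
    intro x hx
    have := io.left_inv (x := ⟨x, hx⟩) (by
      rw [Topology.IsOpenEmbedding.toOpenPartialHomeomorph_source]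
      exact mem_univ _)
    rwa [io_apply] at this
  let ph : OpenPartialHomeomorph E (Circle × V) :=
    A.toHomeomorph.toOpenPartialHomeomorph.trans (e0.prod (OpenPartialHomeomorph.refl V))
  have ph_apply : ∀ x, ph x = kp A x := by
    intro x
    show (e0 (A x).1, (A x).2) = (Circle.exp (A x).1, (A x).2)
    rw [← h0']
  let e := (ph.trans io.symm).trans e1
  have hsrc : ∀ x ∈ e.source, ∃ hx : kp A x ∈ Om L, e x = mk L ⟨kp A x, hx⟩ := by
    intro x hx
    have hx0 := hx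
    rw [OpenPartialHomeomorph.trans_source, OpenPartialHomeomorph.trans_source] at hx0
    have hx2 : ph x ∈ io.symm.source := hx0.1.2
    rw [OpenPartialHomeomorph.symm_source, io_target, ph_apply] at hx2
    refine ⟨hx2, ?_⟩
    show e1 (io.symm (ph x)) = _
    rw [ph_apply, io_symm _ hx2, ← h1']
  have ha' : a ∈ e.source := by
    have e2 : ph a ∈ io.symm.source := by
      rw [OpenPartialHomeomorph.symm_source, io_target, ph_apply]
      exact ha
    have e3 : a ∈ ph.source := by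
      show a ∈ A.toHomeomorph.toOpenPartialHomeomorph.source ∩
        A.toHomeomorph.toOpenPartialHomeomorph ⁻¹' (e0.prod (OpenPartialHomeomorph.refl V)).source
      refine ⟨mem_univ _, ?_⟩
      exact ⟨h0, mem_univ _⟩
    rw [OpenPartialHomeomorph.trans_source]
    refine ⟨?_, ?_⟩
    · rw [OpenPartialHomeomorph.trans_source]
      exact ⟨e3, e2⟩
    · show io.symm (ph a) ∈ e1.source
      rw [ph_apply, io_symm _ ha]
      exact h1
  exact ⟨e.symm, hsrc, ha'⟩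

theorem exists_lift (A : E ≃L[ℝ] ℝ × V) (L : ℂ →ₗᵢ[ℝ] V) (y : Q L) :
    ∃ a, ∃ ha : kp A a ∈ Om L, y = mk L ⟨kp A a, ha⟩ := by
  obtain ⟨⟨⟨s, v⟩, hp⟩, rfl⟩ := mk_surjective L y
  have h : kp A (A.symm (Complex.arg s, v)) = (s, v) := by
    unfold kp
    rw [ContinuousLinearEquiv.apply_symm_apply]
    dsimp only
    rw [Circle.exp_arg]
  refine ⟨A.symm (Complex.arg s, v), by rw [h]; exact hp, ?_⟩
  congr 1
  exact Subtype.ext h.symm

theorem exists_chart_at [ProperSpace V] (A : E ≃L[ℝ] ℝ × V) (L : ℂ →ₗᵢ[ℝ] V) (y : Q L) :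
    ∃ e ∈ At A L, y ∈ e.source := by
  obtain ⟨a, ha, rfl⟩ := exists_lift A L y
  obtain ⟨e, he, hae⟩ := exists_chart A L ha
  refine ⟨e, he, ?_⟩
  obtain ⟨hx, h⟩ := he a hae
  rw [← h]
  exact e.map_target hae

/-- the charted space -/
@[reducible] def cs [ProperSpace V] (A : E ≃L[ℝ] ℝ × V) (L : ℂ →ₗᵢ[ℝ] V) : ChartedSpace E (Q L) where
  atlas := At A L
  chartAt y := (exists_chart_at A L y).choose
  mem_chart_source y := (exists_chart_at A L y).choose_spec.2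
  chart_mem_atlas y := (exists_chart_at A L y).choose_spec.1

theorem continuous_kp (A : E ≃L[ℝ] ℝ × V) : Continuous (kp A) := by
  unfold kp
  exact (Circle.exp.continuous.comp (continuous_fst.comp A.continuous)).prodMk
    (continuous_snd.comp A.continuous)

/-- coordinate changes are locally good maps -/
theorem trans_good (A : E ≃L[ℝ] ℝ × V) (L : ℂ →ₗᵢ[ℝ] V) {e e' : OpenPartialHomeomorph (Q L) E}
    (he : e ∈ At A L) (he' : e' ∈ At A L) {a : E} (ha : a ∈ (e.symm.trans e').source) :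
    Gd (e.symm.trans e') a := by
  rw [OpenPartialHomeomorph.trans_source, OpenPartialHomeomorph.symm_source] at ha
  obtain ⟨h1, h2⟩ := ha
  have h2' : e.symm a ∈ e'.source := h2
  obtain ⟨ka, hka⟩ := he a h1
  have h3 : e' (e.symm a) ∈ e'.target := e'.map_source h2'
  obtain ⟨kb, hkb⟩ := he' _ h3
  rw [e'.left_inv h2'] at hkb
  obtain ⟨g, hgb, hg, hgg⟩ := exists_good A L ka kb (hka.symm.trans hkb)
  refine hg.congr ?_
  have n1 : ∀ᶠ x in 𝓝 a, x ∈ e.target := e.open_target.mem_nhds h1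
  have n2 : ∀ᶠ x in 𝓝 a, g x ∈ e'.target := by
    have : g a ∈ e'.target := by rw [hgb]; exact h3
    exact hg.1.continuousAt (e'.open_target.mem_nhds this)
  filter_upwards [n1, n2] with x hx1 hx2
  obtain ⟨kx, hkx⟩ := he x hx1
  obtain ⟨kg, hkg⟩ := he' _ hx2
  show e' (e.symm x) = g x
  rw [hkx, ← hgg x kx kg, ← hkg, e'.right_inv hx2]

end

theorem isManifold_cs {V : Type} [NormedAddCommGroup V] [NormedSpace ℝ V] [ProperSpace V] {m : ℕ}
    (A : EuclideanSpace ℝ (Fin m) ≃L[ℝ] ℝ × V) (L : ℂ →ₗᵢ[ℝ] V) :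
    @IsManifold ℝ _ (EuclideanSpace ℝ (Fin m)) _ _ (EuclideanSpace ℝ (Fin m)) _ (𝓡 m) ∞ (Q L) _
      (cs A L) := by
  let _ := cs A L
  apply isManifold_of_contDiffOn
  intro e e' he he' x hx
  have hx' : x ∈ (e.symm.trans e').source := by simpa using hx
  have := (trans_good A L he he' hx').1
  have e1 : (↑(𝓡 m) ∘ ↑(e.symm ≫ₕ e') ∘ ↑(𝓡 m).symm) = (e.symm ≫ₕ e' : _ → _) := by
    ext y
    simp
  rw [e1]
  exact this.contDiffWithinAt

theorem oriented_cs {V : Type} [NormedAddCommGroup V] [NormedSpace ℝ V] [ProperSpace V] {m : ℕ}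
    (A : EuclideanSpace ℝ (Fin m) ≃L[ℝ] ℝ × V) (L : ℂ →ₗᵢ[ℝ] V) :
    @Oriented m (Q L) _ (cs A L) := by
  let _ := cs A L
  intro e he e' he' x hx
  exact (trans_good A L he he' hx).2

/-- coordinates in dimension three -/
def A3 : EuclideanSpace ℝ (Fin 3) ≃L[ℝ] ℝ × ℂ := ContinuousLinearEquiv.ofFinrankEq (by
  rw [finrank_euclideanSpace, Module.finrank_prod, Complex.finrank_real_complex]
  simp)

/-- the complement of dimension one -/
def eq34 : (EuclideanSpace ℝ (Fin 3) × ℝ) ≃L[ℝ] EuclideanSpace ℝ (Fin 4) :=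
  ContinuousLinearEquiv.ofFinrankEq (by
    rw [finrank_euclideanSpace, Module.finrank_prod, finrank_euclideanSpace]
    simp)

/-- coordinates in dimension four -/
def A4 : EuclideanSpace ℝ (Fin 4) ≃L[ℝ] ℝ × (ℂ × ℝ) :=
  (eq34.symm.trans (A3.prodCongr (ContinuousLinearEquiv.refl ℝ ℝ))).trans
    (ContinuousLinearEquiv.prodAssoc ℝ ℝ ℂ ℝ)

theorem kp_A4 (x : EuclideanSpace ℝ (Fin 3)) : kp A4 (eq34 (x, 0)) = inc (kp A3 x) := by
  have : A4 (eq34 (x, 0)) = ((A3 x).1, ((A3 x).2, 0)) := by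
    simp [A4]
  unfold kp inc
  rw [this]

end SmoothAux

open SmoothAux

/-- the smooth structures on `Y3` and `X4`: oriented atlases, and the smooth embedding -/
theorem smooth_structures :
    ∃ (_ : ChartedSpace (EuclideanSpace ℝ (Fin 3)) Y3)
      (_ : ChartedSpace (EuclideanSpace ℝ (Fin 4)) X4),
      IsManifold (𝓡 3) ∞ Y3 ∧ IsManifold (𝓡 4) ∞ X4 ∧ Oriented 3 Y3 ∧ Oriented 4 X4 ∧
      Manifold.IsSmoothEmbedding (𝓡 3) (𝓡 4) ∞ emb := by
  refine ⟨cs A3 L2, cs A4 L3, isManifold_cs A3 L2, isManifold_cs A4 L3, oriented_cs A3 L2,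
    oriented_cs A4 L3, ?_⟩
  let _ := cs A3 L2
  let _ := cs A4 L3
  have := isManifold_cs A3 L2
  have := isManifold_cs A4 L3
  refine ⟨⟨ℝ, inferInstance, inferInstance, fun y => ?_⟩,
    (emb.continuous.isClosedEmbedding emb_injective).isEmbedding⟩
  obtain ⟨a, ha, rfl⟩ := exists_lift A3 L2 y
  obtain ⟨e, he, hae⟩ := exists_chart A3 L2 ha
  have hb : kp A4 (eq34 (a, 0)) ∈ Om L3 := by
    rw [kp_A4]
    exact inc_mem_Om ha
  obtain ⟨e', he', hbe'⟩ := exists_chart A4 L3 hb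
  have hj : Continuous fun x : EuclideanSpace ℝ (Fin 3) => eq34 (x, 0) :=
    eq34.continuous.comp (continuous_id.prodMk continuous_const)
  have key : ∀ x (hx : kp A3 x ∈ Om L2) (hx' : kp A4 (eq34 (x, 0)) ∈ Om L3),
      emb (mk L2 ⟨kp A3 x, hx⟩) = mk L3 ⟨kp A4 (eq34 (x, 0)), hx'⟩ := by
    intro x hx hx'
    rw [emb_mk]
    congr 1
    exact Subtype.ext (kp_A4 x).symm
  -- the restricted chart
  let U : Set (EuclideanSpace ℝ (Fin 3)) := (fun x => eq34 (x, 0)) ⁻¹' e'.target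
  have hU : IsOpen U := e'.open_target.preimage hj
  let f := (e.symm.restrOpen U hU).symm
  have hft : f.target = e.target ∩ U := by
    show (e.symm.restrOpen U hU).source = _
    rw [OpenPartialHomeomorph.restrOpen_source]
    rfl
  have hfA : f ∈ At A3 L2 := by
    intro x hx
    rw [hft] at hx
    exact he x hx.1
  have haf : a ∈ f.target := by
    rw [hft]
    exact ⟨hae, hbe'⟩
  have hfs : ∀ x ∈ f.target, emb (f.symm x) ∈ e'.source ∧ e' (emb (f.symm x)) = eq34 (x, 0) := by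
    intro x hx
    obtain ⟨hx1, hx2⟩ := hfA x hx
    have hx3 : eq34 (x, 0) ∈ e'.target := by
      rw [hft] at hx
      exact hx.2
    obtain ⟨hx4, hx5⟩ := he' _ hx3
    rw [hx2, key x hx1 hx4, ← hx5]
    exact ⟨e'.map_target hx3, e'.right_inv hx3⟩
  have hya : mk L2 ⟨kp A3 a, ha⟩ ∈ f.source := by
    obtain ⟨_, h⟩ := hfA a haf
    rw [← h]
    exact f.map_target haf
  refine Manifold.IsImmersionAtOfComplement.mk_of_charts eq34 f e' hya ?_ ?_ ?_ ?_ ?_
  · have := (hfs a haf).1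
    obtain ⟨_, h⟩ := hfA a haf
    rwa [h] at this
  · exact IsManifold.subset_maximalAtlas hfA
  · exact IsManifold.subset_maximalAtlas he'
  · intro z hz
    have := (hfs (f z) (f.map_source hz)).1
    rwa [f.left_inv hz] at this
  · intro x hx
    have hx' : x ∈ f.target := by simpa using hx
    have := (hfs x hx').2
    simpa using this

end

end Pool.Agent.TH650.Emb
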