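import Pool.Agent.Helper554.Smith.Defs

/-! Alexander-Spanier cochains mod 3 on compact subsets of metric spaces: Mayer-Vietoris, tautness,
homotopy invariance (adapted from Helper554/Smith). -/

set_option autoImplicit false

open Set

namespace Pool.Agent.TH650.AS

open Pool.Agent.Helper554.Smith

namespace MV

section
variable {Ω : Type*} [MetricSpace Ω]

omit [MetricSpace Ω] in
/-- the prism operator vanishes if the cochain does on all lists of points of `V`. -/
theorem pr_eq_zero {Ω' : Type*} (f g : Ω → Ω') (V : Set Ω') (l : List Ω) :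
    ∀ (F : List Ω' → ZMod 3),
      (∀ l' : List Ω', l'.length = l.length + 1 → (∀ p ∈ l', p ∈ V) → F l' = 0) →
      (∀ x ∈ l, f x ∈ V ∧ g x ∈ V) → pr f g F l = 0 := by
  induction l with
  | nil => intro F _ _; rfl
  | cons x l ih =>
    intro F hF hV
    rw [pr_cons, ih (fun l' => F (f x :: l')), sub_zero]
    · apply hF
      · simp
      · intro p hp
        rcases List.mem_cons.1 hp with rfl | hp
        · exact (hV x (by simp)).1
        rcases List.mem_cons.1 hp with rfl | hp
        · exact (hV x (by simp)).2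
        obtain ⟨y, hy, rfl⟩ := List.mem_map.1 hp
        exact (hV y (List.mem_cons_of_mem _ hy)).2
    · intro l' hl' hV'
      apply hF
      · simp [hl']
      · intro p hp
        rcases List.mem_cons.1 hp with rfl | hp
        · exact (hV x (by simp)).1
        · exact hV' p hp
    · intro y hy
      exact hV y (List.mem_cons_of_mem _ hy)

/-- separation lemma. -/
theorem sep (A B : Set Ω) (hA : IsCompact A) (hB : IsCompact B) (η : ℝ) (hη : 0 < η) :
    ∃ δ > 0, ∀ x ∈ A, ∀ y ∈ B, dist x y < δ → ∃ z ∈ A ∩ B, dist x z < η := by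
  set K : Set Ω := A ∩ ⋂ z ∈ A ∩ B, {x | η ≤ dist x z} with hK
  have hKc : IsCompact K := by
    apply hA.inter_right
    refine isClosed_biInter fun z _ => ?_
    exact isClosed_le continuous_const (continuous_id.dist continuous_const)
  have hdisj : Disjoint K B := by
    rw [Set.disjoint_left]
    rintro x ⟨hxA, hx⟩ hxB
    rw [Set.mem_iInter₂] at hx
    have := hx x ⟨hxA, hxB⟩
    simp only [Set.mem_ofPred_eq, dist_self] at this
    linarith
  obtain ⟨δ, hδ, hd⟩ := hdisj.exists_thickenings hKc hB.isClosed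
  refine ⟨δ, hδ, fun x hx y hy hxy => ?_⟩
  by_contra hcon
  push Not at hcon
  have hxK : x ∈ K := ⟨hx, by
    rw [Set.mem_iInter₂]
    intro z hz
    exact hcon z hz⟩
  have t1 : y ∈ Metric.thickening δ K := by
    rw [Metric.mem_thickening_iff]
    exact ⟨x, hxK, by rw [dist_comm]; exact hxy⟩
  have t2 : y ∈ Metric.thickening δ B := by
    rw [Metric.mem_thickening_iff]
    exact ⟨y, hy, by rw [dist_self]; exact hδ⟩
  exact Set.disjoint_left.1 hd t1 t2

/-- L3: Mayer-Vietoris, injectivity part. -/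
theorem mv_glue (A B : Set Ω) (hA : IsCompact A) (hB : IsCompact B) (q : ℕ)
    (c a b : List Ω → ZMod 3) (hc : Coc (A ∪ B) (q + 1) c) (ha : Nl A (q + 1) (c - d a))
    (hb : Nl B (q + 1) (c - d b)) (hab : Cob (A ∩ B) q (a - b)) : Cob (A ∪ B) (q + 1) c := by
  classical
  obtain ⟨e, he⟩ := hab
  set b' : List Ω → ZMod 3 := b + d e with hb'
  have hdb' : d b' = d b := by rw [hb', d_add, d_d, add_zero]
  rw [← hdb'] at hb
  have he' : Nl (A ∩ B) q (a - b') := by
    have : a - b' = a - b - d e := by rw [hb']; abel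
    rw [this]; exact he
  obtain ⟨e1, he1, h1⟩ := ha
  obtain ⟨e2, he2, h2⟩ := hb
  obtain ⟨e3, he3, h3⟩ := he'
  obtain ⟨e4, he4, h4⟩ := hc
  obtain ⟨ε, hε, hε1, hε2, hε3, hε4⟩ : ∃ ε > 0, ε ≤ e1 ∧ ε ≤ e2 ∧ ε ≤ e3 ∧ ε ≤ e4 :=
    ⟨min (min e1 e2) (min e3 e4), lt_min (lt_min he1 he2) (lt_min he3 he4),
      (min_le_left _ _).trans (min_le_left _ _), (min_le_left _ _).trans (min_le_right _ _),
      (min_le_right _ _).trans (min_le_left _ _), (min_le_right _ _).trans (min_le_right _ _)⟩
  have hη : 0 < ε / 8 := by positivity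
  obtain ⟨δ0, hδ0, hsep⟩ := sep A B hA hB (ε / 8) hη
  set δ := min δ0 (ε / 8) with hδdef
  have hδ : 0 < δ := lt_min hδ0 hη
  have hδ1 : δ ≤ δ0 := min_le_left _ _
  have hδ2 : δ ≤ ε / 8 := min_le_right _ _
  -- the map φ
  let φ : Ω → Ω := fun x => if h : ∃ z ∈ A ∩ B, dist x z < ε / 4 then h.choose else x
  have φpos : ∀ x, (∃ z ∈ A ∩ B, dist x z < ε / 4) → φ x ∈ A ∩ B := by
    intro x h
    simp only [φ, dif_pos h]
    exact h.choose_spec.1
  have φneg : ∀ x, (¬ ∃ z ∈ A ∩ B, dist x z < ε / 4) → φ x = x := by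
    intro x h
    simp only [φ, dif_neg h]
  have φdist : ∀ x, dist x (φ x) < ε / 4 := by
    intro x
    by_cases h : ∃ z ∈ A ∩ B, dist x z < ε / 4
    · simp only [φ, dif_pos h]
      exact h.choose_spec.2
    · rw [φneg x h, dist_self]; positivity
  have φA : ∀ x ∈ A, φ x ∈ A := by
    intro x hx
    by_cases h : ∃ z ∈ A ∩ B, dist x z < ε / 4
    · exact (φpos x h).1
    · rw [φneg x h]; exact hx
  have φB : ∀ x ∈ B, φ x ∈ B := by
    intro x hx
    by_cases h : ∃ z ∈ A ∩ B, dist x z < ε / 4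
    · exact (φpos x h).2
    · rw [φneg x h]; exact hx
  have φAB : ∀ l : List Ω, Sm (A ∪ B) δ l → (∀ p ∈ l, φ p ∈ A) ∨ (∀ p ∈ l, φ p ∈ B) := by
    intro l hl
    by_cases hlA : ∀ p ∈ l, p ∈ A
    · exact Or.inl fun p hp => φA p (hlA p hp)
    by_cases hlB : ∀ p ∈ l, p ∈ B
    · exact Or.inr fun p hp => φB p (hlB p hp)
    push Not at hlA hlB
    obtain ⟨y, hy, hyA⟩ := hlA
    obtain ⟨x, hx, hxB⟩ := hlB
    have hyB : y ∈ B := (hl.1 y hy).resolve_left hyA
    have hxA : x ∈ A := (hl.1 x hx).resolve_right hxB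
    obtain ⟨z, hz, hxz⟩ := hsep x hxA y hyB ((hl.2 x hx y hy).trans_le hδ1)
    left
    intro p hp
    refine (φpos p ⟨z, hz, ?_⟩).1
    have := hl.2 p hp x hx
    have := dist_triangle p x z
    linarith
  -- the glued cochain
  let w : List Ω → ZMod 3 := fun l' => if (∀ x ∈ l', x ∈ A) then a l' else b' l'
  have wA : ∀ l' : List Ω, l'.length = q + 1 → Sm A ε l' → d w l' = c l' := by
    intro l' hl' hs
    have e1' : d w l' = d a l' := by
      apply d_congr
      intro l'' _ hsub
      exact if_pos fun x hx => hs.1 x (hsub hx)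
    rw [e1']
    have := h1 l' hl' (hs.mono le_rfl hε1)
    rw [Pi.sub_apply, sub_eq_zero] at this
    exact this.symm
  have wB : ∀ l' : List Ω, l'.length = q + 1 → Sm B ε l' → d w l' = c l' := by
    intro l' hl' hs
    have e1' : d w l' = d b' l' := by
      apply d_congr
      intro l'' hlen hsub
      by_cases hA' : ∀ x ∈ l'', x ∈ A
      · have e2' : w l'' = a l'' := if_pos hA'
        rw [e2']
        have := h3 l'' (by omega) ⟨fun x hx => ⟨hA' x hx, hs.1 x (hsub hx)⟩,
          fun x hx y hy => (hs.2 x (hsub hx) y (hsub hy)).trans_le hε3⟩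
        rw [Pi.sub_apply, sub_eq_zero] at this
        exact this
      · exact if_neg hA'
    rw [e1']
    have := h2 l' hl' (hs.mono le_rfl hε2)
    rw [Pi.sub_apply, sub_eq_zero] at this
    exact this.symm
  refine ⟨pb φ w - pr id φ c, δ, hδ, fun l hl hs => ?_⟩
  -- distances
  have hdist1 : ∀ x ∈ l, ∀ y ∈ l, dist (φ x) (φ y) < ε := by
    intro x hx y hy
    have a1 := φdist x
    have a2 := φdist y
    have a3 := hs.2 x hx y hy
    have a4 := dist_triangle4 (φ x) x y (φ y)
    rw [dist_comm (φ x) x] at a4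
    linarith
  have hmap : c (l.map φ) = d w (l.map φ) := by
    rcases φAB l hs with h | h
    · refine (wA _ (by simpa using hl) ⟨?_, ?_⟩).symm
      · intro p hp
        obtain ⟨x, hx, rfl⟩ := List.mem_map.1 hp
        exact h x hx
      · intro p hp p' hp'
        obtain ⟨x, hx, rfl⟩ := List.mem_map.1 hp
        obtain ⟨y, hy, rfl⟩ := List.mem_map.1 hp'
        exact hdist1 x hx y hy
    · refine (wB _ (by simpa using hl) ⟨?_, ?_⟩).symm
      · intro p hp
        obtain ⟨x, hx, rfl⟩ := List.mem_map.1 hp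
        exact h x hx
      · intro p hp p' hp'
        obtain ⟨x, hx, rfl⟩ := List.mem_map.1 hp
        obtain ⟨y, hy, rfl⟩ := List.mem_map.1 hp'
        exact hdist1 x hx y hy
  have hpr : pr id φ (d c) l = 0 := by
    apply pr_eq_zero id φ {p | ∃ x ∈ l, p = x ∨ p = φ x} l
    · intro l' hl' hV
      refine h4 l' (by omega) ⟨?_, ?_⟩
      · intro p hp
        obtain ⟨x, hx, h | h⟩ := hV p hp
        · rw [h]; exact hs.1 x hx
        · rw [h]
          rcases hs.1 x hx with hxA | hxB
          · exact Or.inl (φA x hxA)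
          · exact Or.inr (φB x hxB)
      · intro p hp p' hp'
        obtain ⟨x, hx, h⟩ := hV p hp
        obtain ⟨y, hy, h'⟩ := hV p' hp'
        have d1 : dist p x < ε / 4 := by
          rcases h with h | h
          · rw [h, dist_self]; positivity
          · rw [h, dist_comm]; exact φdist x
        have d2 : dist y p' < ε / 4 := by
          rcases h' with h | h
          · rw [h, dist_self]; positivity
          · rw [h]; exact φdist y
        have d3 := hs.2 x hx y hy
        have d4 := dist_triangle4 p x y p'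
        linarith
    · intro x hx
      exact ⟨⟨x, hx, Or.inl rfl⟩, ⟨x, hx, Or.inr rfl⟩⟩
  have hprism := congrFun (prism (id : Ω → Ω) φ c) l
  simp only [Pi.add_apply, Pi.sub_apply, pb, List.map_id] at hprism
  rw [hpr, add_zero] at hprism
  rw [Pi.sub_apply, d_sub, Pi.sub_apply, d_pb]
  have e5 : pb φ (d w) l = d w (l.map φ) := rfl
  rw [e5, ← hmap, hprism]
  ring

end

end MV

namespace MVc

section aux1030

theorem aux1030_pr {Ω Ω' : Type*} (V : Set Ω') (f g : Ω → Ω') : ∀ (l : List Ω) (F : List Ω' → ZMod 3),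
    (∀ l' : List Ω', l'.length = l.length + 1 → (∀ x ∈ l', x ∈ V) → F l' = 0) →
    (∀ x ∈ l, f x ∈ V) → (∀ x ∈ l, g x ∈ V) → pr f g F l = 0
  | [], F, _, _, _ => rfl
  | x :: l, F, hF, hf, hg => by
    rw [pr_cons]
    have h1 : F (f x :: g x :: l.map g) = 0 := by
      apply hF
      · simp
      · intro y hy
        rcases List.mem_cons.1 hy with rfl | hy
        · exact hf x (by simp)
        rcases List.mem_cons.1 hy with rfl | hy
        · exact hg x (by simp)
        · obtain ⟨z, hz, rfl⟩ := List.mem_map.1 hy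
          exact hg z (List.mem_cons_of_mem _ hz)
    have h2 : pr f g (fun l' => F (f x :: l')) l = 0 := by
      apply aux1030_pr V f g l
      · intro l' hl' hV
        apply hF
        · simp [hl']
        · intro y hy
          rcases List.mem_cons.1 hy with rfl | hy
          · exact hf x (by simp)
          · exact hV y hy
      · exact fun y hy => hf y (List.mem_cons_of_mem _ hy)
      · exact fun y hy => hg y (List.mem_cons_of_mem _ hy)
    rw [h1, h2, sub_zero]

theorem aux1030_sep {Ω : Type*} [MetricSpace Ω] (A B : Set Ω) (hA : IsCompact A)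
    (hB : IsCompact B) (η : ℝ) (hη : 0 < η) :
    ∃ δ, 0 < δ ∧ δ ≤ η ∧ ∀ x ∈ A, ∀ y ∈ B, dist x y < δ → ∃ z ∈ A ∩ B, dist x z < η := by
  let K : Set Ω := A ∩ {x | ∀ z ∈ A ∩ B, η ≤ dist x z}
  have hK : IsCompact K := by
    apply hA.inter_right
    have : {x : Ω | ∀ z ∈ A ∩ B, η ≤ dist x z} = ⋂ z ∈ A ∩ B, {x | η ≤ dist x z} := by
      ext x; simp
    rw [this]
    refine isClosed_biInter fun z _ => ?_
    exact isClosed_le continuous_const (continuous_id.dist continuous_const)
  have hdis : Disjoint K B := by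
    rw [Set.disjoint_left]
    rintro x ⟨hxA, hx⟩ hxB
    have := hx x ⟨hxA, hxB⟩
    rw [dist_self] at this
    linarith
  obtain ⟨r, hr, h⟩ := Metric.exists_pos_forall_lt_edist hK hB.isClosed hdis
  refine ⟨min r η, lt_min (by exact_mod_cast hr) hη, min_le_right _ _, ?_⟩
  intro x hx y hy hxy
  by_contra hc
  push Not at hc
  have h1 := h x ⟨hx, hc⟩ y hy
  rw [edist_dist, ← ENNReal.ofReal_coe_nnreal, ENNReal.ofReal_lt_ofReal_iff_of_nonneg (by positivity)] at h1
  have := min_le_left (r : ℝ) η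
  linarith

end aux1030

section
variable {Ω : Type*} [MetricSpace Ω]

/-- L3b: gluing, the surjectivity part of Mayer-Vietoris: the connecting homomorphism. -/
theorem mv_connect (A B : Set Ω) (hA : IsCompact A) (hB : IsCompact B) (q : ℕ)
    (c : List Ω → ZMod 3) (hc : Coc (A ∩ B) q c) :
    ∃ u a b : List Ω → ZMod 3, Coc (A ∪ B) (q + 1) u ∧ Nl A (q + 1) (u - d a) ∧
      Nl B (q + 1) (u - d b) ∧ Nl (A ∩ B) q (a - b - c) := by
  classical
  obtain ⟨ε, hε, hc⟩ := hc
  obtain ⟨δ, hδ, hδη, hsep⟩ := aux1030_sep A B hA hB (ε / 8) (by positivity)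
  let φ : Ω → Ω := fun x => if h : ∃ z ∈ A ∩ B, dist x z < 2 * (ε / 8) then h.choose else x
  have hφ : ∀ x, (φ x ∈ A ∩ B ∧ dist x (φ x) < 2 * (ε / 8)) ∨
      (φ x = x ∧ ¬ ∃ z ∈ A ∩ B, dist x z < 2 * (ε / 8)) := by
    intro x
    by_cases h : ∃ z ∈ A ∩ B, dist x z < 2 * (ε / 8)
    · left
      have e : φ x = h.choose := by simp only [φ, dif_pos h]
      rw [e]
      exact h.choose_spec
    · right
      have e : φ x = x := by simp only [φ, dif_neg h]
      exact ⟨e, h⟩
  have hφd : ∀ x, dist x (φ x) < 2 * (ε / 8) := by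
    intro x
    rcases hφ x with h | h
    · exact h.2
    · rw [h.1, dist_self]; positivity
  have hφA : ∀ x ∈ A, φ x ∈ A := by
    intro x hx
    rcases hφ x with h | h
    · exact h.1.1
    · rw [h.1]; exact hx
  have hφB : ∀ x ∈ B, φ x ∈ B := by
    intro x hx
    rcases hφ x with h | h
    · exact h.1.2
    · rw [h.1]; exact hx
  have hφ4 : ∀ l : List Ω, Sm (A ∪ B) δ l → (∀ x ∈ l.map φ, x ∈ A) ∨ (∀ x ∈ l.map φ, x ∈ B) := by
    intro l hl
    by_cases h1 : ∀ x ∈ l, x ∈ A
    · left
      intro x hx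
      obtain ⟨y, hy, rfl⟩ := List.mem_map.1 hx
      exact hφA y (h1 y hy)
    by_cases h2 : ∀ x ∈ l, x ∈ B
    · right
      intro x hx
      obtain ⟨y, hy, rfl⟩ := List.mem_map.1 hx
      exact hφB y (h2 y hy)
    push Not at h1 h2
    obtain ⟨y, hy, hyA⟩ := h1
    obtain ⟨x, hx, hxB⟩ := h2
    have hyB : y ∈ B := (hl.1 y hy).resolve_left hyA
    have hxA : x ∈ A := (hl.1 x hx).resolve_right hxB
    obtain ⟨z, hz, hxz⟩ := hsep x hxA y hyB (hl.2 x hx y hy)
    left
    intro w hw
    obtain ⟨v, hv, rfl⟩ := List.mem_map.1 hw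
    rcases hφ v with h | h
    · exact h.1.1
    · exfalso
      apply h.2
      refine ⟨z, hz, ?_⟩
      have h3 := hl.2 v hv x hx
      have h4 := dist_triangle v x z
      linarith
  have hφ5 : ∀ l : List Ω, (∀ x ∈ l, ∀ y ∈ l, dist x y < δ) →
      ∀ x ∈ l.map φ, ∀ y ∈ l.map φ, dist x y < ε := by
    intro l hl x hx y hy
    obtain ⟨x', hx', rfl⟩ := List.mem_map.1 hx
    obtain ⟨y', hy', rfl⟩ := List.mem_map.1 hy
    have h1 := hl x' hx' y' hy'
    have h2 := hφd x'
    have h3 := hφd y'
    have h4 := dist_triangle4 (φ x') x' y' (φ y')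
    rw [dist_comm (φ x') x'] at h4
    linarith
  let w : List Ω → ZMod 3 := fun l => if ∀ x ∈ l, x ∈ A ∩ B then c l else 0
  let U : List Ω → ZMod 3 := fun l => if ∀ x ∈ l, x ∈ A then d w l else 0
  have hw : ∀ l : List Ω, (∀ x ∈ l, x ∈ A ∩ B) → w l = c l := fun l h => if_pos h
  have hU : ∀ l : List Ω, (∀ x ∈ l, x ∈ A) → U l = d w l := fun l h => if_pos h
  have hU0 : ∀ l : List Ω, (¬ ∀ x ∈ l, x ∈ A) → U l = 0 := fun l h => if_neg h
  have hdw : ∀ l : List Ω, (∀ x ∈ l, x ∈ A ∩ B) → d w l = d c l := by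
    intro l hl
    exact d_congr l fun l' _ hs => hw l' fun x hx => hl x (hs hx)
  -- U vanishes on small lists of length q+1 in B
  have hUB : ∀ l : List Ω, l.length = q + 1 → (∀ x ∈ l, x ∈ B) → (∀ x ∈ l, ∀ y ∈ l, dist x y < ε) →
      U l = 0 := by
    intro l hl hB' hs
    by_cases h : ∀ x ∈ l, x ∈ A
    · have h2 : ∀ x ∈ l, x ∈ A ∩ B := fun x hx => ⟨h x hx, hB' x hx⟩
      rw [hU l h, hdw l h2]
      exact hc l hl ⟨h2, hs⟩
    · exact hU0 l h
  refine ⟨pb φ U, pb φ w - d (pr id φ c), 0, ?_, ?_, ?_, ?_⟩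
  · refine ⟨δ, hδ, fun l hl hs => ?_⟩
    rw [d_pb]
    show d U (l.map φ) = 0
    have hs' := hφ5 l hs.2
    rcases hφ4 l hs with h | h
    · have e : d U (l.map φ) = d (d w) (l.map φ) :=
        d_congr _ fun l' _ hsub => hU l' fun x hx => h x (hsub hx)
      rw [e, d_d]; rfl
    · apply d_eq_zero
      intro l' hl' hsub
      apply hUB l'
      · rw [List.length_map] at hl'
        omega
      · exact fun x hx => h x (hsub hx)
      · exact fun x hx y hy => hs' x (hsub hx) y (hsub hy)
  · refine ⟨1, one_pos, fun l hl hs => ?_⟩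
    rw [d_sub, d_d, sub_zero, d_pb]
    show U (l.map φ) - d w (l.map φ) = 0
    rw [hU, sub_self]
    intro x hx
    obtain ⟨y, hy, rfl⟩ := List.mem_map.1 hx
    exact hφA y (hs.1 y hy)
  · refine ⟨δ, hδ, fun l hl hs => ?_⟩
    rw [d_zero, sub_zero]
    show U (l.map φ) = 0
    apply hUB
    · rw [List.length_map]; exact hl
    · intro x hx
      obtain ⟨y, hy, rfl⟩ := List.mem_map.1 hx
      exact hφB y (hs.1 y hy)
    · exact hφ5 l hs.2
  · refine ⟨δ, hδ, fun l hl hs => ?_⟩
    have hp := congrFun (prism (id : Ω → Ω) φ c) l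
    simp only [Pi.add_apply, Pi.sub_apply] at hp ⊢
    have e1 : pb φ w l = pb φ c l := by
      show w (l.map φ) = c (l.map φ)
      apply hw
      intro x hx
      obtain ⟨y, hy, rfl⟩ := List.mem_map.1 hx
      exact ⟨hφA y (hs.1 y hy).1, hφB y (hs.1 y hy).2⟩
    have e2 : pb (id : Ω → Ω) c l = c l := by
      show c (l.map id) = c l
      rw [List.map_id]
    have e3 : pr (id : Ω → Ω) φ (d c) l = 0 := by
      apply aux1030_pr ({x | x ∈ l} ∪ {x | x ∈ l.map φ})
      · intro l' hl' hV
        apply hc l' (by omega)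
        have hdd : ∀ x ∈ l, ∀ y ∈ l, dist x y < ε := fun x hx y hy => by
          have := hs.2 x hx y hy
          linarith
        refine ⟨?_, ?_⟩
        · intro x hx
          rcases hV x hx with h | h
          · exact hs.1 x h
          · obtain ⟨y, hy, rfl⟩ := List.mem_map.1 h
            exact ⟨hφA y (hs.1 y hy).1, hφB y (hs.1 y hy).2⟩
        · intro x hx y hy
          rcases hV x hx with h | h <;> rcases hV y hy with h' | h'
          · exact hdd x h y h'
          · obtain ⟨y', hy', rfl⟩ := List.mem_map.1 h'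
            have h1 := hs.2 x h y' hy'
            have h2 := hφd y'
            have h3 := dist_triangle x y' (φ y')
            linarith
          · obtain ⟨x', hx', rfl⟩ := List.mem_map.1 h
            have h1 := hs.2 x' hx' y h'
            have h2 := hφd x'
            have h3 := dist_triangle (φ x') x' y
            rw [dist_comm (φ x') x'] at h3
            linarith
          · exact hφ5 l hs.2 x h y h'
      · intro x hx
        exact Or.inl hx
      · intro x hx
        exact Or.inr (List.mem_map_of_mem hx)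
    rw [e1, Pi.zero_apply]
    rw [e2, e3] at hp
    linear_combination -hp

end

end MVc

namespace Taut

/-- the prism operator vanishes when the cochain vanishes on all lists of the points involved. -/
theorem pr_eq_zero {Ω : Type*} {Ω' : Type*} (f g : Ω → Ω') (V : Set Ω') (n : ℕ)
    (F : List Ω' → ZMod 3) (hF : ∀ l' : List Ω', l'.length = n + 1 → (∀ x ∈ l', x ∈ V) → F l' = 0)
    (l : List Ω) (hl : l.length = n) (hV : ∀ x ∈ l, f x ∈ V ∧ g x ∈ V) : pr f g F l = 0 := by
  induction l generalizing n F with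
  | nil => simp
  | cons x l ih =>
    have hx := hV x List.mem_cons_self
    have hl' : l.length + 1 = n := by simpa using hl
    rw [pr_cons]
    have h1 : F (f x :: g x :: l.map g) = 0 := by
      apply hF
      · simp only [List.length_cons, List.length_map]
        omega
      · intro z hz
        rcases List.mem_cons.1 hz with rfl | hz
        · exact hx.1
        rcases List.mem_cons.1 hz with rfl | hz
        · exact hx.2
        obtain ⟨y, hy, rfl⟩ := List.mem_map.1 hz
        exact (hV y (List.mem_cons_of_mem _ hy)).2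
    have h2 : pr f g (fun l' => F (f x :: l')) l = 0 := by
      apply ih l.length
      · intro l' hl'' hz
        apply hF
        · simp only [List.length_cons]
          omega
        · intro z hz'
          rcases List.mem_cons.1 hz' with rfl | hz'
          · exact hx.1
          · exact hz z hz'
      · rfl
      · intro y hy
        exact hV y (List.mem_cons_of_mem _ hy)
    rw [h1, h2, sub_zero]

section
variable {Ω : Type*} [MetricSpace Ω]

/-- L2: tautness. -/
theorem taut (X A : Set Ω) (hAX : A ⊆ X) (q : ℕ) (c : List Ω → ZMod 3)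
    (hc : Coc X q c) (hcA : Cob A q c) :
    ∃ O : Set Ω, IsOpen O ∧ A ⊆ O ∧ Cob (X ∩ O) q c := by
  classical
  obtain ⟨ε0, hε0, hc0⟩ := hc
  obtain ⟨b, ε1, hε1, hb⟩ := hcA
  set ε : ℝ := min ε0 ε1 with hε
  have hεpos : 0 < ε := lt_min hε0 hε1
  set η : ℝ := ε / 4 with hη
  have hηpos : 0 < η := by positivity
  refine ⟨Metric.thickening η A, Metric.isOpen_thickening, Metric.self_subset_thickening hηpos A, ?_⟩
  let φ : Ω → Ω := fun x => if h : ∃ a ∈ A, dist x a < η then h.choose else x
  have hφ : ∀ x ∈ Metric.thickening η A, φ x ∈ A ∧ dist x (φ x) < η := by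
    intro x hx
    rw [Metric.mem_thickening_iff] at hx
    have : φ x = hx.choose := dif_pos hx
    rw [this]
    exact hx.choose_spec
  refine ⟨pb φ b - pr id φ c, η, hηpos, ?_⟩
  intro l hl hs
  have hO : ∀ x ∈ l, φ x ∈ A ∧ dist x (φ x) < η := fun x hx => hφ x (hs.1 x hx).2
  set V : Set Ω := {z | ∃ x ∈ l, z ∈ X ∧ dist x z < η} with hV
  have hVd : ∀ z ∈ V, ∀ w ∈ V, dist z w < ε := by
    rintro z ⟨x, hx, -, hxz⟩ w ⟨y, hy, -, hyw⟩
    have h1 := hs.2 x hx y hy
    have h2 := dist_triangle4 z x y w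
    rw [dist_comm z x] at h2
    linarith
  have hidV : ∀ x ∈ l, (id x : Ω) ∈ V ∧ φ x ∈ V := by
    intro x hx
    refine ⟨⟨x, hx, (hs.1 x hx).1, ?_⟩, ⟨x, hx, hAX (hO x hx).1, (hO x hx).2⟩⟩
    simpa using hηpos
  have hpr : pr id φ (d c) l = 0 := by
    apply pr_eq_zero id φ V q (d c) _ l hl hidV
    intro l' hl' hz
    apply hc0 l' hl'
    refine ⟨fun x hx => ?_, fun x hx y hy => (hVd x (hz x hx) y (hz y hy)).trans_le (min_le_left _ _)⟩
    obtain ⟨_, _, h, _⟩ := hz x hx
    exact h
  have hA2 : (c - d b) (l.map φ) = 0 := by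
    apply hb
    · rw [List.length_map, hl]
    · constructor
      · intro z hz
        obtain ⟨y, hy, rfl⟩ := List.mem_map.1 hz
        exact (hO y hy).1
      · intro z hz w hw
        obtain ⟨y, hy, rfl⟩ := List.mem_map.1 hz
        obtain ⟨y', hy', rfl⟩ := List.mem_map.1 hw
        exact (hVd _ (hidV y hy).2 _ (hidV y' hy').2).trans_le (min_le_right _ _)
  have hpm := congrFun (prism id φ c) l
  simp only [Pi.add_apply, Pi.sub_apply] at hpm
  rw [hpr, add_zero] at hpm
  have hid : pb id c l = c l := by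
    rw [pb, List.map_id]
  rw [hid] at hpm
  rw [d_sub, d_pb]
  simp only [Pi.sub_apply] at hA2 ⊢
  rw [hpm]
  show c l - (pb φ (d b) l - (pb φ c l - c l)) = 0
  have e1 : pb φ (d b) l = d b (l.map φ) := rfl
  have e2 : pb φ c l = c (l.map φ) := rfl
  rw [e1, e2]
  linear_combination hA2


end

end Taut

end Pool.Agent.TH650.AS
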