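import Pool.Agent.TH650.Emb.ASDefs

/-! Basic operations on Alexander-Spanier cochains. -/

set_option autoImplicit false

open Set

namespace Pool.Agent.TH650.AS

open Pool.Agent.Helper554.Smith Pool.Agent.TH650.Emb

noncomputable section

variable {Ω Ω' : Type} [MetricSpace Ω] [MetricSpace Ω']

/-! ### pull back -/

theorem Nl_pb {K : Set Ω} {K' : Set Ω'} (hK : IsCompact K) {φ : Ω → Ω'} (hφ : ContinuousOn φ K)
    (hm : MapsTo φ K K') {q : ℕ} {c : List Ω' → ZMod 3} (hc : Nl K' q c) : Nl K q (pb φ c) := by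
  obtain ⟨ε, hε, h⟩ := hc
  have huc := hK.uniformContinuousOn_of_continuous hφ
  rw [Metric.uniformContinuousOn_iff] at huc
  obtain ⟨δ, hδ, hd⟩ := huc ε hε
  refine ⟨δ, hδ, fun l hl hs => h _ (by simpa using hl) ⟨?_, ?_⟩⟩
  · intro x hx
    obtain ⟨y, hy, rfl⟩ := List.mem_map.1 hx
    exact hm (hs.1 y hy)
  · intro x hx x' hx'
    obtain ⟨y, hy, rfl⟩ := List.mem_map.1 hx
    obtain ⟨y', hy', rfl⟩ := List.mem_map.1 hx'
    exact hd y (hs.1 y hy) y' (hs.1 y' hy') (hs.2 y hy y' hy')

theorem Coc_pb {K : Set Ω} {K' : Set Ω'} (hK : IsCompact K) {φ : Ω → Ω'} (hφ : ContinuousOn φ K)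
    (hm : MapsTo φ K K') {q : ℕ} {c : List Ω' → ZMod 3} (hc : Coc K' q c) :
    Coc K q (pb φ c) := by
  unfold Coc
  rw [d_pb]
  exact Nl_pb hK hφ hm hc

theorem Cob_pb {K : Set Ω} {K' : Set Ω'} (hK : IsCompact K) {φ : Ω → Ω'} (hφ : ContinuousOn φ K)
    (hm : MapsTo φ K K') {q : ℕ} {c : List Ω' → ZMod 3} (hc : Cob K' q c) :
    Cob K q (pb φ c) := by
  obtain ⟨b, hb⟩ := hc
  refine ⟨pb φ b, ?_⟩
  rw [d_pb]
  exact Nl_pb hK hφ hm hb

/-- cochains that agree on lists of points of `K` have cohomologous pull backs etc. -/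
theorem Nl_congr {K : Set Ω} {q : ℕ} {b c : List Ω → ZMod 3}
    (h : ∀ l : List Ω, l.length = q → (∀ x ∈ l, x ∈ K) → b l = c l) : Nl K q (b - c) :=
  ⟨1, one_pos, fun l hl hs => by rw [Pi.sub_apply, h l hl hs.1, sub_self]⟩

/-- maps that agree on `K` have the same pull back there -/
theorem pb_congr {K : Set Ω} {φ ψ : Ω → Ω'} (h : ∀ x ∈ K, φ x = ψ x) (q : ℕ)
    (c : List Ω' → ZMod 3) : Nl K q (pb φ c - pb ψ c) := by
  apply Nl_congr
  intro l _ hl
  have : l.map φ = l.map ψ := List.map_congr_left fun x hx => h x (hl x hx)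
  simp only [pb, this]

/-- a homeomorphism between compact sets: classes can be pulled back along its inverse -/
theorem pull_inv [Nonempty Ω] {K : Set Ω} {K' : Set Ω'} (hK : IsCompact K) {φ : Ω → Ω'}
    (hφ : ContinuousOn φ K) (hm : φ '' K = K') (hi : InjOn φ K) :
    ∃ ψ : Ω' → Ω, ContinuousOn ψ K' ∧ MapsTo ψ K' K ∧ (∀ x ∈ K, ψ (φ x) = x) ∧
      ∀ y ∈ K', φ (ψ y) = y := by
  classical
  have : CompactSpace K := isCompact_iff_compactSpace.1 hK
  let f : K → Ω' := fun x => φ x.1
  have hf : Continuous f := continuousOn_iff_continuous_domRestrict.1 hφ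
  have hfi : Function.Injective f := fun x y h => Subtype.ext (hi x.2 y.2 h)
  have he := (hf.isClosedEmbedding hfi).isEmbedding
  let e := he.toHomeomorph
  have hr : range f = K' := by
    rw [← hm]
    ext y
    simp only [f, mem_range, Subtype.exists, mem_image, exists_prop]
  let ψ : Ω' → Ω := fun y => if h : y ∈ range f then (e.symm ⟨y, h⟩).1 else Classical.arbitrary Ω
  have hψ : ∀ x ∈ K, ψ (φ x) = x := by
    intro x hx
    have h : φ x ∈ range f := ⟨⟨x, hx⟩, rfl⟩
    simp only [ψ, dif_pos h]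
    have : (⟨φ x, h⟩ : range f) = e ⟨x, hx⟩ := Subtype.ext rfl
    rw [this, e.symm_apply_apply]
  have hψ' : ∀ y ∈ K', ψ y ∈ K ∧ φ (ψ y) = y := by
    intro y hy
    rw [← hm] at hy
    obtain ⟨x, hx, rfl⟩ := hy
    rw [hψ x hx]
    exact ⟨hx, rfl⟩
  refine ⟨ψ, ?_, fun y hy => (hψ' y hy).1, hψ, fun y hy => (hψ' y hy).2⟩
  rw [← hr, continuousOn_iff_continuous_domRestrict]
  have : (range f).domRestrict ψ = fun y => (e.symm y).1 := by
    funext y
    show ψ y.1 = _
    simp only [ψ, dif_pos y.2]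
  rw [this]
  exact continuous_subtype_val.comp e.symm.continuous

/-- transport of cobordance along a homeomorphism -/
theorem Cob_of_pb {K : Set Ω} {K' : Set Ω'} (hK : IsCompact K) {φ : Ω → Ω'}
    (hφ : ContinuousOn φ K) (hm : φ '' K = K') (hi : InjOn φ K) {q : ℕ} {c : List Ω' → ZMod 3}
    (h : Cob K q (pb φ c)) : Cob K' q c := by
  rcases K.eq_empty_or_nonempty with hE | ⟨x0, hx0⟩
  · subst hE
    rw [image_empty] at hm
    subst hm
    rcases Nat.eq_zero_or_pos q with hq | hq
    · subst hq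
      obtain ⟨b, hb⟩ := h
      refine ⟨0, ?_⟩
      rw [nl_zero_iff] at hb ⊢
      simpa [pb] using hb
    · refine ⟨0, 1, one_pos, fun l hl hs => ?_⟩
      cases l with
      | nil => simp at hl; omega
      | cons x l => exact absurd (hs.1 x (by simp)) (notMem_empty x)
  · have : Nonempty Ω := ⟨x0⟩
    obtain ⟨ψ, h1, h2, h3, h4⟩ := pull_inv hK hφ hm hi
    have hK' : IsCompact K' := hm ▸ hK.image_of_continuousOn hφ
    have h5 := Cob_pb hK' h1 h2 h
    have h6 : Nl K' q (c - pb ψ (pb φ c)) := by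
      apply Nl_congr
      intro l _ hl
      simp only [pb, List.map_map]
      have : l.map (φ ∘ ψ) = l := by
        have h7 : l.map (φ ∘ ψ) = l.map id := List.map_congr_left fun x hx => h4 x (hl x hx)
        rw [h7, List.map_id]
      rw [this]
    have := h6.cob.add h5
    rwa [sub_add_cancel] at this

/-- transport of vanishing along a homeomorphism -/
theorem HV_of_homeo {K : Set Ω} {K' : Set Ω'} (hK : IsCompact K) {φ : Ω → Ω'}
    (hφ : ContinuousOn φ K) (hm : φ '' K = K') (hi : InjOn φ K) {q : ℕ} (h : HV K q) :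
    HV K' q := by
  intro c hc
  exact Cob_of_pb hK hφ hm hi (h _ (Coc_pb hK hφ (hm ▸ mapsTo_image φ K) hc))

/-! ### Mayer-Vietoris -/

/-- glueing of classes -/
theorem ext2 {A B : Set Ω} (hA : IsCompact A) (hB : IsCompact B) {q : ℕ} {a b : List Ω → ZMod 3}
    (ha : Coc A q a) (hb : Coc B q b) (hab : Cob (A ∩ B) q (a - b)) :
    ∃ c, Coc (A ∪ B) q c ∧ Cob A q (c - a) ∧ Cob B q (c - b) := by
  classical
  obtain ⟨e, he⟩ := hab
  set b' : List Ω → ZMod 3 := b + d e with hb'
  have hdb' : d b' = d b := by rw [hb', d_add, d_d, add_zero]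
  have hcb' : Coc B q b' := by unfold Coc; rw [hdb']; exact hb
  have he' : Nl (A ∩ B) q (a - b') := by
    have : a - b' = a - b - d e := by rw [hb']; abel
    rw [this]; exact he
  obtain ⟨e1, he1, h1⟩ := ha
  obtain ⟨e2, he2, h2⟩ := hcb'
  obtain ⟨e3, he3, h3⟩ := he'
  obtain ⟨ε, hε, hε1, hε2, hε3⟩ : ∃ ε > 0, ε ≤ e1 ∧ ε ≤ e2 ∧ ε ≤ e3 :=
    ⟨min (min e1 e2) e3, lt_min (lt_min he1 he2) he3,
      (min_le_left _ _).trans (min_le_left _ _), (min_le_left _ _).trans (min_le_right _ _),
      min_le_right _ _⟩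
  have hη : 0 < ε / 8 := by positivity
  obtain ⟨δ0, hδ0, hsep⟩ := MV.sep A B hA hB (ε / 8) hη
  set δ := min δ0 (ε / 8) with hδdef
  have hδ : 0 < δ := lt_min hδ0 hη
  have hδ1 : δ ≤ δ0 := min_le_left _ _
  have hδ2 : δ ≤ ε / 8 := min_le_right _ _
  let φ : Ω → Ω := fun x => if h : ∃ z ∈ A ∩ B, dist x z < ε / 4 then h.choose else x
  have φpos : ∀ x, (∃ z ∈ A ∩ B, dist x z < ε / 4) → φ x ∈ A ∩ B := by
    intro x h
    simp only [φ, dif_pos h]
    exact h.choose_spec.1
  have φneg : ∀ x, (¬ ∃ z ∈ A ∩ B, dist x z < ε / 4) → φ x = x := by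
    intro x h
    simp only [φ, dif_neg h]
  have φdist : ∀ x, dist x (φ x) < ε / 4 := by
    intro x
    by_cases h : ∃ z ∈ A ∩ B, dist x z < ε / 4
    · simp only [φ, dif_pos h]
      exact h.choose_spec.2
    · rw [φneg x h, dist_self]; positivity
  have φA : ∀ x ∈ A, φ x ∈ A := by
    intro x hx
    by_cases h : ∃ z ∈ A ∩ B, dist x z < ε / 4
    · exact (φpos x h).1
    · rw [φneg x h]; exact hx
  have φB : ∀ x ∈ B, φ x ∈ B := by
    intro x hx
    by_cases h : ∃ z ∈ A ∩ B, dist x z < ε / 4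
    · exact (φpos x h).2
    · rw [φneg x h]; exact hx
  have φAB : ∀ l : List Ω, Sm (A ∪ B) δ l → (∀ p ∈ l, φ p ∈ A) ∨ (∀ p ∈ l, φ p ∈ B) := by
    intro l hl
    by_cases hlA : ∀ p ∈ l, p ∈ A
    · exact Or.inl fun p hp => φA p (hlA p hp)
    by_cases hlB : ∀ p ∈ l, p ∈ B
    · exact Or.inr fun p hp => φB p (hlB p hp)
    push Not at hlA hlB
    obtain ⟨y, hy, hyA⟩ := hlA
    obtain ⟨x, hx, hxB⟩ := hlB
    have hyB : y ∈ B := (hl.1 y hy).resolve_left hyA
    have hxA : x ∈ A := (hl.1 x hx).resolve_right hxB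
    obtain ⟨z, hz, hxz⟩ := hsep x hxA y hyB ((hl.2 x hx y hy).trans_le hδ1)
    left
    intro p hp
    refine (φpos p ⟨z, hz, ?_⟩).1
    have := hl.2 p hp x hx
    have := dist_triangle p x z
    linarith
  have hdist : ∀ l : List Ω, (∀ x ∈ l, ∀ y ∈ l, dist x y < δ) →
      ∀ x ∈ l.map φ, ∀ y ∈ l.map φ, dist x y < ε := by
    intro l hl x hx y hy
    obtain ⟨x', hx', rfl⟩ := List.mem_map.1 hx
    obtain ⟨y', hy', rfl⟩ := List.mem_map.1 hy
    have a1 := φdist x'
    have a2 := φdist y'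
    have a3 := hl x' hx' y' hy'
    have a4 := dist_triangle4 (φ x') x' y' (φ y')
    rw [dist_comm (φ x') x'] at a4
    linarith
  let w : List Ω → ZMod 3 := fun l' => if (∀ x ∈ l', x ∈ A) then a l' else b' l'
  have wA : ∀ l' : List Ω, (∀ x ∈ l', x ∈ A) → w l' = a l' := fun l' h => if_pos h
  have wB : ∀ l' : List Ω, l'.length = q → Sm B ε l' → w l' = b' l' := by
    intro l' hl' hs
    by_cases hA' : ∀ x ∈ l', x ∈ A
    · rw [wA l' hA']
      have := h3 l' hl' ⟨fun x hx => ⟨hA' x hx, hs.1 x hx⟩,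
        fun x hx y hy => (hs.2 x hx y hy).trans_le hε3⟩
      rwa [Pi.sub_apply, sub_eq_zero] at this
    · exact if_neg hA'
  -- pulling back a cocycle by φ on a set preserved by φ
  have key : ∀ (K : Set Ω) (f : List Ω → ZMod 3), (∀ x ∈ K, φ x ∈ K) →
      (∀ l : List Ω, l.length = q + 1 → Sm K ε l → d f l = 0) → Cob K q (pb φ f - f) := by
    intro K f hK hf
    refine ⟨pr id φ f, δ, hδ, fun l hl hs => ?_⟩
    have hp := congrFun (prism (id : Ω → Ω) φ f) l
    have e2 : pb (id : Ω → Ω) f l = f l := by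
      show f (l.map id) = f l
      rw [List.map_id]
    have e3 : pr (id : Ω → Ω) φ (d f) l = 0 := by
      apply MV.pr_eq_zero id φ {p | ∃ x ∈ l, p = x ∨ p = φ x} l
      · intro l' hl' hV
        refine hf l' (by omega) ⟨?_, ?_⟩
        · intro p hp
          obtain ⟨x, hx, h | h⟩ := hV p hp
          · rw [h]; exact hs.1 x hx
          · rw [h]; exact hK x (hs.1 x hx)
        · intro p hp p' hp'
          obtain ⟨x, hx, h⟩ := hV p hp
          obtain ⟨y, hy, h'⟩ := hV p' hp'
          have d1 : dist p x < ε / 4 := by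
            rcases h with h | h
            · rw [h, dist_self]; positivity
            · rw [h, dist_comm]; exact φdist x
          have d2 : dist y p' < ε / 4 := by
            rcases h' with h | h
            · rw [h, dist_self]; positivity
            · rw [h]; exact φdist y
          have d3 := hs.2 x hx y hy
          have d4 := dist_triangle4 p x y p'
          linarith
      · intro x hx
        exact ⟨⟨x, hx, Or.inl rfl⟩, ⟨x, hx, Or.inr rfl⟩⟩
    simp only [Pi.add_apply, Pi.sub_apply] at hp ⊢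
    rw [e2, e3] at hp
    linear_combination -hp
  refine ⟨pb φ w, ?_, ?_, ?_⟩
  · refine ⟨δ, hδ, fun l hl hs => ?_⟩
    rw [d_pb]
    show d w (l.map φ) = 0
    have hs' := hdist l hs.2
    rcases φAB l hs with h | h
    · have hA' : ∀ x ∈ l.map φ, x ∈ A := by
        intro x hx
        obtain ⟨y, hy, rfl⟩ := List.mem_map.1 hx
        exact h y hy
      have e : d w (l.map φ) = d a (l.map φ) :=
        d_congr _ fun l' _ hsub => wA l' fun x hx => hA' x (hsub hx)
      rw [e]
      exact h1 _ (by rw [List.length_map, hl])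
        ⟨hA', fun x hx y hy => (hs' x hx y hy).trans_le hε1⟩
    · have hB' : ∀ x ∈ l.map φ, x ∈ B := by
        intro x hx
        obtain ⟨y, hy, rfl⟩ := List.mem_map.1 hx
        exact h y hy
      have e : d w (l.map φ) = d b' (l.map φ) := by
        refine d_congr _ fun l' hl' hsub => wB l' ?_ ⟨fun x hx => hB' x (hsub hx),
          fun x hx y hy => hs' x (hsub hx) y (hsub hy)⟩
        rw [List.length_map] at hl'
        omega
      rw [e]
      exact h2 _ (by rw [List.length_map, hl])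
        ⟨hB', fun x hx y hy => (hs' x hx y hy).trans_le hε2⟩
  · have k1 := key A a φA fun l hl hs => h1 l hl (hs.mono le_rfl hε1)
    have k2 : Nl A q (pb φ w - pb φ a) := by
      apply Nl_congr
      intro l _ hl
      show w (l.map φ) = a (l.map φ)
      apply wA
      intro x hx
      obtain ⟨y, hy, rfl⟩ := List.mem_map.1 hx
      exact φA y (hl y hy)
    have := k2.cob.add k1
    rwa [sub_add_sub_cancel] at this
  · have k1 := key B b' φB fun l hl hs => h2 l hl (hs.mono le_rfl hε2)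
    have k2 : Nl B q (pb φ w - pb φ b') := by
      refine ⟨δ, hδ, fun l hl hs => ?_⟩
      show w (l.map φ) - b' (l.map φ) = 0
      rw [sub_eq_zero]
      refine wB _ (by rw [List.length_map, hl]) ⟨?_, hdist l hs.2⟩
      intro x hx
      obtain ⟨y, hy, rfl⟩ := List.mem_map.1 hx
      exact φB y (hs.1 y hy)
    have k3 := k2.cob.add k1
    rw [sub_add_sub_cancel] at k3
    have k4 := k3.add (cob_d (X := B) (q := q) e)
    have : pb φ w - b' + d e = pb φ w - b := by rw [hb']; abel
    rwa [this] at k4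

/-- small lists in a disjoint union are contained in one of the two sets -/
theorem small_disj {A B : Set Ω} (hA : IsCompact A) (hB : IsCompact B) (hd : Disjoint A B) :
    ∃ δ > 0, ∀ l : List Ω, Sm (A ∪ B) δ l → (∀ x ∈ l, x ∈ A) ∨ (∀ x ∈ l, x ∈ B) := by
  obtain ⟨δ, hδ, h⟩ := MV.sep A B hA hB 1 one_pos
  refine ⟨δ, hδ, fun l hl => ?_⟩
  by_contra hcon
  push Not at hcon
  obtain ⟨⟨y, hy, hyA⟩, ⟨x, hx, hxB⟩⟩ := hcon
  have hyB : y ∈ B := (hl.1 y hy).resolve_left hyA
  have hxA : x ∈ A := (hl.1 x hx).resolve_right hxB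
  obtain ⟨z, hz, _⟩ := h x hxA y hyB (hl.2 x hx y hy)
  exact Set.disjoint_left.1 hd hz.1 hz.2

/-- disjoint unions, positive degree -/
theorem Cob_union_disj {A B : Set Ω} (hA : IsCompact A) (hB : IsCompact B) (hd : Disjoint A B)
    {q : ℕ} (hq : 1 ≤ q) {c : List Ω → ZMod 3} (ha : Cob A (q + 1) c) (hb : Cob B (q + 1) c) :
    Cob (A ∪ B) (q + 1) c := by
  have hcoc : Coc (A ∪ B) (q + 1) c := by
    obtain ⟨δ, hδ, h⟩ := small_disj hA hB hd
    obtain ⟨e1, he1, h1⟩ := ha.coc
    obtain ⟨e2, he2, h2⟩ := hb.coc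
    refine ⟨min δ (min e1 e2), lt_min hδ (lt_min he1 he2), fun l hl hs => ?_⟩
    rcases h l (hs.mono le_rfl (min_le_left _ _)) with hl' | hl'
    · exact h1 l hl ⟨hl', fun x hx y hy => (hs.2 x hx y hy).trans_le
        ((min_le_right _ _).trans (min_le_left _ _))⟩
    · exact h2 l hl ⟨hl', fun x hx y hy => (hs.2 x hx y hy).trans_le
        ((min_le_right _ _).trans (min_le_right _ _))⟩
  obtain ⟨a, ha⟩ := ha
  obtain ⟨b, hb⟩ := hb
  refine MV.mv_glue A B hA hB q c a b hcoc ha hb ?_
  rw [Set.disjoint_iff_inter_eq_empty.1 hd]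
  refine ⟨0, 1, one_pos, fun l hl hs => ?_⟩
  cases l with
  | nil => simp at hl; omega
  | cons x l => exact absurd (hs.1 x (by simp)) (notMem_empty x)

theorem Coc_union_disj {A B : Set Ω} (hA : IsCompact A) (hB : IsCompact B) (hd : Disjoint A B)
    {q : ℕ} {c : List Ω → ZMod 3} (ha : Coc A q c) (hb : Coc B q c) : Coc (A ∪ B) q c := by
  obtain ⟨δ, hδ, h⟩ := small_disj hA hB hd
  obtain ⟨e1, he1, h1⟩ := ha
  obtain ⟨e2, he2, h2⟩ := hb
  refine ⟨min δ (min e1 e2), lt_min hδ (lt_min he1 he2), fun l hl hs => ?_⟩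
  rcases h l (hs.mono le_rfl (min_le_left _ _)) with hl' | hl'
  · exact h1 l hl ⟨hl', fun x hx y hy => (hs.2 x hx y hy).trans_le
      ((min_le_right _ _).trans (min_le_left _ _))⟩
  · exact h2 l hl ⟨hl', fun x hx y hy => (hs.2 x hx y hy).trans_le
      ((min_le_right _ _).trans (min_le_right _ _))⟩

/-- homotopic maps induce the same map -/
theorem homotopy_pb {K : Set Ω} {K' : Set Ω'} (hK : IsCompact K) (H : ℝ → Ω → Ω')
    (hH : ContinuousOn (fun z : ℝ × Ω => H z.1 z.2) (Icc 0 1 ×ˢ K))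
    (hm : ∀ t ∈ Icc (0 : ℝ) 1, MapsTo (H t) K K') {q : ℕ} {c : List Ω' → ZMod 3}
    (hc : Coc K' q c) : Cob K q (pb (H 1) c - pb (H 0) c) := by
  obtain ⟨ε, hε, hcε⟩ := hc
  have hKK : IsCompact (Icc (0 : ℝ) 1 ×ˢ K) := isCompact_Icc.prod hK
  have huc := hKK.uniformContinuousOn_of_continuous hH
  rw [Metric.uniformContinuousOn_iff] at huc
  obtain ⟨δ, hδ, hd⟩ := huc ε hε
  have hd' : ∀ t ∈ Icc (0 : ℝ) 1, ∀ s ∈ Icc (0 : ℝ) 1, |t - s| < δ → ∀ x ∈ K, ∀ y ∈ K,
      dist x y < δ → dist (H t x) (H s y) < ε := by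
    intro t ht s hs hts x hx y hy hxy
    have := hd (t, x) ⟨ht, hx⟩ (s, y) ⟨hs, hy⟩ (by
      rw [Prod.dist_eq]
      exact max_lt (by rw [Real.dist_eq]; exact hts) hxy)
    exact this
  have hstep : ∀ t ∈ Icc (0 : ℝ) 1, ∀ s ∈ Icc (0 : ℝ) 1, |t - s| < δ →
      Cob K q (pb (H s) c - pb (H t) c) := by
    intro t ht s hs hts
    refine ⟨pr (H t) (H s) c, δ, hδ, fun l hl hSm => ?_⟩
    rw [← prism, add_sub_cancel_left]
    apply MV.pr_eq_zero (H t) (H s) {y | ∃ x ∈ l, y = H t x ∨ y = H s x} l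
    · intro l' hl' hV
      apply hcε l' (by rw [hl', hl])
      refine ⟨fun y hy => ?_, fun y hy z hz => ?_⟩
      · obtain ⟨x, hx, h | h⟩ := hV y hy
        · rw [h]; exact hm t ht (hSm.1 x hx)
        · rw [h]; exact hm s hs (hSm.1 x hx)
      · obtain ⟨x, hx, h⟩ := hV y hy
        obtain ⟨x', hx', h'⟩ := hV z hz
        have hxx := hSm.2 x hx x' hx'
        have hxX := hSm.1 x hx
        have hxX' := hSm.1 x' hx'
        rcases h with h | h <;> rcases h' with h' | h' <;> rw [h, h']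
        · exact hd' t ht t ht (by simpa using hδ) x hxX x' hxX' hxx
        · exact hd' t ht s hs hts x hxX x' hxX' hxx
        · exact hd' s hs t ht (by rw [abs_sub_comm]; exact hts) x hxX x' hxX' hxx
        · exact hd' s hs s hs (by simpa using hδ) x hxX x' hxX' hxx
    · intro x hx
      exact ⟨⟨x, hx, Or.inl rfl⟩, ⟨x, hx, Or.inr rfl⟩⟩
  obtain ⟨k, hk⟩ := exists_nat_gt (1 / δ)
  have hk0 : (0 : ℝ) < k := lt_trans (by positivity) hk
  have hkδ : 1 / (k : ℝ) < δ := by
    rw [div_lt_iff₀ hδ] at hk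
    rw [div_lt_iff₀ hk0]
    linarith
  have hchain : ∀ i : ℕ, i ≤ k → Cob K q (pb (H ((i : ℝ) / k)) c - pb (H 0) c) := by
    intro i
    induction i with
    | zero =>
      intro _
      simp only [Nat.cast_zero, zero_div, sub_self]
      exact Nl.zero.cob
    | succ i ih =>
      intro hi
      have h2 := ih (by omega)
      have hik : ((i : ℝ) + 1) / k ≤ 1 := by
        rw [div_le_one hk0]
        exact_mod_cast hi
      have hik' : (i : ℝ) / k ≤ 1 := by
        rw [div_le_one hk0]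
        exact_mod_cast (by omega : i ≤ k)
      have h3 := hstep ((i : ℝ) / k) ⟨by positivity, hik'⟩ (((i : ℝ) + 1) / k)
        ⟨by positivity, hik⟩ (by
          rw [← sub_div, abs_div, abs_of_pos hk0, show (i : ℝ) - (i + 1) = -1 by ring]
          simpa using hkδ)
      have h4 := h3.add h2
      rw [sub_add_sub_cancel] at h4
      push_cast
      exact h4
  have := hchain k le_rfl
  rwa [div_self hk0.ne'] at this

/-- compact sets that contract to a point are acyclic -/
theorem HV_contract {K : Set Ω} (hK : IsCompact K) (p : Ω) (hp : p ∈ K) (H : ℝ → Ω → Ω)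
    (hH : ContinuousOn (fun z : ℝ × Ω => H z.1 z.2) (Icc 0 1 ×ˢ K))
    (hm : ∀ t ∈ Icc (0 : ℝ) 1, MapsTo (H t) K K) (h0 : ∀ x ∈ K, H 0 x = x)
    (h1 : ∀ x ∈ K, H 1 x = p) (q : ℕ) : HV K q := by
  intro c hc
  have hA := homotopy_pb hK H hH hm hc
  have hB : Cob K q (pb (H 0) c - c) := by
    apply Nl.cob
    apply Nl_congr
    intro l _ hl
    have : l.map (H 0) = l := by
      have h2 : l.map (H 0) = l.map id := List.map_congr_left (fun x hx => h0 x (hl x hx))
      rw [h2, List.map_id]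
    simp only [pb, this]
  obtain ⟨ε, hε, hcε⟩ := hc
  have hC : Cob K q (pb (H 1) c) := by
    refine ⟨pb (fun _ => p) (fun l' => c (p :: l')), 1, one_pos, fun l hl hSm => ?_⟩
    have h2 : l.map (H 1) = l.map (fun _ => p) :=
      List.map_congr_left (fun x hx => h1 x (hSm.1 x hx))
    rw [d_pb]
    simp only [Pi.sub_apply, pb, h2]
    rw [← d_cons]
    apply hcε
    · simp [hl]
    · have hmem : ∀ x ∈ p :: l.map (fun _ => p), x = p := by
        intro x hx
        rcases List.mem_cons.1 hx with h | h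
        · exact h
        · obtain ⟨_, _, h⟩ := List.mem_map.1 h
          exact h.symm
      refine ⟨fun x hx => ?_, fun x hx y hy => ?_⟩
      · rw [hmem x hx]; exact hp
      · rw [hmem x hx, hmem y hy, dist_self]; exact hε
  have hfin := (hC.sub hA).sub hB
  have heq : pb (H 1) c - (pb (H 1) c - pb (H 0) c) - (pb (H 0) c - c) = c := by abel
  rwa [heq] at hfin

/-! ### cup products -/

omit [MetricSpace Ω] in
theorem d_cup (a b : List Ω → ZMod 3) (x y z : Ω) (l : List Ω) :
    d (cup a b) (x :: y :: z :: l) =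
      d a [x, y, z] * b (z :: l) - a [x, y] * d b (y :: z :: l) := by
  have h1 : d (cup a b) (x :: y :: z :: l) = a [y, z] * b (z :: l) -
      (a [x, z] * b (z :: l) - d (fun l' => cup a b (x :: y :: l')) (z :: l)) := by
    rw [d_cons, d_cons]
    rfl
  have h2 : (fun l' => cup a b (x :: y :: l')) = a [x, y] • fun l' => b (y :: l') := rfl
  have h3 : d a [x, y, z] = a [y, z] - (a [x, z] - a [x, y]) := by
    rw [d_cons, d_cons, d_cons, d_nil, sub_zero]
  have h4 : d b (y :: z :: l) = b (z :: l) - d (fun l' => b (y :: l')) (z :: l) := d_cons _ _ _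
  rw [h1, h2, d_smul, h3, h4, Pi.smul_apply, smul_eq_mul]
  ring

omit [MetricSpace Ω] in
theorem d_cup0 (f : Ω → ZMod 3) (b : List Ω → ZMod 3) (x y : Ω) (l : List Ω) :
    d (cup0 f b) (x :: y :: l) = (f y - f x) * b (y :: l) + f x * d b (x :: y :: l) := by
  have h1 : d (cup0 f b) (x :: y :: l) = f y * b (y :: l) -
      d (fun l' => cup0 f b (x :: l')) (y :: l) := by
    rw [d_cons]
    rfl
  have h2 : (fun l' => cup0 f b (x :: l')) = f x • fun l' => b (x :: l') := rfl
  have h4 : d b (x :: y :: l) = b (y :: l) - d (fun l' => b (x :: l')) (y :: l) := d_cons _ _ _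
  rw [h1, h2, d_smul, h4, Pi.smul_apply, smul_eq_mul]
  ring

omit [MetricSpace Ω] in
theorem d_c0 (f : Ω → ZMod 3) (x y : Ω) : d (c0 f) [x, y] = f y - f x := by
  rw [d_cons, d_cons, d_nil, sub_zero]
  rfl

omit [MetricSpace Ω] in
theorem d_pair (e : List Ω → ZMod 3) (x y : Ω) : d e [x, y] = e [y] - e [x] := by
  rw [d_cons, d_cons, d_nil, sub_zero]

omit [MetricSpace Ω] in
theorem d_triple (e : List Ω → ZMod 3) (x y z : Ω) :
    d e [x, y, z] = e [y, z] - e [x, z] + e [x, y] := by
  rw [d_cons, d_cons, d_cons, d_nil, sub_zero]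
  ring

omit [MetricSpace Ω] [MetricSpace Ω'] in
theorem pb_cup (φ : Ω → Ω') (a b : List Ω' → ZMod 3) : pb φ (cup a b) = cup (pb φ a) (pb φ b) := by
  funext l
  match l with
  | [] => rfl
  | [x] => rfl
  | x :: y :: l => rfl

/-- destructuring of lists -/
theorem list2 {l : List Ω} {q : ℕ} (h : l.length = q + 2) :
    ∃ x y l', l = x :: y :: l' ∧ l'.length = q := by
  match l with
  | [] => simp at h
  | [x] => simp at h
  | x :: y :: l' => exact ⟨x, y, l', rfl, by simpa using h⟩

theorem list3 {l : List Ω} {q : ℕ} (h : l.length = q + 3) :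
    ∃ x y z l', l = x :: y :: z :: l' ∧ l'.length = q := by
  match l with
  | [] => simp at h
  | [x] => simp at h
  | [x, y] => simp at h
  | x :: y :: z :: l' => exact ⟨x, y, z, l', rfl, by simpa using h⟩

theorem coc_cup {K : Set Ω} {a b : List Ω → ZMod 3} {q : ℕ} (ha : Coc K 2 a)
    (hb : Coc K (q + 1) b) : Coc K (q + 2) (cup a b) := by
  obtain ⟨e1, he1, h1⟩ := ha
  obtain ⟨e2, he2, h2⟩ := hb
  refine ⟨min e1 e2, lt_min he1 he2, fun l hl hs => ?_⟩
  obtain ⟨x, y, z, l', rfl, hl'⟩ := list3 hl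
  have h3 : d a [x, y, z] = 0 := h1 _ rfl
    ((hs.mono le_rfl (min_le_left _ _)).sub (by intro w hw; simp at hw ⊢; tauto))
  have h4 : d b (y :: z :: l') = 0 := h2 _ (by simp [hl']) (hs.mono le_rfl (min_le_right _ _)).tail
  rw [d_cup, h3, h4, zero_mul, mul_zero, sub_zero]

/-- change of the first factor -/
theorem cob_cup_left {K : Set Ω} {a a' b : List Ω → ZMod 3} {q : ℕ} (ha : Cob K 2 (a - a'))
    (hb : Coc K (q + 1) b) : Cob K (q + 2) (cup a b - cup a' b) := by
  obtain ⟨e, e1, he1, h1⟩ := ha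
  obtain ⟨e2, he2, h2⟩ := hb
  refine ⟨cup0 (fun x => e [x]) b, min e1 e2, lt_min he1 he2, fun l hl hs => ?_⟩
  obtain ⟨x, y, l', rfl, hl'⟩ := list2 hl
  have h3 : (a - a' - d e) [x, y] = 0 := h1 _ rfl
    ((hs.mono le_rfl (min_le_left _ _)).sub (by intro w hw; simp at hw ⊢; tauto))
  have h4 : d b (x :: y :: l') = 0 := h2 _ (by simp [hl']) (hs.mono le_rfl (min_le_right _ _))
  simp only [Pi.sub_apply, d_pair] at h3
  simp only [Pi.sub_apply, d_cup0, h4, cup]
  linear_combination b (y :: l') * h3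

/-- change of the second factor -/
theorem cob_cup_right {K : Set Ω} {a b b' : List Ω → ZMod 3} {q : ℕ} (ha : Coc K 2 a)
    (hb : Cob K (q + 2) (b - b')) : Cob K (q + 3) (cup a b - cup a b') := by
  obtain ⟨e1, he1, h1⟩ := ha
  obtain ⟨e, e2, he2, h2⟩ := hb
  refine ⟨-cup a e, min e1 e2, lt_min he1 he2, fun l hl hs => ?_⟩
  obtain ⟨x, y, z, l', rfl, hl'⟩ := list3 hl
  have h3 : d a [x, y, z] = 0 := h1 _ rfl
    ((hs.mono le_rfl (min_le_left _ _)).sub (by intro w hw; simp at hw ⊢; tauto))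
  have h4 : (b - b' - d e) (y :: z :: l') = 0 :=
    h2 _ (by simp [hl']) (hs.mono le_rfl (min_le_right _ _)).tail
  simp only [Pi.sub_apply] at h4
  simp only [Pi.sub_apply, d_neg, Pi.neg_apply, d_cup, h3, cup]
  linear_combination a [x, y] * h4

omit [MetricSpace Ω] in
theorem cup_smul_left (x : ZMod 3) (a b : List Ω → ZMod 3) : cup (x • a) b = x • cup a b := by
  funext l
  match l with
  | [] => simp [cup]
  | [y] => simp [cup]
  | y :: z :: l => simp [cup, mul_assoc]

omit [MetricSpace Ω] in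
theorem cup_smul_right (x : ZMod 3) (a b : List Ω → ZMod 3) : cup a (x • b) = x • cup a b := by
  funext l
  match l with
  | [] => simp [cup]
  | [y] => simp [cup]
  | y :: z :: l => simp [cup, mul_left_comm]

omit [MetricSpace Ω] in
theorem cup_add_left (a a' b : List Ω → ZMod 3) : cup (a + a') b = cup a b + cup a' b := by
  funext l
  match l with
  | [] => simp [cup]
  | [y] => simp [cup]
  | y :: z :: l => simp [cup, add_mul]

omit [MetricSpace Ω] in
theorem cup_add_right (a b b' : List Ω → ZMod 3) : cup a (b + b') = cup a b + cup a b' := by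
  funext l
  match l with
  | [] => simp [cup]
  | [y] => simp [cup]
  | y :: z :: l => simp [cup, mul_add]

/-! ### classes of functions that are continuous modulo one -/

theorem continuous_circle_coe : Continuous (fun s : Circle => (s : ℂ)) := continuous_subtype_val

theorem isInducing_circle_coe : Topology.IsInducing (fun s : Circle => (s : ℂ)) :=
  Topology.IsInducing.subtypeVal

theorem near_one (t : ℝ) : 4 * |t - round t| ≤ ‖(Circle.exp (2 * Real.pi * t) : ℂ) - 1‖ := by
  have hu : |t - round t| ≤ 1 / 2 := abs_sub_round t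
  have h1 : (Circle.exp (2 * Real.pi * t) : ℂ) =
      Complex.exp (Complex.I * ((2 * Real.pi * (t - round t) : ℝ) : ℂ)) := by
    rw [Circle.coe_exp, Complex.exp_eq_exp_iff_exists_int]
    refine ⟨round t, ?_⟩
    push_cast
    ring
  rw [h1, Complex.norm_exp_I_mul_ofReal_sub_one, Real.norm_eq_abs, abs_mul, abs_two]
  have h2 : |2 * Real.pi * (t - round t) / 2| ≤ Real.pi / 2 := by
    rw [show 2 * Real.pi * (t - round t) / 2 = Real.pi * (t - round t) by ring, abs_mul,
      abs_of_pos Real.pi_pos]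
    nlinarith [Real.pi_pos]
  have h3 := Real.mul_abs_le_abs_sin h2
  rw [show 2 * Real.pi * (t - round t) / 2 = Real.pi * (t - round t) by ring] at h3 ⊢
  rw [abs_mul, abs_of_pos Real.pi_pos] at h3
  have h4 : 2 / Real.pi * (Real.pi * |t - round t|) = 2 * |t - round t| := by
    field_simp
  rw [h4] at h3
  linarith

theorem round_unique {x : ℝ} {n : ℤ} (h : |x - n| < 1 / 2) : round x = n := by
  have h1 := abs_sub_round x
  have h2 : |((round x : ℤ) : ℝ) - n| < 1 := by
    have h3 : ((round x : ℤ) : ℝ) - n = (x - n) - (x - round x) := by ring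
    rw [h3]
    have := abs_sub (x - (n : ℝ)) (x - round x)
    linarith
  have h4 : |round x - n| < 1 := by exact_mod_cast h2
  rw [Int.abs_lt_one_iff] at h4
  omega

theorem CM_near {K : Set Ω} (hK : IsCompact K) {a : Ω → ℝ} (ha : CM K a) {η : ℝ} (hη : 0 < η) :
    ∃ δ > 0, ∀ x ∈ K, ∀ y ∈ K, dist x y < δ → |a y - a x - round (a y - a x)| < η := by
  have ha' : ContinuousOn (fun x => ((Circle.exp (2 * Real.pi * a x) : Circle) : ℂ)) K :=
    continuous_circle_coe.comp_continuousOn ha
  have huc := hK.uniformContinuousOn_of_continuous ha'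
  rw [Metric.uniformContinuousOn_iff] at huc
  obtain ⟨δ, hδ, hd⟩ := huc η hη
  refine ⟨δ, hδ, fun x hx y hy hxy => ?_⟩
  have h1 := hd x hx y hy hxy
  have h2 := near_one (a y - a x)
  have h3 : ‖(Circle.exp (2 * Real.pi * (a y - a x)) : ℂ) - 1‖ =
      dist ((Circle.exp (2 * Real.pi * a x) : Circle) : ℂ)
        ((Circle.exp (2 * Real.pi * a y) : Circle) : ℂ) := by
    have h4 : Circle.exp (2 * Real.pi * (a y - a x)) =
        Circle.exp (2 * Real.pi * a y) / Circle.exp (2 * Real.pi * a x) := by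
      rw [← Circle.exp_sub]
      congr 1
      ring
    rw [h4, dist_comm, dist_eq_norm, Circle.coe_div]
    have h5 : ‖((Circle.exp (2 * Real.pi * a x) : Circle) : ℂ)‖ = 1 := Circle.norm_coe _
    have h6 : ((Circle.exp (2 * Real.pi * a x) : Circle) : ℂ) ≠ 0 := Circle.coe_ne_zero _
    rw [div_sub_one h6, norm_div, h5, div_one]
  rw [h3] at h2
  have h5 : 0 ≤ |a y - a x - round (a y - a x)| := abs_nonneg _
  linarith

theorem coc_wc {K : Set Ω} (hK : IsCompact K) {a : Ω → ℝ} (ha : CM K a) : Coc K 2 (wc a) := by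
  obtain ⟨δ, hδ, h⟩ := CM_near hK ha (η := 1 / 6) (by norm_num)
  refine ⟨δ, hδ, fun l hl hs => ?_⟩
  obtain ⟨x, y, z, l', rfl, hl'⟩ := list3 (q := 0) hl
  obtain rfl := List.length_eq_zero_iff.1 hl'
  have hx := hs.1 x (by simp)
  have hy := hs.1 y (by simp)
  have hz := hs.1 z (by simp)
  have h1 := h x hx y hy (hs.2 x (by simp) y (by simp))
  have h2 := h y hy z hz (hs.2 y (by simp) z (by simp))
  have h3 : round (a z - a x) = round (a z - a y) + round (a y - a x) := by
    apply round_unique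
    push_cast
    rw [show a z - a x - (round (a z - a y) + round (a y - a x) : ℝ) =
      (a y - a x - round (a y - a x)) + (a z - a y - round (a z - a y)) by ring]
    have := abs_add_le (a y - a x - round (a y - a x)) (a z - a y - round (a z - a y))
    linarith
  rw [d_triple]
  simp only [wc, h3]
  push_cast
  ring

theorem wc_add {K : Set Ω} (hK : IsCompact K) {a b : Ω → ℝ} (ha : CM K a) (hb : CM K b) :
    Nl K 2 (wc (fun x => a x + b x) - wc a - wc b) := by
  obtain ⟨δ, hδ, h⟩ := CM_near hK ha (η := 1 / 6) (by norm_num)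
  obtain ⟨δ', hδ', h'⟩ := CM_near hK hb (η := 1 / 6) (by norm_num)
  refine ⟨min δ δ', lt_min hδ hδ', fun l hl hs => ?_⟩
  obtain ⟨x, y, l', rfl, hl'⟩ := list2 (q := 0) hl
  obtain rfl := List.length_eq_zero_iff.1 hl'
  have hx := hs.1 x (by simp)
  have hy := hs.1 y (by simp)
  have h0 := hs.2 x (by simp) y (by simp)
  have h1 := h x hx y hy (h0.trans_le (min_le_left _ _))
  have h2 := h' x hx y hy (h0.trans_le (min_le_right _ _))
  have h3 : round (a y + b y - (a x + b x)) = round (a y - a x) + round (b y - b x) := by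
    apply round_unique
    push_cast
    rw [show a y + b y - (a x + b x) - (round (a y - a x) + round (b y - b x) : ℝ) =
      (a y - a x - round (a y - a x)) + (b y - b x - round (b y - b x)) by ring]
    have := abs_add_le (a y - a x - round (a y - a x)) (b y - b x - round (b y - b x))
    linarith
  simp only [Pi.sub_apply, wc, h3]
  push_cast
  ring

theorem wc_zmul {K : Set Ω} (hK : IsCompact K) {a : Ω → ℝ} (ha : CM K a) (n : ℤ) :
    Nl K 2 (wc (fun x => n * a x) - (n : ZMod 3) • wc a) := by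
  have hn : (0 : ℝ) < 2 * (|(n : ℝ)| + 1) := by positivity
  obtain ⟨δ, hδ, h⟩ := CM_near hK ha (η := 1 / (2 * (|(n : ℝ)| + 1))) (by positivity)
  refine ⟨δ, hδ, fun l hl hs => ?_⟩
  obtain ⟨x, y, l', rfl, hl'⟩ := list2 (q := 0) hl
  obtain rfl := List.length_eq_zero_iff.1 hl'
  have hx := hs.1 x (by simp)
  have hy := hs.1 y (by simp)
  have h0 := hs.2 x (by simp) y (by simp)
  have h1 := h x hx y hy h0
  have h3 : round (n * a y - n * a x) = n * round (a y - a x) := by
    apply round_unique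
    push_cast
    rw [show (n : ℝ) * a y - n * a x - n * (round (a y - a x) : ℝ) =
      n * (a y - a x - round (a y - a x)) by ring, abs_mul]
    rw [lt_div_iff₀ hn] at h1
    nlinarith [abs_nonneg (n : ℝ), abs_nonneg (a y - a x - round (a y - a x))]
  simp only [Pi.sub_apply, Pi.smul_apply, wc, h3, smul_eq_mul]
  push_cast
  ring

theorem wc_cont {K : Set Ω} (hK : IsCompact K) {a : Ω → ℝ} (ha : ContinuousOn a K) :
    Nl K 2 (wc a) := by
  have huc := hK.uniformContinuousOn_of_continuous ha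
  rw [Metric.uniformContinuousOn_iff] at huc
  obtain ⟨δ, hδ, hd⟩ := huc (1 / 2) (by norm_num)
  refine ⟨δ, hδ, fun l hl hs => ?_⟩
  obtain ⟨x, y, l', rfl, hl'⟩ := list2 (q := 0) hl
  obtain rfl := List.length_eq_zero_iff.1 hl'
  have h1 := hd x (hs.1 x (by simp)) y (hs.1 y (by simp)) (hs.2 x (by simp) y (by simp))
  rw [Real.dist_eq, abs_sub_comm] at h1
  have h3 : round (a y - a x) = 0 := by
    apply round_unique
    push_cast
    rwa [sub_zero]
  simp only [wc, h3]
  simp

/-- a function that has a continuous lift up to an integer valued function -/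
theorem wc_lift {K : Set Ω} (hK : IsCompact K) {a φ : Ω → ℝ} (m : Ω → ℤ) (hφ : ContinuousOn φ K)
    (h : ∀ x ∈ K, a x = φ x + m x) : Nl K 2 (wc a - d (c0 (fun x => (m x : ZMod 3)))) := by
  have huc := hK.uniformContinuousOn_of_continuous hφ
  rw [Metric.uniformContinuousOn_iff] at huc
  obtain ⟨δ, hδ, hd⟩ := huc (1 / 2) (by norm_num)
  refine ⟨δ, hδ, fun l hl hs => ?_⟩
  obtain ⟨x, y, l', rfl, hl'⟩ := list2 (q := 0) hl
  obtain rfl := List.length_eq_zero_iff.1 hl'
  have hx := hs.1 x (by simp)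
  have hy := hs.1 y (by simp)
  have h1 := hd x hx y hy (hs.2 x (by simp) y (by simp))
  rw [Real.dist_eq, abs_sub_comm] at h1
  have h3 : round (a y - a x) = m y - m x := by
    apply round_unique
    push_cast
    rw [h x hx, h y hy, show φ y + m y - (φ x + m x) - ((m y : ℝ) - m x) = φ y - φ x by ring]
    exact h1
  simp only [Pi.sub_apply, d_c0, wc, h3]
  push_cast
  ring

/-- functions that differ by a continuous function modulo one have the same class -/
theorem wc_congr {K : Set Ω} (hK : IsCompact K) {a b φ : Ω → ℝ} (hb : CM K b) (m : Ω → ℤ)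
    (hφ : ContinuousOn φ K) (h : ∀ x ∈ K, a x = b x + φ x + m x) : Cob K 2 (wc a - wc b) := by
  have huc := hK.uniformContinuousOn_of_continuous hφ
  rw [Metric.uniformContinuousOn_iff] at huc
  obtain ⟨δ, hδ, hd⟩ := huc (1 / 4) (by norm_num)
  obtain ⟨δ', hδ', h'⟩ := CM_near hK hb (η := 1 / 4) (by norm_num)
  refine ⟨c0 (fun x => (m x : ZMod 3)), min δ δ', lt_min hδ hδ', fun l hl hs => ?_⟩
  obtain ⟨x, y, l', rfl, hl'⟩ := list2 (q := 0) hl
  obtain rfl := List.length_eq_zero_iff.1 hl'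
  have hx := hs.1 x (by simp)
  have hy := hs.1 y (by simp)
  have h0 := hs.2 x (by simp) y (by simp)
  have h1 := hd x hx y hy (h0.trans_le (min_le_left _ _))
  rw [Real.dist_eq, abs_sub_comm] at h1
  have h2 := h' x hx y hy (h0.trans_le (min_le_right _ _))
  have h3 : round (a y - a x) = round (b y - b x) + (m y - m x) := by
    apply round_unique
    push_cast
    rw [h x hx, h y hy, show b y + φ y + m y - (b x + φ x + m x) -
      ((round (b y - b x) : ℝ) + (m y - m x)) =
      (φ y - φ x) + (b y - b x - round (b y - b x)) by ring]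
    have := abs_add_le (φ y - φ x) (b y - b x - round (b y - b x))
    linarith
  simp only [Pi.sub_apply, d_c0, wc, h3]
  push_cast
  ring

omit [MetricSpace Ω] [MetricSpace Ω'] in
theorem pb_wc (φ : Ω → Ω') (a : Ω' → ℝ) : pb φ (wc a) = wc (a ∘ φ) := by
  funext l
  match l with
  | [] => rfl
  | [x] => rfl
  | [x, y] => rfl
  | x :: y :: z :: l => rfl

theorem CM_aS (K : Set (Circle × ℂ)) : CM K aS := by
  unfold CM
  have h : (fun p : Circle × ℂ => Circle.exp (2 * Real.pi * aS p)) = fun p => p.1 := by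
    funext p
    unfold aS
    rw [mul_div_cancel₀ _ (by positivity : (2 * Real.pi : ℝ) ≠ 0)]
    exact Circle.exp_arg p.1
  rw [h]
  exact continuous_fst.continuousOn

theorem CM_arg {X : Type} [TopologicalSpace X] {K : Set X} {f : X → ℂ} (hf : ContinuousOn f K)
    (h : ∀ x ∈ K, f x ≠ 0) : CM K (fun x => Complex.arg (f x) / (2 * Real.pi)) := by
  unfold CM
  rw [continuousOn_iff_continuous_domRestrict] at hf ⊢
  rw [isInducing_circle_coe.continuous_iff]
  have h2 : ((fun s : Circle => (s : ℂ)) ∘ K.domRestrict fun x =>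
      Circle.exp (2 * Real.pi * (Complex.arg (f x) / (2 * Real.pi)))) =
      fun x : K => f x / (‖f x‖ : ℂ) := by
    funext x
    simp only [Function.comp_apply, Set.domRestrict_apply, Circle.coe_exp]
    rw [mul_div_cancel₀ _ (by positivity : (2 * Real.pi : ℝ) ≠ 0)]
    have h3 : ((‖f x‖ : ℝ) : ℂ) ≠ 0 := by
      exact_mod_cast norm_ne_zero_iff.2 (h x x.2)
    rw [eq_div_iff h3, mul_comm]
    exact Complex.norm_mul_exp_arg_mul_I _
  rw [h2]
  have hf' : Continuous fun x : K => f x := hf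
  refine hf'.div (Complex.continuous_ofReal.comp hf'.norm) fun x => ?_
  exact_mod_cast norm_ne_zero_iff.2 (h x x.2)

theorem CM_aZ {K : Set (Circle × ℂ)} (h : ∀ p ∈ K, p.2 ≠ 0) : CM K aZ :=
  CM_arg continuous_snd.continuousOn h

end

end Pool.Agent.TH650.AS
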