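import Pool.Agent.TH650.Emb.AS2

/-! The dimension lemma and the generator lemmas for cyclic unions. -/

set_option autoImplicit false

open Set

namespace Pool.Agent.TH650.AS

open Pool.Agent.Helper554.Smith Pool.Agent.TH650.Emb

noncomputable section

variable {Ω : Type} [MetricSpace Ω]

/-- two primitives of (nearly) the same cochain differ by a cocycle. -/
theorem coc_two {X : Set Ω} {q : ℕ} {c a b : List Ω → ZMod 3}
    (ha : Nl X (q + 1) (c - d a)) (hb : Nl X (q + 1) (c - d b)) : Coc X q (a - b) := by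
  unfold Coc
  rw [d_sub]
  have : d a - d b = (c - d b) - (c - d a) := by abel
  rw [this]
  exact hb.sub ha

/-- Mayer-Vietoris vanishing. -/
theorem mv {A B : Set Ω} (hA : IsCompact A) (hB : IsCompact B) {q : ℕ} (hAB : HV (A ∩ B) q)
    {c : List Ω → ZMod 3} (hc : Coc (A ∪ B) (q + 1) c) (hcA : Cob A (q + 1) c)
    (hcB : Cob B (q + 1) c) : Cob (A ∪ B) (q + 1) c := by
  obtain ⟨a, ha⟩ := hcA
  obtain ⟨b, hb⟩ := hcB
  exact MV.mv_glue A B hA hB q c a b hc ha hb
    (hAB _ (coc_two (ha.mono inter_subset_left) (hb.mono inter_subset_right)))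

theorem hv_empty (q : ℕ) : HV (∅ : Set Ω) (q + 1) := by
  intro c _
  refine ⟨0, 1, one_pos, fun l hl hs => ?_⟩
  cases l with
  | nil => simp at hl
  | cons x l => exact absurd (hs.1 x (by simp)) (notMem_empty x)

theorem hv_subsingleton {K : Set Ω} (h : K.Subsingleton) (q : ℕ) : HV K (q + 1) := by
  rcases K.eq_empty_or_nonempty with hE | ⟨p, hp⟩
  · rw [hE]; exact hv_empty q
  · have hK : IsCompact K := h.isCompact
    exact HV_contract hK p hp (fun _ x => x) (by exact continuous_snd.continuousOn)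
      (fun _ _ x hx => hx) (fun _ _ => rfl) (fun x hx => h hx hp) _

/-- carriers: a cocycle of `K` that is not a coboundary is carried by a minimal compact subset -/
theorem exists_carrier {K : Set Ω} (hK : IsCompact K) {q : ℕ} {c : List Ω → ZMod 3}
    (hc : Coc K q c) (hn : ¬ Cob K q c) :
    ∃ M : Set Ω, IsCompact M ∧ M ⊆ K ∧ ¬ Cob M q c ∧
      ∀ M' : Set Ω, IsCompact M' → M' ⊆ M → M' ≠ M → Cob M' q c := by
  obtain ⟨M, hMK, hM⟩ := zorn_superset_nonempty
    {M : Set Ω | IsCompact M ∧ M ⊆ K ∧ ¬ Cob M q c} (by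
      intro C hC hchain hne
      refine ⟨⋂₀ C, ⟨?_, ?_, ?_⟩, fun s hs => sInter_subset_of_mem hs⟩
      · obtain ⟨s, hs⟩ := hne
        exact (hC hs).1.of_isClosed_subset
          (isClosed_sInter fun t ht => (hC ht).1.isClosed) (sInter_subset_of_mem hs)
      · obtain ⟨s, hs⟩ := hne
        exact (sInter_subset_of_mem hs).trans (hC hs).2.1
      · intro hcob
        have hsub : ⋂₀ C ⊆ K := by
          obtain ⟨s, hs⟩ := hne
          exact (sInter_subset_of_mem hs).trans (hC hs).2.1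
        obtain ⟨O, hO, hAO, hcO⟩ := Taut.taut K (⋂₀ C) hsub q c hc hcob
        have : Nonempty C := hne.to_subtype
        obtain ⟨s, hs⟩ := exists_subset_nhds_of_isCompact' (V := fun s : C => s.1) (by
          intro s t
          rcases hchain.total s.2 t.2 with h | h
          · exact ⟨s, subset_rfl, h⟩
          · exact ⟨t, h, subset_rfl⟩) (fun s => (hC s.2).1) (fun s => (hC s.2).1.isClosed)
          (U := O) (by
            intro x hx
            apply hO.mem_nhds
            apply hAO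
            rw [sInter_eq_iInter]
            exact hx)
        exact (hC s.2).2.2 (hcO.mono (subset_inter (hC s.2).2.1 hs)))
    K ⟨hK, subset_rfl, hn⟩
  refine ⟨M, hM.1.1, hMK, hM.1.2.2, fun M' h1 h2 h3 => ?_⟩
  by_contra hcon
  exact h3 (subset_antisymm h2 (hM.2 ⟨h1, h2.trans hMK, hcon⟩ h2))

/-- if `n` continuous functions separate the points of the compact set `K`, then `H^q(K) = 0` for
`q ≥ n` -/
theorem dim_van (n : ℕ) (K : Set Ω) (hK : IsCompact K) (f : Fin n → Ω → ℝ)
    (hf : ∀ i, ContinuousOn (f i) K)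
    (hs : ∀ x ∈ K, ∀ y ∈ K, (∀ i, f i x = f i y) → x = y) (q : ℕ) (hq : n ≤ q) :
    HV K (q + 1) := by
  induction n generalizing K q with
  | zero => exact hv_subsingleton (fun x hx y hy => hs x hx y hy fun i => i.elim0) q
  | succ n ih =>
    intro c hc
    by_contra hn
    obtain ⟨M, hMc, hMK, hMn, hmin⟩ := exists_carrier hK hc hn
    apply hMn
    refine hv_subsingleton (fun x hx y hy => ?_) q c (hc.mono hMK)
    by_contra hxy
    have : ∃ i, f i x ≠ f i y := by
      by_contra h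
      push Not at h
      exact hxy (hs x (hMK hx) y (hMK hy) h)
    obtain ⟨i, hi⟩ := this
    have key : ∀ x ∈ M, ∀ y ∈ M, f i x < f i y → False := by
      intro x hx y hy hlt
      obtain ⟨t, ht1, ht2⟩ := exists_between hlt
      have hfM : ContinuousOn (f i) M := (hf i).mono hMK
      have c1 : IsCompact (M ∩ f i ⁻¹' Iic t) := hMc.of_isClosed_subset
        (hfM.preimage_isClosed_of_isClosed hMc.isClosed isClosed_Iic) inter_subset_left
      have c2 : IsCompact (M ∩ f i ⁻¹' Ici t) := hMc.of_isClosed_subset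
        (hfM.preimage_isClosed_of_isClosed hMc.isClosed isClosed_Ici) inter_subset_left
      have hu : (M ∩ f i ⁻¹' Iic t) ∪ (M ∩ f i ⁻¹' Ici t) = M := by
        rw [← inter_union_distrib_left, ← preimage_union, Iic_union_Ici, preimage_univ, inter_univ]
      obtain ⟨q', rfl⟩ : ∃ q', q = q' + 1 := ⟨q - 1, by omega⟩
      have hI : HV ((M ∩ f i ⁻¹' Iic t) ∩ (M ∩ f i ⁻¹' Ici t)) (q' + 1) := by
        refine ih _ (c1.inter_right c2.isClosed) (fun j => f (i.succAbove j))
          (fun j => (hf _).mono fun z hz => hMK hz.1.1) ?_ q' (by omega)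
        intro z hz w hw hzw
        apply hs z (hMK hz.1.1) w (hMK hw.1.1)
        intro j
        by_cases hj : j = i
        · subst hj
          have e1 : f j z = t := le_antisymm hz.1.2 hz.2.2
          have e2 : f j w = t := le_antisymm hw.1.2 hw.2.2
          rw [e1, e2]
        · obtain ⟨k, rfl⟩ := Fin.exists_succAbove_eq hj
          exact hzw k
      apply hMn
      have := mv c1 c2 hI (c := c) (by rw [hu]; exact hc.mono hMK)
        (hmin _ c1 inter_subset_left (fun h => by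
          rw [← h] at hy
          exact absurd hy.2 (not_le.2 ht2)))
        (hmin _ c2 inter_subset_left (fun h => by
          rw [← h] at hx
          exact absurd hx.2 (not_le.2 ht1)))
      rwa [hu] at this
    rcases lt_or_gt_of_ne hi with h | h
    · exact key x hx y hy h
    · exact key y hy x hx h

/-- vanishing for a union -/
theorem hv_glue {A B : Set Ω} (hA : IsCompact A) (hB : IsCompact B) {q : ℕ}
    (h1 : HV A (q + 1)) (h2 : HV B (q + 1)) {y : List Ω → ZMod 3} (hy : Coc A q y)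
    (hg : ∀ c, Coc (A ∩ B) q c → ∃ α : ZMod 3, Cob (A ∩ B) q (c - α • y)) :
    HV (A ∪ B) (q + 1) := by
  intro c hc
  obtain ⟨a, ha⟩ := h1 c (hc.mono subset_union_left)
  obtain ⟨b, hb⟩ := h2 c (hc.mono subset_union_right)
  obtain ⟨α, hα⟩ := hg _ (coc_two (ha.mono inter_subset_left) (hb.mono inter_subset_right))
  refine MV.mv_glue A B hA hB q c (a - α • y) b hc ?_ hb ?_
  · have e : c - d (a - α • y) = (c - d a) + α • d y := by
      rw [d_sub, d_smul]; abel
    rw [e]
    exact ha.add (Nl.smul α hy)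
  · have e : a - α • y - b = a - b - α • y := by abel
    rw [e]
    exact hα

/-- the hypotheses on a decomposition `C1 ∪ C2`, `C1 ∩ C2 = Da ⊔ Db`, and a degree one class `ζ`
which is trivialized by `f1` on `C1` and by `f2` on `C2`, `f1 - f2 = ε` on `Da`, `= 0` on `Db` -/
structure Cyc (C1 C2 Da Db : Set Ω) (ζ : List Ω → ZMod 3) (f1 f2 : Ω → ZMod 3) (ε : ZMod 3) :
    Prop where
  c1 : IsCompact C1
  c2 : IsCompact C2
  ca : IsCompact Da
  cb : IsCompact Db
  inter : C1 ∩ C2 = Da ∪ Db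
  disj : Disjoint Da Db
  t1 : Nl C1 2 (ζ - d (c0 f1))
  t2 : Nl C2 2 (ζ - d (c0 f2))
  unit : ε ≠ 0
  ha : ∀ x ∈ Da, f1 x - f2 x = ε
  hb : ∀ x ∈ Db, f1 x - f2 x = 0

/-- `cup0 f y` is a primitive of `cup ζ y` when `c0 f` is a primitive of `ζ` -/
theorem prim_cup0 {C : Set Ω} {ζ y : List Ω → ZMod 3} {f : Ω → ZMod 3} {q : ℕ}
    (h : Nl C 2 (ζ - d (c0 f))) (hy : Coc C (q + 1) y) :
    Nl C (q + 2) (cup ζ y - d (cup0 f y)) := by
  obtain ⟨e1, he1, h1⟩ := h
  obtain ⟨e2, he2, h2⟩ := hy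
  refine ⟨min e1 e2, lt_min he1 he2, fun l hl hs => ?_⟩
  obtain ⟨x, z, l', rfl, hl'⟩ := list2 hl
  have h3 : (ζ - d (c0 f)) [x, z] = 0 := h1 _ rfl
    ((hs.mono le_rfl (min_le_left _ _)).sub (by intro w hw; simp at hw ⊢; tauto))
  have h4 : d y (x :: z :: l') = 0 := h2 _ (by simp [hl']) (hs.mono le_rfl (min_le_right _ _))
  simp only [Pi.sub_apply, d_c0] at h3
  simp only [Pi.sub_apply, d_cup0, h4, cup]
  linear_combination y (z :: l') * h3

theorem inv_mul3 {ε : ZMod 3} (h : ε ≠ 0) : ∃ δ : ZMod 3, δ * ε = 1 := by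
  revert ε; decide

theorem Cyc.coc {C1 C2 Da Db : Set Ω} {ζ : List Ω → ZMod 3} {f1 f2 : Ω → ZMod 3} {ε : ZMod 3}
    (h : Cyc C1 C2 Da Db ζ f1 f2 ε) (hζ : Coc (C1 ∪ C2) 2 ζ) (q : ℕ) (hq : 1 ≤ q)
    {y : List Ω → ZMod 3} (hy : Coc (C1 ∪ C2) (q + 1) y)
    (hv1 : HV C1 (q + 2)) (hv2 : HV C2 (q + 2))
    (ga : ∀ c, Coc Da (q + 1) c → ∃ α : ZMod 3, Cob Da (q + 1) (c - α • y))
    (gb : ∀ c, Coc Db (q + 1) c → ∃ α : ZMod 3, Cob Db (q + 1) (c - α • y))
    (x : List Ω → ZMod 3) (hx : Coc (C1 ∪ C2) (q + 2) x) :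
    ∃ μ : ZMod 3, Cob (C1 ∪ C2) (q + 2) (x - μ • cup ζ y) := by
  obtain ⟨g1, hg1⟩ := hv1 x (hx.mono subset_union_left)
  obtain ⟨g2, hg2⟩ := hv2 x (hx.mono subset_union_right)
  have hI : Coc (C1 ∩ C2) (q + 1) (g1 - g2) :=
    coc_two (hg1.mono inter_subset_left) (hg2.mono inter_subset_right)
  rw [h.inter] at hI
  obtain ⟨α, hα⟩ := ga _ (hI.mono subset_union_left)
  obtain ⟨β, hβ⟩ := gb _ (hI.mono subset_union_right)
  obtain ⟨δ, hδ⟩ := inv_mul3 h.unit
  have hy1 : Coc C1 (q + 1) y := hy.mono subset_union_left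
  have hy2 : Coc C2 (q + 1) y := hy.mono subset_union_right
  set μ : ZMod 3 := δ * (α - β) with hμ
  refine ⟨μ, MV.mv_glue C1 C2 h.c1 h.c2 (q + 1) _ (g1 - β • y - μ • cup0 f1 y)
    (g2 - μ • cup0 f2 y) (hx.sub ((coc_cup hζ hy).smul μ)) ?_ ?_ ?_⟩
  · have e : x - μ • cup ζ y - d (g1 - β • y - μ • cup0 f1 y) =
        (x - d g1) + β • d y - μ • (cup ζ y - d (cup0 f1 y)) := by
      rw [d_sub, d_sub, d_smul, d_smul, smul_sub]; abel
    rw [e]
    exact (hg1.add (Nl.smul β hy1)).sub ((prim_cup0 h.t1 hy1).smul μ)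
  · have e : x - μ • cup ζ y - d (g2 - μ • cup0 f2 y) =
        (x - d g2) - μ • (cup ζ y - d (cup0 f2 y)) := by
      rw [d_sub, d_smul, smul_sub]; abel
    rw [e]
    exact hg2.sub ((prim_cup0 h.t2 hy2).smul μ)
  · rw [h.inter]
    apply Cob_union_disj h.ca h.cb h.disj hq
    · have e : Nl Da (q + 1) (g1 - β • y - μ • cup0 f1 y - (g2 - μ • cup0 f2 y) -
          (g1 - g2 - α • y)) := by
        refine ⟨1, one_pos, fun l hl hs => ?_⟩
        match l, hl with
        | z :: l', _ =>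
          have hz := h.ha z (hs.1 z (by simp))
          simp only [Pi.sub_apply, Pi.smul_apply, smul_eq_mul, cup0]
          have h5 : μ * (f1 z - f2 z) = α - β := by
            rw [hz, hμ]
            linear_combination (α - β) * hδ
          linear_combination (-y (z :: l')) * h5
      have := e.cob.add hα
      rwa [sub_add_cancel] at this
    · have e : Nl Db (q + 1) (g1 - β • y - μ • cup0 f1 y - (g2 - μ • cup0 f2 y) -
          (g1 - g2 - β • y)) := by
        refine ⟨1, one_pos, fun l hl hs => ?_⟩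
        match l, hl with
        | z :: l', _ =>
          have hz := h.hb z (hs.1 z (by simp))
          simp only [Pi.sub_apply, Pi.smul_apply, smul_eq_mul, cup0]
          linear_combination (-μ * y (z :: l')) * hz
      have := e.cob.add hβ
      rwa [sub_add_cancel] at this

/-- degree one version; `HV Da 1` means that `Da` is connected -/
theorem Cyc.coc1 {C1 C2 Da Db : Set Ω} {ζ : List Ω → ZMod 3} {f1 f2 : Ω → ZMod 3} {ε : ZMod 3}
    (h : Cyc C1 C2 Da Db ζ f1 f2 ε) (hζ : Coc (C1 ∪ C2) 2 ζ)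
    (hv1 : HV C1 2) (hv2 : HV C2 2) (ga : HV Da 1) (gb : HV Db 1)
    (x : List Ω → ZMod 3) (hx : Coc (C1 ∪ C2) 2 x) :
    ∃ μ : ZMod 3, Cob (C1 ∪ C2) 2 (x - μ • ζ) := by
  obtain ⟨g1, hg1⟩ := hv1 x (hx.mono subset_union_left)
  obtain ⟨g2, hg2⟩ := hv2 x (hx.mono subset_union_right)
  have hI : Coc (C1 ∩ C2) 1 (g1 - g2) :=
    coc_two (hg1.mono inter_subset_left) (hg2.mono inter_subset_right)
  rw [h.inter] at hI
  obtain ⟨a, ha⟩ := ga _ (hI.mono subset_union_left)
  obtain ⟨b, hb⟩ := gb _ (hI.mono subset_union_right)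
  have ha' : ∀ z ∈ Da, g1 [z] - g2 [z] = a [] := by
    intro z hz
    obtain ⟨e, he, h'⟩ := ha
    have := h' [z] rfl ⟨by simpa using hz, by simpa using he⟩
    simp only [Pi.sub_apply, d_cons, d_nil, sub_zero] at this
    linear_combination this
  have hb' : ∀ z ∈ Db, g1 [z] - g2 [z] = b [] := by
    intro z hz
    obtain ⟨e, he, h'⟩ := hb
    have := h' [z] rfl ⟨by simpa using hz, by simpa using he⟩
    simp only [Pi.sub_apply, d_cons, d_nil, sub_zero] at this
    linear_combination this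
  obtain ⟨δ, hδ⟩ := inv_mul3 h.unit
  set μ : ZMod 3 := δ * (a [] - b []) with hμ
  -- the constant cochain in degree zero
  set k1 : List Ω → ZMod 3 := c0 (fun _ => b []) with hk1
  have hdk : Nl C1 2 (d k1) := ⟨1, one_pos, fun l hl hs => by
    obtain ⟨x, z, l', rfl, hl'⟩ := list2 (q := 0) hl
    obtain rfl := List.length_eq_zero_iff.1 hl'
    rw [hk1, d_c0, sub_self]⟩
  refine ⟨μ, MV.mv_glue C1 C2 h.c1 h.c2 1 _ (g1 - k1 - μ • c0 f1)
    (g2 - μ • c0 f2) (hx.sub (hζ.smul μ)) ?_ ?_ ?_⟩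
  · have e : x - μ • ζ - d (g1 - k1 - μ • c0 f1) =
        (x - d g1) + d k1 - μ • (ζ - d (c0 f1)) := by
      rw [d_sub, d_sub, d_smul, smul_sub]; abel
    rw [e]
    exact (hg1.add hdk).sub (h.t1.smul μ)
  · have e : x - μ • ζ - d (g2 - μ • c0 f2) =
        (x - d g2) - μ • (ζ - d (c0 f2)) := by
      rw [d_sub, d_smul, smul_sub]; abel
    rw [e]
    exact hg2.sub (h.t2.smul μ)
  · rw [h.inter]
    apply Nl.cob
    refine ⟨1, one_pos, fun l hl hs => ?_⟩
    match l, hl with
    | [z], _ =>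
      simp only [Pi.sub_apply, Pi.smul_apply, smul_eq_mul, c0, hk1]
      rcases hs.1 z (by simp) with hz | hz
      · have h1 := ha' z hz
        have h2 := h.ha z hz
        have h5 : μ * (f1 z - f2 z) = a [] - b [] := by
          rw [h2, hμ]
          linear_combination (a [] - b []) * hδ
        linear_combination h1 - h5
      · have h1 := hb' z hz
        have h2 := h.hb z hz
        linear_combination h1 - μ * h2

theorem Cyc.ne {C1 C2 Da Db : Set Ω} {ζ : List Ω → ZMod 3} {f1 f2 : Ω → ZMod 3} {ε : ZMod 3}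
    (h : Cyc C1 C2 Da Db ζ f1 f2 ε) (q : ℕ) (_hq : 1 ≤ q)
    {y : List Ω → ZMod 3} (hy : Coc (C1 ∪ C2) (q + 1) y)
    (g1 : ∀ c, Coc C1 (q + 1) c → ∃ α : ZMod 3, Cob Da (q + 1) (c - α • y) ∧
      Cob Db (q + 1) (c - α • y))
    (g2 : ∀ c, Coc C2 (q + 1) c → ∃ α : ZMod 3, Cob Da (q + 1) (c - α • y) ∧
      Cob Db (q + 1) (c - α • y))
    (na : ¬ Cob Da (q + 1) y) (nb : ¬ Cob Db (q + 1) y) :
    ¬ Cob (C1 ∪ C2) (q + 2) (cup ζ y) := by
  rintro ⟨g, hg⟩
  have hy1 : Coc C1 (q + 1) y := hy.mono subset_union_left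
  have hy2 : Coc C2 (q + 1) y := hy.mono subset_union_right
  have k1 : Coc C1 (q + 1) (g - cup0 f1 y) :=
    coc_two (hg.mono subset_union_left) (prim_cup0 h.t1 hy1)
  have k2 : Coc C2 (q + 1) (g - cup0 f2 y) :=
    coc_two (hg.mono subset_union_right) (prim_cup0 h.t2 hy2)
  obtain ⟨α, hα1, hα2⟩ := g1 _ k1
  obtain ⟨β, hβ1, hβ2⟩ := g2 _ k2
  have hcancel : ∀ (D : Set Ω) (t : ZMod 3), ¬ Cob D (q + 1) y → Cob D (q + 1) (t • y) →
      t = 0 := by
    intro D t hn ht
    by_contra h0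
    obtain ⟨δ, hδ⟩ := inv_mul3 h0
    apply hn
    have := ht.smul δ
    rwa [smul_smul, hδ, one_smul] at this
  have e1 : α - β = 0 := by
    apply hcancel Db _ nb
    have h1 := hβ2.sub hα2
    have h2 : Nl Db (q + 1) ((α - β) • y - (g - cup0 f2 y - β • y - (g - cup0 f1 y - α • y))) := by
      refine ⟨1, one_pos, fun l hl hs => ?_⟩
      match l, hl with
      | z :: l', _ =>
        have hz := h.hb z (hs.1 z (by simp))
        simp only [Pi.sub_apply, Pi.smul_apply, smul_eq_mul, cup0]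
        linear_combination (-y (z :: l')) * hz
    have := h2.cob.add h1
    rwa [sub_add_cancel] at this
  have e2 : (α - β) + ε = 0 := by
    apply hcancel Da _ na
    have h1 := hβ1.sub hα1
    have h2 : Nl Da (q + 1) ((α - β + ε) • y -
        (g - cup0 f2 y - β • y - (g - cup0 f1 y - α • y))) := by
      refine ⟨1, one_pos, fun l hl hs => ?_⟩
      match l, hl with
      | z :: l', _ =>
        have hz := h.ha z (hs.1 z (by simp))
        simp only [Pi.sub_apply, Pi.smul_apply, smul_eq_mul, cup0]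
        linear_combination (-y (z :: l')) * hz
    have := h2.cob.add h1
    rwa [sub_add_cancel] at this
  exact h.unit (by linear_combination e2 - e1)

/-- degree one version -/
theorem Cyc.ne1 {C1 C2 Da Db : Set Ω} {ζ : List Ω → ZMod 3} {f1 f2 : Ω → ZMod 3} {ε : ZMod 3}
    (h : Cyc C1 C2 Da Db ζ f1 f2 ε) (hv1 : HV C1 1) (hv2 : HV C2 1) (na : Da.Nonempty)
    (nb : Db.Nonempty) : ¬ Cob (C1 ∪ C2) 2 ζ := by
  rintro ⟨g, hg⟩
  have k1 : Coc C1 1 (g - c0 f1) := coc_two (hg.mono subset_union_left) h.t1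
  have k2 : Coc C2 1 (g - c0 f2) := coc_two (hg.mono subset_union_right) h.t2
  obtain ⟨a, ha⟩ := hv1 _ k1
  obtain ⟨b, hb⟩ := hv2 _ k2
  have ha' : ∀ z ∈ C1, g [z] - f1 z = a [] := by
    intro z hz
    obtain ⟨e, he, h'⟩ := ha
    have := h' [z] rfl ⟨by simpa using hz, by simpa using he⟩
    simp only [Pi.sub_apply, d_cons, d_nil, sub_zero, c0] at this
    linear_combination this
  have hb' : ∀ z ∈ C2, g [z] - f2 z = b [] := by
    intro z hz
    obtain ⟨e, he, h'⟩ := hb
    have := h' [z] rfl ⟨by simpa using hz, by simpa using he⟩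
    simp only [Pi.sub_apply, d_cons, d_nil, sub_zero, c0] at this
    linear_combination this
  obtain ⟨x, hx⟩ := na
  obtain ⟨y, hy⟩ := nb
  have hx' : x ∈ C1 ∩ C2 := by rw [h.inter]; exact Or.inl hx
  have hy' : y ∈ C1 ∩ C2 := by rw [h.inter]; exact Or.inr hy
  have e1 := ha' x hx'.1
  have e2 := hb' x hx'.2
  have e3 := ha' y hy'.1
  have e4 := hb' y hy'.2
  have e5 := h.ha x hx
  have e6 := h.hb y hy
  exact h.unit (by linear_combination e2 - e1 - e5 + e3 - e4 + e6)

end

end Pool.Agent.TH650.AS
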