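import Pool.Agent.TH650.Emb.CP

/-! Cohomology mod 3 of the torus `TT = {‖z‖ = 1}` and the solid torus in `Circle × ℂ`. -/

set_option autoImplicit false

open Set

namespace Pool.Agent.TH650.AS

open Pool.Agent.Helper554.Smith Pool.Agent.TH650.Emb

noncomputable section

/-- the unit circle in `ℂ` -/
def Sp : Set ℂ := {z | ‖z‖ = 1}

/-- the class of the unit circle -/
def yS : List ℂ → ZMod 3 := wc (fun z => Complex.arg z / (2 * Real.pi))

theorem Sp_compact : IsCompact Sp := by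
  have : Sp = Metric.sphere (0 : ℂ) 1 := by
    ext z
    simp [Sp]
  rw [this]
  exact isCompact_sphere 0 1

theorem Sp_ne : Sp.Nonempty := ⟨1, by simp [Sp]⟩

/-- the parametrization of the unit circle -/
def phS (p : Circle × Unit) : ℂ := (p.1 : ℂ)

theorem phS_cont (K : Set (Circle × Unit)) : ContinuousOn phS K :=
  (continuous_circle_coe.comp continuous_fst).continuousOn

theorem phS_img : phS '' (cyl univ (univ : Set Unit)) = Sp := by
  ext z
  constructor
  · rintro ⟨p, _, rfl⟩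
    exact Circle.norm_coe p.1
  · intro hz
    have hz' : ‖z‖ = 1 := hz
    refine ⟨(⟨z, by simpa [Submonoid.unitSphere] using hz'⟩, ()), ⟨mem_univ _, mem_univ _⟩, rfl⟩

theorem phS_inj : InjOn phS (cyl univ (univ : Set Unit)) := by
  rintro ⟨s, _⟩ _ ⟨t, _⟩ _ h
  have : s = t := Circle.ext h
  rw [this]

theorem unit_hv (q : ℕ) : HV (univ : Set Unit) (q + 1) :=
  hv_subsingleton (fun _ _ _ _ => rfl) q

theorem unit_cpt : IsCompact (cyl univ (univ : Set Unit)) :=
  cyl_compact isClosed_univ isCompact_univ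

theorem pb_yS : pb phS yS = wc a1 := by
  rw [yS, pb_wc]
  rfl

theorem Sp_gen (c : List ℂ → ZMod 3) (hc : Coc Sp 2 c) : ∃ α : ZMod 3, Cob Sp 2 (c - α • yS) := by
  have h1 : Coc (cyl univ (univ : Set Unit)) 2 (pb phS c) :=
    Coc_pb unit_cpt (phS_cont _) (phS_img ▸ mapsTo_image _ _) hc
  obtain ⟨α, hα⟩ := cp_gen1 isCompact_univ (unit_hv 1) (unit_hv 0) _ h1
  refine ⟨α, Cob_of_pb unit_cpt (phS_cont _) phS_img phS_inj ?_⟩
  rw [pb_sub', pb_smul', pb_yS]
  exact hα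

theorem Sp_nz : ¬ Cob Sp 2 yS := by
  intro h
  have := Cob_pb unit_cpt (phS_cont _) (phS_img ▸ mapsTo_image _ _) h
  rw [pb_yS] at this
  exact cp_ne1 isCompact_univ ⟨(), mem_univ _⟩ (unit_hv 0) this

theorem Sp_hv1 : HV Sp 1 :=
  HV_of_homeo unit_cpt (phS_cont _) phS_img phS_inj
    (cp_hv1 isCompact_univ ⟨(), mem_univ _⟩ (unit_hv 0))

theorem Sp_hv3 (q : ℕ) : HV Sp (q + 3) :=
  HV_of_homeo unit_cpt (phS_cont _) phS_img phS_inj
    (cp_hv isCompact_univ (unit_hv _) (unit_hv _))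

theorem yS_coc : Coc Sp 2 yS := by
  refine coc_wc Sp_compact (CM_arg continuousOn_id ?_)
  intro z hz h
  have hz' : ‖z‖ = 1 := hz
  rw [h, norm_zero] at hz'
  exact zero_ne_one hz'

theorem TT_eq : TT = cyl univ Sp := by
  ext p
  simp [btube, cyl, Sp]

theorem ctube_eq : ctube ℂ 1 = cyl univ (Metric.closedBall (0 : ℂ) 1) := by
  ext p
  simp [ctube, cyl]

theorem TT_compact : IsCompact TT := by
  rw [TT_eq]
  exact cyl_compact isClosed_univ Sp_compact

theorem ctube_compact : IsCompact (ctube ℂ 1) := by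
  rw [ctube_eq]
  exact cyl_compact isClosed_univ (isCompact_closedBall _ _)

theorem cS_eq : cS = wc a1 := rfl

theorem cZ_eq : cZ = pb Prod.snd yS := by
  rw [yS, pb_wc]
  rfl

theorem TT_gen1 (c : List (Circle × ℂ) → ZMod 3) (hc : Coc TT 2 c) :
    ∃ α β : ZMod 3, Cob TT 2 (c - α • cS - β • cZ) := by
  rw [TT_eq] at hc ⊢
  rw [cS_eq, cZ_eq]
  exact cp_gen1' Sp_compact yS_coc Sp_gen Sp_nz Sp_hv1 c hc

theorem TT_ind (α β : ZMod 3) (h : Cob TT 2 (α • cS + β • cZ)) : α = 0 ∧ β = 0 := by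
  rw [TT_eq] at h
  have hβ : β = 0 := by
    have h1 := Cob_pb Sp_compact (sl_cont Sp 1) (K' := cyl univ Sp)
      (fun z hz => ⟨mem_univ _, hz⟩) h
    have h2 : pb (fun z : ℂ => ((1 : Circle), z)) (α • cS + β • cZ) =
        α • wc (fun _ : ℂ => (0 : ℝ)) + β • yS := by
      have e1 : pb (fun z : ℂ => ((1 : Circle), z)) cS = wc (fun _ : ℂ => (0 : ℝ)) := by
        rw [cS, pb_wc]
        congr 1
        funext z
        simp [aS]
      have e2 : pb (fun z : ℂ => ((1 : Circle), z)) cZ = yS := by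
        rw [cZ_eq, pb_sl_snd]
      have e3 : pb (fun z : ℂ => ((1 : Circle), z)) (α • cS + β • cZ) =
        α • pb (fun z : ℂ => ((1 : Circle), z)) cS + β • pb (fun z : ℂ => ((1 : Circle), z)) cZ :=
        rfl
      rw [e3, e1, e2]
    rw [h2] at h1
    have h3 := (wc_cont Sp_compact (a := fun _ : ℂ => (0 : ℝ)) continuousOn_const).smul α
    have h4 := h1.sub h3.cob
    rw [add_sub_cancel_left] at h4
    exact smul_cancel Sp_nz h4
  subst hβ
  rw [zero_smul, add_zero] at h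
  exact ⟨smul_cancel (cp_ne1 Sp_compact Sp_ne Sp_hv1) h, rfl⟩

theorem TT_gen2 (c : List (Circle × ℂ) → ZMod 3) (hc : Coc TT 3 c) :
    ∃ α : ZMod 3, Cob TT 3 (c - α • cup cS cZ) := by
  rw [TT_eq] at hc ⊢
  rw [cS_eq, cZ_eq]
  exact cp_gen_top Sp_compact yS_coc Sp_gen (Sp_hv3 0) c hc

theorem TT_ne2 : ¬ Cob TT 3 (cup cS cZ) := by
  rw [TT_eq, cS_eq, cZ_eq]
  exact cp_ne_top Sp_compact yS_coc Sp_gen Sp_nz

theorem ball_hv (q : ℕ) : HV (Metric.closedBall (0 : ℂ) 1) q := by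
  refine HV_contract (isCompact_closedBall _ _) 0 (by simp) (fun t z => ((1 - t : ℝ) : ℂ) * z)
    (by fun_prop) ?_ (by simp) (by simp) q
  intro t ht z hz
  simp only [Metric.mem_closedBall, dist_zero_right] at hz ⊢
  rw [norm_mul, Complex.norm_real, Real.norm_eq_abs, abs_of_nonneg (by linarith [ht.2])]
  have h1 : 1 - t ≤ 1 := by linarith [ht.1]
  have h2 : 0 ≤ 1 - t := by linarith [ht.2]
  nlinarith [norm_nonneg z]

theorem ctube_gen1 (c : List (Circle × ℂ) → ZMod 3) (hc : Coc (ctube ℂ 1) 2 c) :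
    ∃ α : ZMod 3, Cob (ctube ℂ 1) 2 (c - α • cS) := by
  rw [ctube_eq] at hc ⊢
  rw [cS_eq]
  exact cp_gen1 (isCompact_closedBall _ _) (ball_hv 2) (ball_hv 1) c hc

theorem ctube_hv3 : HV (ctube ℂ 1) 3 := by
  rw [ctube_eq]
  exact cp_hv (isCompact_closedBall _ _) (ball_hv 2) (ball_hv 3)

theorem ctube_hv4 : HV (ctube ℂ 1) 4 := by
  rw [ctube_eq]
  exact cp_hv (isCompact_closedBall _ _) (ball_hv 3) (ball_hv 4)

end

end Pool.Agent.TH650.AS
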