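import Pool.Agent.TH650.Emb.Inc

/-! Topology of the quotient `Q L`. -/

set_option autoImplicit false

open scoped Manifold ContDiff Topology
open Set

namespace Pool.Agent.TH650.Emb

noncomputable section

variable {V : Type} [NormedAddCommGroup V] [NormedSpace ℝ V]

theorem continuous_sg (L : ℂ →ₗᵢ[ℝ] V) : Continuous (sg L) := by
  unfold sg
  have h : Continuous fun p : Circle × V => L (p.1 : ℂ) :=
    L.continuous.comp (continuous_subtype_val.comp continuous_fst)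
  fun_prop

/-- `‖σ(p)‖ ≤ ‖p‖/4 + 1/2` -/
theorem norm_sg_le (L : ℂ →ₗᵢ[ℝ] V) (p : Circle × V) : ‖(sg L p).2‖ ≤ ‖p.2‖ / 4 + 1 / 2 := by
  have h1 : ‖(sg L p).2‖ ≤ ‖(1 / 4 : ℝ) • p.2‖ + ‖(1 / 2 : ℝ) • L (p.1 : ℂ)‖ := norm_add_le _ _
  rw [norm_smul, norm_smul, L.norm_map, Circle.norm_coe] at h1
  norm_num at h1
  linarith

theorem circle_sq_eq {s t : Circle} (h : s * s = t * t) : s = t ∨ s = -t := by
  have h1 : (s : ℂ) * s = t * t := by
    rw [← Circle.coe_mul, h, Circle.coe_mul]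
  rcases mul_self_eq_mul_self_iff.1 h1 with h2 | h2
  · exact Or.inl (Circle.ext h2)
  · refine Or.inr (Circle.ext ?_)
    rw [h2]
    rfl

theorem injOn_sg (L : ℂ →ₗᵢ[ℝ] V) : InjOn (sg L) (tube V 2) := by
  rintro ⟨s, x⟩ hx ⟨t, y⟩ hy h
  have hx' : ‖x‖ < 2 := hx
  have hy' : ‖y‖ < 2 := hy
  have h1 : s * s = t * t := congrArg Prod.fst h
  have h2 : (1 / 4 : ℝ) • x + (1 / 2 : ℝ) • L (s : ℂ) = (1 / 4 : ℝ) • y + (1 / 2 : ℝ) • L (t : ℂ) :=
    congrArg Prod.snd h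
  rcases circle_sq_eq h1 with rfl | rfl
  · have h3 : (1 / 4 : ℝ) • x = (1 / 4 : ℝ) • y := add_right_cancel h2
    have h4 : x = y := smul_right_injective V (by norm_num : (1 / 4 : ℝ) ≠ 0) h3
    rw [h4]
  · exfalso
    have h3 : x - y = (4 : ℝ) • L (t : ℂ) := by
      have e : (((-t : Circle)) : ℂ) = -(t : ℂ) := rfl
      rw [e, map_neg, smul_neg] at h2
      have h4 : (1 / 4 : ℝ) • (x - y) = L (t : ℂ) := by
        have h5 : (1 / 4 : ℝ) • x = (1 / 4 : ℝ) • y + (1 / 2 : ℝ) • L (t : ℂ) +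
            (1 / 2 : ℝ) • L (t : ℂ) := by
          rw [← h2]; abel
        rw [smul_sub, h5]
        have : (1 / 2 : ℝ) • L (t : ℂ) + (1 / 2 : ℝ) • L (t : ℂ) = L (t : ℂ) := by
          rw [← add_smul]; norm_num
        rw [add_assoc, this]; abel
      rw [← h4, smul_smul]; norm_num
    have h4 : ‖x - y‖ = 4 := by
      rw [h3, norm_smul, L.norm_map, Circle.norm_coe]
      norm_num
    have h5 := norm_sub_le x y
    linarith

/-- the shear -/
def shear (L : ℂ →ₗᵢ[ℝ] V) : Circle × V ≃ₜ Circle × V where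
  toFun p := (p.1, (1 / 4 : ℝ) • p.2 + (1 / 2 : ℝ) • L (p.1 : ℂ))
  invFun p := (p.1, (4 : ℝ) • (p.2 - (1 / 2 : ℝ) • L (p.1 : ℂ)))
  left_inv p := by
    apply Prod.ext
    · rfl
    · simp only
      rw [add_sub_cancel_right, smul_smul]
      norm_num
  right_inv p := by
    apply Prod.ext
    · rfl
    · simp only
      rw [smul_smul]
      norm_num
  continuous_toFun := by
    have h : Continuous fun p : Circle × V => L (p.1 : ℂ) :=
      L.continuous.comp (continuous_subtype_val.comp continuous_fst)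
    fun_prop
  continuous_invFun := by
    have h : Continuous fun p : Circle × V => L (p.1 : ℂ) :=
      L.continuous.comp (continuous_subtype_val.comp continuous_fst)
    fun_prop

theorem isOpenMap_csq : IsOpenMap fun s : Circle => s * s := by
  intro U hU
  have h1 : (fun s : Circle => s * s) '' U =
      Circle.exp '' ((fun t : ℝ => 2 * t) '' (Circle.exp ⁻¹' U)) := by
    ext s
    constructor
    · rintro ⟨t, ht, rfl⟩
      refine ⟨2 * Complex.arg t, ⟨Complex.arg t, ?_, rfl⟩, ?_⟩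
      · show Circle.exp (Complex.arg t) ∈ U
        rwa [Circle.exp_arg]
      · rw [two_mul, Circle.exp_add, Circle.exp_arg]
    · rintro ⟨_, ⟨t, ht, rfl⟩, rfl⟩
      refine ⟨Circle.exp t, ht, ?_⟩
      show Circle.exp t * Circle.exp t = Circle.exp (2 * t)
      rw [two_mul, Circle.exp_add]
  rw [h1]
  apply isLocalHomeomorph_circleExp.isOpenMap
  exact (Homeomorph.mulLeft₀ (2 : ℝ) two_ne_zero).isOpenMap _ (hU.preimage Circle.exp.continuous)

theorem isOpenMap_sg (L : ℂ →ₗᵢ[ℝ] V) : IsOpenMap (sg L) := by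
  have h : sg L = Prod.map (fun s : Circle => s * s) id ∘ shear L := rfl
  rw [h]
  exact (isOpenMap_csq.prodMap IsOpenMap.id).comp (shear L).isOpenMap

/-! ### iterates -/

theorem tube_mono {r s : ℝ} (h : r ≤ s) : tube V r ⊆ tube V s := fun p hp => by
  have : ‖p.2‖ < r := hp
  exact this.trans_le h

theorem tube_sub_ctube' {r : ℝ} : tube V r ⊆ ctube V r := fun p hp => by
  have : ‖p.2‖ < r := hp
  exact this.le

theorem ctube_sub_tube {r s : ℝ} (h : r < s) : ctube V r ⊆ tube V s := fun p hp => by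
  have : ‖p.2‖ ≤ r := hp
  exact this.trans_lt h

theorem sg_tube1 (L : ℂ →ₗᵢ[ℝ] V) {p : Circle × V} (hp : p ∈ ctube V (3 / 2)) :
    sg L p ∈ tube V 1 := by
  have h1 := norm_sg_le L p
  have h2 : ‖p.2‖ ≤ 3 / 2 := hp
  show ‖(sg L p).2‖ < 1
  linarith

theorem sg_maps_t (L : ℂ →ₗᵢ[ℝ] V) : MapsTo (sg L) (tube V (3 / 2)) (tube V (3 / 2)) :=
  fun _ hp => tube_mono (by norm_num) (sg_tube1 L (tube_sub_ctube' hp))

theorem sg_maps_c (L : ℂ →ₗᵢ[ℝ] V) : MapsTo (sg L) (ctube V (3 / 2)) (ctube V (3 / 2)) :=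
  fun _ hp => tube_sub_ctube' (tube_mono (by norm_num) (sg_tube1 L hp))

theorem iter_maps_t (L : ℂ →ₗᵢ[ℝ] V) (j : ℕ) :
    MapsTo (sg L)^[j] (tube V (3 / 2)) (tube V (3 / 2)) := (sg_maps_t L).iterate j

theorem iter_maps_c (L : ℂ →ₗᵢ[ℝ] V) (j : ℕ) :
    MapsTo (sg L)^[j] (ctube V (3 / 2)) (ctube V (3 / 2)) := (sg_maps_c L).iterate j

theorem sg_inj_t (L : ℂ →ₗᵢ[ℝ] V) : InjOn (sg L) (tube V (3 / 2)) :=
  (injOn_sg L).mono (tube_mono (by norm_num))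

theorem iter_inj_t (L : ℂ →ₗᵢ[ℝ] V) (j : ℕ) : InjOn (sg L)^[j] (tube V (3 / 2)) := by
  induction j with
  | zero => exact Function.injective_id.injOn
  | succ j ih =>
    intro p hp q hq h
    rw [Function.iterate_succ_apply, Function.iterate_succ_apply] at h
    exact sg_inj_t L hp hq (ih (sg_maps_t L hp) (sg_maps_t L hq) h)

/-- the solenoid is contained in all images of the closed tube -/
theorem Sol_eq (L : ℂ →ₗᵢ[ℝ] V) : Sol L = ⋂ j : ℕ, (sg L)^[j] '' ctube V (3 / 2) := by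
  apply Subset.antisymm
  · exact iInter_mono fun j => image_mono tube_sub_ctube'
  · intro p hp
    rw [mem_iInter] at hp
    rw [Sol, mem_iInter]
    intro j
    obtain ⟨q, hq, h⟩ := hp (j + 1)
    rw [Function.iterate_succ_apply] at h
    exact ⟨sg L q, tube_mono (by norm_num) (sg_tube1 L hq), h⟩

/-- the closed images -/
def KK (L : ℂ →ₗᵢ[ℝ] V) (j : ℕ) : Set (Circle × V) := (sg L)^[j] '' ctube V (3 / 2)

theorem KK_anti (L : ℂ →ₗᵢ[ℝ] V) {i j : ℕ} (h : i ≤ j) : KK L j ⊆ KK L i := by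
  rintro _ ⟨q, hq, rfl⟩
  obtain ⟨m, rfl⟩ := Nat.exists_eq_add_of_le h
  rw [Function.iterate_add_apply]
  exact ⟨_, iter_maps_c L m hq, rfl⟩

theorem ctube_compact' [ProperSpace V] (r : ℝ) : IsCompact (ctube V r) := by
  have : ctube V r = univ ×ˢ Metric.closedBall (0 : V) r := by
    ext p
    simp [ctube]
  rw [this]
  exact isCompact_univ.prod (isCompact_closedBall _ _)

theorem continuous_iter (L : ℂ →ₗᵢ[ℝ] V) (j : ℕ) : Continuous (sg L)^[j] :=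
  (continuous_sg L).iterate j

theorem KK_closed [ProperSpace V] (L : ℂ →ₗᵢ[ℝ] V) (j : ℕ) : IsClosed (KK L j) :=
  ((ctube_compact' _).image (continuous_iter L j)).isClosed

theorem tube_open (r : ℝ) : IsOpen (tube V r) :=
  isOpen_lt (continuous_norm.comp continuous_snd) continuous_const

theorem isOpen_Om [ProperSpace V] (L : ℂ →ₗᵢ[ℝ] V) : IsOpen (Om L) := by
  refine (tube_open _).sdiff ?_
  rw [Sol_eq]
  exact isClosed_iInter fun j => KK_closed L j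

theorem Sol_of_sg (L : ℂ →ₗᵢ[ℝ] V) {p : Circle × V} (hp : p ∈ tube V (3 / 2))
    (h : sg L p ∈ Sol L) : p ∈ Sol L := by
  rw [Sol, mem_iInter] at h ⊢
  intro j
  obtain ⟨q, hq, h1⟩ := h (j + 1)
  rw [Function.iterate_succ_apply'] at h1
  exact ⟨q, hq, sg_inj_t L (iter_maps_t L j hq) hp h1⟩

theorem sg_mem_Om (L : ℂ →ₗᵢ[ℝ] V) {p : Circle × V} (hp : p ∈ Om L) : sg L p ∈ Om L :=
  ⟨sg_maps_t L hp.1, fun h => hp.2 (Sol_of_sg L hp.1 h)⟩

theorem iter_mem_Om (L : ℂ →ₗᵢ[ℝ] V) (j : ℕ) {p : Circle × V} (hp : p ∈ Om L) :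
    (sg L)^[j] p ∈ Om L := by
  induction j with
  | zero => exact hp
  | succ j ih => rw [Function.iterate_succ_apply']; exact sg_mem_Om L ih

theorem mk_eq_iff (L : ℂ →ₗᵢ[ℝ] V) (p q : Om L) :
    mk L p = mk L q ↔ ∃ j : ℕ, (sg L)^[j] p.1 = q.1 ∨ (sg L)^[j] q.1 = p.1 := by
  constructor
  · intro h
    obtain ⟨j, k, h1⟩ := Quotient.exact h
    rcases le_total j k with hjk | hjk
    · obtain ⟨m, rfl⟩ := Nat.exists_eq_add_of_le hjk
      rw [Function.iterate_add_apply] at h1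
      exact ⟨m, Or.inr (iter_inj_t L j p.2.1 (iter_maps_t L m q.2.1) h1).symm⟩
    · obtain ⟨m, rfl⟩ := Nat.exists_eq_add_of_le hjk
      rw [Function.iterate_add_apply] at h1
      exact ⟨m, Or.inl (iter_inj_t L k (iter_maps_t L m p.2.1) q.2.1 h1)⟩
  · rintro ⟨j, h | h⟩
    · exact Quotient.sound ⟨j, 0, h⟩
    · exact Quotient.sound ⟨0, j, h.symm⟩

theorem continuous_mk (L : ℂ →ₗᵢ[ℝ] V) : Continuous (mk L) := continuous_quotient_mk'

theorem mk_surjective (L : ℂ →ₗᵢ[ℝ] V) : Function.Surjective (mk L) := Quotient.mk_surjective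

theorem isOpenMap_iter (L : ℂ →ₗᵢ[ℝ] V) (j : ℕ) : IsOpenMap (sg L)^[j] := by
  induction j with
  | zero => exact IsOpenMap.id
  | succ j ih => rw [Function.iterate_succ]; exact ih.comp (isOpenMap_sg L)

theorem isOpenMap_mk [ProperSpace V] (L : ℂ →ₗᵢ[ℝ] V) : IsOpenMap (mk L) := by
  intro U hU
  have hq : Topology.IsQuotientMap (mk L) := isQuotientMap_quotient_mk'
  rw [← hq.isOpen_preimage]
  have hU' : IsOpen (Subtype.val '' U : Set (Circle × V)) := (isOpen_Om L).isOpenMap_subtype_val U hU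
  have h1 : mk L ⁻¹' (mk L '' U) = ⋃ j : ℕ,
      ((fun q : Om L => q.1) ⁻¹' ((sg L)^[j] '' (Subtype.val '' U)) ∪
        (fun q : Om L => (sg L)^[j] q.1) ⁻¹' (Subtype.val '' U)) := by
    ext q
    simp only [mem_preimage, mem_image, mem_iUnion, mem_union]
    constructor
    · rintro ⟨p, hp, h⟩
      obtain ⟨j, h2 | h2⟩ := (mk_eq_iff L p q).1 h
      · exact ⟨j, Or.inl ⟨p.1, ⟨p, hp, rfl⟩, h2⟩⟩
      · exact ⟨j, Or.inr ⟨p, hp, h2.symm⟩⟩
    · rintro ⟨j, ⟨_, ⟨p, hp, rfl⟩, h2⟩ | ⟨p, hp, h2⟩⟩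
      · exact ⟨p, hp, (mk_eq_iff L p q).2 ⟨j, Or.inl h2⟩⟩
      · exact ⟨p, hp, (mk_eq_iff L p q).2 ⟨j, Or.inr h2.symm⟩⟩
  rw [h1]
  refine isOpen_iUnion fun j => IsOpen.union ?_ ?_
  · exact (isOpenMap_iter L j _ hU').preimage continuous_subtype_val
  · exact hU'.preimage ((continuous_iter L j).comp continuous_subtype_val)

theorem notMem_KK (L : ℂ →ₗᵢ[ℝ] V) (p : Om L) : ∃ J, p.1 ∉ KK L J := by
  by_contra h
  push Not at h
  apply p.2.2
  rw [Sol_eq, mem_iInter]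
  exact h

theorem lt_of_iter (L : ℂ →ₗᵢ[ℝ] V) {J j : ℕ} {p q : Om L} (hq : q.1 ∉ KK L J)
    (h : (sg L)^[j] p.1 = q.1) : j < J := by
  by_contra hj
  push Not at hj
  apply hq
  apply KK_anti L hj
  exact ⟨p.1, tube_sub_ctube' p.2.1, h⟩

theorem iter_ne (L : ℂ →ₗᵢ[ℝ] V) (p : Om L) {j : ℕ} (hj : 0 < j) : (sg L)^[j] p.1 ≠ p.1 := by
  intro h
  apply p.2.2
  rw [Sol_eq, mem_iInter]
  intro m
  have h1 : ∀ k : ℕ, (sg L)^[j * k] p.1 = p.1 := by
    intro k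
    rw [Function.iterate_mul]
    exact Function.iterate_fixed h k
  apply KK_anti L (Nat.le_mul_of_pos_left m hj)
  exact ⟨p.1, tube_sub_ctube' p.2.1, h1 m⟩

theorem mk_eq_iff' (L : ℂ →ₗᵢ[ℝ] V) {J : ℕ} {p q : Om L} (hp : p.1 ∉ KK L J) (hq : q.1 ∉ KK L J) :
    mk L p = mk L q ↔ ∃ j < J, (sg L)^[j] p.1 = q.1 ∨ (sg L)^[j] q.1 = p.1 := by
  rw [mk_eq_iff]
  constructor
  · rintro ⟨j, h | h⟩
    · exact ⟨j, lt_of_iter L hq h, Or.inl h⟩
    · exact ⟨j, lt_of_iter L hp h, Or.inr h⟩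
  · rintro ⟨j, _, h⟩
    exact ⟨j, h⟩

theorem ev_notMem [ProperSpace V] (L : ℂ →ₗᵢ[ℝ] V) {J : ℕ} {p : Om L} (hp : p.1 ∉ KK L J) :
    ∀ᶠ q : Om L in 𝓝 p, q.1 ∉ KK L J :=
  continuous_subtype_val.continuousAt.eventually ((KK_closed L J).isOpen_compl.mem_nhds hp)

theorem ev_ne (L : ℂ →ₗᵢ[ℝ] V) (j : ℕ) {p q : Om L} (h : (sg L)^[j] p.1 ≠ q.1) :
    ∀ᶠ x : Om L × Om L in 𝓝 (p, q), (sg L)^[j] x.1.1 ≠ x.2.1 := by
  have h1 : IsOpen {x : Om L × Om L | (sg L)^[j] x.1.1 ≠ x.2.1} :=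
    isOpen_ne_fun ((continuous_iter L j).comp (continuous_subtype_val.comp continuous_fst))
      (continuous_subtype_val.comp continuous_snd)
  exact h1.mem_nhds h

theorem ev_ne' (L : ℂ →ₗᵢ[ℝ] V) (j : ℕ) {p q : Om L} (h : (sg L)^[j] q.1 ≠ p.1) :
    ∀ᶠ x : Om L × Om L in 𝓝 (p, q), (sg L)^[j] x.2.1 ≠ x.1.1 := by
  have h1 : IsOpen {x : Om L × Om L | (sg L)^[j] x.2.1 ≠ x.1.1} :=
    isOpen_ne_fun ((continuous_iter L j).comp (continuous_subtype_val.comp continuous_snd))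
      (continuous_subtype_val.comp continuous_fst)
  exact h1.mem_nhds h

theorem isLocalHomeomorph_mk [ProperSpace V] (L : ℂ →ₗᵢ[ℝ] V) : IsLocalHomeomorph (mk L) := by
  rw [isLocalHomeomorph_iff_isOpenEmbedding_restrict]
  intro p
  obtain ⟨J, hJ⟩ := notMem_KK L p
  have h1 : ∀ᶠ x : Om L × Om L in 𝓝 (p, p),
      ∀ j ∈ Finset.Ioo 0 J, (sg L)^[j] x.1.1 ≠ x.2.1 ∧ (sg L)^[j] x.2.1 ≠ x.1.1 := by
    rw [Filter.eventually_all_finset]
    intro j hj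
    have hj' := (Finset.mem_Ioo.1 hj).1
    exact (ev_ne L j (iter_ne L p hj')).and (ev_ne' L j (iter_ne L p hj'))
  have h2 : ∀ᶠ x : Om L × Om L in 𝓝 (p, p), x.1.1 ∉ KK L J ∧ x.2.1 ∉ KK L J :=
    (continuous_fst.continuousAt.eventually (ev_notMem L hJ)).and
      (continuous_snd.continuousAt.eventually (ev_notMem L hJ))
  have h3 := h1.and h2
  rw [nhds_prod_eq] at h3
  obtain ⟨t, ht, hs⟩ := Filter.mem_prod_same_iff.1 h3
  obtain ⟨U, hU1, hU2, hU3⟩ := mem_nhds_iff.1 ht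
  refine ⟨U, hU2.mem_nhds hU3, ?_⟩
  apply Topology.IsOpenEmbedding.of_continuous_injective_isOpenMap
  · exact (continuous_mk L).comp continuous_subtype_val
  · rintro ⟨x, hx⟩ ⟨y, hy⟩ h
    have h4 := hs (mk_mem_prod (hU1 hx) (hU1 hy))
    obtain ⟨h5, h6, h7⟩ := h4
    have h8 : mk L x = mk L y := h
    obtain ⟨j, hj, h9⟩ := (mk_eq_iff' L h6 h7).1 h8
    rcases Nat.eq_zero_or_pos j with rfl | hj0
    · apply Subtype.ext
      apply Subtype.ext
      rcases h9 with h9 | h9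
      · exact h9
      · exact h9.symm
    · exfalso
      have h10 := h5 j (Finset.mem_Ioo.2 ⟨hj0, hj⟩)
      rcases h9 with h9 | h9
      · exact h10.1 h9
      · exact h10.2 h9
  · exact (isOpenMap_mk L).comp hU2.isOpenMap_subtype_val

instance t2 [ProperSpace V] (L : ℂ →ₗᵢ[ℝ] V) : T2Space (Q L) := by
  have hq : IsOpenQuotientMap (mk L) := ⟨mk_surjective L, continuous_mk L, isOpenMap_mk L⟩
  rw [t2Space_iff_of_isOpenQuotientMap hq]
  rw [← isOpen_compl_iff, isOpen_iff_mem_nhds]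
  rintro ⟨p, q⟩ hpq
  have hpq' : mk L p ≠ mk L q := hpq
  obtain ⟨J1, hJ1⟩ := notMem_KK L p
  obtain ⟨J2, hJ2⟩ := notMem_KK L q
  set J := max J1 J2 with hJ
  have hp : p.1 ∉ KK L J := fun h => hJ1 (KK_anti L (le_max_left _ _) h)
  have hq' : q.1 ∉ KK L J := fun h => hJ2 (KK_anti L (le_max_right _ _) h)
  have h1 : ∀ᶠ x : Om L × Om L in 𝓝 (p, q),
      ∀ j ∈ Finset.range J, (sg L)^[j] x.1.1 ≠ x.2.1 ∧ (sg L)^[j] x.2.1 ≠ x.1.1 := by
    rw [Filter.eventually_all_finset]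
    intro j hj
    refine (ev_ne L j ?_).and (ev_ne' L j ?_)
    · intro h
      exact hpq' ((mk_eq_iff L p q).2 ⟨j, Or.inl h⟩)
    · intro h
      exact hpq' ((mk_eq_iff L p q).2 ⟨j, Or.inr h⟩)
  have h2 : ∀ᶠ x : Om L × Om L in 𝓝 (p, q), x.1.1 ∉ KK L J ∧ x.2.1 ∉ KK L J :=
    (continuous_fst.continuousAt.eventually (ev_notMem L hp)).and
      (continuous_snd.continuousAt.eventually (ev_notMem L hq'))
  filter_upwards [h1, h2] with x h3 h4 h5
  obtain ⟨j, hj, h6⟩ := (mk_eq_iff' L h4.1 h4.2).1 h5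
  have h7 := h3 j (Finset.mem_range.2 hj)
  rcases h6 with h6 | h6
  · exact h7.1 h6
  · exact h7.2 h6

theorem Dom_sub_Om (L : ℂ →ₗᵢ[ℝ] V) : Dom L ⊆ Om L := by
  rintro p ⟨hp1, hp2⟩
  refine ⟨ctube_sub_tube (by norm_num) hp1, fun h => hp2 ?_⟩
  rw [Sol, mem_iInter] at h
  obtain ⟨q, hq, h1⟩ := h 2
  exact ⟨sg L q, sg_tube1 L (tube_sub_ctube' hq), h1⟩

theorem isCompact_Dom [ProperSpace V] (L : ℂ →ₗᵢ[ℝ] V) : IsCompact (Dom L) :=
  (ctube_compact' 1).diff ((isOpenMap_sg L) _ (tube_open 1))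

theorem exists_Dom (L : ℂ →ₗᵢ[ℝ] V) (y : Q L) : ∃ p : Om L, p.1 ∈ Dom L ∧ mk L p = y := by
  classical
  obtain ⟨p0, rfl⟩ := mk_surjective L y
  set p : Om L := ⟨sg L p0.1, sg_mem_Om L p0.2⟩ with hp
  have hmk : mk L p = mk L p0 := (mk_eq_iff L p p0).2 ⟨1, Or.inr rfl⟩
  have hp1 : p.1 ∈ tube V 1 := sg_tube1 L (tube_sub_ctube' p0.2.1)
  have hex : ∃ j, p.1 ∉ (sg L)^[j] '' tube V 1 := by
    obtain ⟨J, hJ⟩ := notMem_KK L p
    exact ⟨J, fun h => hJ (image_mono ((tube_mono (by norm_num)).trans tube_sub_ctube') h)⟩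
  have hm := Nat.find_spec hex
  have hm0 : Nat.find hex ≠ 0 := by
    intro h0
    rw [h0] at hm
    exact hm ⟨p.1, hp1, rfl⟩
  obtain ⟨m, hm1⟩ := Nat.exists_eq_succ_of_ne_zero hm0
  have hm2 : p.1 ∈ (sg L)^[m] '' tube V 1 := by
    by_contra h
    exact Nat.find_min hex (by omega) h
  rw [hm1] at hm
  obtain ⟨q, hq, h1⟩ := hm2
  have hqD : q ∈ Dom L := by
    refine ⟨tube_sub_ctube' hq, ?_⟩
    rintro ⟨r, hr, h2⟩
    apply hm
    refine ⟨r, hr, ?_⟩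
    rw [Nat.succ_eq_add_one, Function.iterate_succ_apply, h2]
    exact h1
  refine ⟨⟨q, Dom_sub_Om L hqD⟩, hqD, ?_⟩
  rw [← hmk, mk_eq_iff]
  exact ⟨m, Or.inl h1⟩

theorem Dom_iter (L : ℂ →ₗᵢ[ℝ] V) {p q : Circle × V} (hp : p ∈ Dom L) (hq : q ∈ Dom L) {j : ℕ}
    (h : (sg L)^[j] p = q) : p = q ∨ (p ∈ btube V 1 ∧ q = sg L p) := by
  have hpc : p ∈ ctube V (3 / 2) := by
    have : ‖p.2‖ ≤ 1 := hp.1
    show ‖p.2‖ ≤ 3 / 2
    linarith
  rcases j with _ | j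
  · exact Or.inl h
  right
  rw [Function.iterate_succ_apply'] at h
  rcases j with _ | j
  · refine ⟨?_, h.symm⟩
    have h1 : ‖p.2‖ ≤ 1 := hp.1
    rcases lt_or_eq_of_le h1 with h2 | h2
    · exact absurd ⟨p, h2, h⟩ hq.2
    · exact h2
  · exfalso
    apply hq.2
    refine ⟨_, ?_, h⟩
    rw [Function.iterate_succ_apply']
    exact sg_tube1 L (iter_maps_c L j hpc)

theorem mk_Dom (L : ℂ →ₗᵢ[ℝ] V) (p q : Om L) (hp : p.1 ∈ Dom L) (hq : q.1 ∈ Dom L)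
    (h : mk L p = mk L q) :
    p = q ∨ (p.1 ∈ btube V 1 ∧ q.1 = sg L p.1) ∨ (q.1 ∈ btube V 1 ∧ p.1 = sg L q.1) := by
  obtain ⟨j, h1 | h1⟩ := (mk_eq_iff L p q).1 h
  · rcases Dom_iter L hp hq h1 with h2 | h2
    · exact Or.inl (Subtype.ext h2)
    · exact Or.inr (Or.inl h2)
  · rcases Dom_iter L hq hp h1 with h2 | h2
    · exact Or.inl (Subtype.ext h2.symm)
    · exact Or.inr (Or.inr h2)

instance compactSpace_Q [ProperSpace V] (L : ℂ →ₗᵢ[ℝ] V) : CompactSpace (Q L) := by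
  have h1 : CompactSpace (Dom L) := isCompact_iff_compactSpace.1 (isCompact_Dom L)
  let q : Dom L → Q L := fun p => mk L ⟨p.1, Dom_sub_Om L p.2⟩
  have hq : Continuous q := (continuous_mk L).comp (continuous_subtype_val.subtype_mk _)
  have hs : Function.Surjective q := by
    intro y
    obtain ⟨p, hp, rfl⟩ := exists_Dom L y
    exact ⟨⟨p.1, hp⟩, rfl⟩
  exact hs.compactSpace hq

end

end Pool.Agent.TH650.Emb
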