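import Pool.Agent.TH650.Emb.AS4
import Pool.Agent.TH650.Emb.Model

/-! Classes on the fundamental domain `DD = ctube 1 ∖ σ(tube 1)` in `Circle × ℂ`. -/

set_option autoImplicit false

open Set

namespace Pool.Agent.TH650.AS

open Pool.Agent.Helper554.Smith Pool.Agent.TH650.Emb

noncomputable section

theorem DD_compact : IsCompact DD := isCompact_Dom L2

/-! ### geometry -/

/-- the solenoid map -/
abbrev sg2 : Circle × ℂ → Circle × ℂ := sg L2

theorem sg2_fst (p : Circle × ℂ) : (sg2 p).1 = p.1 * p.1 := rfl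

theorem sg2_snd (p : Circle × ℂ) : (sg2 p).2 = p.2 / 4 + (p.1 : ℂ) / 2 := by
  show (1 / 4 : ℝ) • p.2 + (1 / 2 : ℝ) • L2 (p.1 : ℂ) = _
  simp only [L2, LinearIsometry.id_apply, Complex.real_smul]
  push_cast
  ring

theorem sg2_cont (K : Set (Circle × ℂ)) : ContinuousOn sg2 K := (continuous_sg L2).continuousOn

theorem sg2_norm {p : Circle × ℂ} (hp : p ∈ ctube ℂ 1) : ‖(sg2 p).2‖ ≤ 3 / 4 := by
  have h1 := norm_sg_le L2 p
  have h2 : ‖p.2‖ ≤ 1 := hp
  linarith

theorem TT_sub_ctube : TT ⊆ ctube ℂ 1 := fun _ hp => le_of_eq hp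

theorem tube_sub_ctube : tube ℂ 1 ⊆ ctube ℂ 1 := fun p hp => by
  have h : ‖p.2‖ < 1 := hp
  exact h.le

theorem ctube_sub_tube2 : ctube ℂ 1 ⊆ tube ℂ 2 := fun p hp => by
  have h : ‖p.2‖ ≤ 1 := hp
  show ‖p.2‖ < 2
  linarith

theorem sg2_inj : InjOn sg2 (ctube ℂ 1) := (injOn_sg L2).mono ctube_sub_tube2

theorem TT_sub_DD : TT ⊆ DD := by
  intro p hp
  refine ⟨le_of_eq hp, ?_⟩
  rintro ⟨q, hq, rfl⟩
  have h1 := sg2_norm (tube_sub_ctube hq)
  have h2 : ‖(sg2 q).2‖ = 1 := hp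
  linarith

theorem sgTT_sub_DD : MapsTo sg2 TT DD := by
  intro p hp
  refine ⟨?_, ?_⟩
  · have := sg2_norm (TT_sub_ctube hp)
    show ‖(sg2 p).2‖ ≤ 1
    linarith
  · rintro ⟨q, hq, h⟩
    have h1 : q = p := sg2_inj (tube_sub_ctube hq) (TT_sub_ctube hp) h
    subst h1
    have h2 : ‖q.2‖ < 1 := hq
    have h3 : ‖q.2‖ = 1 := hp
    linarith

theorem DD_union : DD ∪ sg2 '' ctube ℂ 1 = ctube ℂ 1 := by
  ext p
  constructor
  · rintro (h | ⟨q, hq, rfl⟩)
    · exact h.1
    · have := sg2_norm hq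
      show ‖(sg2 q).2‖ ≤ 1
      linarith
  · intro hp
    by_cases h : p ∈ sg2 '' tube ℂ 1
    · exact Or.inr (image_mono tube_sub_ctube h)
    · exact Or.inl ⟨hp, h⟩

theorem DD_inter : DD ∩ sg2 '' ctube ℂ 1 = sg2 '' TT := by
  ext p
  constructor
  · rintro ⟨h, q, hq, rfl⟩
    refine ⟨q, ?_, rfl⟩
    have h1 : ‖q.2‖ ≤ 1 := hq
    rcases lt_or_eq_of_le h1 with h2 | h2
    · exact absurd ⟨q, h2, rfl⟩ h.2
    · exact h2
  · rintro ⟨q, hq, rfl⟩
    exact ⟨sgTT_sub_DD hq, q, TT_sub_ctube hq, rfl⟩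

theorem sgctube_compact : IsCompact (sg2 '' ctube ℂ 1) :=
  ctube_compact.image (continuous_sg L2)

/-- `Φ(s, z) = z² - s/4` -/
def Ph (p : Circle × ℂ) : ℂ := p.2 ^ 2 - (p.1 : ℂ) / 4

theorem Ph_cont : Continuous Ph := by
  unfold Ph
  exact (continuous_snd.pow 2).sub ((continuous_circle_coe.comp continuous_fst).div_const 4)

theorem Ph_ne {p : Circle × ℂ} (hp : p ∈ DD) : Ph p ≠ 0 := by
  intro h
  apply hp.2
  have h1 : p.2 ^ 2 = (p.1 : ℂ) / 4 := sub_eq_zero.1 h
  have h2 : ‖p.2‖ ^ 2 = 1 / 4 := by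
    rw [← norm_pow, h1, norm_div, Circle.norm_coe]
    norm_num
  have h3 : ‖(2 : ℂ) * p.2‖ = 1 := by
    rw [norm_mul, Complex.norm_ofNat]
    have h4 : (2 * ‖p.2‖) ^ 2 = 1 := by rw [mul_pow, h2]; norm_num
    have h5 : 0 ≤ 2 * ‖p.2‖ := by positivity
    nlinarith
  let t : Circle := ⟨2 * p.2, by simpa [Submonoid.unitSphere] using h3⟩
  have ht : (t : ℂ) = 2 * p.2 := rfl
  refine ⟨(t, 0), by simp [tube], ?_⟩
  apply Prod.ext
  · apply Circle.ext
    show (t : ℂ) * (t : ℂ) = p.1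
    rw [ht]
    linear_combination 4 * h1
  · have := sg2_snd (t, 0)
    show (sg2 (t, 0)).2 = p.2
    rw [this, ht]
    ring

/-- the class of `Φ` -/
def cP : List (Circle × ℂ) → ZMod 3 := wc (fun p => Complex.arg (Ph p) / (2 * Real.pi))

theorem cP_coc : Coc DD 2 cP := coc_wc DD_compact (CM_arg Ph_cont.continuousOn fun _ => Ph_ne)

theorem cS_coc {K : Set (Circle × ℂ)} (hK : IsCompact K) : Coc K 2 cS := coc_wc hK (CM_aS K)

theorem cZ_coc : Coc TT 2 cZ := by
  refine coc_wc TT_compact (CM_aZ ?_)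
  intro p hp h
  have : ‖p.2‖ = 1 := hp
  rw [h, norm_zero] at this
  exact zero_ne_one this

/-! ### arguments -/

theorem arg_mul_mod {x y : ℂ} (hx : x ≠ 0) (hy : y ≠ 0) : ∃ m : ℤ,
    Complex.arg (x * y) / (2 * Real.pi) =
      Complex.arg x / (2 * Real.pi) + Complex.arg y / (2 * Real.pi) + m := by
  have h := Complex.arg_mul_coe_angle hx hy
  rw [← Real.Angle.coe_add, Real.Angle.angle_eq_iff_two_pi_dvd_sub] at h
  obtain ⟨k, hk⟩ := h
  refine ⟨k, ?_⟩
  have hpi : (2 * Real.pi) ≠ 0 := by positivity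
  field_simp
  linarith

theorem wc_congr' {Ω : Type} [MetricSpace Ω] {K : Set Ω} (hK : IsCompact K) {a b φ : Ω → ℝ}
    (hb : CM K b) (hφ : ContinuousOn φ K) (h : ∀ x ∈ K, ∃ m : ℤ, a x = b x + φ x + m) :
    Cob K 2 (wc a - wc b) := by
  choose! m hm using h
  exact wc_congr hK hb m hφ hm

theorem CM_add {Ω : Type} [MetricSpace Ω] {K : Set Ω} {a b : Ω → ℝ} (ha : CM K a)
    (hb : CM K b) : CM K (fun x => a x + b x) := by
  unfold CM at *
  have : (fun x => Circle.exp (2 * Real.pi * (a x + b x))) =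
      fun x => Circle.exp (2 * Real.pi * a x) * Circle.exp (2 * Real.pi * b x) := by
    funext x
    rw [mul_add, Circle.exp_add]
  rw [this]
  exact ha.mul hb

theorem slit_of_norm {w : ℂ} (h : ‖w‖ < 1) : 1 + w ∈ Complex.slitPlane := by
  left
  have h1 := Complex.abs_re_le_norm w
  have h2 := (abs_lt.1 (h1.trans_lt h)).1
  simp only [Complex.add_re, Complex.one_re]
  linarith

/-- `[Φ] = 2 [z]` on the outer torus -/
theorem cP_outer : Cob TT 2 (cP - (2 : ZMod 3) • cZ) := by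
  have hz : ∀ p ∈ TT, p.2 ≠ 0 := by
    intro p hp h
    have : ‖p.2‖ = 1 := hp
    rw [h, norm_zero] at this
    exact zero_ne_one this
  have hw : ∀ p ∈ TT, ‖(-(p.1 : ℂ) / (4 * p.2 ^ 2))‖ < 1 := by
    intro p hp
    have : ‖p.2‖ = 1 := hp
    rw [norm_div, norm_neg, Circle.norm_coe, norm_mul, norm_pow, this]
    norm_num
  have h1 : Cob TT 2 (cP - wc (fun p => aZ p + aZ p)) := by
    refine wc_congr' TT_compact (CM_add (CM_aZ hz) (CM_aZ hz))
      (φ := fun p => Complex.arg (1 + (-(p.1 : ℂ) / (4 * p.2 ^ 2))) / (2 * Real.pi)) ?_ ?_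
    · refine ContinuousOn.div_const ?_ _
      intro p hp
      have hc : ContinuousWithinAt (fun p : Circle × ℂ => 1 + (-(p.1 : ℂ) / (4 * p.2 ^ 2))) TT p := by
        refine ContinuousAt.continuousWithinAt ?_
        refine continuousAt_const.add (ContinuousAt.div ?_ ?_ ?_)
        · exact (continuous_circle_coe.comp continuous_fst).neg.continuousAt
        · exact (continuous_const.mul (continuous_snd.pow 2)).continuousAt
        · exact mul_ne_zero (by norm_num) (pow_ne_zero 2 (hz p hp))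
      exact ContinuousAt.comp_continuousWithinAt (g := Complex.arg)
        (f := fun p : Circle × ℂ => 1 + (-(p.1 : ℂ) / (4 * p.2 ^ 2)))
        (Complex.continuousAt_arg (slit_of_norm (hw p hp))) hc
    · intro p hp
      have hz' := hz p hp
      have e : Ph p = (p.2 * p.2) * (1 + (-(p.1 : ℂ) / (4 * p.2 ^ 2))) := by
        unfold Ph
        field_simp
        ring
      obtain ⟨m, hm⟩ := arg_mul_mod (mul_ne_zero hz' hz')
        (Complex.slitPlane_ne_zero (slit_of_norm (hw p hp)))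
      obtain ⟨m', hm'⟩ := arg_mul_mod hz' hz'
      refine ⟨m + m', ?_⟩
      simp only [e, hm, hm', aZ]
      push_cast
      ring
  have h2 := (wc_add TT_compact (CM_aZ hz) (CM_aZ hz)).cob
  have h3 := h1.add h2
  have e : cP - wc (fun p => aZ p + aZ p) + (wc (fun x => aZ x + aZ x) - wc aZ - wc aZ) =
      cP - (2 : ZMod 3) • cZ := by
    rw [two_smul, cZ]; abel
  rwa [e] at h3

/-- `σ*[s] = 2 [s]` -/
theorem pb_cS {K : Set (Circle × ℂ)} (hK : IsCompact K) :
    Cob K 2 (pb sg2 cS - (2 : ZMod 3) • cS) := by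
  have h1 : Cob K 2 (pb sg2 cS - wc (fun p => aS p + aS p)) := by
    rw [cS, pb_wc]
    refine wc_congr' hK (CM_add (CM_aS K) (CM_aS K)) (φ := fun _ => 0) continuousOn_const ?_
    intro p hp
    obtain ⟨m, hm⟩ := arg_mul_mod (Circle.coe_ne_zero p.1) (Circle.coe_ne_zero p.1)
    refine ⟨m, ?_⟩
    simp only [Function.comp_apply, aS, sg2_fst, Circle.coe_mul, hm, add_zero]
  have h2 := (wc_add hK (CM_aS K) (CM_aS K)).cob
  have h3 := h1.add h2
  have e : pb sg2 cS - wc (fun p => aS p + aS p) + (wc (fun x => aS x + aS x) - wc aS - wc aS) =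
      pb sg2 cS - (2 : ZMod 3) • cS := by
    rw [two_smul, cS]; abel
  rwa [e] at h3

/-- `σ*[Φ] = [s] + [z]` on the torus -/
theorem pb_cP : Cob TT 2 (pb sg2 cP - (cS + cZ)) := by
  have hz : ∀ p ∈ TT, p.2 ≠ 0 := by
    intro p hp h
    have : ‖p.2‖ = 1 := hp
    rw [h, norm_zero] at this
    exact zero_ne_one this
  have hw : ∀ p ∈ TT, ‖(p.2 / (4 * (p.1 : ℂ)))‖ < 1 := by
    intro p hp
    have : ‖p.2‖ = 1 := hp
    rw [norm_div, norm_mul, Circle.norm_coe, this]
    norm_num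
  have h1 : Cob TT 2 (pb sg2 cP - wc (fun p => aS p + aZ p)) := by
    rw [cP, pb_wc]
    refine wc_congr' TT_compact (CM_add (CM_aS TT) (CM_aZ hz))
      (φ := fun p => Complex.arg (1 + (p.2 / (4 * (p.1 : ℂ)))) / (2 * Real.pi)) ?_ ?_
    · refine ContinuousOn.div_const ?_ _
      intro p hp
      have hc : ContinuousWithinAt (fun p : Circle × ℂ => 1 + (p.2 / (4 * (p.1 : ℂ)))) TT p := by
        refine ContinuousAt.continuousWithinAt ?_
        refine continuousAt_const.add (ContinuousAt.div ?_ ?_ ?_)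
        · exact continuous_snd.continuousAt
        · exact (continuous_const.mul (continuous_circle_coe.comp continuous_fst)).continuousAt
        · exact mul_ne_zero (by norm_num) (Circle.coe_ne_zero _)
      exact ContinuousAt.comp_continuousWithinAt (g := Complex.arg)
        (f := fun p : Circle × ℂ => 1 + (p.2 / (4 * (p.1 : ℂ))))
        (Complex.continuousAt_arg (slit_of_norm (hw p hp))) hc
    · intro p hp
      have hz' := hz p hp
      have hs' := Circle.coe_ne_zero p.1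
      have e : Ph (sg2 p) = ((1 / 4 : ℝ) : ℂ) * (((p.1 : ℂ) * p.2) * (1 + (p.2 / (4 * (p.1 : ℂ))))) := by
        unfold Ph
        rw [sg2_snd, sg2_fst, Circle.coe_mul]
        push_cast
        field_simp
        ring
      have e2 : Complex.arg (Ph (sg2 p)) =
          Complex.arg (((p.1 : ℂ) * p.2) * (1 + (p.2 / (4 * (p.1 : ℂ))))) := by
        rw [e, Complex.arg_real_mul _ (by norm_num)]
      obtain ⟨m, hm⟩ := arg_mul_mod (mul_ne_zero hs' hz')
        (Complex.slitPlane_ne_zero (slit_of_norm (hw p hp)))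
      obtain ⟨m', hm'⟩ := arg_mul_mod hs' hz'
      refine ⟨m + m', ?_⟩
      simp only [Function.comp_apply, e2, hm, hm', aZ, aS]
      push_cast
      ring
  have h2 := (wc_add TT_compact (CM_aS TT) (CM_aZ hz)).cob
  have h3 := h1.add h2
  have e : pb sg2 cP - wc (fun p => aS p + aZ p) + (wc (fun x => aS x + aZ x) - wc aS - wc aZ) =
      pb sg2 cP - (cS + cZ) := by
    rw [cS, cZ]; abel
  rwa [e] at h3

theorem pb_id {Ω : Type} (c : List Ω → ZMod 3) : pb (id : Ω → Ω) c = c := by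
  funext l
  show c (l.map id) = c l
  rw [List.map_id]

theorem four_mul (z : ZMod 3) : (2 * z) * 2 = z := by
  revert z; decide

theorem DD_ex (x z : ZMod 3) : ∃ v : List (Circle × ℂ) → ZMod 3, Coc DD 2 v ∧ Crd id v x z := by
  refine ⟨x • cS + (2 * z) • cP, ((cS_coc DD_compact).smul x).add (cP_coc.smul _), ?_⟩
  unfold Crd
  rw [pb_id]
  have h := cP_outer.smul (2 * z)
  have e : x • cS + (2 * z) • cP - x • cS - z • cZ = (2 * z) • (cP - (2 : ZMod 3) • cZ) := by
    rw [smul_sub, smul_smul, four_mul]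
    abel
  rw [e]
  exact h

/-- the inverse of `σ` on its image -/
theorem exists_inv : ∃ ψ : Circle × ℂ → Circle × ℂ, ContinuousOn ψ (sg2 '' ctube ℂ 1) ∧
    MapsTo ψ (sg2 '' ctube ℂ 1) (ctube ℂ 1) ∧ (∀ x ∈ ctube ℂ 1, ψ (sg2 x) = x) ∧
    ∀ y ∈ sg2 '' ctube ℂ 1, sg2 (ψ y) = y :=
  pull_inv ctube_compact (sg2_cont _) rfl sg2_inj

theorem Cob_sgTT {q : ℕ} {v : List (Circle × ℂ) → ZMod 3} (h : Cob TT q (pb sg2 v)) :
    Cob (sg2 '' TT) q v :=
  Cob_of_pb TT_compact (sg2_cont _) rfl (sg2_inj.mono TT_sub_ctube) h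

/-- propagation of the coordinates from the outer to the inner torus -/
theorem DD_prop (v : List (Circle × ℂ) → ZMod 3) (hv : Coc DD 2 v) (x z : ZMod 3)
    (h : Crd id v x z) : Crd (sg L2) v (-x - z) (-z) := by
  unfold Crd at h ⊢
  rw [pb_id] at h
  have hw : Coc TT 2 (pb sg2 v) := Coc_pb TT_compact (sg2_cont _) sgTT_sub_DD hv
  obtain ⟨x', b, hxb⟩ := TT_gen1 _ hw
  obtain ⟨ψ, hψ1, hψ2, hψ3, hψ4⟩ := exists_inv
  -- the corrected class
  have hv' : Coc DD 2 (v - b • cP) := hv.sub (cP_coc.smul b)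
  have hB : Coc (sg2 '' ctube ℂ 1) 2 (pb ψ ((x' - b) • cS)) :=
    Coc_pb sgctube_compact hψ1 hψ2 ((cS_coc ctube_compact).smul _)
  have hI : Cob (DD ∩ sg2 '' ctube ℂ 1) 2 (v - b • cP - pb ψ ((x' - b) • cS)) := by
    rw [DD_inter]
    apply Cob_sgTT
    rw [pb_sub', pb_sub', pb_smul', pb_pb]
    have h1 : Nl TT 2 (pb (ψ ∘ sg2) ((x' - b) • cS) - pb id ((x' - b) • cS)) :=
      pb_congr (fun p hp => hψ3 p (TT_sub_ctube hp)) 2 _
    rw [pb_id] at h1
    have h2 := (hxb.sub (pb_cP.smul b)).sub h1.cob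
    have e : pb sg2 v - x' • cS - b • cZ - b • (pb sg2 cP - (cS + cZ)) -
        (pb (ψ ∘ sg2) ((x' - b) • cS) - (x' - b) • cS) =
        pb sg2 v - b • pb sg2 cP - pb (ψ ∘ sg2) ((x' - b) • cS) := by
      rw [smul_sub, smul_add, sub_smul]
      abel
    rwa [e] at h2
  obtain ⟨V, hV1, hV2, hV3⟩ := ext2 DD_compact sgctube_compact hv' hB hI
  rw [DD_union] at hV1
  obtain ⟨γ, hγ⟩ := ctube_gen1 V hV1
  have hDD : DD ⊆ ctube ℂ 1 := fun p hp => hp.1
  -- on DD: v ~ γ cS + b cP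
  have k1 : Cob DD 2 (v - (γ • cS + b • cP)) := by
    have := (hγ.mono hDD).sub hV2
    have e : V - γ • cS - (V - (v - b • cP)) = v - (γ • cS + b • cP) := by abel
    rwa [e] at this
  -- outer torus
  have k2 : Cob TT 2 ((x - γ) • cS + (z - b * 2) • cZ) := by
    have h1 := ((k1.mono TT_sub_DD).add (cP_outer.smul b)).sub h
    have e : v - (γ • cS + b • cP) + b • (cP - (2 : ZMod 3) • cZ) - (v - x • cS - z • cZ) =
        (x - γ) • cS + (z - b * 2) • cZ := by
      rw [smul_sub, smul_smul, sub_smul, sub_smul]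
      abel
    rwa [e] at h1
  obtain ⟨k3, k4⟩ := TT_ind _ _ k2
  -- inner torus
  have k5 := Cob_pb TT_compact (sg2_cont _) sgTT_sub_DD k1
  have k6 := (k5.add ((pb_cS TT_compact).smul γ)).add (pb_cP.smul b)
  have e : pb sg2 (v - (γ • cS + b • cP)) + γ • (pb sg2 cS - (2 : ZMod 3) • cS) +
      b • (pb sg2 cP - (cS + cZ)) = pb sg2 v - (γ * 2 + b) • cS - b • cZ := by
    have e1 : pb sg2 (v - (γ • cS + b • cP)) =
        pb sg2 v - (γ • pb sg2 cS + b • pb sg2 cP) := rfl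
    rw [e1, smul_sub, smul_sub, smul_smul, smul_add, add_smul]
    abel
  rw [e] at k6
  have h3 : (3 : ZMod 3) = 0 := by decide
  have e1 : γ * 2 + b = -x - z := by
    linear_combination (-2 : ZMod 3) * k3 + k4 + (x + b) * h3
  have e2 : b = -z := by linear_combination k4 + b * h3
  rw [e1] at k6
  rw [e2] at k6
  exact k6

/-- a degree two class that vanishes on the inner torus vanishes on the outer torus -/
theorem DD_R (v : List (Circle × ℂ) → ZMod 3) (hv : Coc DD 3 v) (h : Cob TT 3 (pb (sg L2) v)) :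
    Cob TT 3 v := by
  have h0 : Coc (sg2 '' ctube ℂ 1) 3 (0 : List (Circle × ℂ) → ZMod 3) := by
    unfold Coc
    rw [d_zero]
    exact Nl.zero
  have hI : Cob (DD ∩ sg2 '' ctube ℂ 1) 3 (v - 0) := by
    rw [DD_inter, sub_zero]
    exact Cob_sgTT h
  obtain ⟨V, hV1, hV2, hV3⟩ := ext2 DD_compact sgctube_compact hv h0 hI
  rw [DD_union] at hV1
  have h1 := ctube_hv3 V hV1
  have h2 := (h1.mono (fun p (hp : p ∈ DD) => hp.1)).sub hV2
  rw [sub_sub_cancel] at h2
  exact h2.mono TT_sub_DD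

theorem DD_hv4 : HV DD 4 := by
  have hcs : Continuous fun p : Circle × ℂ => (p.1 : ℂ) :=
    continuous_circle_coe.comp continuous_fst
  refine dim_van 3 DD DD_compact
    (![fun p => (2 + p.2.re) * (p.1 : ℂ).re, fun p => (2 + p.2.re) * (p.1 : ℂ).im,
      fun p => p.2.im]) ?_ ?_ 3 le_rfl
  · intro i
    have h1 : Continuous fun p : Circle × ℂ => (2 + p.2.re) :=
      continuous_const.add (Complex.continuous_re.comp continuous_snd)
    fin_cases i
    · exact (h1.mul (Complex.continuous_re.comp hcs)).continuousOn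
    · exact (h1.mul (Complex.continuous_im.comp hcs)).continuousOn
    · exact (Complex.continuous_im.comp continuous_snd).continuousOn
  · intro p hp q hq h
    have e0 := h 0
    have e1 := h 1
    have e2 := h 2
    simp only [Matrix.cons_val_zero, Matrix.cons_val_one, Matrix.cons_val] at e0 e1 e2
    have np : ‖p.2‖ ≤ 1 := hp.1
    have nq : ‖q.2‖ ≤ 1 := hq.1
    have rp := (abs_le.1 ((Complex.abs_re_le_norm p.2).trans np)).1
    have rq := (abs_le.1 ((Complex.abs_re_le_norm q.2).trans nq)).1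
    have cp : (p.1 : ℂ).re * (p.1 : ℂ).re + (p.1 : ℂ).im * (p.1 : ℂ).im = 1 := by
      rw [← Complex.normSq_apply]; exact Circle.normSq_coe _
    have cq : (q.1 : ℂ).re * (q.1 : ℂ).re + (q.1 : ℂ).im * (q.1 : ℂ).im = 1 := by
      rw [← Complex.normSq_apply]; exact Circle.normSq_coe _
    have hsq : (2 + p.2.re) ^ 2 = (2 + q.2.re) ^ 2 := by
      have a1 : (2 + p.2.re) ^ 2 = ((2 + p.2.re) * (p.1 : ℂ).re) ^ 2 +
          ((2 + p.2.re) * (p.1 : ℂ).im) ^ 2 := by
        linear_combination (-(2 + p.2.re) ^ 2) * cp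
      have a2 : (2 + q.2.re) ^ 2 = ((2 + q.2.re) * (q.1 : ℂ).re) ^ 2 +
          ((2 + q.2.re) * (q.1 : ℂ).im) ^ 2 := by
        linear_combination (-(2 + q.2.re) ^ 2) * cq
      rw [a1, a2, e0, e1]
    have hre : 2 + p.2.re = 2 + q.2.re := by
      have h1 : 0 ≤ 2 + p.2.re := by linarith
      have h2 : 0 ≤ 2 + q.2.re := by linarith
      exact (pow_left_inj₀ h1 h2 two_ne_zero).1 hsq
    have hne : (2 + q.2.re) ≠ 0 := by
      have : 0 < 2 + q.2.re := by linarith
      exact this.ne'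
    rw [hre] at e0 e1
    have f0 := mul_left_cancel₀ hne e0
    have f1 := mul_left_cancel₀ hne e1
    apply Prod.ext
    · exact Circle.ext (Complex.ext f0 f1)
    · exact Complex.ext (by linarith) e2

end

end Pool.Agent.TH650.AS
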