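import Pool.Agent.TH650.Emb.AS5

/-! Classes on the union of a cyclic chain of fundamental domains. -/

set_option autoImplicit false

open Set

namespace Pool.Agent.TH650.AS

open Pool.Agent.Helper554.Smith Pool.Agent.TH650.Emb

noncomputable section

variable {Ω : Type} [MetricSpace Ω] {n : ℕ}

/-! ### coordinates -/

theorem Crd_of_congr {F F' : Circle × ℂ → Ω} {v : List Ω → ZMod 3} {x z : ZMod 3}
    (h : ∀ p ∈ TT, F p = F' p) (hc : Crd F v x z) : Crd F' v x z := by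
  unfold Crd at *
  have h2 := hc.sub (pb_congr h 2 v).cob
  have e : pb F v - x • cS - z • cZ - (pb F v - pb F' v) = pb F' v - x • cS - z • cZ := by abel
  rwa [e] at h2

theorem Crd_mono {F : Circle × ℂ → Ω} {v V : List Ω → ZMod 3} {K : Set Ω} {x z : ZMod 3}
    (hF : ContinuousOn F TT) (hm : MapsTo F TT K) (h : Cob K 2 (V - v)) (hv : Crd F v x z) :
    Crd F V x z := by
  unfold Crd at *
  have h1 := Cob_pb TT_compact hF hm h
  rw [pb_sub'] at h1
  have h2 := hv.add h1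
  have e : pb F v - x • cS - z • cZ + (pb F V - pb F v) = pb F V - x • cS - z • cZ := by abel
  rwa [e] at h2

theorem Crd_cob {F : Circle × ℂ → Ω} {v w : List Ω → ZMod 3} {x z : ZMod 3}
    (hF : ContinuousOn F TT) (hi : InjOn F TT) (h : Crd F v x z) (h' : Crd F w x z) :
    Cob (F '' TT) 2 (v - w) := by
  apply Cob_of_pb TT_compact hF rfl hi
  unfold Crd at *
  rw [pb_sub']
  have h2 := h.sub h'
  have e : pb F v - x • cS - z • cZ - (pb F w - x • cS - z • cZ) = pb F v - pb F w := by abel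
  rwa [e] at h2

/-- coordinates are unique -/
theorem Crd_unique {F : Circle × ℂ → Ω} {v : List Ω → ZMod 3} {x z x' z' : ZMod 3}
    (h : Crd F v x z) (h' : Crd F v x' z') : x = x' ∧ z = z' := by
  unfold Crd at *
  have h2 := h'.sub h
  have e : pb F v - x' • cS - z' • cZ - (pb F v - x • cS - z • cZ) =
      (x - x') • cS + (z - z') • cZ := by rw [sub_smul, sub_smul]; abel
  rw [e] at h2
  obtain ⟨h3, h4⟩ := TT_ind _ _ h2
  exact ⟨sub_eq_zero.1 h3, sub_eq_zero.1 h4⟩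

theorem Crd_smul {F : Circle × ℂ → Ω} {v : List Ω → ZMod 3} {x z : ZMod 3} (t : ZMod 3)
    (h : Crd F v x z) : Crd F (t • v) (t * x) (t * z) := by
  unfold Crd at *
  have h2 := h.smul t
  rw [pb_smul']
  have e : t • (pb F v - x • cS - z • cZ) = t • pb F v - (t * x) • cS - (t * z) • cZ := by
    rw [smul_sub, smul_sub, smul_smul, smul_smul]
  rwa [e] at h2

theorem Crd_add {F : Circle × ℂ → Ω} {v w : List Ω → ZMod 3} {x z x' z' : ZMod 3}
    (h : Crd F v x z) (h' : Crd F w x' z') : Crd F (v + w) (x + x') (z + z') := by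
  unfold Crd at *
  have h2 := h.add h'
  have e : pb F v - x • cS - z • cZ + (pb F w - x' • cS - z' • cZ) =
      pb F (v + w) - (x + x') • cS - (z + z') • cZ := by
    have e1 : pb F (v + w) = pb F v + pb F w := rfl
    rw [e1, add_smul, add_smul]; abel
  rwa [e] at h2

theorem Crd_zero {F : Circle × ℂ → Ω} {v : List Ω → ZMod 3} {K : Set Ω}
    (hF : ContinuousOn F TT) (hm : MapsTo F TT K) (h : Cob K 2 v) : Crd F v 0 0 := by
  unfold Crd
  have h1 := Cob_pb TT_compact hF hm h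
  simpa using h1

/-- the propagation map -/
def N (a : ZMod 3 × ZMod 3) : ZMod 3 × ZMod 3 := (-a.1 - a.2, -a.2)

theorem N6 (a : ZMod 3 × ZMod 3) : N^[6] a = a := by revert a; decide

theorem Nn (hn : 6 ∣ n) (a : ZMod 3 × ZMod 3) : N^[n] a = a := by
  obtain ⟨k, rfl⟩ := hn
  rw [Function.iterate_mul]
  have : N^[6] = id := funext N6
  rw [this, Function.iterate_id]
  rfl

theorem cast_inj' {a b : ℕ} (ha : a < n) (hb : b < n) (h : (a : ZMod n) = b) : a = b :=
  Nat.ModEq.eq_of_lt_of_lt ((ZMod.natCast_eq_natCast_iff a b n).1 h) ha hb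

theorem le_n [NeZero n] (hn : 6 ∣ n) : 6 ≤ n := Nat.le_of_dvd (NeZero.pos n) hn

theorem ne_add_one [NeZero n] (hn : 6 ∣ n) (i : ZMod n) : i ≠ i + 1 := by
  have := le_n hn
  have : Fact (1 < n) := ⟨by omega⟩
  intro h
  exact one_ne_zero (left_eq_add.1 h)

namespace Chain

variable (C : Chain Ω n)

/-- the `i`-th piece -/
def P (i : ZMod n) : Set Ω := C.F i '' DD

/-- the `i`-th torus -/
def T (i : ZMod n) : Set Ω := C.F i '' TT

theorem contT (i : ZMod n) : ContinuousOn (C.F i) TT := (C.cont i).mono TT_sub_DD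

theorem P_compact (i : ZMod n) : IsCompact (C.P i) := DD_compact.image_of_continuousOn (C.cont i)

theorem T_compact (i : ZMod n) : IsCompact (C.T i) := TT_compact.image_of_continuousOn (C.contT i)

theorem T_sub (i : ZMod n) : C.T i ⊆ C.P i := image_mono TT_sub_DD

theorem T_sub' (i : ZMod n) : C.T (i + 1) ⊆ C.P i := by
  rintro _ ⟨p, hp, rfl⟩
  exact ⟨sg L2 p, sgTT_sub_DD hp, C.glue i p hp⟩

theorem P_sub (i : ZMod n) : C.P i ⊆ C.A := subset_iUnion (fun i => C.F i '' DD) i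

theorem mapsT (i : ZMod n) : MapsTo (C.F i) TT (C.T i) := mapsTo_image _ _

theorem compact [NeZero n] : IsCompact C.A := isCompact_iUnion fun i => C.P_compact i

theorem injF [NeZero n] (hn : 6 ∣ n) (i : ZMod n) : InjOn (C.F i) DD := by
  intro p hp q hq h
  rcases C.inj i i p hp q hq h with h | h | h
  · exact h.2
  · exact absurd h.1 (ne_add_one hn i)
  · exact absurd h.1 (ne_add_one hn i)

theorem injT [NeZero n] (hn : 6 ∣ n) (i : ZMod n) : InjOn (C.F i) TT :=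
  (C.injF hn i).mono TT_sub_DD

/-- every class has coordinates on every torus -/
theorem crd_exists (v : List Ω → ZMod 3) (hv : Coc C.A 2 v) (i : ZMod n) :
    ∃ x z, Crd (C.F i) v x z :=
  TT_gen1 _ (Coc_pb TT_compact (C.contT i) ((C.mapsT i).mono_right ((C.T_sub i).trans (C.P_sub i)))
    hv)

theorem prop' (i : ZMod n) (v : List Ω → ZMod 3) (hv : Coc (C.P i) 2 v) (x z : ZMod 3)
    (h : Crd (C.F i) v x z) : Crd (C.F (i + 1)) v (-x - z) (-z) := by
  have h1 : Coc DD 2 (pb (C.F i) v) := Coc_pb DD_compact (C.cont i) (mapsTo_image _ _) hv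
  have h2 : Crd id (pb (C.F i) v) x z := by
    unfold Crd
    rw [pb_id]
    exact h
  have h3 := DD_prop _ h1 x z h2
  unfold Crd at h3
  rw [pb_pb] at h3
  exact Crd_of_congr (F := C.F i ∘ sg L2) (fun p hp => C.glue i p hp) h3

theorem prop (v : List Ω → ZMod 3) (hv : Coc C.A 2 v) (i : ZMod n)
    (x z : ZMod 3) (h : Crd (C.F i) v x z) : Crd (C.F (i + 1)) v (-x - z) (-z) :=
  C.prop' i v (hv.mono (C.P_sub i)) x z h

/-! ### the shifted chain -/

/-- the shifted chain -/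
def sh (s : ZMod n) : Chain Ω n where
  F i := C.F (s + i)
  cont i := C.cont _
  glue i p hp := by rw [C.glue _ p hp, add_assoc]
  inj i j p hp q hq h := by
    rcases C.inj (s + i) (s + j) p hp q hq h with h | h | h
    · exact Or.inl ⟨add_left_cancel h.1, h.2⟩
    · refine Or.inr (Or.inl ⟨add_left_cancel (a := s) ?_, h.2⟩)
      rw [h.1, add_assoc]
    · refine Or.inr (Or.inr ⟨add_left_cancel (a := s) ?_, h.2⟩)
      rw [h.1, add_assoc]

theorem sh_A (s : ZMod n) : (C.sh s).A = C.A := by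
  unfold A
  ext x
  simp only [mem_iUnion]
  constructor
  · rintro ⟨i, h⟩; exact ⟨s + i, h⟩
  · rintro ⟨i, h⟩
    refine ⟨i - s, ?_⟩
    show x ∈ C.F (s + (i - s)) '' DD
    rwa [add_sub_cancel]

theorem sh_F (s i : ZMod n) : (C.sh s).F i = C.F (s + i) := rfl

theorem sh_P (s i : ZMod n) : (C.sh s).P i = C.P (s + i) := rfl

theorem sh_T (s i : ZMod n) : (C.sh s).T i = C.T (s + i) := rfl

/-! ### initial unions -/

/-- union of the first `m` pieces -/
def U (m : ℕ) : Set Ω := {x | ∃ j : ℕ, j < m ∧ x ∈ C.P (j : ZMod n)}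

theorem U_succ (m : ℕ) : C.U (m + 1) = C.U m ∪ C.P (m : ZMod n) := by
  ext x
  constructor
  · rintro ⟨j, hj, hx⟩
    rcases Nat.lt_succ_iff_lt_or_eq.1 hj with h | h
    · exact Or.inl ⟨j, h, hx⟩
    · subst h; exact Or.inr hx
  · rintro (⟨j, hj, hx⟩ | hx)
    · exact ⟨j, hj.trans (Nat.lt_succ_self m), hx⟩
    · exact ⟨m, Nat.lt_succ_self m, hx⟩

theorem U_zero : C.U 0 = ∅ := by
  ext x
  simp [U]

theorem U_one : C.U 1 = C.P 0 := by
  rw [U_succ, U_zero, empty_union, Nat.cast_zero]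

theorem U_n [NeZero n] : C.U n = C.A := by
  ext x
  constructor
  · rintro ⟨j, hj, hx⟩
    exact C.P_sub _ hx
  · intro hx
    obtain ⟨i, hi⟩ := mem_iUnion.1 hx
    refine ⟨i.val, ZMod.val_lt i, ?_⟩
    rw [ZMod.natCast_zmod_val]
    exact hi

theorem U_compact (m : ℕ) : IsCompact (C.U m) := by
  induction m with
  | zero => rw [U_zero]; exact isCompact_empty
  | succ m ih => rw [U_succ]; exact ih.union (C.P_compact _)

theorem P_sub_U {j m : ℕ} (h : j < m) : C.P (j : ZMod n) ⊆ C.U m := fun _ hx => ⟨j, h, hx⟩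

theorem U_sub_A (m : ℕ) : C.U m ⊆ C.A := by
  rintro x ⟨j, hj, hx⟩
  exact C.P_sub _ hx

/-- the tori `T 0, …, T m` are contained in `U m` for `m ≥ 1` -/
theorem T_sub_U {j m : ℕ} (hm : 1 ≤ m) (h : j ≤ m) : C.T (j : ZMod n) ⊆ C.U m := by
  rcases Nat.lt_or_ge j m with h1 | h1
  · exact (C.T_sub _).trans (C.P_sub_U h1)
  · have h2 : j = (m - 1) + 1 := by omega
    rw [h2, Nat.cast_add, Nat.cast_one]
    exact (C.T_sub' _).trans (C.P_sub_U (by omega))

theorem U_inter (m : ℕ) (h1 : 1 ≤ m) (h2 : m + 2 ≤ n) :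
    C.U m ∩ C.P (m : ZMod n) = C.T (m : ZMod n) := by
  ext x
  constructor
  · rintro ⟨⟨j, hj, p, hp, rfl⟩, q, hq, h⟩
    rcases C.inj j m p hp q hq h.symm with h | h | h
    · exact absurd (cast_inj' (by omega) (by omega) h.1) (by omega)
    · obtain ⟨_, h4, h5⟩ := h
      exact ⟨q, h4, by rw [h]⟩
    · have h3 : (j : ZMod n) = ((m + 1 : ℕ) : ZMod n) := by rw [h.1]; push_cast; ring
      exact absurd (cast_inj' (by omega) (by omega) h3) (by omega)
  · intro hx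
    exact ⟨C.T_sub_U h1 le_rfl hx, C.T_sub _ hx⟩

theorem U_inter_last (hn : 6 ≤ n) (m : ℕ) (h2 : m + 1 = n) :
    C.U m ∩ C.P (m : ZMod n) = C.T (m : ZMod n) ∪ C.T 0 := by
  have h0 : ((m : ZMod n) + 1) = 0 := by
    have : ((m + 1 : ℕ) : ZMod n) = 0 := by rw [h2]; exact ZMod.natCast_self n
    rw [← this]; push_cast; ring
  ext x
  constructor
  · rintro ⟨⟨j, hj, p, hp, rfl⟩, q, hq, h⟩
    rcases C.inj j m p hp q hq h.symm with h | h | h
    · exact absurd (cast_inj' (by omega) (by omega) h.1) (by omega)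
    · obtain ⟨_, h4, h5⟩ := h
      exact Or.inl ⟨q, h4, by rw [h]⟩
    · obtain ⟨h3, h4, h5⟩ := h
      rw [h0] at h3
      refine Or.inr ⟨p, h4, ?_⟩
      rw [h3]
  · rintro (hx | hx)
    · exact ⟨C.T_sub_U (by omega) le_rfl hx, C.T_sub _ hx⟩
    · refine ⟨?_, ?_⟩
      · have := C.T_sub_U (j := 0) (m := m) (by omega) (by omega)
        rw [Nat.cast_zero] at this
        exact this hx
      · have := C.T_sub' (m : ZMod n)
        rw [h0] at this
        exact this hx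

theorem sg_TT {p q : Circle × ℂ} (hp : p ∈ TT) (hq : q ∈ TT) : p ≠ sg L2 q := by
  intro h
  have h1 := sg2_norm (TT_sub_ctube hq)
  have h2 : ‖p.2‖ = 1 := hp
  rw [h] at h2
  have h3 : ‖(sg2 q).2‖ = 1 := h2
  linarith

theorem T_disj {i j : ZMod n} (h1 : i ≠ j) : Disjoint (C.T i) (C.T j) := by
  rw [Set.disjoint_left]
  rintro _ ⟨p, hp, rfl⟩ ⟨q, hq, h⟩
  rcases C.inj i j p (TT_sub_DD hp) q (TT_sub_DD hq) h.symm with h | h | h
  · exact h1 h.1
  · exact sg_TT hp hq h.2.2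
  · exact sg_TT hq hp h.2.2

/-! ### existence of classes -/

theorem piece [NeZero n] (hn : 6 ∣ n) (i : ZMod n) (x z : ZMod 3) :
    ∃ v : List Ω → ZMod 3, Coc (C.P i) 2 v ∧ Crd (C.F i) v x z := by
  obtain ⟨w, hw, hc⟩ := DD_ex x z
  obtain ⟨ψ, h1, h2, h3, h4⟩ := pull_inv DD_compact (C.cont i) rfl (C.injF hn i)
  refine ⟨pb ψ w, Coc_pb (C.P_compact i) h1 h2 hw, ?_⟩
  unfold Crd at *
  rw [pb_pb]
  have h5 := (pb_congr (φ := ψ ∘ C.F i) (ψ := id) (K := TT)
    (fun p hp => h3 p (TT_sub_DD hp)) 2 w).cob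
  have h6 := hc.add h5
  have e : pb id w - x • cS - z • cZ + (pb (ψ ∘ C.F i) w - pb id w) =
      pb (ψ ∘ C.F i) w - x • cS - z • cZ := by abel
  rwa [e] at h6

theorem ex_aux [NeZero n] (hn : 6 ∣ n) (a : ZMod 3 × ZMod 3) (m : ℕ) (hm : m + 2 ≤ n) :
    ∃ v : List Ω → ZMod 3, Coc (C.U (m + 1)) 2 v ∧ Crd (C.F 0) v a.1 a.2 ∧
      Crd (C.F ((m + 1 : ℕ) : ZMod n)) v (N^[m + 1] a).1 (N^[m + 1] a).2 := by
  induction m with
  | zero =>
    obtain ⟨v, hv, hc⟩ := C.piece hn 0 a.1 a.2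
    refine ⟨v, ?_, hc, ?_⟩
    · rw [zero_add, U_one]; exact hv
    · have := C.prop' 0 v hv a.1 a.2 hc
      have e : ((0 + 1 : ℕ) : ZMod n) = 0 + 1 := by push_cast; ring
      rw [e]
      exact this
  | succ m ih =>
    obtain ⟨v, hv, hc0, hc1⟩ := ih (by omega)
    obtain ⟨w, hw, hwc⟩ := C.piece hn ((m + 1 : ℕ) : ZMod n) (N^[m + 1] a).1 (N^[m + 1] a).2
    have hI : Cob (C.U (m + 1) ∩ C.P ((m + 1 : ℕ) : ZMod n)) 2 (v - w) := by
      rw [C.U_inter (m + 1) (by omega) (by omega)]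
      exact Crd_cob (C.contT _) (C.injT hn _) hc1 hwc
    obtain ⟨V, hV, hV1, hV2⟩ := ext2 (C.U_compact _) (C.P_compact _) hv hw hI
    rw [← U_succ] at hV
    refine ⟨V, hV, ?_, ?_⟩
    · refine Crd_mono (C.contT 0) ?_ hV1 hc0
      have := C.T_sub_U (j := 0) (m := m + 1) (by omega) (by omega)
      rw [Nat.cast_zero] at this
      exact (C.mapsT 0).mono_right this
    · have h1 : Crd (C.F ((m + 1 : ℕ) : ZMod n)) V (N^[m + 1] a).1 (N^[m + 1] a).2 :=
        Crd_mono (C.contT _) ((C.mapsT _).mono_right (C.T_sub _)) hV2 hwc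
      have h2 := C.prop' _ V (hV.mono (C.P_sub_U (Nat.lt_succ_self _))) _ _ h1
      have e : ((m + 1 + 1 : ℕ) : ZMod n) = ((m + 1 : ℕ) : ZMod n) + 1 := by push_cast; ring
      rw [e, Function.iterate_succ_apply' N (m + 1)]
      exact h2

theorem ex0 [NeZero n] (hn : 6 ∣ n) (a : ZMod 3 × ZMod 3) :
    ∃ v : List Ω → ZMod 3, Coc C.A 2 v ∧ Crd (C.F 0) v a.1 a.2 := by
  have hn6 := le_n hn
  obtain ⟨m, hm⟩ : ∃ m, m + 2 = n := ⟨n - 2, by omega⟩
  obtain ⟨v, hv, hc0, hc1⟩ := C.ex_aux hn a m (by omega)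
  obtain ⟨w, hw, hwc⟩ := C.piece hn ((m + 1 : ℕ) : ZMod n) (N^[m + 1] a).1 (N^[m + 1] a).2
  have e0 : ((m + 1 : ℕ) : ZMod n) + 1 = 0 := by
    have : ((m + 2 : ℕ) : ZMod n) = 0 := by rw [hm]; exact ZMod.natCast_self n
    rw [← this]; push_cast; ring
  have hI : Cob (C.U (m + 1) ∩ C.P ((m + 1 : ℕ) : ZMod n)) 2 (v - w) := by
    rw [C.U_inter_last hn6 (m + 1) (by omega)]
    have hd : Disjoint (C.T ((m + 1 : ℕ) : ZMod n)) (C.T 0) := by
      apply C.T_disj
      intro h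
      rw [← Nat.cast_zero] at h
      have := cast_inj' (by omega) (by omega) h
      omega
    refine Cob_union_disj (C.T_compact _) (C.T_compact _) hd le_rfl ?_ ?_
    · exact Crd_cob (C.contT _) (C.injT hn _) hc1 hwc
    · refine Crd_cob (C.contT _) (C.injT hn _) hc0 ?_
      have h2 := C.prop' _ w hw _ _ hwc
      rw [e0] at h2
      have e1 : N (N^[m + 1] a) = a := by
        rw [← Function.iterate_succ_apply' N (m + 1)]
        have : (m + 1).succ = n := by omega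
        rw [this]
        exact Nn hn a
      have e2 : (-(N^[m + 1] a).1 - (N^[m + 1] a).2, -(N^[m + 1] a).2) = a := e1
      have e3 := congrArg Prod.fst e2
      have e4 := congrArg Prod.snd e2
      simp only at e3 e4
      rwa [e3, e4] at h2
  obtain ⟨V, hV, hV1, hV2⟩ := ext2 (C.U_compact _) (C.P_compact _) hv hw hI
  rw [← U_succ] at hV
  have : m + 1 + 1 = n := by omega
  rw [this, U_n] at hV
  refine ⟨V, hV, Crd_mono (C.contT 0) ?_ hV1 hc0⟩
  have := C.T_sub_U (j := 0) (m := m + 1) (by omega) (by omega)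
  rw [Nat.cast_zero] at this
  exact (C.mapsT 0).mono_right this

/-- existence of classes with given coordinates at one torus -/
theorem ex [NeZero n] (hn : 6 ∣ n) (i : ZMod n) (x z : ZMod 3) :
    ∃ v : List Ω → ZMod 3, Coc C.A 2 v ∧ Crd (C.F i) v x z := by
  obtain ⟨v, hv, hc⟩ := (C.sh i).ex0 hn (x, z)
  rw [sh_A] at hv
  rw [sh_F, add_zero] at hc
  exact ⟨v, hv, hc⟩


/-! ### products -/

theorem T_cup {i : ZMod n} {w1 w2 : List Ω → ZMod 3} {s : ZMod 3} (hs : s * s = 1)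
    (h1 : Crd (C.F i) w1 s 0) (h2 : Crd (C.F i) w2 0 s) (hw2 : Coc (C.T i) 2 w2) :
    Cob TT 3 (pb (C.F i) (cup w1 w2) - cup cS cZ) := by
  unfold Crd at h1 h2
  rw [zero_smul, sub_zero] at h1 h2
  rw [pb_cup]
  have hc2 : Coc TT 2 (pb (C.F i) w2) := Coc_pb TT_compact (C.contT i) (C.mapsT i) hw2
  have k1 := cob_cup_left h1 hc2
  have k2 := cob_cup_right ((cS_coc TT_compact).smul s) h2
  have k3 := k1.add k2
  have e : cup (pb (C.F i) w1) (pb (C.F i) w2) - cup (s • cS) (pb (C.F i) w2) +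
      (cup (s • cS) (pb (C.F i) w2) - cup (s • cS) (s • cZ)) =
      cup (pb (C.F i) w1) (pb (C.F i) w2) - cup cS cZ := by
    rw [cup_smul_left, cup_smul_left, cup_smul_right, smul_smul, hs, one_smul]
    abel
  rwa [e] at k3

theorem T_gen2 [NeZero n] (hn : 6 ∣ n) {i : ZMod n} {y : List Ω → ZMod 3}
    (hy : Cob TT 3 (pb (C.F i) y - cup cS cZ)) (c : List Ω → ZMod 3) (hc : Coc (C.T i) 3 c) :
    ∃ α : ZMod 3, Cob (C.T i) 3 (c - α • y) := by
  obtain ⟨α, hα⟩ := TT_gen2 _ (Coc_pb TT_compact (C.contT i) (C.mapsT i) hc)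
  refine ⟨α, Cob_of_pb TT_compact (C.contT i) rfl (C.injT hn i) ?_⟩
  rw [pb_sub', pb_smul']
  have h := hα.sub (hy.smul α)
  have e : pb (C.F i) c - α • cup cS cZ - α • (pb (C.F i) y - cup cS cZ) =
      pb (C.F i) c - α • pb (C.F i) y := by rw [smul_sub]; abel
  rwa [e] at h

theorem T_ne2 {i : ZMod n} {y : List Ω → ZMod 3}
    (hy : Cob TT 3 (pb (C.F i) y - cup cS cZ)) : ¬ Cob (C.T i) 3 y := by
  intro h
  apply TT_ne2
  have h1 := (Cob_pb TT_compact (C.contT i) (C.mapsT i) h).sub hy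
  rwa [sub_sub_cancel] at h1

/-- vanishing of degree two classes propagates outwards -/
theorem back [NeZero n] (hn : 6 ∣ n) (i : ZMod n) {u : List Ω → ZMod 3} (hu : Coc (C.P i) 3 u)
    (h : Cob (C.T (i + 1)) 3 u) : Cob (C.T i) 3 u := by
  have h1 : Coc DD 3 (pb (C.F i) u) := Coc_pb DD_compact (C.cont i) (mapsTo_image _ _) hu
  have h2 : Cob TT 3 (pb (sg L2) (pb (C.F i) u)) := by
    rw [pb_pb]
    have h3 := Cob_pb TT_compact (C.contT (i + 1)) (C.mapsT (i + 1)) h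
    have h4 := (pb_congr (φ := C.F i ∘ sg L2) (ψ := C.F (i + 1)) (K := TT)
      (fun p hp => C.glue i p hp) 3 u).cob
    have h5 := h3.add h4
    rwa [add_sub_cancel] at h5
  exact Cob_of_pb TT_compact (C.contT i) rfl (C.injT hn i) (DD_R _ h1 h2)

theorem back_U [NeZero n] (hn : 6 ∣ n) (m : ℕ) {u : List Ω → ZMod 3} (hu : Coc (C.U m) 3 u)
    (h : Cob (C.T (m : ZMod n)) 3 u) : Cob (C.T 0) 3 u := by
  induction m with
  | zero => rwa [Nat.cast_zero] at h
  | succ m ih =>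
    refine ih (hu.mono ?_) ?_
    · rw [U_succ]; exact subset_union_left
    · refine C.back hn m (hu.mono (C.P_sub_U (Nat.lt_succ_self m))) ?_
      rw [Nat.cast_add, Nat.cast_one] at h
      exact h

theorem P_hv4 [NeZero n] (hn : 6 ∣ n) (i : ZMod n) : HV (C.P i) 4 :=
  HV_of_homeo DD_compact (C.cont i) rfl (C.injF hn i) DD_hv4

theorem U_hv4 [NeZero n] (hn : 6 ∣ n) (m : ℕ) (hm : m + 2 ≤ n) : HV (C.U (m + 1)) 4 := by
  induction m with
  | zero => rw [zero_add, U_one]; exact C.P_hv4 hn 0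
  | succ m ih =>
    have h1 := ih (by omega)
    rw [U_succ]
    obtain ⟨w1, hw1, hc1⟩ := C.ex hn ((m + 1 : ℕ) : ZMod n) 1 0
    obtain ⟨w2, hw2, hc2⟩ := C.ex hn ((m + 1 : ℕ) : ZMod n) 0 1
    have hA := C.U_sub_A (m + 1)
    refine hv_glue (C.U_compact _) (C.P_compact _) h1 (C.P_hv4 hn _) (y := cup w1 w2)
      (coc_cup (hw1.mono hA) (hw2.mono hA)) ?_
    rw [C.U_inter (m + 1) (by omega) (by omega)]
    intro c hc
    refine C.T_gen2 hn (C.T_cup (s := 1) (by decide) hc1 hc2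
      (hw2.mono ((C.T_sub _).trans (C.P_sub _)))) c hc

/-! ### continuous functions on initial unions -/

theorem glue_fun [NeZero n] (hn : 6 ∣ n) (m : ℕ) (hm : m + 1 ≤ n)
    (g : ℕ → Circle × ℂ → ℝ) (hg : ∀ j, ContinuousOn (g j) DD)
    (hg' : ∀ j, ∀ p ∈ TT, g j (sg L2 p) = g (j + 1) p) :
    ∃ φ : Ω → ℝ, ContinuousOn φ (C.U m) ∧ ∀ j : ℕ, j < m → ∀ p ∈ DD, φ (C.F j p) = g j p := by
  classical
  have hwd : ∀ i j : ℕ, i < m → j < m → ∀ p ∈ DD, ∀ q ∈ DD, C.F i p = C.F j q → g i p = g j q := by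
    intro i j hi hj p hp q hq h
    rcases C.inj i j p hp q hq h with h | h | h
    · rw [cast_inj' (by omega) (by omega) h.1, h.2]
    · have h3 : (j : ZMod n) = ((i + 1 : ℕ) : ZMod n) := by rw [h.1]; push_cast; ring
      have h4 := cast_inj' (by omega) (by omega) h3
      rw [h4, h.2.2, hg' _ _ h.2.1]
    · have h3 : (i : ZMod n) = ((j + 1 : ℕ) : ZMod n) := by rw [h.1]; push_cast; ring
      have h4 := cast_inj' (by omega) (by omega) h3
      rw [h4, h.2.2, hg' _ _ h.2.1]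
  let φ : Ω → ℝ := fun x =>
    if h : ∃ (j : ℕ) (p : Circle × ℂ), j < m ∧ p ∈ DD ∧ C.F j p = x then
      g h.choose h.choose_spec.choose else 0
  have hφ : ∀ j : ℕ, j < m → ∀ p ∈ DD, φ (C.F j p) = g j p := by
    intro j hj p hp
    have h : ∃ (j' : ℕ) (p' : Circle × ℂ), j' < m ∧ p' ∈ DD ∧ C.F j' p' = C.F j p :=
      ⟨j, p, hj, hp, rfl⟩
    have e : φ (C.F j p) = g h.choose h.choose_spec.choose := dif_pos h
    rw [e]
    obtain ⟨h1, h2, h3⟩ := h.choose_spec.choose_spec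
    exact hwd _ _ h1 hj _ h2 _ hp h3
  refine ⟨φ, ?_, hφ⟩
  have hP : ∀ j : ℕ, j < m → ContinuousOn φ (C.P (j : ZMod n)) := by
    intro j hj
    obtain ⟨ψ, h1, h2, h3, h4⟩ := pull_inv DD_compact (C.cont j) rfl (C.injF hn j)
    refine ((hg j).comp h1 h2).congr ?_
    intro x hx
    rw [Function.comp_apply, ← hφ j hj _ (h2 hx), h4 x hx]
  have hU : ∀ k : ℕ, k ≤ m → ContinuousOn φ (C.U k) := by
    intro k
    induction k with
    | zero => intro _; rw [U_zero]; exact continuousOn_empty _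
    | succ k ih =>
      intro hk
      rw [U_succ]
      exact (ih (by omega)).union_of_isClosed (hP k (by omega)) (C.U_compact k).isClosed
        (C.P_compact _).isClosed
  exact hU m le_rfl

end Chain

/-- the angular data: `a(F_i(p)) = (G(p) + k i)/n` modulo 1, `k = ± 1` -/
structure Ang (C : Chain Ω n) (a : Ω → ℝ) (G : Circle × ℂ → ℝ) (k : ℤ) : Prop where
  cma : CM C.A a
  hG : ContinuousOn G DD
  hk : k = 1 ∨ k = -1
  hσ : ∀ p ∈ TT, G (sg L2 p) = G p + k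
  ha : ∀ i : ℕ, i < n → ∀ p ∈ DD, ∃ m : ℤ, a (C.F i p) = (G p + k * i) / n + m

theorem Ang.phi [NeZero n] (hn : 6 ∣ n) {C : Chain Ω n} {a : Ω → ℝ} {G : Circle × ℂ → ℝ}
    {k : ℤ} (hA : Ang C a G k) (C' : Chain Ω n) (s0 m : ℕ)
    (hF : ∀ j : ℕ, C'.F j = C.F ((s0 + j : ℕ) : ZMod n)) (hm : m + 1 ≤ n) (hs : s0 + m ≤ n) :
    ∃ (φ : Ω → ℝ) (f : Ω → ℤ), Nl (C'.U m) 2 (wc a - d (c0 fun x => (f x : ZMod 3))) ∧
      (∀ x ∈ C'.U m, a x = φ x + f x) ∧
      ∀ j : ℕ, j < m → ∀ p ∈ DD, φ (C'.F j p) = (G p + k * ((s0 + j : ℕ) : ℝ)) / n := by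
  obtain ⟨φ, hφ1, hφ2⟩ := C'.glue_fun hn m hm
    (fun j p => (G p + k * ((s0 + j : ℕ) : ℝ)) / n)
    (fun j => (hA.hG.add continuousOn_const).div_const _)
    (fun j p hp => by
      simp only [hA.hσ p hp]
      push_cast
      ring)
  have h : ∀ x ∈ C'.U m, ∃ f : ℤ, a x = φ x + f := by
    rintro _ ⟨j, hj, p, hp, rfl⟩
    obtain ⟨f, hf⟩ := hA.ha (s0 + j) (by omega) p hp
    refine ⟨f, ?_⟩
    rw [hφ2 j hj p hp, hF j, hf]
  choose! f hf using h
  exact ⟨φ, f, wc_lift (C'.U_compact m) f hφ1 hf, hf, hφ2⟩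

namespace Chain

variable (C : Chain Ω n)

theorem sh3 (j : ℕ) : (C.sh 3).F j = C.F ((3 + j : ℕ) : ZMod n) := by
  rw [sh_F]; push_cast; rfl

theorem sh3P (j : ℕ) : (C.sh 3).P j = C.P ((3 + j : ℕ) : ZMod n) := by
  rw [sh_P]; push_cast; rfl

theorem union3 [NeZero n] (hn : 6 ≤ n) : C.U 3 ∪ (C.sh 3).U (n - 3) = C.A := by
  apply Subset.antisymm
  · refine union_subset (C.U_sub_A _) ?_
    rw [← C.sh_A 3]
    exact (C.sh 3).U_sub_A _
  · rw [← U_n]
    rintro x ⟨j, hj, hx⟩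
    by_cases h : j < 3
    · exact Or.inl ⟨j, h, hx⟩
    · refine Or.inr ⟨j - 3, by omega, ?_⟩
      rw [sh3P]
      have : 3 + (j - 3) = j := by omega
      rwa [this]

theorem sh3_T_last (hn : 6 ≤ n) : (C.sh 3).T ((n - 3 : ℕ) : ZMod n) = C.T 0 := by
  rw [sh_T]
  have : (3 : ZMod n) + ((n - 3 : ℕ) : ZMod n) = 0 := by
    have h1 : ((3 + (n - 3) : ℕ) : ZMod n) = 0 := by
      have : 3 + (n - 3) = n := by omega
      rw [this]; exact ZMod.natCast_self n
    rw [← h1]; push_cast; rfl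
  rw [this]

theorem sh3_T_zero : (C.sh 3).T 0 = C.T 3 := by
  rw [sh_T, add_zero]

theorem inter3 (hn : 6 ≤ n) : C.U 3 ∩ (C.sh 3).U (n - 3) = C.T 0 ∪ C.T 3 := by
  ext x
  constructor
  · rintro ⟨⟨i, hi, p, hp, rfl⟩, j, hj, hx⟩
    rw [sh3P] at hx
    obtain ⟨q, hq, h⟩ := hx
    rcases C.inj i ((3 + j : ℕ) : ZMod n) p hp q hq h.symm with h | h | h
    · exact absurd (cast_inj' (by omega) (by omega) h.1) (by omega)
    · obtain ⟨h3, h4, h5⟩ := h
      have h6 : ((3 + j : ℕ) : ZMod n) = ((i + 1 : ℕ) : ZMod n) := by rw [h3]; push_cast; ring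
      have h7 := cast_inj' (by omega) (by omega) h6
      refine Or.inr ⟨q, h4, ?_⟩
      have h8 := C.glue i q h4
      rw [h5, h8]
      have h9 : i = 2 := by omega
      subst h9
      congr 1
      push_cast
      ring
    · obtain ⟨h3, h4, h5⟩ := h
      have h6 : (i : ZMod n) = ((3 + j + 1 : ℕ) : ZMod n) := by rw [h3]; push_cast; ring
      refine Or.inl ⟨p, h4, ?_⟩
      by_cases h7 : 3 + j + 1 < n
      · exact absurd (cast_inj' (by omega) h7 h6) (by omega)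
      · have h8 : 3 + j + 1 = n := by omega
        rw [h8, ZMod.natCast_self] at h6
        rw [h6]
  · rintro (hx | hx)
    · refine ⟨?_, ?_⟩
      · have := C.T_sub_U (j := 0) (m := 3) (by omega) (by omega)
        rw [Nat.cast_zero] at this
        exact this hx
      · have := (C.sh 3).T_sub_U (j := n - 3) (m := n - 3) (by omega) (by omega)
        rw [C.sh3_T_last hn] at this
        exact this hx
    · refine ⟨?_, ?_⟩
      · have := C.T_sub_U (j := 3) (m := 3) (by omega) (by omega)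
        exact this hx
      · have := (C.sh 3).T_sub_U (j := 0) (m := n - 3) (by omega) (by omega)
        rw [Nat.cast_zero, C.sh3_T_zero] at this
        exact this hx

theorem prop3 {v : List Ω → ZMod 3} (hv : Coc C.A 2 v) {x z : ZMod 3}
    (h : Crd (C.F 0) v x z) : Crd (C.F 3) v (-x) (-z) := by
  have h1 := C.prop v hv _ _ _ (C.prop v hv _ _ _ (C.prop v hv 0 x z h))
  have e : (0 : ZMod n) + 1 + 1 + 1 = 3 := by ring
  rw [e] at h1
  have e1 : -(-(-x - z) - -z) - - -z = -x := by clear h h1; revert x z; decide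
  have e2 : - - -z = -z := by ring
  rwa [e1, e2] at h1

theorem cyc [NeZero n] (hn : 6 ∣ n) {a : Ω → ℝ} {G : Circle × ℂ → ℝ}
    {k : ℤ} (hA : Ang C a G k) : ∃ f1 f2 : Ω → ZMod 3,
    Cyc (C.U 3) ((C.sh 3).U (n - 3)) (C.T 0) (C.T 3) (wc a) f1 f2 (k : ZMod 3) := by
  have hn6 := le_n hn
  obtain ⟨φ1, f1, a1, b1, d1⟩ := hA.phi hn C 0 3 (fun j => by rw [Nat.zero_add]) (by omega)
    (by omega)
  obtain ⟨φ2, f2, a2, b2, d2⟩ := hA.phi hn (C.sh 3) 3 (n - 3) (fun j => C.sh3 j) (by omega)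
    (by omega)
  have hI := C.inter3 hn6
  have hn0 : (n : ℝ) ≠ 0 := by
    have : n ≠ 0 := NeZero.ne n
    exact_mod_cast this
  refine ⟨fun x => (f1 x : ZMod 3), fun x => (f2 x : ZMod 3), C.U_compact _, (C.sh 3).U_compact _,
    C.T_compact _, C.T_compact _, hI, ?_, a1, a2, ?_, ?_, ?_⟩
  · apply C.T_disj
    intro h
    have h' : ((0 : ℕ) : ZMod n) = ((3 : ℕ) : ZMod n) := by push_cast; exact h
    have := cast_inj' (by omega) (by omega) h'
    omega
  · rcases hA.hk with rfl | rfl <;> decide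
  · rintro x hx
    have hx' : x ∈ C.U 3 ∩ (C.sh 3).U (n - 3) := by rw [hI]; exact Or.inl hx
    obtain ⟨p, hp, rfl⟩ := hx
    have e1 := b1 _ hx'.1
    have e2 := b2 _ hx'.2
    have e3 := d1 0 (by omega) p (TT_sub_DD hp)
    have e4 := d2 (n - 4) (by omega) (sg L2 p) (sgTT_sub_DD hp)
    have e5 : (C.sh 3).F ((n - 4 : ℕ) : ZMod n) (sg L2 p) = C.F 0 p := by
      rw [sh3, C.glue _ p hp]
      congr 1
      have : ((3 + (n - 4) + 1 : ℕ) : ZMod n) = 0 := by
        have : 3 + (n - 4) + 1 = n := by omega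
        rw [this]; exact ZMod.natCast_self n
      rw [← this]; push_cast; rfl
    rw [e5, hA.hσ p hp] at e4
    rw [Nat.cast_zero] at e3
    have e6 : ((3 + (n - 4) : ℕ) : ℝ) = n - 1 := by
      have h1 : 3 + (n - 4) + 1 = n := by omega
      have h2 : ((3 + (n - 4) + 1 : ℕ) : ℝ) = n := by rw [h1]
      push_cast at h2 ⊢
      linarith
    rw [e6] at e4
    rw [e3] at e1
    rw [e4] at e2
    have e7 : (f1 (C.F 0 p) : ℝ) - f2 (C.F 0 p) = k := by
      have e8 := e1.symm.trans e2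
      field_simp at e8
      have e9 : (n : ℝ) * ((f1 (C.F 0 p) : ℝ) - f2 (C.F 0 p) - k) = 0 := by
        push_cast at e8
        linarith
      rcases mul_eq_zero.1 e9 with h | h
      · exact absurd h hn0
      · linarith
    have e8 : f1 (C.F 0 p) - f2 (C.F 0 p) = k := by exact_mod_cast e7
    rw [← e8]; push_cast; rfl
  · rintro x hx
    have hx' : x ∈ C.U 3 ∩ (C.sh 3).U (n - 3) := by rw [hI]; exact Or.inr hx
    obtain ⟨p, hp, rfl⟩ := hx
    have e1 := b1 _ hx'.1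
    have e2 := b2 _ hx'.2
    have e3 := d1 2 (by omega) (sg L2 p) (sgTT_sub_DD hp)
    have e4 := d2 0 (by omega) p (TT_sub_DD hp)
    have e5 : (C.sh 3).F ((0 : ℕ) : ZMod n) p = C.F 3 p := by
      rw [sh3]; rfl
    have e6 : C.F ((2 : ℕ) : ZMod n) (sg L2 p) = C.F 3 p := by
      rw [C.glue _ p hp]
      congr 1
      push_cast
      ring
    rw [e6, hA.hσ p hp] at e3
    rw [e5] at e4
    rw [e3] at e1
    rw [e4] at e2
    have e7 : (f1 (C.F 3 p) : ℝ) = f2 (C.F 3 p) := by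
      have e8 := e1.symm.trans e2
      push_cast at e8
      have e9 : (G p + (k : ℝ) + k * 2) / (n : ℝ) = (G p + k * 3) / n := by ring
      rw [e9] at e8
      linarith
    have e8 : f1 (C.F 3 p) = f2 (C.F 3 p) := by exact_mod_cast e7
    simp only [e8, sub_self]

/-- `H³` of the union is generated by `u ∪ v1 ∪ v2` -/
theorem top_gen [NeZero n] (hn : 6 ∣ n) {a : Ω → ℝ} {G : Circle × ℂ → ℝ}
    {k : ℤ} (hA : Ang C a G k) (v1 v2 : List Ω → ZMod 3) (hv1 : Coc C.A 2 v1)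
    (hv2 : Coc C.A 2 v2) (h1 : Crd (C.F 0) v1 1 0) (h2 : Crd (C.F 0) v2 0 1)
    (y : List Ω → ZMod 3) (hy : Coc C.A 4 y) :
    ∃ μ : ZMod 3, Cob C.A 4 (y - μ • cup (wc a) (cup v1 v2)) := by
  have hn6 := le_n hn
  obtain ⟨f1, f2, hc⟩ := C.cyc hn hA
  have hU := C.union3 hn6
  have hT : ∀ i, C.T i ⊆ C.A := fun i => (C.T_sub i).trans (C.P_sub i)
  have h3 := hc.coc (by rw [hU]; exact coc_wc C.compact hA.cma) 2 (by norm_num)
    (y := cup v1 v2) (by rw [hU]; exact coc_cup hv1 hv2) (C.U_hv4 hn 2 (by omega))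
    (by
      have := (C.sh 3).U_hv4 hn (n - 4) (by omega)
      have e : n - 4 + 1 = n - 3 := by omega
      rwa [e] at this)
    (C.T_gen2 hn (C.T_cup (s := 1) (by decide) h1 h2 (hv2.mono (hT 0))))
    (C.T_gen2 hn (C.T_cup (s := -1) (by decide) (by simpa using C.prop3 hv1 h1)
      (by simpa using C.prop3 hv2 h2) (hv2.mono (hT 3)))) y (by rw [hU]; exact hy)
  rwa [hU] at h3

/-- `u ∪ v1 ∪ v2` is not zero -/
theorem top_ne [NeZero n] (hn : 6 ∣ n) {a : Ω → ℝ} {G : Circle × ℂ → ℝ}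
    {k : ℤ} (hA : Ang C a G k) (v1 v2 : List Ω → ZMod 3) (hv1 : Coc C.A 2 v1)
    (hv2 : Coc C.A 2 v2) (h1 : Crd (C.F 0) v1 1 0) (h2 : Crd (C.F 0) v2 0 1) :
    ¬ Cob C.A 4 (cup (wc a) (cup v1 v2)) := by
  have hn6 := le_n hn
  obtain ⟨f1, f2, hc⟩ := C.cyc hn hA
  have hU := C.union3 hn6
  have hT : ∀ i, C.T i ⊆ C.A := fun i => (C.T_sub i).trans (C.P_sub i)
  have hy : Coc C.A 3 (cup v1 v2) := coc_cup hv1 hv2
  have y0 := C.T_cup (s := 1) (by decide) h1 h2 (hv2.mono (hT 0))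
  have y3 := C.T_cup (s := -1) (by decide) (by simpa using C.prop3 hv1 h1)
      (by simpa using C.prop3 hv2 h2) (hv2.mono (hT 3))
  rw [← hU]
  refine hc.ne 2 (by norm_num) (y := cup v1 v2) (by rw [hU]; exact hy) ?_ ?_ (C.T_ne2 y0)
    (C.T_ne2 y3)
  · intro c hc
    have hsub : C.T 3 ⊆ C.U 3 := C.T_sub_U (j := 3) (m := 3) (by omega) (by omega)
    obtain ⟨α, hα⟩ := C.T_gen2 hn y3 c (hc.mono hsub)
    refine ⟨α, C.back_U hn 3 (hc.sub ((hy.mono (C.U_sub_A 3)).smul α)) hα, hα⟩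
  · intro c hc
    have hsub : C.T 0 ⊆ (C.sh 3).U (n - 3) := by
      have := (C.sh 3).T_sub_U (j := n - 3) (m := n - 3) (by omega) (by omega)
      rwa [C.sh3_T_last hn6] at this
    obtain ⟨α, hα⟩ := C.T_gen2 hn y0 c (hc.mono hsub)
    refine ⟨α, hα, ?_⟩
    have hA' : (C.sh 3).U (n - 3) ⊆ C.A := by
      rw [← C.sh_A 3]; exact (C.sh 3).U_sub_A _
    have := (C.sh 3).back_U hn (n - 3) (hc.sub ((hy.mono hA').smul α))
      (by rw [C.sh3_T_last hn6]; exact hα)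
    rwa [C.sh3_T_zero] at this

end Chain

end

end Pool.Agent.TH650.AS
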