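import Pool.Agent.TH650.Emb.Inc
import Pool.Agent.H904R2.Sphere

/-! Homological notions used for MP_8e71ea_gt. -/

set_option autoImplicit false

open scoped Manifold ContDiff Topology
open Set CategoryTheory AlgebraicTopology

namespace Pool.Agent.TH650.Emb

open Pool.Agent.H904R2 (Ch IsCyc IsBdy RAcyc psh)

noncomputable section

/-- Mathlib's singular homology with integer coefficients -/
abbrev HZ (k : ℕ) (X : Type) [TopologicalSpace X] : ModuleCat.{0} ℤ :=
  ((singularHomologyFunctor (ModuleCat.{0} ℤ) k).obj (ModuleCat.of ℤ ℤ)).obj (TopCat.of X)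

/-- the induced map -/
abbrev HZmap (k : ℕ) {X Y : Type} [TopologicalSpace X] [TopologicalSpace Y] (f : C(X, Y)) :
    HZ k X ⟶ HZ k Y :=
  ((singularHomologyFunctor (ModuleCat.{0} ℤ) k).obj (ModuleCat.of ℤ ℤ)).map (TopCat.ofHom f)

/-- the third sphere -/
abbrev S3 : Type := Metric.sphere (0 : EuclideanSpace ℝ (Fin 4)) 1

/-- elementwise: `H_k(X) ≅ ℤ` (for `k ≥ 1`; reduced homology for `k = 0`) -/
def HasZ (X : Type) [TopologicalSpace X] (k : ℕ) : Prop :=
  ∃ g : Ch X k, IsCyc k g ∧ (∀ z : Ch X k, IsCyc k z → ∃ a : ℤ, IsBdy k (z - a • g)) ∧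
    ∀ a : ℤ, IsBdy k (a • g) → a = 0

/-- elementwise: surjectivity on `H_1` -/
def H1Onto {X Y : Type} [TopologicalSpace X] [TopologicalSpace Y] (f : C(X, Y)) : Prop :=
  ∀ z : Ch Y 1, IsCyc 1 z → ∃ w : Ch X 1, IsCyc 1 w ∧ IsBdy 1 (z - psh f 1 w)

end

end Pool.Agent.TH650.Emb
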