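import Pool.Agent.TH650.Emb.CP
import Pool.Agent.TH650.Emb.HDefs
import Pool.Agent.Helper554.Smith.Base

/-! Cohomology mod 3 of `Circle × S3` and of its compact subsets. Length `q + 1` is degree
`q`. -/

set_option autoImplicit false

open Set

namespace Pool.Agent.TH650.AS

open Pool.Agent.Helper554.Smith Pool.Agent.TH650.Emb

noncomputable section

/-! ### the sphere -/

/-- the 3-sphere as a one point compactification -/
def eS3 : OnePoint (Fin 3 → ℝ) ≃ₜ S3 :=
  onePointEquivSphereOfFinrankEq (ι := Fin 4) (V := Fin 3 → ℝ) (by simp)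

theorem S3_hv (q : ℕ) (hq : q ≠ 4) : HV (univ : Set S3) q := (base 3 eS3).2.1 q hq

theorem S3_h1 : ∃ u, Coc (univ : Set S3) 4 u ∧ ¬ Cob (univ : Set S3) 4 u ∧
    ∀ c, Coc (univ : Set S3) 4 c → ∃ a : ZMod 3, Cob (univ : Set S3) 4 (c - a • u) :=
  (base 3 eS3).2.2.1

instance : Fact (Module.finrank ℝ (EuclideanSpace ℝ (Fin 4)) = 3 + 1) := ⟨by simp⟩

theorem S3_proper {K : Set S3} (hK : IsCompact K) {p : S3} (hp : p ∉ K) (q : ℕ) (hq : 3 ≤ q) :
    HV K (q + 1) := by
  have hs : K ⊆ (stereographic' 3 p).source := by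
    rw [stereographic'_source]
    intro x hx h
    rw [mem_singleton_iff] at h
    exact hp (h ▸ hx)
  refine dim_van 3 K hK (fun i x => stereographic' 3 p x i) ?_ ?_ q hq
  · intro i
    have h1 : ContinuousOn (stereographic' 3 p) K := (stereographic' 3 p).continuousOn.mono hs
    have h2 : Continuous fun y : EuclideanSpace ℝ (Fin 3) => y i := by fun_prop
    exact h2.comp_continuousOn h1
  · intro x hx y hy h
    apply (stereographic' 3 p).injOn (hs hx) (hs hy)
    ext i
    exact h i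

theorem cyl_univ : (cyl univ univ : Set (Circle × S3)) = univ := by
  ext p; simp [cyl]

theorem S3_cpt : IsCompact (univ : Set S3) := isCompact_univ

/-- `H² = 0` -/
theorem X_hv3 : HV (univ : Set (Circle × S3)) 3 := by
  rw [← cyl_univ]
  exact cp_hv S3_cpt (q := 0) (S3_hv 2 (by norm_num)) (S3_hv 3 (by norm_num))

/-- `H³` is generated by the pull back of a class of `S3` -/
theorem X_gen4 : ∃ w : List S3 → ZMod 3, Coc univ 4 w ∧
    ∀ c : List (Circle × S3) → ZMod 3, Coc univ 4 c →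
      ∃ μ : ZMod 3, Cob univ 4 (c - μ • pb Prod.snd w) := by
  obtain ⟨w, h1, h2, h3⟩ := S3_h1
  refine ⟨w, h1, fun c hc => ?_⟩
  rw [← cyl_univ] at hc ⊢
  exact cp_gen_y S3_cpt (q := 1) h1 h3 h2 (S3_hv 3 (by norm_num)) c hc

/-- `H⁴ ≠ 0` -/
theorem X_ne5 : ¬ HV (univ : Set (Circle × S3)) 5 := by
  obtain ⟨w, h1, h2, h3⟩ := S3_h1
  intro h
  rw [← cyl_univ] at h
  refine cp_ne_top S3_cpt (q := 2) h1 h3 h2 (h _ ?_)
  have hc : IsCompact (cyl univ univ : Set (Circle × S3)) := cyl_compact isClosed_univ S3_cpt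
  exact coc_cup (coc_wc hc (CM_a1 _)) (snd_coc isClosed_univ S3_cpt h1)

/-! ### proper subsets -/

theorem arc_hv5 {J : Set Circle} (e : ℝ) (he : ∀ s ∈ J, Circle.exp (e * ang s) = s)
    {K : Set (Circle × S3)} (hK : IsCompact K) (hJ : ∀ p ∈ K, p.1 ∈ J) : HV K 5 := by
  refine dim_van 4 K hK (fun i p => Real.exp (ang p.1) * (p.2 : EuclideanSpace ℝ (Fin 4)) i)
    ?_ ?_ 4 le_rfl
  · intro i
    have h1 : Continuous fun p : Circle × S3 => Real.exp (ang p.1) :=
      Real.continuous_exp.comp (continuous_ang.comp continuous_fst)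
    have h2 : Continuous fun y : EuclideanSpace ℝ (Fin 4) => y i := by fun_prop
    exact (h1.mul (h2.comp (continuous_subtype_val.comp continuous_snd))).continuousOn
  · intro x hx y hy h
    have hvec : Real.exp (ang x.1) • (x.2 : EuclideanSpace ℝ (Fin 4)) =
        Real.exp (ang y.1) • (y.2 : EuclideanSpace ℝ (Fin 4)) := by
      ext i
      simpa using h i
    have hn := congrArg norm hvec
    rw [norm_smul, norm_smul, norm_eq_of_mem_sphere, norm_eq_of_mem_sphere, mul_one, mul_one,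
      Real.norm_eq_abs, Real.norm_eq_abs, Real.abs_exp, Real.abs_exp] at hn
    have ha : ang x.1 = ang y.1 := Real.exp_injective hn
    have h1 : x.1 = y.1 := by
      rw [← he _ (hJ x hx), ← he _ (hJ y hy), ha]
    refine Prod.ext h1 (Subtype.ext ?_)
    rw [ha] at hvec
    exact smul_right_injective _ (Real.exp_ne_zero _) hvec

/-- a slice -/
def slc (K : Set (Circle × S3)) (s : Circle) : Set S3 := {q | (s, q) ∈ K}

theorem slc_compact {K : Set (Circle × S3)} (hK : IsCompact K) (s : Circle) :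
    IsCompact (slc K s) := by
  have : IsClosed (slc K s) := hK.isClosed.preimage (by fun_prop : Continuous fun q : S3 => (s, q))
  exact this.isCompact

theorem slc_cyl (K : Set (Circle × S3)) (s : Circle) :
    cyl {s} (slc K s) = {p | p ∈ K ∧ p.1 = s} := by
  ext ⟨a, b⟩
  simp only [cyl, slc, mem_singleton_iff, mem_ofPred_eq]
  constructor
  · rintro ⟨rfl, h⟩; exact ⟨h, rfl⟩
  · rintro ⟨h, rfl⟩; exact ⟨rfl, h⟩

theorem X_proper1 (K : Set (Circle × S3)) (hK : IsCompact K) (q0 : S3)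
    (h : ((1 : Circle), q0) ∉ K) : HV K 5 := by
  obtain ⟨w, h1, h2, h3⟩ := S3_h1
  have hA : IsClosed {p : Circle × S3 | p.1 ∈ I1} := isClosed_I1.preimage continuous_fst
  have hI2 : IsClosed I2 := isClosed_le (Complex.continuous_im.comp continuous_circle_coe)
    continuous_const
  have hB : IsClosed {p : Circle × S3 | p.1 ∈ I2} := hI2.preimage continuous_fst
  set A := K ∩ {p : Circle × S3 | p.1 ∈ I1} with hAd
  set B := K ∩ {p : Circle × S3 | p.1 ∈ I2} with hBd
  have cA : IsCompact A := hK.inter_right hA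
  have cB : IsCompact B := hK.inter_right hB
  have hU : A ∪ B = K := by
    rw [hAd, hBd, ← inter_union_distrib_left]
    refine inter_eq_left.2 fun p _ => ?_
    have : p.1 ∈ I1 ∪ I2 := by rw [I_union]; trivial
    exact this
  have hI : A ∩ B = cyl {1} (slc K 1) ∪ cyl {-1} (slc K (-1)) := by
    rw [slc_cyl, slc_cyl]
    ext p
    constructor
    · rintro ⟨⟨hk, ha⟩, ⟨_, hb⟩⟩
      have : (p.1 : ℂ).im = 0 := le_antisymm hb ha
      rcases im_zero this with h | h
      · exact Or.inl ⟨hk, h⟩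
      · exact Or.inr ⟨hk, h⟩
    · rintro (⟨hk, h⟩ | ⟨hk, h⟩)
      · refine ⟨⟨hk, ?_⟩, ⟨hk, ?_⟩⟩ <;> simp [I1, I2, h]
      · refine ⟨⟨hk, ?_⟩, ⟨hk, ?_⟩⟩ <;> simp [I1, I2, h]
  have c1 : IsCompact (cyl {1} (slc K 1)) := cyl_compact isClosed_singleton (slc_compact hK 1)
  have c2 : IsCompact (cyl {-1} (slc K (-1))) :=
    cyl_compact isClosed_singleton (slc_compact hK (-1))
  have hd : Disjoint (cyl {1} (slc K 1)) (cyl {-1} (slc K (-1))) := by
    rw [Set.disjoint_left]
    rintro p ⟨h1, _⟩ ⟨h2, _⟩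
    rw [mem_singleton_iff] at h1 h2
    rw [h1] at h2
    have := congrArg (fun s : Circle => (s : ℂ).re) h2
    norm_num at this
  have hv1 : HV (cyl {1} (slc K 1)) 4 := sl_hv (slc_compact hK 1) 1
    (S3_proper (slc_compact hK 1) (p := q0) h 3 le_rfl)
  have hy : Coc univ 4 (pb (Prod.snd : Circle × S3 → S3) w) := by
    rw [← cyl_univ]
    exact snd_coc isClosed_univ S3_cpt h1
  rw [← hU]
  refine hv_glue cA cB (arc_hv5 1 (fun s hs => by rw [one_mul]; exact exp_ang_I1 hs) cA
    (fun p hp => hp.2)) (arc_hv5 (-1) (fun s hs => by rw [neg_one_mul]; exact exp_ang_I2 hs) cB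
    (fun p hp => hp.2)) (y := pb Prod.snd w) (hy.mono (subset_univ _)) ?_
  rw [hI]
  intro c hc
  have hcob1 : ∀ α : ZMod 3, Cob (cyl {1} (slc K 1)) 4 (c - α • pb Prod.snd w) := fun α =>
    hv1 _ ((hc.mono subset_union_left).sub ((hy.mono (subset_univ _)).smul α))
  obtain ⟨α, hα⟩ : ∃ α : ZMod 3, Cob (cyl {-1} (slc K (-1))) 4 (c - α • pb Prod.snd w) := by
    by_cases hall : slc K (-1) = univ
    · rw [hall]
      refine sl_gen S3_cpt (-1) h3 c ?_
      rw [hall] at hc
      exact hc.mono subset_union_right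
    · obtain ⟨q1, hq1⟩ := (ne_univ_iff_exists_notMem _).1 hall
      refine ⟨0, ?_⟩
      have hv2 : HV (cyl {-1} (slc K (-1))) 4 := sl_hv (slc_compact hK (-1)) (-1)
        (S3_proper (slc_compact hK (-1)) hq1 3 le_rfl)
      rw [zero_smul, sub_zero]
      exact hv2 _ (hc.mono subset_union_right)
  exact ⟨α, Cob_union_disj c1 c2 hd (by norm_num) (hcob1 α) hα⟩

/-- `H⁴` of proper compact subsets vanishes -/
theorem X_proper (K : Set (Circle × S3)) (hK : IsCompact K) (hne : K ≠ univ) : HV K 5 := by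
  obtain ⟨⟨s0, q0⟩, h0⟩ := (ne_univ_iff_exists_notMem _).1 hne
  have hφ : Continuous fun p : Circle × S3 => (s0 * p.1, p.2) := by fun_prop
  have hψ : Continuous fun p : Circle × S3 => (s0⁻¹ * p.1, p.2) := by fun_prop
  set K' := (fun p : Circle × S3 => (s0⁻¹ * p.1, p.2)) '' K with hK'
  have cK' : IsCompact K' := hK.image hψ
  have h1 : ((1 : Circle), q0) ∉ K' := by
    rintro ⟨⟨s, q⟩, hk, he⟩
    simp only [Prod.mk.injEq] at he
    obtain ⟨e1, rfl⟩ := he
    apply h0
    have : s = s0 := by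
      rw [inv_mul_eq_one] at e1
      exact e1.symm
    rwa [← this]
  refine HV_of_homeo cK' hφ.continuousOn ?_ ?_ (X_proper1 K' cK' q0 h1)
  · rw [hK', image_image]
    simp
  · rintro ⟨s, q⟩ _ ⟨s', q'⟩ _ h
    simp only [Prod.mk.injEq, mul_right_inj] at h
    exact Prod.ext h.1 h.2

end

end Pool.Agent.TH650.AS
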