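import Pool.Agent.TH650.Emb.AS7

/-! If the complement of a compact subset `A` of `Circle × S3` is connected, then every class of
`H³(A)` extends to the whole space. -/

set_option autoImplicit false

open Set

namespace Pool.Agent.TH650.AS

open Pool.Agent.Helper554.Smith Pool.Agent.TH650.Emb

noncomputable section

/-- a cocycle of a compact set extends to a neighbourhood -/
theorem coc_nhd {Ω : Type} [MetricSpace Ω] {K : Set Ω} {q : ℕ}
    {c : List Ω → ZMod 3} (hc : Coc K q c) : ∃ δ > 0, ∃ c' : List Ω → ZMod 3,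
      Coc (Metric.thickening δ K) q c' ∧ ∀ l : List Ω, (∀ x ∈ l, x ∈ K) → c' l = c l := by
  classical
  obtain ⟨ε, hε, h⟩ := hc
  let φ : Ω → Ω := fun x => if x ∈ K then x else
    if h : ∃ z ∈ K, dist x z < ε / 3 then h.choose else x
  have h1 : ∀ x ∈ K, φ x = x := fun x hx => if_pos hx
  have h2 : ∀ x ∈ Metric.thickening (ε / 3) K, φ x ∈ K ∧ dist x (φ x) < ε / 3 := by
    intro x hx
    by_cases hk : x ∈ K
    · rw [h1 x hk, dist_self]
      exact ⟨hk, by positivity⟩
    · have h3 := Metric.mem_thickening_iff.1 hx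
      have e : φ x = h3.choose := by
        show (if x ∈ K then x else if h : ∃ z ∈ K, dist x z < ε / 3 then h.choose else x) = _
        rw [if_neg hk, dif_pos h3]
      rw [e]
      exact h3.choose_spec
  refine ⟨ε / 3, by positivity, pb φ c, ?_, ?_⟩
  · refine ⟨ε / 3, by positivity, fun l hl hs => ?_⟩
    rw [d_pb]
    refine h _ (by rw [List.length_map]; exact hl) ⟨?_, ?_⟩
    · intro y hy
      obtain ⟨x, hx, rfl⟩ := List.mem_map.1 hy
      exact (h2 x (hs.1 x hx)).1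
    · intro y hy z hz
      obtain ⟨x, hx, rfl⟩ := List.mem_map.1 hy
      obtain ⟨w, hw, rfl⟩ := List.mem_map.1 hz
      have a1 := (h2 x (hs.1 x hx)).2
      have a2 := (h2 w (hs.1 w hw)).2
      have a3 := hs.2 x hx w hw
      calc dist (φ x) (φ w) ≤ dist (φ x) x + dist x w + dist w (φ w) := dist_triangle4 _ _ _ _
        _ < ε := by rw [dist_comm (φ x) x]; linarith
  · intro l hl
    show c (l.map φ) = c l
    congr 1
    conv_rhs => rw [← List.map_id l]
    exact List.map_congr_left fun x hx => h1 x (hl x hx)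

/-- 4-space -/
abbrev E4 : Type := EuclideanSpace ℝ (Fin 4)

/-- the target -/
abbrev XX : Type := Circle × S3

/-- a linear homeomorphism -/
def linE : (EuclideanSpace ℝ (Fin 1) × EuclideanSpace ℝ (Fin 3)) ≃ₜ E4 :=
  (ContinuousLinearEquiv.ofFinrankEq (𝕜 := ℝ) (by simp)).toHomeomorph

/-- charts with values in 4-space -/
def chX (p : XX) : OpenPartialHomeomorph XX E4 :=
  ((chartAt (EuclideanSpace ℝ (Fin 1)) p.1).prod
    (chartAt (EuclideanSpace ℝ (Fin 3)) p.2)).trans linE.toOpenPartialHomeomorph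

theorem mem_chX (p : XX) : p ∈ (chX p).source := by
  simp [chX]

theorem exists_ball (p : XX) (W : Set XX) (hW : IsOpen W) (hp : p ∈ W) : ∃ R > 0,
    Metric.closedBall (chX p p) R ⊆ (chX p).target ∧
      (chX p).symm '' Metric.closedBall (chX p p) R ⊆ W := by
  have h1 : IsOpen ((chX p).symm.source ∩ (chX p).symm ⁻¹' W) :=
    (chX p).symm.isOpen_inter_preimage hW
  have h2 : chX p p ∈ (chX p).symm.source ∩ (chX p).symm ⁻¹' W := by
    refine ⟨(chX p).map_source (mem_chX p), ?_⟩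
    show (chX p).symm (chX p p) ∈ W
    rwa [(chX p).left_inv (mem_chX p)]
  obtain ⟨R, hR, h3⟩ := Metric.nhds_basis_closedBall.mem_iff.1 (h1.mem_nhds h2)
  refine ⟨R, hR, fun x hx => (h3 hx).1, ?_⟩
  rintro _ ⟨x, hx, rfl⟩
  exact (h3 hx).2

section shell

variable (φ : OpenPartialHomeomorph XX E4) (c0 : E4) (ρ : ℝ)

/-- closed chart ball -/
def cB : Set XX := φ.symm '' Metric.closedBall c0 ρ

/-- open chart ball -/
def oB : Set XX := φ.symm '' Metric.ball c0 ρ

/-- chart sphere -/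
def sB : Set XX := φ.symm '' Metric.sphere c0 ρ

variable {φ c0 ρ}

theorem cB_compact (hb : Metric.closedBall c0 ρ ⊆ φ.target) : IsCompact (cB φ c0 ρ) :=
  (isCompact_closedBall c0 ρ).image_of_continuousOn (φ.continuousOn_symm.mono hb)

theorem sB_compact (hb : Metric.closedBall c0 ρ ⊆ φ.target) : IsCompact (sB φ c0 ρ) :=
  (isCompact_sphere c0 ρ).image_of_continuousOn
    (φ.continuousOn_symm.mono (Metric.sphere_subset_closedBall.trans hb))

theorem oB_open (hb : Metric.closedBall c0 ρ ⊆ φ.target) : IsOpen (oB φ c0 ρ) :=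
  φ.symm.isOpen_image_of_subset_source Metric.isOpen_ball (Metric.ball_subset_closedBall.trans hb)

theorem cB_diff (hb : Metric.closedBall c0 ρ ⊆ φ.target) :
    cB φ c0 ρ \ oB φ c0 ρ = sB φ c0 ρ := by
  have hi : InjOn φ.symm (Metric.closedBall c0 ρ) := φ.symm.injOn.mono hb
  ext x
  constructor
  · rintro ⟨⟨y, hy, rfl⟩, h⟩
    refine ⟨y, ?_, rfl⟩
    by_contra h'
    apply h
    refine ⟨y, ?_, rfl⟩
    rw [Metric.mem_ball]
    rw [Metric.mem_sphere] at h'
    rw [Metric.mem_closedBall] at hy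
    exact lt_of_le_of_ne hy h'
  · rintro ⟨y, hy, rfl⟩
    refine ⟨⟨y, Metric.sphere_subset_closedBall hy, rfl⟩, ?_⟩
    rintro ⟨z, hz, h⟩
    have := hi (Metric.ball_subset_closedBall hz) (Metric.sphere_subset_closedBall hy) h
    subst this
    rw [Metric.mem_ball] at hz
    rw [Metric.mem_sphere] at hy
    linarith

variable (φ c0 ρ) in
/-- parametrization of the chart sphere -/
def sph (q : S3) : XX := φ.symm (c0 + ρ • (q : E4))

theorem sph_mem (hρ : 0 < ρ) (q : S3) : c0 + ρ • (q : E4) ∈ Metric.sphere c0 ρ := by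
  rw [Metric.mem_sphere, dist_eq_norm, add_sub_cancel_left, norm_smul, norm_eq_of_mem_sphere,
    mul_one, Real.norm_eq_abs, abs_of_pos hρ]

theorem sph_cont (hρ : 0 < ρ) (hb : Metric.closedBall c0 ρ ⊆ φ.target) :
    Continuous (sph φ c0 ρ) := by
  have h1 : Continuous fun q : S3 => c0 + ρ • (q : E4) := by fun_prop
  rw [← continuousOn_univ] at h1 ⊢
  exact (φ.continuousOn_symm.mono hb).comp h1
    fun q _ => Metric.sphere_subset_closedBall (sph_mem hρ q)

theorem sph_inj (hρ : 0 < ρ) (hb : Metric.closedBall c0 ρ ⊆ φ.target) :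
    Function.Injective (sph φ c0 ρ) := by
  intro q q' h
  have hi : InjOn φ.symm (Metric.closedBall c0 ρ) := φ.symm.injOn.mono hb
  have h1 := hi (Metric.sphere_subset_closedBall (sph_mem hρ q))
    (Metric.sphere_subset_closedBall (sph_mem hρ q')) h
  have h2 := add_left_cancel h1
  exact Subtype.ext (smul_right_injective _ hρ.ne' h2)

theorem sph_img (hρ : 0 < ρ) : sph φ c0 ρ '' univ = sB φ c0 ρ := by
  ext x
  constructor
  · rintro ⟨q, _, rfl⟩
    exact ⟨_, sph_mem hρ q, rfl⟩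
  · rintro ⟨y, hy, rfl⟩
    rw [Metric.mem_sphere, dist_eq_norm] at hy
    refine ⟨⟨ρ⁻¹ • (y - c0), ?_⟩, trivial, ?_⟩
    · rw [mem_sphere_zero_iff_norm, norm_smul, norm_inv, Real.norm_eq_abs, abs_of_pos hρ, hy]
      exact inv_mul_cancel₀ hρ.ne'
    · show φ.symm (c0 + ρ • (ρ⁻¹ • (y - c0))) = φ.symm y
      rw [smul_smul, mul_inv_cancel₀ hρ.ne', one_smul, add_sub_cancel]

theorem sB_proper (hρ : 0 < ρ) (hb : Metric.closedBall c0 ρ ⊆ φ.target) {L : Set XX}
    (hL : IsCompact L) (hs : L ⊆ sB φ c0 ρ) {r : XX} (hr : r ∈ sB φ c0 ρ) (hr' : r ∉ L) :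
    HV L 4 := by
  have hc := sph_cont hρ hb
  have hL' : IsCompact (sph φ c0 ρ ⁻¹' L) := (hL.isClosed.preimage hc).isCompact
  rw [← sph_img hρ] at hs hr
  obtain ⟨q, _, rfl⟩ := hr
  refine HV_of_homeo hL' hc.continuousOn ?_ (sph_inj hρ hb).injOn
    (S3_proper hL' (p := q) hr' 3 le_rfl)
  apply image_preimage_eq_of_subset
  rwa [image_univ] at hs

theorem sB_gen (hρ : 0 < ρ) (hb : Metric.closedBall c0 ρ ⊆ φ.target) :
    ∃ g : List XX → ZMod 3, ∀ c, Coc (sB φ c0 ρ) 4 c →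
      ∃ α : ZMod 3, Cob (sB φ c0 ρ) 4 (c - α • g) := by
  have hc := sph_cont hρ hb
  obtain ⟨w, h1, h2, h3⟩ := S3_h1
  have : Nonempty S3 := ⟨eS3 OnePoint.infty⟩
  obtain ⟨ψ, k1, k2, k3, k4⟩ := pull_inv (Ω := S3) isCompact_univ hc.continuousOn (sph_img hρ)
    (sph_inj hρ hb).injOn
  refine ⟨pb ψ w, fun c hcc => ?_⟩
  obtain ⟨α, hα⟩ := h3 (pb (sph φ c0 ρ) c)
    (Coc_pb isCompact_univ hc.continuousOn (by rw [← sph_img hρ]; exact mapsTo_image _ _) hcc)
  refine ⟨α, ?_⟩
  have h4 := Cob_pb (sB_compact hb) k1 k2 hα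
  rw [pb_sub', pb_smul', pb_pb] at h4
  have h5 := (pb_congr (φ := sph φ c0 ρ ∘ ψ) (ψ := id) (K := sB φ c0 ρ)
    (fun p hp => k4 p hp) 4 c).cob
  have h6 := h4.sub h5
  have e : pb (sph φ c0 ρ ∘ ψ) c - α • pb ψ w - (pb (sph φ c0 ρ ∘ ψ) c - pb id c) =
      pb id c - α • pb ψ w := by abel
  rw [e] at h6
  have e2 : pb (id : XX → XX) c = c := by
    funext l
    show c (l.map id) = c l
    rw [List.map_id]
  rwa [e2] at h6

end shell

/-- `y` extends from `A` to `M` -/
def Ext (A : Set XX) (y : List XX → ZMod 3) (M : Set XX) : Prop :=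
  ∃ c, Coc M 4 c ∧ Cob A 4 (c - y)

theorem fill {φ : OpenPartialHomeomorph XX E4} {c0 : E4} {ρ : ℝ}
    (hb : Metric.closedBall c0 ρ ⊆ φ.target) {A M : Set XX} (hM : IsCompact M)
    (hA : A ⊆ M \ oB φ c0 ρ) {y c : List XX → ZMod 3} (hc : Coc (M \ oB φ c0 ρ) 4 c)
    (hy : Cob A 4 (c - y)) (h : Cob (M ∩ sB φ c0 ρ) 4 c) : Ext A y M := by
  have k1 : IsCompact (M \ oB φ c0 ρ) := hM.diff (oB_open hb)
  have k2 : IsCompact (M ∩ cB φ c0 ρ) := hM.inter (cB_compact hb)
  have k3 : Coc (M ∩ cB φ c0 ρ) 4 (0 : List XX → ZMod 3) := by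
    unfold Coc
    rw [d_zero]
    exact Nl.zero
  have k4 : (M \ oB φ c0 ρ) ∩ (M ∩ cB φ c0 ρ) = M ∩ sB φ c0 ρ := by
    rw [← cB_diff hb]
    ext x
    simp only [mem_inter_iff, mem_diff]
    tauto
  have k5 : (M \ oB φ c0 ρ) ∪ (M ∩ cB φ c0 ρ) = M := by
    ext x
    constructor
    · rintro (h | h)
      · exact h.1
      · exact h.1
    · intro hx
      by_cases h : x ∈ oB φ c0 ρ
      · refine Or.inr ⟨hx, ?_⟩
        obtain ⟨z, hz, rfl⟩ := h
        exact ⟨z, Metric.ball_subset_closedBall hz, rfl⟩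
      · exact Or.inl ⟨hx, h⟩
  obtain ⟨C, h1, h2, h3⟩ := ext2 k1 k2 hc k3 (by rw [k4, sub_zero]; exact h)
  rw [k5] at h1
  refine ⟨C, h1, ?_⟩
  have h4 := (h2.mono hA).add hy
  rwa [sub_add_sub_cancel] at h4

/-- minimal compact sets to which `y` does not extend -/
theorem exists_min {A : Set XX} {y : List XX → ZMod 3}
    (hn : ¬ Ext A y univ) : ∃ M : Set XX, IsCompact M ∧ A ⊆ M ∧ ¬ Ext A y M ∧
      ∀ M' : Set XX, IsCompact M' → A ⊆ M' → M' ⊆ M → M' ≠ M → Ext A y M' := by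
  obtain ⟨M, hMK, hM⟩ := zorn_superset_nonempty
    {M : Set XX | IsCompact M ∧ A ⊆ M ∧ ¬ Ext A y M} (by
      intro C hC hchain hne
      refine ⟨⋂₀ C, ⟨?_, ?_, ?_⟩, fun s hs => sInter_subset_of_mem hs⟩
      · obtain ⟨s, hs⟩ := hne
        exact (hC hs).1.of_isClosed_subset
          (isClosed_sInter fun t ht => (hC ht).1.isClosed) (sInter_subset_of_mem hs)
      · exact subset_sInter fun s hs => (hC hs).2.1
      · rintro ⟨c, hc1, hc2⟩
        have hA : A ⊆ ⋂₀ C := subset_sInter fun s hs => (hC hs).2.1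
        obtain ⟨δ, hδ, c', hc', hcc⟩ := coc_nhd hc1
        have : Nonempty C := hne.to_subtype
        obtain ⟨s, hs⟩ := exists_subset_nhds_of_isCompact' (V := fun s : C => s.1) (by
          intro s t
          rcases hchain.total s.2 t.2 with h | h
          · exact ⟨s, subset_rfl, h⟩
          · exact ⟨t, h, subset_rfl⟩) (fun s => (hC s.2).1) (fun s => (hC s.2).1.isClosed)
          (U := Metric.thickening δ (⋂₀ C)) (by
            intro x hx
            apply Metric.isOpen_thickening.mem_nhds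
            apply Metric.self_subset_thickening hδ
            rw [sInter_eq_iInter]
            exact hx)
        apply (hC s.2).2.2
        refine ⟨c', hc'.mono hs, ?_⟩
        have h1 : Nl A 4 (c' - c) := Nl_congr fun l _ hl => hcc l fun x hx => hA (hl x hx)
        have h2 := h1.cob.add hc2
        rwa [sub_add_sub_cancel] at h2)
    univ ⟨isCompact_univ, subset_univ _, hn⟩
  refine ⟨M, hM.1.1, hM.1.2.1, hM.1.2.2, fun M' h1 h2 h3 h4 => ?_⟩
  by_contra hcon
  exact h4 (subset_antisymm h3 (hM.2 ⟨h1, h2, hcon⟩ h3))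

/-- if the complement of `A` is connected then every class of `H³(A)` extends to the whole space -/
theorem X_sep (A : Set (Circle × S3)) (hA : IsCompact A) (hc : IsPreconnected Aᶜ)
    (y : List (Circle × S3) → ZMod 3) (hy : Coc A 4 y) :
    ∃ c : List (Circle × S3) → ZMod 3, Coc univ 4 c ∧ Cob A 4 (c - y) := by
  by_contra hn
  have hn' : ¬ Ext A y univ := hn
  have hAA : Ext A y A := ⟨y, hy, by rw [sub_self]; exact Nl.zero.cob⟩
  obtain ⟨M, hM1, hM2, hM3, hmin⟩ := exists_min hn'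
  have hop : ∀ p ∈ M, p ∉ A → p ∈ interior M := by
    intro p hp hpA
    rw [mem_interior_iff_mem_nhds]
    by_contra hnb
    obtain ⟨R, hR, hb, hW⟩ := exists_ball p Aᶜ hA.isClosed.isOpen_compl hpA
    set φ := chX p with hφ
    have hop : IsOpen (oB φ (φ p) R) := oB_open hb
    have hpO : p ∈ oB φ (φ p) R :=
      ⟨φ p, Metric.mem_ball_self hR, φ.left_inv (mem_chX p)⟩
    have : ¬ oB φ (φ p) R ⊆ M := fun h => hnb (Filter.mem_of_superset (hop.mem_nhds hpO) h)
    obtain ⟨r, hr, hrM⟩ := not_subset.1 this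
    obtain ⟨x, hx, rfl⟩ := hr
    set ρ := dist x (φ p) with hρ
    have hρR : ρ < R := hx
    have hρ0 : 0 < ρ := by
      rcases eq_or_lt_of_le (dist_nonneg : 0 ≤ dist x (φ p)) with h | h
      · exfalso
        have : x = φ p := dist_eq_zero.1 h.symm
        rw [this, φ.left_inv (mem_chX p)] at hrM
        exact hrM hp
      · exact h
    have hb' : Metric.closedBall (φ p) ρ ⊆ φ.target :=
      (Metric.closedBall_subset_closedBall hρR.le).trans hb
    have hOA : ∀ z ∈ oB φ (φ p) ρ, z ∉ A := by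
      rintro _ ⟨z, hz, rfl⟩
      exact hW ⟨z, Metric.ball_subset_closedBall ((Metric.ball_subset_ball hρR.le) hz), rfl⟩
    have hA' : A ⊆ M \ oB φ (φ p) ρ := fun z hz => ⟨hM2 hz, fun h => hOA z h hz⟩
    obtain ⟨c, hc1, hc2⟩ := hmin (M \ oB φ (φ p) ρ) (hM1.diff (oB_open hb')) hA'
      diff_subset (by
        intro h
        have : p ∈ M \ oB φ (φ p) ρ := by rw [h]; exact hp
        exact this.2 ⟨φ p, Metric.mem_ball_self hρ0, φ.left_inv (mem_chX p)⟩)
    apply hM3
    refine fill hb' hM1 hA' hc1 hc2 ?_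
    have hr' : φ.symm x ∈ sB φ (φ p) ρ := ⟨x, rfl, rfl⟩
    refine sB_proper hρ0 hb' (hM1.inter (sB_compact hb')) inter_subset_right hr'
      (fun h => hrM h.1) c (hc1.mono ?_)
    rw [← cB_diff hb']
    rintro z ⟨h1, h2⟩
    exact ⟨h1, h2.2⟩
  have hMu : M = univ := by
    by_contra hMn
    have hne : M ≠ A := fun h => hM3 (h ▸ hAA)
    obtain ⟨p, hp, hpA⟩ : ∃ p ∈ M, p ∉ A := by
      by_contra h
      push Not at h
      exact hne (subset_antisymm h hM2)
    obtain ⟨q, hq⟩ := (ne_univ_iff_exists_notMem _).1 hMn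
    obtain ⟨z, hz1, hz2, hz3⟩ := hc (interior M) Mᶜ isOpen_interior hM1.isClosed.isOpen_compl
      (by
        intro z hz
        by_cases h : z ∈ M
        · exact Or.inl (hop z h hz)
        · exact Or.inr h)
      ⟨p, hpA, hop p hp hpA⟩ ⟨q, fun h => hq (hM2 h), hq⟩
    exact hz3 (interior_subset hz2)
  subst hMu
  by_cases hAe : A = ∅
  · apply hM3
    refine ⟨0, ?_, ?_⟩
    · unfold Coc
      rw [d_zero]
      exact Nl.zero
    · rw [hAe]
      refine ⟨0, 1, one_pos, fun l hl hs => ?_⟩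
      cases l with
      | nil => simp at hl
      | cons x l => exact absurd (hs.1 x (by simp)) (notMem_empty x)
  by_cases hAu : A = univ
  · rw [hAu] at hAA hM3
    exact hM3 hAA
  obtain ⟨p, hp⟩ := (ne_univ_iff_exists_notMem _).1 hAu
  obtain ⟨R, hR, hb, hW⟩ := exists_ball p Aᶜ hA.isClosed.isOpen_compl hp
  set φ := chX p with hφ
  have hpO : p ∈ oB φ (φ p) R := ⟨φ p, Metric.mem_ball_self hR, φ.left_inv (mem_chX p)⟩
  have hOA : ∀ z ∈ oB φ (φ p) R, z ∉ A := by
    rintro _ ⟨z, hz, rfl⟩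
    exact hW ⟨z, Metric.ball_subset_closedBall hz, rfl⟩
  have hA' : A ⊆ univ \ oB φ (φ p) R := fun z hz => ⟨trivial, fun h => hOA z h hz⟩
  have hne1 : univ \ oB φ (φ p) R ≠ univ := by
    intro h
    have : p ∈ univ \ oB φ (φ p) R := by rw [h]; trivial
    exact this.2 hpO
  obtain ⟨c, hc1, hc2⟩ := hmin (univ \ oB φ (φ p) R) (hM1.diff (oB_open hb)) hA' diff_subset hne1
  obtain ⟨g, hg⟩ := sB_gen hR hb
  have hsub : sB φ (φ p) R ⊆ univ \ oB φ (φ p) R := by
    rw [← cB_diff hb]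
    rintro z ⟨h1, h2⟩
    exact ⟨trivial, h2⟩
  obtain ⟨β, hβ⟩ := hg c (hc1.mono hsub)
  by_cases hβ0 : β = 0
  · apply hM3
    refine fill hb hM1 hA' hc1 hc2 ?_
    rw [univ_inter]
    rw [hβ0, zero_smul, sub_zero] at hβ
    exact hβ
  · apply X_ne5
    have k1 : (univ \ oB φ (φ p) R) ∪ cB φ (φ p) R = univ := by
      rw [eq_univ_iff_forall]
      intro x
      by_cases h : x ∈ oB φ (φ p) R
      · obtain ⟨z, hz, rfl⟩ := h
        exact Or.inr ⟨z, Metric.ball_subset_closedBall hz, rfl⟩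
      · exact Or.inl ⟨trivial, h⟩
    have k2 : (univ \ oB φ (φ p) R) ∩ cB φ (φ p) R = sB φ (φ p) R := by
      rw [← cB_diff hb]
      ext x
      simp only [mem_inter_iff, mem_diff, mem_univ, true_and]
      tauto
    have k3 : cB φ (φ p) R ≠ univ := by
      intro h
      obtain ⟨a, ha⟩ := nonempty_iff_ne_empty.2 hAe
      have : a ∈ cB φ (φ p) R := by rw [h]; trivial
      exact hW this ha
    rw [← k1]
    refine hv_glue (hM1.diff (oB_open hb)) (cB_compact hb)
      (X_proper _ (hM1.diff (oB_open hb)) hne1) (X_proper _ (cB_compact hb) k3) (y := c) hc1 ?_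
    rw [k2]
    intro c' hc'
    obtain ⟨γ, hγ⟩ := hg c' hc'
    obtain ⟨δ, hδ⟩ := inv_mul3 hβ0
    refine ⟨γ * δ, ?_⟩
    have h1 := hγ.sub (hβ.smul (γ * δ))
    have e : c' - γ • g - (γ * δ) • (c - β • g) = c' - (γ * δ) • c := by
      rw [smul_sub, smul_smul, mul_assoc, hδ, mul_one]
      abel
    rwa [e] at h1

end

end Pool.Agent.TH650.AS
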