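import Mathlib

/-!
# Quotients of solenoid complements (for MP_8e71ea_gt)

`σ(s, x) = (s², x/4 + L(s)/2)` on `Circle × V`; its attractor in the tube `‖x‖ < 3/2` is the Smale
solenoid `Sol L`; `Q L` is the quotient of `{‖x‖ < 3/2} ∖ Sol L` by the equivalence relation
generated by `p ~ σ(p)`. For `V = ℂ` this is a closed 3-manifold, for `V = ℂ × ℝ` a closed
4-manifold.
-/

set_option autoImplicit false

open scoped Manifold ContDiff Topology
open Set

namespace Pool.Agent.TH650.Emb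

noncomputable section

variable {V : Type} [NormedAddCommGroup V] [NormedSpace ℝ V]

/-- the contraction `σ(s, x) = (s², x/4 + L(s)/2)` -/
def sg (L : ℂ →ₗᵢ[ℝ] V) (p : Circle × V) : Circle × V :=
  (p.1 * p.1, (1 / 4 : ℝ) • p.2 + (1 / 2 : ℝ) • L (p.1 : ℂ))

/-- the open tube of radius `r` -/
def tube (V : Type) [NormedAddCommGroup V] (r : ℝ) : Set (Circle × V) := {p | ‖p.2‖ < r}

/-- the closed tube of radius `r` -/
def ctube (V : Type) [NormedAddCommGroup V] (r : ℝ) : Set (Circle × V) := {p | ‖p.2‖ ≤ r}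

/-- the boundary of the tube of radius `r` -/
def btube (V : Type) [NormedAddCommGroup V] (r : ℝ) : Set (Circle × V) := {p | ‖p.2‖ = r}

/-- the solenoid -/
def Sol (L : ℂ →ₗᵢ[ℝ] V) : Set (Circle × V) := ⋂ j : ℕ, (sg L)^[j] '' tube V (3 / 2)

/-- the complement of the solenoid in the tube -/
def Om (L : ℂ →ₗᵢ[ℝ] V) : Set (Circle × V) := tube V (3 / 2) \ Sol L

/-- the orbit relation of `σ` -/
def orel (L : ℂ →ₗᵢ[ℝ] V) : Setoid (Om L) where
  r p q := ∃ j k : ℕ, (sg L)^[j] p.1 = (sg L)^[k] q.1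
  iseqv := by
    refine ⟨fun p => ⟨0, 0, rfl⟩, fun ⟨j, k, h⟩ => ⟨k, j, h.symm⟩, ?_⟩
    rintro p q r ⟨j, k, h⟩ ⟨l, m, h'⟩
    refine ⟨l + j, k + m, ?_⟩
    rw [Function.iterate_add_apply, h, ← Function.iterate_add_apply, Nat.add_comm l k,
      Function.iterate_add_apply, h', ← Function.iterate_add_apply]

/-- the quotient manifold -/
def Q (L : ℂ →ₗᵢ[ℝ] V) : Type := Quotient (orel L)

instance (L : ℂ →ₗᵢ[ℝ] V) : TopologicalSpace (Q L) :=
  inferInstanceAs (TopologicalSpace (Quotient (orel L)))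

/-- the projection -/
def mk (L : ℂ →ₗᵢ[ℝ] V) (p : Om L) : Q L := Quotient.mk (orel L) p

/-- the closed region between the tube of radius 1 and its image -/
def Dom (L : ℂ →ₗᵢ[ℝ] V) : Set (Circle × V) := ctube V 1 \ sg L '' tube V 1

/-- the two linear isometries -/
def L2 : ℂ →ₗᵢ[ℝ] ℂ := LinearIsometry.id

/-- `z ↦ (z, 0)` -/
def L3 : ℂ →ₗᵢ[ℝ] ℂ × ℝ where
  toLinearMap := LinearMap.inl ℝ ℂ ℝ
  norm_map' z := by simp [Prod.norm_def]

/-- The closed 3-manifold -/
abbrev Y3 : Type := Q L2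

/-- The closed 4-manifold -/
abbrev X4 : Type := Q L3

/-- the covering `E → Circle × V` -/
def kap {m : ℕ} (A : EuclideanSpace ℝ (Fin m) ≃L[ℝ] ℝ × V) (e : EuclideanSpace ℝ (Fin m)) :
    Circle × V := (Circle.exp (A e).1, (A e).2)

/-- An oriented atlas: a charted space whose distinguished atlas has orientation preserving
coordinate changes. -/
def Oriented (m : ℕ) (M : Type) [TopologicalSpace M]
    [ChartedSpace (EuclideanSpace ℝ (Fin m)) M] : Prop :=
  ∀ e ∈ atlas (EuclideanSpace ℝ (Fin m)) M, ∀ e' ∈ atlas (EuclideanSpace ℝ (Fin m)) M,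
    ∀ x ∈ (e.symm.trans e').source, 0 < (fderiv ℝ (e.symm.trans e') x).det

end

end Pool.Agent.TH650.Emb
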