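import Pool.Agent.TH650.Emb.AS
import Pool.Agent.TH650.Emb.Defs

/-! Definitions: cup products with degree one classes, the classes of circle valued maps,
cyclic chains of copies of the fundamental domain. -/

set_option autoImplicit false

open Set

namespace Pool.Agent.TH650.AS

open Pool.Agent.Helper554.Smith Pool.Agent.TH650.Emb

noncomputable section

variable {Ω : Type}

/-- cup product with a degree one cochain (a function on lists of length 2) -/
def cup (a b : List Ω → ZMod 3) : List Ω → ZMod 3
  | x :: y :: l => a [x, y] * b (y :: l)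
  | _ => 0

/-- product with a degree zero cochain -/
def cup0 (f : Ω → ZMod 3) (b : List Ω → ZMod 3) : List Ω → ZMod 3
  | x :: l => f x * b (x :: l)
  | [] => 0

/-- the degree zero cochain of a function -/
def c0 (f : Ω → ZMod 3) : List Ω → ZMod 3
  | [x] => f x
  | _ => 0

/-- the cochain of a real function which is continuous modulo 1 -/
def wc (a : Ω → ℝ) : List Ω → ZMod 3
  | [x, y] => ((round (a y - a x) : ℤ) : ZMod 3)
  | _ => 0

/-- `a` is continuous modulo 1 on `K` -/
def CM [TopologicalSpace Ω] (K : Set Ω) (a : Ω → ℝ) : Prop :=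
  ContinuousOn (fun x => Circle.exp (2 * Real.pi * a x)) K

/-- the real function whose class is `s` -/
def aS (p : Circle × ℂ) : ℝ := Complex.arg (p.1 : ℂ) / (2 * Real.pi)

/-- the real function whose class is `z` -/
def aZ (p : Circle × ℂ) : ℝ := Complex.arg p.2 / (2 * Real.pi)

/-- the class of the first coordinate -/
def cS : List (Circle × ℂ) → ZMod 3 := wc aS

/-- the class of the second coordinate -/
def cZ : List (Circle × ℂ) → ZMod 3 := wc aZ

/-- the torus -/
abbrev TT : Set (Circle × ℂ) := btube ℂ 1

/-- the fundamental domain -/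
abbrev DD : Set (Circle × ℂ) := Dom L2

/-- `v` has the coordinates `(x, z)` on the torus, when pulled back by `F` -/
def Crd {Ω : Type} (F : Circle × ℂ → Ω) (v : List Ω → ZMod 3) (x z : ZMod 3) : Prop :=
  Cob TT 2 (pb F v - x • cS - z • cZ)

/-- a cyclic chain of copies of the fundamental domain `DD` in a metric space -/
structure Chain (Ω : Type) [MetricSpace Ω] (n : ℕ) where
  F : ZMod n → Circle × ℂ → Ω
  cont : ∀ i, ContinuousOn (F i) DD
  glue : ∀ i, ∀ p ∈ TT, F i (sg L2 p) = F (i + 1) p
  inj : ∀ i j, ∀ p ∈ DD, ∀ q ∈ DD, F i p = F j q → (i = j ∧ p = q) ∨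
    (j = i + 1 ∧ q ∈ TT ∧ p = sg L2 q) ∨ (i = j + 1 ∧ p ∈ TT ∧ q = sg L2 p)

/-- the union of the pieces of the chain -/
def Chain.A {Ω : Type} [MetricSpace Ω] {n : ℕ} (C : Chain Ω n) : Set Ω := ⋃ i, C.F i '' DD

end

end Pool.Agent.TH650.AS
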