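import Pool.Agent.TH650.Emb.Model

/-! `Y3` and `X4` are path connected. -/

set_option autoImplicit false

open scoped Manifold ContDiff Topology
open Set

namespace Pool.Agent.TH650.Emb

noncomputable section

section

variable {V : Type} [NormedAddCommGroup V] [NormedSpace ℝ V]

theorem mem_sg_tube (L : ℂ →ₗᵢ[ℝ] V) (p : Circle × V) :
    p ∈ sg L '' tube V 1 ↔ ∃ t : Circle, t * t = p.1 ∧ ‖p.2 - (1 / 2 : ℝ) • L (t : ℂ)‖ < 1 / 4 := by
  constructor
  · rintro ⟨q, hq, rfl⟩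
    refine ⟨q.1, rfl, ?_⟩
    have hq' : ‖q.2‖ < 1 := hq
    show ‖(1 / 4 : ℝ) • q.2 + (1 / 2 : ℝ) • L (q.1 : ℂ) - (1 / 2 : ℝ) • L (q.1 : ℂ)‖ < 1 / 4
    rw [add_sub_cancel_right, norm_smul]
    norm_num
    linarith
  · rintro ⟨t, h1, h2⟩
    refine ⟨(t, (4 : ℝ) • (p.2 - (1 / 2 : ℝ) • L (t : ℂ))), ?_, ?_⟩
    · show ‖(4 : ℝ) • (p.2 - (1 / 2 : ℝ) • L (t : ℂ))‖ < 1
      rw [norm_smul]
      norm_num at h2 ⊢
      linarith
    · apply Prod.ext
      · exact h1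
      · show (1 / 4 : ℝ) • ((4 : ℝ) • (p.2 - (1 / 2 : ℝ) • L (t : ℂ))) + (1 / 2 : ℝ) • L (t : ℂ) = p.2
        rw [smul_smul]
        norm_num

theorem exists_sqrt (s : Circle) : ∃ t : Circle, t * t = s := by
  refine ⟨Circle.exp (Complex.arg s / 2), ?_⟩
  rw [← Circle.exp_add, add_halves, Circle.exp_arg]

theorem pathConnected_circle : PathConnectedSpace Circle := by
  have h : Function.Surjective (Circle.exp : ℝ → Circle) := fun s => ⟨Complex.arg s, Circle.exp_arg s⟩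
  exact h.pathConnectedSpace Circle.exp.continuous

theorem btube_pc (hV : 1 < Module.rank ℝ V) : IsPathConnected (btube V 1) := by
  have h1 : IsPathConnected (Metric.sphere (0 : V) 1) := isPathConnected_sphere hV 0 zero_le_one
  have := pathConnected_circle
  have h2 : IsPathConnected (univ : Set Circle) := isPathConnected_univ
  have h3 : btube V 1 = univ ×ˢ Metric.sphere (0 : V) 1 := by
    ext p
    simp [btube]
  rw [h3]
  exact h2.prod h1

theorem btube_sub_Dom (L : ℂ →ₗᵢ[ℝ] V) : btube V 1 ⊆ Dom L := by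
  intro p hp
  have hp' : ‖p.2‖ = 1 := hp
  refine ⟨hp'.le, ?_⟩
  rintro ⟨q, hq, rfl⟩
  have h1 := norm_sg_le L q
  have h2 : ‖q.2‖ < 1 := hq
  linarith

theorem pc_of_join (L : ℂ →ₗᵢ[ℝ] V) (hV : 1 < Module.rank ℝ V)
    (h : ∀ p ∈ Dom L, ∃ q ∈ btube V 1, JoinedIn (Dom L) p q) : PathConnectedSpace (Q L) := by
  have hb := btube_pc (V := V) hV
  have h1 : IsPathConnected (Dom L) := by
    obtain ⟨b, hb1, hb2⟩ := hb
    refine ⟨b, btube_sub_Dom L hb1, ?_⟩
    intro p hp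
    obtain ⟨q, hq, hj⟩ := h p hp
    exact ((hb2 hq).mono (btube_sub_Dom L)).trans hj.symm
  have h2 : PathConnectedSpace (Dom L) := isPathConnected_iff_pathConnectedSpace.1 h1
  let q : Dom L → Q L := fun p => mk L ⟨p.1, Dom_sub_Om L p.2⟩
  have hq : Continuous q := (continuous_mk L).comp (continuous_subtype_val.subtype_mk _)
  have hs : Function.Surjective q := by
    intro y
    obtain ⟨p, hp, rfl⟩ := exists_Dom L y
    exact ⟨⟨p.1, hp⟩, rfl⟩
  exact hs.pathConnectedSpace hq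

end

/-- increasing the absolute value of a coordinate -/
theorem exists_path (b m : ℝ) (hm : |b| ≤ m) : ∃ f : ℝ → ℝ, Continuous f ∧ f 0 = b ∧ |f 1| = m ∧
    ∀ r ∈ Icc (0 : ℝ) 1, |b| ≤ |f r| ∧ |f r| ≤ m := by
  rcases le_total 0 b with hb | hb
  · rw [abs_of_nonneg hb] at hm ⊢
    refine ⟨fun r => (1 - r) * b + r * m, by fun_prop, by simp, by
      simp only [sub_self, zero_mul, one_mul, zero_add]
      exact abs_of_nonneg (hb.trans hm), ?_⟩
    rintro r ⟨h0, h1⟩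
    have e : 0 ≤ (1 - r) * b + r * m := by
      have := hb.trans hm
      have h2 : 0 ≤ 1 - r := by linarith
      positivity
    rw [abs_of_nonneg e]
    constructor <;> nlinarith
  · rw [abs_of_nonpos hb] at hm ⊢
    refine ⟨fun r => (1 - r) * b - r * m, by fun_prop, by simp, by
      simp only [sub_self, zero_mul, one_mul, zero_sub, abs_neg]
      exact abs_of_nonneg (by linarith), ?_⟩
    rintro r ⟨h0, h1⟩
    have e : (1 - r) * b - r * m ≤ 0 := by
      nlinarith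
    rw [abs_of_nonpos e]
    constructor <;> nlinarith

theorem rank_C : 1 < Module.rank ℝ ℂ := by
  rw [Complex.rank_real_complex]
  norm_num

theorem rank_CR : 1 < Module.rank ℝ (ℂ × ℝ) := by
  rw [rank_prod']
  rw [Complex.rank_real_complex, Module.rank_self]
  norm_num

theorem join_L2 (p : Circle × ℂ) (hp : p ∈ Dom L2) :
    ∃ q ∈ btube ℂ 1, JoinedIn (Dom L2) p q := by
  obtain ⟨t, ht⟩ := exists_sqrt p.1
  have ht0 : (t : ℂ) ≠ 0 := Circle.coe_ne_zero t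
  set y : ℂ := p.2 / t with hy
  have hyp : y * t = p.2 := div_mul_cancel₀ _ ht0
  have hn1 : ‖y‖ ≤ 1 := by
    rw [hy, norm_div, Circle.norm_coe, div_one]
    exact hp.1
  have hsq : y.re ^ 2 + y.im ^ 2 ≤ 1 := by
    have h1 : ‖y‖ ^ 2 = y.re ^ 2 + y.im ^ 2 := by
      rw [← Complex.normSq_eq_norm_sq, Complex.normSq_apply]; ring
    rw [← h1]
    exact pow_le_one₀ (norm_nonneg _) hn1
  have hm : |y.im| ≤ Real.sqrt (1 - y.re ^ 2) := by
    apply Real.abs_le_sqrt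
    linarith
  obtain ⟨f, hf1, hf2, hf3, hf4⟩ := exists_path y.im _ hm
  let γ : ℝ → Circle × ℂ := fun r => (p.1, ((y.re : ℂ) + (f r : ℂ) * Complex.I) * t)
  have hγ : Continuous γ := by
    have : Continuous fun r => (f r : ℂ) := Complex.continuous_ofReal.comp hf1
    fun_prop
  have hnorm : ∀ r, ‖((y.re : ℂ) + (f r : ℂ) * Complex.I) * t‖ ^ 2 = y.re ^ 2 + f r ^ 2 := by
    intro r
    rw [norm_mul, Circle.norm_coe, mul_one, ← Complex.normSq_eq_norm_sq, Complex.normSq_apply]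
    simp
    ring
  have hdist : ∀ (r c : ℝ), ‖((y.re : ℂ) + (f r : ℂ) * Complex.I) * t - (c : ℂ) * t‖ ^ 2 =
      (y.re - c) ^ 2 + f r ^ 2 := by
    intro r c
    rw [← sub_mul, norm_mul, Circle.norm_coe, mul_one, ← Complex.normSq_eq_norm_sq,
      Complex.normSq_apply]
    simp
    ring
  have h0 : γ 0 = p := by
    apply Prod.ext
    · rfl
    · show ((y.re : ℂ) + (f 0 : ℂ) * Complex.I) * t = p.2
      rw [hf2, Complex.re_add_im, hyp]
  have hfsq : ∀ r ∈ Icc (0 : ℝ) 1, y.im ^ 2 ≤ f r ^ 2 ∧ f r ^ 2 ≤ 1 - y.re ^ 2 := by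
    intro r hr
    obtain ⟨a1, a2⟩ := hf4 r hr
    constructor
    · exact sq_le_sq.2 a1
    · have h1 := sq_le_sq.2 (a2.trans (le_abs_self _))
      rwa [Real.sq_sqrt (by nlinarith [sq_nonneg y.im])] at h1
  refine ⟨γ 1, ?_, JoinedIn.ofLine hγ.continuousOn h0 rfl ?_⟩
  · show ‖((y.re : ℂ) + (f 1 : ℂ) * Complex.I) * t‖ = 1
    have h1 := hnorm 1
    have h2 : f 1 ^ 2 = 1 - y.re ^ 2 := by
      rw [← sq_abs, hf3, Real.sq_sqrt (by nlinarith [sq_nonneg y.im])]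
    rw [h2] at h1
    have h3 : ‖((y.re : ℂ) + (f 1 : ℂ) * Complex.I) * t‖ ^ 2 = 1 := by rw [h1]; ring
    exact (pow_eq_one_iff_of_nonneg (norm_nonneg _) two_ne_zero).1 h3
  · rintro _ ⟨r, hr, rfl⟩
    obtain ⟨a1, a2⟩ := hfsq r hr
    refine ⟨?_, ?_⟩
    · show ‖((y.re : ℂ) + (f r : ℂ) * Complex.I) * t‖ ≤ 1
      have h1 := hnorm r
      have h2 : ‖((y.re : ℂ) + (f r : ℂ) * Complex.I) * t‖ ^ 2 ≤ 1 ^ 2 := by rw [h1]; linarith
      exact (sq_le_sq₀ (norm_nonneg _) zero_le_one).1 h2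
    · rw [mem_sg_tube]
      rintro ⟨t', ht', hlt⟩
      -- the two square roots
      have hc : ∃ c : ℝ, (1 / 2 : ℝ) • L2 (t' : ℂ) = (c : ℂ) * t := by
        have h1 : t' * t' = t * t := by rw [ht']; exact ht.symm
        rcases circle_sq_eq h1 with rfl | rfl
        · exact ⟨1 / 2, by simp [L2]⟩
        · refine ⟨-(1 / 2), ?_⟩
          have e : ((-t : Circle) : ℂ) = -(t : ℂ) := rfl
          simp [L2, e]
      obtain ⟨c, hc⟩ := hc
      apply hp.2
      rw [mem_sg_tube]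
      refine ⟨t', ht', ?_⟩
      rw [hc] at hlt ⊢
      have e1 := hdist r c
      have e2 : ‖p.2 - (c : ℂ) * t‖ ^ 2 = (y.re - c) ^ 2 + y.im ^ 2 := by
        have := hdist 0 c
        rw [hf2, Complex.re_add_im, hyp] at this
        exact this
      have e3 : ‖p.2 - (c : ℂ) * t‖ ^ 2 ≤
          ‖((y.re : ℂ) + (f r : ℂ) * Complex.I) * t - (c : ℂ) * t‖ ^ 2 := by
        rw [e1, e2]
        linarith
      exact ((sq_le_sq₀ (norm_nonneg _) (norm_nonneg _)).1 e3).trans_lt hlt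

theorem join_L3 (p : Circle × (ℂ × ℝ)) (hp : p ∈ Dom L3) :
    ∃ q ∈ btube (ℂ × ℝ) 1, JoinedIn (Dom L3) p q := by
  have hp1 : ‖p.2‖ ≤ 1 := hp.1
  rw [Prod.norm_def, max_le_iff] at hp1
  obtain ⟨f, hf1, hf2, hf3, hf4⟩ := exists_path p.2.2 1 hp1.2
  let γ : ℝ → Circle × (ℂ × ℝ) := fun r => (p.1, (p.2.1, f r))
  have hγ : Continuous γ := by fun_prop
  have h0 : γ 0 = p := by
    show (p.1, (p.2.1, f 0)) = p
    rw [hf2]
  refine ⟨γ 1, ?_, JoinedIn.ofLine hγ.continuousOn h0 rfl ?_⟩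
  · show ‖(p.2.1, f 1)‖ = 1
    rw [Prod.norm_def, Real.norm_eq_abs, hf3]
    exact max_eq_right hp1.1
  · rintro _ ⟨r, hr, rfl⟩
    obtain ⟨a1, a2⟩ := hf4 r hr
    refine ⟨?_, ?_⟩
    · show ‖(p.2.1, f r)‖ ≤ 1
      rw [Prod.norm_def]
      exact max_le hp1.1 a2
    · rw [mem_sg_tube]
      rintro ⟨t', ht', hlt⟩
      apply hp.2
      rw [mem_sg_tube]
      refine ⟨t', ht', ?_⟩
      refine lt_of_le_of_lt ?_ hlt
      show ‖p.2 - (1 / 2 : ℝ) • L3 (t' : ℂ)‖ ≤ ‖((p.2.1, f r) : ℂ × ℝ) - (1 / 2 : ℝ) • L3 (t' : ℂ)‖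
      have e : ((1 / 2 : ℝ) • L3 (t' : ℂ)).2 = 0 := by simp [L3]
      rw [Prod.norm_def, Prod.norm_def]
      apply max_le_max
      · exact le_rfl
      · rw [Prod.snd_sub, Prod.snd_sub, e, sub_zero, sub_zero]
        exact a1

instance pathConnected_Y3 : PathConnectedSpace Y3 := pc_of_join L2 rank_C join_L2

instance pathConnected_X4 : PathConnectedSpace X4 := pc_of_join L3 rank_CR join_L3

end

end Pool.Agent.TH650.Emb
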