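import Pool.Agent.TH650.Emb.CDefs

/-! The region `W1 = tube 1 ∖ σ(ctube 1)` in `Circle × (ℂ × ℝ)`. -/

set_option autoImplicit false

open scoped Manifold ContDiff Topology
open Set

namespace Pool.Agent.TH650.Emb

open Pool.Agent.H904R2 (Ch IsCyc IsBdy RAcyc psh Pc)
open Pool.Agent.Helper922.HB.Sc (Sing sface sbd)

noncomputable section

/-- the open region -/
def W1 : Set (Circle × (ℂ × ℝ)) := tube (ℂ × ℝ) 1 \ sg L3 '' ctube (ℂ × ℝ) 1

/-- `ℝ³ ≃ ℂ × ℝ` -/
def vec (v : Fin 3 → ℝ) : ℂ × ℝ := (⟨v 0, v 1⟩, v 2)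

theorem vec_ne_zero (v : Pc 3) : vec v.1 ≠ 0 := by
  intro h
  apply v.2
  funext i
  simp only [vec, Prod.mk_eq_zero, Complex.ext_iff, Complex.zero_re, Complex.zero_im] at h
  fin_cases i
  · exact h.1.1
  · exact h.1.2
  · exact h.2

theorem continuous_vec : Continuous vec := by
  unfold vec
  refine Continuous.prodMk ?_ (by fun_prop)
  have h : (fun v : Fin 3 → ℝ => (⟨v 0, v 1⟩ : ℂ)) =
      fun v : Fin 3 → ℝ => ((v 0 : ℝ) : ℂ) + ((v 1 : ℝ) : ℂ) * Complex.I := by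
    funext v
    apply Complex.ext <;> simp
  rw [h]
  fun_prop

/-- the map `(s, v) ↦ (s, r v/‖v‖)` -/
def rmap (r : ℝ) : C(Circle × Pc 3, Circle × (ℂ × ℝ)) :=
  ⟨fun p => (p.1, (r / ‖vec p.2.1‖) • vec p.2.1), by
    have h2 : Continuous fun p : Circle × Pc 3 => vec p.2.1 :=
      continuous_vec.comp (continuous_subtype_val.comp continuous_snd)
    have h1 : Continuous fun p : Circle × Pc 3 => r / ‖vec p.2.1‖ :=
      continuous_const.div h2.norm (fun p => norm_ne_zero_iff.2 (vec_ne_zero p.2))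
    exact continuous_fst.prodMk (h1.smul h2)⟩

theorem continuous_sgL3 : Continuous (sg L3) := by
  unfold sg
  have h : Continuous fun p : Circle × (ℂ × ℝ) => L3 (p.1 : ℂ) :=
    L3.continuous.comp (continuous_subtype_val.comp continuous_fst)
  fun_prop

/-- `σ` as a continuous map -/
def sgC : C(Circle × (ℂ × ℝ), Circle × (ℂ × ℝ)) := ⟨sg L3, continuous_sgL3⟩

end

end Pool.Agent.TH650.Emb
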