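import Pool.Agent.TH650.Emb.Tr
import Pool.Agent.TH650.Emb.WDefs
import Pool.Agent.TH650.Emb.ModelPC

/-! Annuli in `Circle × (ℂ × ℝ)`. -/

set_option autoImplicit false

open Set

namespace Pool.Agent.TH650.MT

open Pool.Agent.Helper922.HB Pool.Agent.TH650.Emb
open Pool.Agent.H904R2 (Pc)

noncomputable section

/-- the ambient space -/
abbrev EE : Type := Circle × (ℂ × ℝ)
/-- the homotopy type of the annulus -/
abbrev TT : Type := Circle × Pc 3

/-- the annulus -/
def ann (a b : ℝ) : Set EE := {p | a < ‖p.2‖ ∧ ‖p.2‖ < b}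

theorem ann_open (a b : ℝ) : IsOpen (ann a b) := by
  have h : Continuous fun p : EE => ‖p.2‖ := by fun_prop
  exact (isOpen_lt continuous_const h).inter (isOpen_lt h continuous_const)

/-- inverse of `vec` -/
def unv (x : ℂ × ℝ) : Fin 3 → ℝ := ![x.1.re, x.1.im, x.2]

theorem vec_unv (x : ℂ × ℝ) : vec (unv x) = x := by
  unfold vec unv
  apply Prod.ext
  · apply Complex.ext <;> simp
  · simp

theorem unv_vec (v : Fin 3 → ℝ) : unv (vec v) = v := by
  funext i
  unfold vec unv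
  fin_cases i <;> rfl

theorem continuous_unv : Continuous unv := by
  unfold unv
  apply continuous_pi
  intro i
  fin_cases i
  · exact Complex.continuous_re.comp continuous_fst
  · exact Complex.continuous_im.comp continuous_fst
  · exact continuous_snd

theorem unv_ne {x : ℂ × ℝ} (h : x ≠ 0) : unv x ≠ 0 := by
  intro h0
  apply h
  rw [← vec_unv x, h0]
  unfold vec
  apply Prod.ext
  · apply Complex.ext <;> simp
  · simp

theorem vec_smul (c : ℝ) (v : Fin 3 → ℝ) : vec (c • v) = c • vec v := by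
  unfold vec
  apply Prod.ext
  · apply Complex.ext <;> simp
  · simp

theorem unv_smul (c : ℝ) (x : ℂ × ℝ) : unv (c • x) = c • unv x := by
  rw [← vec_unv x, ← vec_smul, unv_vec, unv_vec]

theorem norm_scale {x : ℂ × ℝ} (hx : x ≠ 0) {r : ℝ} (hr : 0 ≤ r) : ‖(r / ‖x‖) • x‖ = r := by
  have h := norm_pos_iff.2 hx
  rw [norm_smul, Real.norm_of_nonneg (by positivity)]
  field_simp

theorem norm_rmap {r : ℝ} (hr : 0 ≤ r) (p : TT) : ‖(rmap r p).2‖ = r :=
  norm_scale (vec_ne_zero p.2) hr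

theorem rmap_mem {a b r : ℝ} (ha : 0 ≤ a) (h1 : a < r) (h2 : r < b) (p : TT) :
    rmap r p ∈ ann a b := by
  have h := norm_rmap (ha.trans h1.le) p
  exact ⟨by rw [h]; exact h1, by rw [h]; exact h2⟩

/-- the map to the annulus -/
def rA {a b r : ℝ} (ha : 0 ≤ a) (h1 : a < r) (h2 : r < b) : C(TT, ann a b) :=
  cor (rmap r) (ann a b) (rmap_mem ha h1 h2)

theorem ann_ne {a b : ℝ} (ha : 0 ≤ a) (p : ann a b) : p.1.2 ≠ 0 := by
  intro h0
  have h := p.2.1
  rw [h0, norm_zero] at h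
  linarith

/-- the map back -/
def gA {a b : ℝ} (ha : 0 ≤ a) : C(ann a b, TT) :=
  ⟨fun p => (p.1.1, ⟨unv p.1.2, unv_ne (ann_ne ha p)⟩), by
    refine Continuous.prodMk (by fun_prop) (Continuous.subtype_mk ?_ _)
    exact continuous_unv.comp (continuous_snd.comp continuous_subtype_val)⟩

theorem ann_HE {a b r : ℝ} (ha : 0 ≤ a) (h1 : a < r) (h2 : r < b) : HE (rA ha h1 h2) := by
  have hr : 0 < r := lt_of_le_of_lt ha h1
  have hv : Continuous fun q : TT × unitInterval => vec q.1.2.1 :=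
    continuous_vec.comp (continuous_subtype_val.comp (continuous_snd.comp continuous_fst))
  have hu : Continuous fun q : TT × unitInterval => ((q.2 : unitInterval) : ℝ) :=
    continuous_subtype_val.comp continuous_snd
  have hu' : Continuous fun q : (ann a b) × unitInterval => ((q.2 : unitInterval) : ℝ) :=
    continuous_subtype_val.comp continuous_snd
  have hx : Continuous fun q : (ann a b) × unitInterval => q.1.1.2 := by fun_prop
  have hpos : ∀ q : TT × unitInterval, 0 < (1 - (q.2 : ℝ)) + q.2 * (r / ‖vec q.1.2.1‖) := by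
    intro q
    have h3 := norm_pos_iff.2 (vec_ne_zero q.1.2)
    have h4 : 0 < r / ‖vec q.1.2.1‖ := by positivity
    have h5 := q.2.2.1
    have h6 := q.2.2.2
    rcases eq_or_lt_of_le h6 with h7 | h7
    · rw [h7]; linarith
    · nlinarith
  refine HE_of_homotopyEquiv _ (gA ha)
    ⟨fun q => (q.1.1, ⟨((1 - (q.2 : ℝ)) + q.2 * (r / ‖vec q.1.2.1‖)) • q.1.2.1, ?_⟩), ?_⟩
    ⟨fun q => ⟨(q.1.1.1, ((1 - (q.2 : ℝ)) + q.2 * (r / ‖q.1.1.2‖)) • q.1.1.2), ?_⟩, ?_⟩ ?_ ?_ ?_ ?_
  · exact smul_ne_zero (hpos q).ne' q.1.2.2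
  · refine Continuous.prodMk (by fun_prop) (Continuous.subtype_mk ?_ _)
    refine Continuous.smul ((continuous_const.sub hu).add (hu.mul ?_)) (by fun_prop)
    exact continuous_const.div hv.norm fun q => norm_ne_zero_iff.2 (vec_ne_zero q.1.2)
  · have h3 := q.1.2.1
    have h4 := q.1.2.2
    have h5 := q.2.2.1
    have h6 := q.2.2.2
    have h7 : 0 < ‖q.1.1.2‖ := lt_of_le_of_lt ha h3
    have h8 : ‖((1 - (q.2 : ℝ)) + q.2 * (r / ‖q.1.1.2‖)) • q.1.1.2‖ =
        (1 - (q.2 : ℝ)) * ‖q.1.1.2‖ + q.2 * r := by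
      rw [norm_smul, Real.norm_of_nonneg]
      · field_simp
      · have : 0 ≤ r / ‖q.1.1.2‖ := by positivity
        nlinarith
    show a < ‖((1 - (q.2 : ℝ)) + q.2 * (r / ‖q.1.1.2‖)) • q.1.1.2‖ ∧
      ‖((1 - (q.2 : ℝ)) + q.2 * (r / ‖q.1.1.2‖)) • q.1.1.2‖ < b
    rw [h8]
    rcases eq_or_lt_of_le h6 with h9 | h9
    · rw [h9]; constructor <;> linarith
    · constructor <;> nlinarith
  · refine Continuous.subtype_mk (Continuous.prodMk (by fun_prop) ?_) _
    refine Continuous.smul ((continuous_const.sub hu').add (hu'.mul ?_)) hx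
    exact continuous_const.div hx.norm fun q => norm_ne_zero_iff.2 (ann_ne ha q.1)
  · intro x
    apply Prod.ext
    · rfl
    · apply Subtype.ext
      show ((1 - ((0 : unitInterval) : ℝ)) + ((0 : unitInterval) : ℝ) * (r / ‖vec x.2.1‖)) • x.2.1 =
        x.2.1
      simp
  · intro x
    apply Prod.ext
    · rfl
    · apply Subtype.ext
      show ((1 - ((1 : unitInterval) : ℝ)) + ((1 : unitInterval) : ℝ) * (r / ‖vec x.2.1‖)) • x.2.1 =
        unv ((r / ‖vec x.2.1‖) • vec x.2.1)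
      rw [unv_smul, unv_vec]
      simp
  · intro x
    apply Subtype.ext
    apply Prod.ext
    · rfl
    · show ((1 - ((0 : unitInterval) : ℝ)) + ((0 : unitInterval) : ℝ) * (r / ‖x.1.2‖)) • x.1.2 =
        x.1.2
      simp
  · intro x
    apply Subtype.ext
    apply Prod.ext
    · rfl
    · show ((1 - ((1 : unitInterval) : ℝ)) + ((1 : unitInterval) : ℝ) * (r / ‖x.1.2‖)) • x.1.2 =
        (r / ‖vec (unv x.1.2)‖) • vec (unv x.1.2)
      rw [vec_unv]
      simp

/-- the maps `rmap r`, `rmap r'` are homotopic in the annulus -/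
theorem ann_ho {a b r r' : ℝ} (ha : 0 ≤ a) (h1 : a < r) (h2 : r < b) (h1' : a < r') (h2' : r' < b)
    {n : ℕ} {t : Cn TT n} (ht : t ∈ Cyc TT n) :
    Ho (push (rA ha h1 h2) n t) (push (rA ha h1' h2') n t) := by
  have hv : Continuous fun q : TT × unitInterval => vec q.1.2.1 :=
    continuous_vec.comp (continuous_subtype_val.comp (continuous_snd.comp continuous_fst))
  have hu : Continuous fun q : TT × unitInterval => ((q.2 : unitInterval) : ℝ) :=
    continuous_subtype_val.comp continuous_snd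
  have hm : ∀ q : TT × unitInterval, (q.1.1, (((1 - (q.2 : ℝ)) * r + q.2 * r') /
      ‖vec q.1.2.1‖) • vec q.1.2.1) ∈ ann a b := by
    intro q
    have h5 := q.2.2.1
    have h6 := q.2.2.2
    have h7 : a < (1 - (q.2 : ℝ)) * r + q.2 * r' ∧ (1 - (q.2 : ℝ)) * r + q.2 * r' < b := by
      rcases eq_or_lt_of_le h6 with h9 | h9
      · rw [h9]; constructor <;> linarith
      · constructor <;> nlinarith
    have h8 := norm_scale (vec_ne_zero q.1.2) (ha.trans h7.1.le)
    exact ⟨by rw [h8]; exact h7.1, by rw [h8]; exact h7.2⟩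
  have hc : Continuous fun q : TT × unitInterval =>
      (⟨(q.1.1, (((1 - (q.2 : ℝ)) * r + q.2 * r') / ‖vec q.1.2.1‖) • vec q.1.2.1), hm q⟩ :
        ann a b) := by
    refine Continuous.subtype_mk (Continuous.prodMk (by fun_prop) ?_) _
    refine Continuous.smul (Continuous.div ?_ hv.norm fun q =>
      norm_ne_zero_iff.2 (vec_ne_zero q.1.2)) hv
    exact ((continuous_const.sub hu).mul continuous_const).add (hu.mul continuous_const)
  refine ho_homotopic ⟨_, hc⟩ _ _ ?_ ?_ ht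
  · intro x
    apply Subtype.ext
    apply Prod.ext
    · rfl
    · show (((1 - ((0 : unitInterval) : ℝ)) * r + ((0 : unitInterval) : ℝ) * r') / ‖vec x.2.1‖) •
        vec x.2.1 = (r / ‖vec x.2.1‖) • vec x.2.1
      simp
  · intro x
    apply Subtype.ext
    apply Prod.ext
    · rfl
    · show (((1 - ((1 : unitInterval) : ℝ)) * r + ((1 : unitInterval) : ℝ) * r') / ‖vec x.2.1‖) •
        vec x.2.1 = (r' / ‖vec x.2.1‖) • vec x.2.1
      simp

/-! ### homology of `TT` -/

theorem acyP1 : Acy (Pc 3) 1 := Pool.Agent.H904R2.pc_acyc 2 1 (by norm_num)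

theorem acyP3 (m : ℕ) : Acy (Pc 3) (m + 3) := Pool.Agent.H904R2.pc_acyc 2 (m + 3) (by omega)

theorem hzP : HZt (Pc 3) 2 (Pool.Agent.H904R2.fund 2) := by
  refine ⟨Pool.Agent.H904R2.fund_cyc 2, ?_, ?_⟩
  · intro z hz
    obtain ⟨a, ha⟩ := Pool.Agent.H904R2.pc_gen 2 z hz
    exact ⟨a, ha⟩
  · intro a ha
    obtain ⟨ω, h1, h2⟩ := Pool.Agent.H904R2.pc_coc 2
    obtain ⟨y, hy⟩ := ho_zero.1 ha
    have h3 := Pool.Agent.H904R2.Sph.evm_sbd h1 y
    have h4 : Pool.Agent.Helper922.HB.Sc.sbd (Pc 3) 2 y = a • Pool.Agent.H904R2.fund 2 := hy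
    rw [h4, map_smul, h2] at h3
    simpa using h3

instance pathConnected_P3 : PathConnectedSpace (Pc 3) := by
  have h := isPathConnected_compl_singleton_of_one_lt_rank (E := Fin 3 → ℝ) (by simp) 0
  have h2 := isPathConnected_iff_pathConnectedSpace.1 h
  exact h2

/-- generator of the third homology of `TT` -/
def top3 : Cn TT 3 := XX (Pool.Agent.H904R2.fund 2) lam

theorem hzT3 : HZt TT 3 top3 := top_HZt (acyP3 0) hzP

theorem acyT4 (m : ℕ) : Acy TT (m + 4) := circ_acy (acyP3 (m + 1)) (acyP3 m)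

theorem tr_two' {z : Cn TT 2} (hz : z ∈ Cyc _ 2) : Ho (tr (Pc 3) 2 z) ((2 : ℤ) • z) :=
  tr_two hzP acyP1 hz

theorem tr_one' {z : Cn TT 3} (hz : z ∈ Cyc _ 3) : Ho (tr (Pc 3) 3 z) z :=
  tr_one (acyP3 0) hzP hz

end

end Pool.Agent.TH650.MT
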