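import Pool.Agent.TH650.Emb.GDefs

/-! Definitions on `Circle × V`. -/

set_option autoImplicit false

open scoped Manifold ContDiff Topology
open Set

namespace Pool.Agent.TH650.Emb

open Pool.Agent.H904R2 (Ch IsCyc IsBdy RAcyc psh Pc)
open Pool.Agent.Helper922.HB.Sc (Sing sface sbd)

noncomputable section

/-- the slice `v ↦ (c, v)` -/
def csl (V : Type) [TopologicalSpace V] (c : Circle) : C(V, Circle × V) :=
  ⟨fun v => (c, v), by fun_prop⟩

/-- squaring -/
def csq : C(Circle, Circle) := ⟨fun s => s * s, by fun_prop⟩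

/-- the simplex `x ↦ (c * exp(θ(x)/2), τ(x))` -/
def halfS {Z : Type} [TopologicalSpace Z] {m : ℕ} (c : Circle)
    (θ : C(stdSimplex ℝ (Fin (m + 1)), ℝ)) (τ : Sing Z m) : Sing (Circle × Z) m :=
  ⟨fun x => (c * Circle.exp (θ x / 2), τ x), by fun_prop⟩

end

end Pool.Agent.TH650.Emb
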