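import Pool.Agent.TH650.Emb.AS3

/-! Cohomology mod 3 of `Circle × P` for a compact subset `P` of a metric space. -/

set_option autoImplicit false

open Set

namespace Pool.Agent.TH650.AS

open Pool.Agent.Helper554.Smith Pool.Agent.TH650.Emb

noncomputable section

variable {Z : Type} [MetricSpace Z]

/-! ### variants of the generator lemmas -/

theorem Cyc.coc1' {Ω : Type} [MetricSpace Ω] {C1 C2 Da Db : Set Ω} {ζ : List Ω → ZMod 3}
    {f1 f2 : Ω → ZMod 3} {ε : ZMod 3}
    (h : Cyc C1 C2 Da Db ζ f1 f2 ε) (hζ : Coc (C1 ∪ C2) 2 ζ) (ga : HV Da 1) (gb : HV Db 1)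
    (x : List Ω → ZMod 3) (hx : Coc (C1 ∪ C2) 2 x) (hx1 : Cob C1 2 x) (hx2 : Cob C2 2 x) :
    ∃ μ : ZMod 3, Cob (C1 ∪ C2) 2 (x - μ • ζ) := by
  obtain ⟨g1, hg1⟩ := hx1
  obtain ⟨g2, hg2⟩ := hx2
  have hI : Coc (C1 ∩ C2) 1 (g1 - g2) :=
    coc_two (hg1.mono inter_subset_left) (hg2.mono inter_subset_right)
  rw [h.inter] at hI
  obtain ⟨a, ha⟩ := ga _ (hI.mono subset_union_left)
  obtain ⟨b, hb⟩ := gb _ (hI.mono subset_union_right)
  have ha' : ∀ z ∈ Da, g1 [z] - g2 [z] = a [] := by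
    intro z hz
    obtain ⟨e, he, h'⟩ := ha
    have := h' [z] rfl ⟨by simpa using hz, by simpa using he⟩
    simp only [Pi.sub_apply, d_cons, d_nil, sub_zero] at this
    linear_combination this
  have hb' : ∀ z ∈ Db, g1 [z] - g2 [z] = b [] := by
    intro z hz
    obtain ⟨e, he, h'⟩ := hb
    have := h' [z] rfl ⟨by simpa using hz, by simpa using he⟩
    simp only [Pi.sub_apply, d_cons, d_nil, sub_zero] at this
    linear_combination this
  obtain ⟨δ, hδ⟩ := inv_mul3 h.unit
  set μ : ZMod 3 := δ * (a [] - b []) with hμ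
  set k1 : List Ω → ZMod 3 := c0 (fun _ => b []) with hk1
  have hdk : Nl C1 2 (d k1) := ⟨1, one_pos, fun l hl hs => by
    obtain ⟨x, z, l', rfl, hl'⟩ := list2 (q := 0) hl
    obtain rfl := List.length_eq_zero_iff.1 hl'
    rw [hk1, d_c0, sub_self]⟩
  refine ⟨μ, MV.mv_glue C1 C2 h.c1 h.c2 1 _ (g1 - k1 - μ • c0 f1)
    (g2 - μ • c0 f2) (hx.sub (hζ.smul μ)) ?_ ?_ ?_⟩
  · have e : x - μ • ζ - d (g1 - k1 - μ • c0 f1) =
        (x - d g1) + d k1 - μ • (ζ - d (c0 f1)) := by
      rw [d_sub, d_sub, d_smul, smul_sub]; abel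
    rw [e]
    exact (hg1.add hdk).sub (h.t1.smul μ)
  · have e : x - μ • ζ - d (g2 - μ • c0 f2) =
        (x - d g2) - μ • (ζ - d (c0 f2)) := by
      rw [d_sub, d_smul, smul_sub]; abel
    rw [e]
    exact hg2.sub (h.t2.smul μ)
  · rw [h.inter]
    apply Nl.cob
    refine ⟨1, one_pos, fun l hl hs => ?_⟩
    match l, hl with
    | [z], _ =>
      simp only [Pi.sub_apply, Pi.smul_apply, smul_eq_mul, c0, hk1]
      rcases hs.1 z (by simp) with hz | hz
      · have h1 := ha' z hz
        have h2 := h.ha z hz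
        have h5 : μ * (f1 z - f2 z) = a [] - b [] := by
          rw [h2, hμ]
          linear_combination (a [] - b []) * hδ
        linear_combination h1 - h5
      · have h1 := hb' z hz
        have h2 := h.hb z hz
        linear_combination h1 - μ * h2

theorem hv_zero {Ω : Type} [MetricSpace Ω] {K : Set Ω} (h : K.Nonempty) : HV K 0 := by
  obtain ⟨x, hx⟩ := h
  rintro c ⟨ε, hε, hc⟩
  refine ⟨0, ?_⟩
  rw [nl_zero_iff, d_zero, sub_zero]
  have := hc [x] rfl ⟨by simpa using hx, by simpa using hε⟩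
  rwa [d_cons, d_nil, sub_zero] at this

/-! ### arcs -/

/-- the upper closed arc -/
def I1 : Set Circle := {s | 0 ≤ (s : ℂ).im}
/-- the lower closed arc -/
def I2 : Set Circle := {s | (s : ℂ).im ≤ 0}

/-- the angle on the upper arc -/
def ang (s : Circle) : ℝ := Real.arccos (s : ℂ).re

theorem continuous_ang : Continuous ang :=
  Real.continuous_arccos.comp (Complex.continuous_re.comp continuous_circle_coe)

theorem arg_I1 {s : Circle} (hs : s ∈ I1) : Complex.arg s = ang s := by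
  rw [Complex.arg_of_im_nonneg_of_ne_zero hs (Circle.coe_ne_zero s), Circle.norm_coe, div_one]
  rfl

theorem im_zero {s : Circle} (hs : (s : ℂ).im = 0) : s = 1 ∨ s = -1 := by
  have h1 : (s : ℂ).re * (s : ℂ).re + (s : ℂ).im * (s : ℂ).im = 1 := by
    rw [← Complex.normSq_apply]
    exact Circle.normSq_coe s
  rw [hs, mul_zero, add_zero] at h1
  rcases mul_self_eq_one_iff.1 h1 with h | h
  · left
    ext
    apply Complex.ext
    · simpa using h
    · simpa using hs
  · right
    ext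
    apply Complex.ext
    · simpa using h
    · simpa using hs

theorem arg_neg_one' : Complex.arg ((-1 : Circle) : ℂ) = Real.pi := by
  have : ((-1 : Circle) : ℂ) = -1 := by simp
  rw [this, Complex.arg_neg_one]

theorem ang_neg_one : ang (-1) = Real.pi := by
  rw [← arg_I1 (by simp [I1]), arg_neg_one']

theorem ang_one : ang 1 = 0 := by
  rw [← arg_I1 (by simp [I1])]
  simp

open Classical in
/-- the integer correction on the lower arc -/
def m2 (s : Circle) : ℤ := if s = -1 then 1 else 0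

theorem arg_I2 {s : Circle} (hs : s ∈ I2) :
    Complex.arg s / (2 * Real.pi) = - ang s / (2 * Real.pi) + m2 s := by
  have hpi : (2 * Real.pi) ≠ 0 := by positivity
  unfold m2
  by_cases h : s = -1
  · subst h
    rw [if_pos rfl, ang_neg_one, arg_neg_one']
    field_simp
    push_cast
    ring
  · rw [if_neg h]
    rcases lt_or_eq_of_le (show (s : ℂ).im ≤ 0 from hs) with h1 | h1
    · rw [Complex.arg_of_im_neg h1, Circle.norm_coe, div_one]
      simp [ang]
    · rcases im_zero h1 with rfl | rfl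
      · rw [ang_one]; simp
      · exact absurd rfl h

theorem exp_ang_I1 {s : Circle} (hs : s ∈ I1) : Circle.exp (ang s) = s := by
  rw [← arg_I1 hs, Circle.exp_arg]

theorem exp_ang_I2 {s : Circle} (hs : s ∈ I2) : Circle.exp (- ang s) = s := by
  have h := arg_I2 hs
  have hpi : (2 * Real.pi) ≠ 0 := by positivity
  have h2 : - ang s = Complex.arg s - 2 * Real.pi * m2 s := by
    field_simp at h
    linarith
  rw [h2, Circle.exp_sub, Circle.exp_arg, Circle.exp_two_pi_mul_int, div_one]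

theorem isClosed_I1 : IsClosed I1 :=
  isClosed_le continuous_const (Complex.continuous_im.comp continuous_circle_coe)
theorem isClosed_I2 : IsClosed I2 :=
  isClosed_le (Complex.continuous_im.comp continuous_circle_coe) continuous_const

/-- the product of a subset of the circle with `P` -/
def cyl (J : Set Circle) (P : Set Z) : Set (Circle × Z) := {p | p.1 ∈ J ∧ p.2 ∈ P}

theorem cyl_eq (J : Set Circle) (P : Set Z) : cyl J P = J ×ˢ P := rfl

theorem cyl_compact {J : Set Circle} (hJ : IsClosed J) {P : Set Z} (hP : IsCompact P) :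
    IsCompact (cyl J P) := by
  rw [cyl_eq]
  exact hJ.isCompact.prod hP

theorem I_union : I1 ∪ I2 = univ := by
  ext s
  simp only [I1, I2, mem_union, mem_ofPred_eq, mem_univ, iff_true]
  exact le_total _ _

theorem I_inter : I1 ∩ I2 = {-1} ∪ {1} := by
  ext s
  simp only [I1, I2, mem_inter_iff, mem_ofPred_eq, mem_union, mem_singleton_iff]
  constructor
  · rintro ⟨h1, h2⟩
    rcases im_zero (le_antisymm h2 h1) with h | h
    · exact Or.inr h
    · exact Or.inl h
  · rintro (rfl | rfl)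
    · simp
    · simp

theorem cyl_union (P : Set Z) : cyl I1 P ∪ cyl I2 P = cyl univ P := by
  rw [cyl_eq, cyl_eq, cyl_eq, ← I_union, union_prod]

theorem cyl_inter (P : Set Z) : cyl I1 P ∩ cyl I2 P = cyl {-1} P ∪ cyl {1} P := by
  rw [cyl_eq, cyl_eq, cyl_eq, cyl_eq, ← union_prod, ← I_inter]
  ext p
  simp only [mem_inter_iff, mem_prod]
  tauto

theorem cyl_disj (P : Set Z) : Disjoint (cyl {-1} P) (cyl {1} P) := by
  rw [Set.disjoint_left]
  rintro p ⟨h1, _⟩ ⟨h2, _⟩
  rw [mem_singleton_iff] at h1 h2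
  rw [h1] at h2
  exact Circle.neg_ne_self 1 h2

/-- the contraction of an arc to `1` -/
theorem arc_pull {P : Set Z} (hP : IsCompact P) (J : Set Circle) (hJ : IsClosed J) (e : ℝ)
    (he : ∀ s ∈ J, Circle.exp (e * ang s) = s)
    (hJ' : ∀ s ∈ J, ∀ t ∈ Icc (0 : ℝ) 1, Circle.exp ((1 - t) * (e * ang s)) ∈ J) {q : ℕ}
    {c : List (Circle × Z) → ZMod 3} (hc : Coc (cyl J P) q c) :
    Cob (cyl J P) q (c - pb (fun p => ((1 : Circle), p.2)) c) := by
  have h := homotopy_pb (cyl_compact hJ hP)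
    (fun t (p : Circle × Z) => (Circle.exp ((1 - t) * (e * ang p.1)), p.2)) (K' := cyl J P) (by
      apply Continuous.continuousOn
      have h1 : Continuous fun z : ℝ × (Circle × Z) => ang z.2.1 :=
        continuous_ang.comp (continuous_fst.comp continuous_snd)
      have h2 : Continuous fun z : ℝ × (Circle × Z) => (1 - z.1) * (e * ang z.2.1) :=
        (continuous_const.sub continuous_fst).mul (continuous_const.mul h1)
      exact (Circle.exp.continuous.comp h2).prodMk (continuous_snd.comp continuous_snd))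
    (fun t ht p hp => ⟨hJ' _ hp.1 t ht, hp.2⟩) hc
  have h0 : Nl (cyl J P) q (pb (fun p : Circle × Z => (Circle.exp ((1 - 0) * (e * ang p.1)), p.2)) c
      - c) := by
    have := pb_congr (K := cyl J P) (φ := fun p : Circle × Z =>
      (Circle.exp ((1 - 0) * (e * ang p.1)), p.2)) (ψ := id) (by
        intro p hp
        simp only [sub_zero, one_mul, he p.1 hp.1, id]) q c
    have e2 : pb (id : Circle × Z → Circle × Z) c = c := by
      funext l
      show c (l.map id) = c l
      rw [List.map_id]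
    rwa [e2] at this
  have h1 : Nl (cyl J P) q (pb (fun p : Circle × Z => (Circle.exp ((1 - 1) * (e * ang p.1)), p.2)) c
      - pb (fun p => ((1 : Circle), p.2)) c) := by
    apply pb_congr
    intro p hp
    simp
  have h2 := (h.sub h1.cob).add h0.cob
  have e : pb (fun p : Circle × Z => (Circle.exp ((1 - 1) * (e * ang p.1)), p.2)) c -
      pb (fun p : Circle × Z => (Circle.exp ((1 - 0) * (e * ang p.1)), p.2)) c -
      (pb (fun p : Circle × Z => (Circle.exp ((1 - 1) * (e * ang p.1)), p.2)) c -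
        pb (fun p => ((1 : Circle), p.2)) c) +
      (pb (fun p : Circle × Z => (Circle.exp ((1 - 0) * (e * ang p.1)), p.2)) c - c) =
      -(c - pb (fun p => ((1 : Circle), p.2)) c) := by abel
  rw [e] at h2
  have := h2.neg
  rwa [neg_neg] at this

theorem one_mem_I1 : (1 : Circle) ∈ I1 := by simp [I1]
theorem one_mem_I2 : (1 : Circle) ∈ I2 := by simp [I2]

theorem arc1_pull {P : Set Z} (hP : IsCompact P) {q : ℕ}
    {c : List (Circle × Z) → ZMod 3} (hc : Coc (cyl I1 P) q c) :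
    Cob (cyl I1 P) q (c - pb (fun p => ((1 : Circle), p.2)) c) := by
  refine arc_pull hP I1 isClosed_I1 1 (fun s hs => by rw [one_mul]; exact exp_ang_I1 hs) ?_ hc
  intro s hs t ht
  have h0 : 0 ≤ ang s := Real.arccos_nonneg _
  have h1 : ang s ≤ Real.pi := Real.arccos_le_pi _
  show 0 ≤ (Circle.exp _ : ℂ).im
  rw [Circle.coe_exp, Complex.exp_ofReal_mul_I_im]
  apply Real.sin_nonneg_of_nonneg_of_le_pi
  · have := ht.2
    exact mul_nonneg (by linarith) (by linarith)
  · have := ht.1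
    nlinarith [ht.2]

theorem arc2_pull {P : Set Z} (hP : IsCompact P) {q : ℕ}
    {c : List (Circle × Z) → ZMod 3} (hc : Coc (cyl I2 P) q c) :
    Cob (cyl I2 P) q (c - pb (fun p => ((1 : Circle), p.2)) c) := by
  refine arc_pull hP I2 isClosed_I2 (-1)
    (fun s hs => by rw [neg_one_mul]; exact exp_ang_I2 hs) ?_ hc
  intro s hs t ht
  have h0 : 0 ≤ ang s := Real.arccos_nonneg _
  have h1 : ang s ≤ Real.pi := Real.arccos_le_pi _
  show (Circle.exp _ : ℂ).im ≤ 0
  rw [Circle.coe_exp, Complex.exp_ofReal_mul_I_im]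
  apply Real.sin_nonpos_of_nonpos_of_neg_pi_le
  · have := ht.2
    have : 0 ≤ (1 - t) * ang s := mul_nonneg (by linarith) h0
    linarith
  · have := ht.1
    nlinarith [ht.2]

/-- the two arcs -/
def IsArc (J : Set Circle) : Prop := J = I1 ∨ J = I2

theorem IsArc.closed {J : Set Circle} (h : IsArc J) : IsClosed J := by
  rcases h with rfl | rfl
  · exact isClosed_I1
  · exact isClosed_I2

theorem IsArc.one {J : Set Circle} (h : IsArc J) : (1 : Circle) ∈ J := by
  rcases h with rfl | rfl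
  · exact one_mem_I1
  · exact one_mem_I2

theorem IsArc.pull {J : Set Circle} (h : IsArc J) {P : Set Z} (hP : IsCompact P) {q : ℕ}
    {c : List (Circle × Z) → ZMod 3} (hc : Coc (cyl J P) q c) :
    Cob (cyl J P) q (c - pb (fun p => ((1 : Circle), p.2)) c) := by
  rcases h with rfl | rfl
  · exact arc1_pull hP hc
  · exact arc2_pull hP hc

theorem pb_pb {A B C : Type} (f : A → B) (g : B → C) (c : List C → ZMod 3) :
    pb f (pb g c) = pb (g ∘ f) c := by
  funext l
  simp only [pb, List.map_map]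

theorem pb_sub' {A B : Type} (f : A → B) (c c' : List B → ZMod 3) :
    pb f (c - c') = pb f c - pb f c' := rfl

theorem pb_smul' {A B : Type} (f : A → B) (x : ZMod 3) (c : List B → ZMod 3) :
    pb f (x • c) = x • pb f c := rfl

theorem slice_coc {J : Set Circle} (hJ : (1 : Circle) ∈ J) {P : Set Z} (hP : IsCompact P) {q : ℕ}
    {c : List (Circle × Z) → ZMod 3} (hc : Coc (cyl J P) q c) :
    Coc P q (pb (fun z => ((1 : Circle), z)) c) :=
  Coc_pb (K' := cyl J P) hP (Continuous.continuousOn (continuous_const.prodMk continuous_id))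
    (fun _ hz => ⟨hJ, hz⟩) hc

theorem snd_cob {J : Set Circle} (hJ : IsClosed J) {P : Set Z} (hP : IsCompact P) {q : ℕ}
    {c : List Z → ZMod 3} (hc : Cob P q c) : Cob (cyl J P) q (pb Prod.snd c) :=
  Cob_pb (cyl_compact hJ hP) continuous_snd.continuousOn (fun _ hp => hp.2) hc

theorem snd_coc {J : Set Circle} (hJ : IsClosed J) {P : Set Z} (hP : IsCompact P) {q : ℕ}
    {c : List Z → ZMod 3} (hc : Coc P q c) : Coc (cyl J P) q (pb Prod.snd c) :=
  Coc_pb (cyl_compact hJ hP) continuous_snd.continuousOn (fun _ hp => hp.2) hc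

theorem arc_hv {J : Set Circle} (h : IsArc J) {P : Set Z} (hP : IsCompact P) {q : ℕ}
    (hv : HV P q) : HV (cyl J P) q := by
  intro c hc
  have h1 := snd_cob h.closed hP (hv _ (slice_coc h.one hP hc))
  have h2 := (h.pull hP hc).add h1
  rw [pb_pb] at h2
  have e : ((fun z => ((1 : Circle), z)) ∘ (Prod.snd : Circle × Z → Z)) =
      fun p => ((1 : Circle), p.2) := rfl
  rw [e, sub_add_cancel] at h2
  exact h2

theorem arc_gen {J : Set Circle} (h : IsArc J) {P : Set Z} (hP : IsCompact P) {q : ℕ}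
    {y : List Z → ZMod 3} (hv : ∀ c, Coc P q c → ∃ α : ZMod 3, Cob P q (c - α • y))
    (c : List (Circle × Z) → ZMod 3) (hc : Coc (cyl J P) q c) :
    ∃ α : ZMod 3, Cob (cyl J P) q (c - α • pb Prod.snd y) := by
  obtain ⟨α, hα⟩ := hv _ (slice_coc h.one hP hc)
  refine ⟨α, ?_⟩
  have h1 := snd_cob h.closed hP hα
  have h2 := (h.pull hP hc).add h1
  rw [pb_sub', pb_pb, pb_smul'] at h2
  have e : ((fun z => ((1 : Circle), z)) ∘ (Prod.snd : Circle × Z → Z)) =
      fun p => ((1 : Circle), p.2) := rfl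
  rw [e, sub_add_sub_cancel] at h2
  exact h2

theorem sl_homeo (P : Set Z) (s : Circle) : (fun z : Z => (s, z)) '' P = cyl {s} P := by
  ext p
  obtain ⟨a, b⟩ := p
  simp only [mem_image, Prod.mk.injEq, cyl, mem_singleton_iff, mem_ofPred_eq]
  constructor
  · rintro ⟨x, hx, rfl, rfl⟩
    exact ⟨rfl, hx⟩
  · rintro ⟨rfl, h⟩
    exact ⟨b, h, rfl, rfl⟩

theorem sl_cont (P : Set Z) (s : Circle) : ContinuousOn (fun z : Z => (s, z)) P :=
  Continuous.continuousOn (continuous_const.prodMk continuous_id)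

theorem sl_inj (P : Set Z) (s : Circle) : InjOn (fun z : Z => (s, z)) P := by
  intro x _ y _ h
  exact (Prod.mk.injEq _ _ _ _ ▸ h).2

theorem pb_sl_snd (s : Circle) (y : List Z → ZMod 3) :
    pb (fun z : Z => (s, z)) (pb Prod.snd y) = y := by
  rw [pb_pb]
  funext l
  show y (l.map id) = y l
  rw [List.map_id]

theorem sl_hv {P : Set Z} (hP : IsCompact P) (s : Circle) {q : ℕ} (hv : HV P q) :
    HV (cyl {s} P) q :=
  HV_of_homeo hP (sl_cont P s) (sl_homeo P s) (sl_inj P s) hv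

theorem sl_gen {P : Set Z} (hP : IsCompact P) (s : Circle) {q : ℕ} {y : List Z → ZMod 3}
    (hv : ∀ c, Coc P q c → ∃ α : ZMod 3, Cob P q (c - α • y))
    (c : List (Circle × Z) → ZMod 3) (hc : Coc (cyl {s} P) q c) :
    ∃ α : ZMod 3, Cob (cyl {s} P) q (c - α • pb Prod.snd y) := by
  obtain ⟨α, hα⟩ := hv _ (Coc_pb hP (sl_cont P s) (sl_homeo P s ▸ mapsTo_image _ _) hc)
  refine ⟨α, Cob_of_pb hP (sl_cont P s) (sl_homeo P s) (sl_inj P s) ?_⟩
  rw [pb_sub', pb_smul', pb_sl_snd]
  exact hα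

theorem sl_ne {P : Set Z} (hP : IsCompact P) (s : Circle) {q : ℕ} {y : List Z → ZMod 3}
    (hn : ¬ Cob P q y) : ¬ Cob (cyl {s} P) q (pb Prod.snd y) := by
  intro h
  have := Cob_pb hP (sl_cont P s) (sl_homeo P s ▸ mapsTo_image _ _) h
  rw [pb_sl_snd] at this
  exact hn this

/-! ### the cyclic decomposition of `Circle × P` -/

/-- the angle of the first coordinate -/
def a1 (p : Circle × Z) : ℝ := Complex.arg (p.1 : ℂ) / (2 * Real.pi)

theorem CM_a1 (K : Set (Circle × Z)) : CM K (a1 (Z := Z)) := by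
  unfold CM
  have h : (fun p : Circle × Z => Circle.exp (2 * Real.pi * a1 p)) = fun p => p.1 := by
    funext p
    unfold a1
    rw [mul_div_cancel₀ _ (by positivity : (2 * Real.pi : ℝ) ≠ 0)]
    exact Circle.exp_arg p.1
  rw [h]
  exact continuous_fst.continuousOn

theorem cyc_cyl {P : Set Z} (hP : IsCompact P) :
    Cyc (cyl I1 P) (cyl I2 P) (cyl {-1} P) (cyl {1} P) (wc (a1 (Z := Z))) (fun _ => 0)
      (fun p => (m2 p.1 : ZMod 3)) (-1) where
  c1 := cyl_compact isClosed_I1 hP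
  c2 := cyl_compact isClosed_I2 hP
  ca := cyl_compact isClosed_singleton hP
  cb := cyl_compact isClosed_singleton hP
  inter := cyl_inter P
  disj := cyl_disj P
  t1 := by
    have := wc_lift (cyl_compact isClosed_I1 hP) (a := a1 (Z := Z))
      (φ := fun p => ang p.1 / (2 * Real.pi)) (fun _ => 0)
      ((continuous_ang.comp continuous_fst).div_const _).continuousOn (by
        intro p hp
        simp only [a1, arg_I1 hp.1, Int.cast_zero, add_zero])
    simpa using this
  t2 := by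
    exact wc_lift (cyl_compact isClosed_I2 hP) (a := a1 (Z := Z))
      (φ := fun p => - ang p.1 / (2 * Real.pi)) (fun p => m2 p.1)
      ((continuous_ang.comp continuous_fst).neg.div_const _).continuousOn (by
        intro p hp
        exact arg_I2 hp.1)
  unit := by decide
  ha := by
    rintro p ⟨h1, _⟩
    rw [mem_singleton_iff] at h1
    simp [m2, h1]
  hb := by
    rintro p ⟨h1, _⟩
    rw [mem_singleton_iff] at h1
    have : (1 : Circle) ≠ -1 := fun h => Circle.neg_ne_self 1 h.symm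
    simp [m2, h1, this]

/-- vanishing -/
theorem cp_hv {P : Set Z} (hP : IsCompact P) {q : ℕ} (h1 : HV P (q + 2)) (h2 : HV P (q + 3)) :
    HV (cyl univ P) (q + 3) := by
  have h := cyc_cyl hP
  intro c hc
  rw [← cyl_union] at hc ⊢
  refine mv h.c1 h.c2 ?_ hc (arc_hv (Or.inl rfl) hP h2 c (hc.mono subset_union_left))
    (arc_hv (Or.inr rfl) hP h2 c (hc.mono subset_union_right))
  rw [h.inter]
  intro c' hc'
  exact Cob_union_disj h.ca h.cb h.disj (by omega)
    (sl_hv hP _ h1 c' (hc'.mono subset_union_left))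
    (sl_hv hP _ h1 c' (hc'.mono subset_union_right))

/-- connectedness -/
theorem cp_hv1 {P : Set Z} (hP : IsCompact P) (hne : P.Nonempty) (h1 : HV P 1) :
    HV (cyl univ P) 1 := by
  have h := cyc_cyl hP
  intro c hc
  rw [← cyl_union] at hc ⊢
  refine mv h.c1 h.c2 (hv_zero ?_) hc (arc_hv (Or.inl rfl) hP h1 c (hc.mono subset_union_left))
    (arc_hv (Or.inr rfl) hP h1 c (hc.mono subset_union_right))
  obtain ⟨z, hz⟩ := hne
  exact ⟨(1, z), ⟨one_mem_I1, hz⟩, ⟨one_mem_I2, hz⟩⟩

theorem smul_cancel {Ω : Type} [MetricSpace Ω] {D : Set Ω} {q : ℕ} {y : List Ω → ZMod 3}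
    {t : ZMod 3} (hn : ¬ Cob D q y) (ht : Cob D q (t • y)) : t = 0 := by
  by_contra h0
  obtain ⟨δ, hδ⟩ := inv_mul3 h0
  apply hn
  have := ht.smul δ
  rwa [smul_smul, hδ, one_smul] at this

/-- the two coefficients on the arcs agree -/
theorem cp_coeff {P : Set Z} (hP : IsCompact P) {q : ℕ} {y : List Z → ZMod 3}
    (hv : ∀ c, Coc P q c → ∃ α : ZMod 3, Cob P q (c - α • y)) (hn : ¬ Cob P q y)
    (c : List (Circle × Z) → ZMod 3) (hc : Coc (cyl univ P) q c) :
    ∃ α : ZMod 3, Cob (cyl I1 P) q (c - α • pb Prod.snd y) ∧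
      Cob (cyl I2 P) q (c - α • pb Prod.snd y) := by
  have h := cyc_cyl hP
  rw [← cyl_union] at hc
  obtain ⟨α, hα⟩ := arc_gen (Or.inl rfl) hP hv c (hc.mono subset_union_left)
  obtain ⟨β, hβ⟩ := arc_gen (Or.inr rfl) hP hv c (hc.mono subset_union_right)
  have hsub : cyl {1} P ⊆ cyl I1 P ∩ cyl I2 P := by
    rw [h.inter]; exact subset_union_right
  have h1 := (hβ.mono (hsub.trans inter_subset_right)).sub
    (hα.mono (hsub.trans inter_subset_left))
  have e : c - β • pb Prod.snd y - (c - α • pb Prod.snd y) =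
      (α - β) • pb (Prod.snd : Circle × Z → Z) y := by
    rw [sub_smul]; abel
  rw [e] at h1
  have h2 := sub_eq_zero.1 (smul_cancel (sl_ne hP 1 hn) h1)
  subst h2
  exact ⟨α, hα, hβ⟩

/-- generator pulled back from `P`, degree at least two -/
theorem cp_gen_y {P : Set Z} (hP : IsCompact P) {q : ℕ} {y : List Z → ZMod 3}
    (hy : Coc P (q + 3) y)
    (hv : ∀ c, Coc P (q + 3) c → ∃ α : ZMod 3, Cob P (q + 3) (c - α • y))
    (hn : ¬ Cob P (q + 3) y) (h2 : HV P (q + 2))
    (c : List (Circle × Z) → ZMod 3) (hc : Coc (cyl univ P) (q + 3) c) :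
    ∃ α : ZMod 3, Cob (cyl univ P) (q + 3) (c - α • pb Prod.snd y) := by
  have h := cyc_cyl hP
  obtain ⟨α, hα, hβ⟩ := cp_coeff hP hv hn c hc
  refine ⟨α, ?_⟩
  have hc' : Coc (cyl univ P) (q + 3) (c - α • pb Prod.snd y) :=
    hc.sub ((snd_coc isClosed_univ hP hy).smul α)
  rw [← cyl_union] at hc' ⊢
  refine mv h.c1 h.c2 ?_ hc' hα hβ
  rw [h.inter]
  intro c' hc'
  exact Cob_union_disj h.ca h.cb h.disj (by omega)
    (sl_hv hP _ h2 c' (hc'.mono subset_union_left))
    (sl_hv hP _ h2 c' (hc'.mono subset_union_right))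

/-- generators in degree one -/
theorem cp_gen1' {P : Set Z} (hP : IsCompact P) {y : List Z → ZMod 3} (hy : Coc P 2 y)
    (hv : ∀ c, Coc P 2 c → ∃ α : ZMod 3, Cob P 2 (c - α • y))
    (hn : ¬ Cob P 2 y) (h1 : HV P 1)
    (c : List (Circle × Z) → ZMod 3) (hc : Coc (cyl univ P) 2 c) :
    ∃ α β : ZMod 3, Cob (cyl univ P) 2 (c - α • wc a1 - β • pb Prod.snd y) := by
  have h := cyc_cyl hP
  obtain ⟨β, hα, hβ⟩ := cp_coeff hP hv hn c hc
  have hc' : Coc (cyl univ P) 2 (c - β • pb Prod.snd y) :=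
    hc.sub ((snd_coc isClosed_univ hP hy).smul β)
  have hζ : Coc (cyl univ P) 2 (wc (a1 (Z := Z))) :=
    coc_wc (cyl_compact isClosed_univ hP) (CM_a1 _)
  rw [← cyl_union] at hc' hζ ⊢
  obtain ⟨α, hα'⟩ := h.coc1' hζ (sl_hv hP _ h1) (sl_hv hP _ h1) _ hc' hα hβ
  refine ⟨α, β, ?_⟩
  have e : c - α • wc a1 - β • pb Prod.snd y =
      c - β • pb (Prod.snd : Circle × Z → Z) y - α • wc a1 := by abel
  rw [e]
  exact hα'

/-- generator in degree one, `H¹(P) = 0` -/
theorem cp_gen1 {P : Set Z} (hP : IsCompact P) (h2 : HV P 2) (h1 : HV P 1)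
    (c : List (Circle × Z) → ZMod 3) (hc : Coc (cyl univ P) 2 c) :
    ∃ α : ZMod 3, Cob (cyl univ P) 2 (c - α • wc a1) := by
  have h := cyc_cyl hP
  have hζ : Coc (cyl univ P) 2 (wc (a1 (Z := Z))) :=
    coc_wc (cyl_compact isClosed_univ hP) (CM_a1 _)
  rw [← cyl_union] at hc hζ ⊢
  exact h.coc1 hζ (arc_hv (Or.inl rfl) hP h2) (arc_hv (Or.inr rfl) hP h2) (sl_hv hP _ h1)
    (sl_hv hP _ h1) c hc

theorem cp_ne1 {P : Set Z} (hP : IsCompact P) (hne : P.Nonempty) (h1 : HV P 1) :
    ¬ Cob (cyl univ P) 2 (wc (a1 (Z := Z))) := by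
  have h := cyc_cyl hP
  rw [← cyl_union]
  obtain ⟨z, hz⟩ := hne
  exact h.ne1 (arc_hv (Or.inl rfl) hP h1) (arc_hv (Or.inr rfl) hP h1) ⟨(-1, z), rfl, hz⟩
    ⟨(1, z), rfl, hz⟩

/-- the top class generates -/
theorem cp_gen_top {P : Set Z} (hP : IsCompact P) {q : ℕ} {y : List Z → ZMod 3}
    (hy : Coc P (q + 2) y)
    (hv : ∀ c, Coc P (q + 2) c → ∃ α : ZMod 3, Cob P (q + 2) (c - α • y)) (h2 : HV P (q + 3))
    (c : List (Circle × Z) → ZMod 3) (hc : Coc (cyl univ P) (q + 3) c) :
    ∃ α : ZMod 3, Cob (cyl univ P) (q + 3) (c - α • cup (wc a1) (pb Prod.snd y)) := by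
  have h := cyc_cyl hP
  have hζ : Coc (cyl univ P) 2 (wc (a1 (Z := Z))) :=
    coc_wc (cyl_compact isClosed_univ hP) (CM_a1 _)
  have hy' : Coc (cyl univ P) (q + 2) (pb (Prod.snd : Circle × Z → Z) y) :=
    snd_coc isClosed_univ hP hy
  rw [← cyl_union] at hc hζ hy' ⊢
  exact h.coc hζ (q + 1) (by omega) hy' (arc_hv (Or.inl rfl) hP h2) (arc_hv (Or.inr rfl) hP h2)
    (sl_gen hP _ hv) (sl_gen hP _ hv) c hc

/-- the top class is not zero -/
theorem cp_ne_top {P : Set Z} (hP : IsCompact P) {q : ℕ} {y : List Z → ZMod 3}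
    (hy : Coc P (q + 2) y)
    (hv : ∀ c, Coc P (q + 2) c → ∃ α : ZMod 3, Cob P (q + 2) (c - α • y))
    (hn : ¬ Cob P (q + 2) y) :
    ¬ Cob (cyl univ P) (q + 3) (cup (wc a1) (pb (Prod.snd : Circle × Z → Z) y)) := by
  have h := cyc_cyl hP
  have hy' : Coc (cyl univ P) (q + 2) (pb (Prod.snd : Circle × Z → Z) y) :=
    snd_coc isClosed_univ hP hy
  rw [← cyl_union] at hy' ⊢
  have hsub : cyl {-1} P ∪ cyl {1} P ⊆ cyl I1 P ∩ cyl I2 P := by rw [h.inter]
  refine h.ne (q + 1) (by omega) hy' ?_ ?_ (sl_ne hP _ hn) (sl_ne hP _ hn)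
  · intro c hc
    obtain ⟨α, hα⟩ := arc_gen (Or.inl rfl) hP hv c hc
    exact ⟨α, hα.mono ((subset_union_left.trans hsub).trans inter_subset_left),
      hα.mono ((subset_union_right.trans hsub).trans inter_subset_left)⟩
  · intro c hc
    obtain ⟨α, hα⟩ := arc_gen (Or.inr rfl) hP hv c hc
    exact ⟨α, hα.mono ((subset_union_left.trans hsub).trans inter_subset_right),
      hα.mono ((subset_union_right.trans hsub).trans inter_subset_right)⟩

end

end Pool.Agent.TH650.AS
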