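import Pool.Agent.TH650.Emb.MTg
import Pool.Agent.TH650.Emb.Wn
import Pool.Agent.TH650.Emb.CP

/-! Homology of `Circle × V`. -/

set_option autoImplicit false

open Set

namespace Pool.Agent.TH650.MT

open Pool.Agent.Helper922.HB Pool.Agent.TH650.Emb

noncomputable section

variable {V : Type} [TopologicalSpace V]

/-- an arc of the circle with a logarithm -/
structure Arc (A : Set Circle) where
  J : Set ℝ
  cv : Convex ℝ J
  ℓ : A → ℝ
  cont : Continuous ℓ
  mem : ∀ s, ℓ s ∈ J
  exp : ∀ s, Circle.exp (ℓ s) = s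
  sub : ∀ t ∈ J, Circle.exp t ∈ A

/-- the part over an arc -/
def cyS (V : Type) (A : Set Circle) : Set (Circle × V) := {p | p.1 ∈ A}

theorem cv_mem {J : Set ℝ} (h : Convex ℝ J) {a b : ℝ} (ha : a ∈ J) (hb : b ∈ J)
    (u : unitInterval) : (1 - (u : ℝ)) * a + u * b ∈ J := by
  have := h ha hb (by linarith [u.2.2] : (0 : ℝ) ≤ 1 - u) u.2.1 (by ring)
  simpa using this

theorem csl_mem {A : Set Circle} {c : Circle} (hc : c ∈ A) (v : V) : csl V c v ∈ cyS V A := hc

theorem arc_HE {A : Set Circle} (h : Arc A) {b : ℝ} (hb : b ∈ h.J) {c : Circle}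
    (hc : Circle.exp b = c) (hcA : c ∈ A) : HE (cor (csl V c) (cyS V A) (csl_mem hcA)) := by
  refine HE_of_homotopyEquiv _ ⟨fun p => p.1.2, by fun_prop⟩ ⟨Prod.fst, continuous_fst⟩
    ⟨fun q => ⟨(Circle.exp ((1 - (q.2 : ℝ)) * h.ℓ ⟨q.1.1.1, q.1.2⟩ + q.2 * b), q.1.1.2),
      h.sub _ (cv_mem h.cv (h.mem _) hb q.2)⟩, ?_⟩ (fun _ => rfl) (fun _ => rfl) ?_ ?_
  · apply Continuous.subtype_mk
    have h1 : Continuous fun q : (cyS V A) × unitInterval => h.ℓ ⟨q.1.1.1, q.1.2⟩ :=
      h.cont.comp ((continuous_fst.comp (continuous_subtype_val.comp continuous_fst)).subtype_mk _)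
    have h2 : Continuous fun q : (cyS V A) × unitInterval => ((q.2 : unitInterval) : ℝ) :=
      continuous_subtype_val.comp continuous_snd
    refine Continuous.prodMk ?_ ?_
    · exact Circle.exp.continuous.comp
        (((continuous_const.sub h2).mul h1).add (h2.mul continuous_const))
    · fun_prop
  · intro y
    apply Subtype.ext
    apply Prod.ext
    · show Circle.exp ((1 - ((0 : unitInterval) : ℝ)) * h.ℓ ⟨y.1.1, y.2⟩ +
        ((0 : unitInterval) : ℝ) * b) = y.1.1
      rw [Set.Icc.coe_zero, sub_zero, one_mul, zero_mul, add_zero]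
      exact h.exp ⟨y.1.1, y.2⟩
    · rfl
  · intro y
    apply Subtype.ext
    apply Prod.ext
    · show Circle.exp ((1 - ((1 : unitInterval) : ℝ)) * h.ℓ ⟨y.1.1, y.2⟩ +
        ((1 : unitInterval) : ℝ) * b) = c
      rw [Set.Icc.coe_one, sub_self, zero_mul, one_mul, zero_add]
      exact hc
    · rfl

theorem arc_ho {A : Set Circle} (h : Arc A) {b b' : ℝ} (hb : b ∈ h.J) (hb' : b' ∈ h.J)
    {c c' : Circle} (hc : Circle.exp b = c) (hc' : Circle.exp b' = c') (hcA : c ∈ A)
    (hcA' : c' ∈ A) {n : ℕ} {t : Cn V n} (ht : t ∈ Cyc V n) :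
    Ho (push (cor (csl V c) (cyS V A) (csl_mem hcA)) n t)
      (push (cor (csl V c') (cyS V A) (csl_mem hcA')) n t) := by
  refine ho_homotopic ⟨fun q => ⟨(Circle.exp ((1 - (q.2 : ℝ)) * b + q.2 * b'), q.1),
      h.sub _ (cv_mem h.cv hb hb' q.2)⟩, ?_⟩ _ _ ?_ ?_ ht
  · apply Continuous.subtype_mk
    have h2 : Continuous fun q : V × unitInterval => ((q.2 : unitInterval) : ℝ) :=
      continuous_subtype_val.comp continuous_snd
    refine Continuous.prodMk ?_ continuous_fst
    exact Circle.exp.continuous.comp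
        (((continuous_const.sub h2).mul continuous_const).add (h2.mul continuous_const))
  · intro y
    apply Subtype.ext
    apply Prod.ext
    · show Circle.exp ((1 - ((0 : unitInterval) : ℝ)) * b + ((0 : unitInterval) : ℝ) * b') = c
      rw [Set.Icc.coe_zero, sub_zero, one_mul, zero_mul, add_zero, hc]
    · rfl
  · intro y
    apply Subtype.ext
    apply Prod.ext
    · show Circle.exp ((1 - ((1 : unitInterval) : ℝ)) * b + ((1 : unitInterval) : ℝ) * b') = c'
      rw [Set.Icc.coe_one, sub_self, zero_mul, one_mul, zero_add, hc']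
    · rfl

/-! ### the four arcs -/

/-- the arcs -/
def AP : Set Circle := {s | s ≠ -1}
/-- the arcs -/
def AR : Set Circle := {s | s ≠ 1}
/-- the arcs -/
def A1 : Set Circle := {s | (s : ℂ).im < 0}
/-- the arcs -/
def A2 : Set Circle := {s | 0 < (s : ℂ).im}

theorem exp_pi' : Circle.exp Real.pi = -1 := by
  apply Circle.ext
  rw [Circle.coe_exp, Complex.exp_pi_mul_I]
  rfl

theorem slit_of_ne {s : Circle} (hs : s ≠ -1) : (s : ℂ) ∈ Complex.slitPlane := by
  rw [Complex.mem_slitPlane_iff]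
  by_contra h
  push Not at h
  obtain ⟨h1, h2⟩ := h
  rcases AS.im_zero h2 with h3 | h3
  · rw [h3] at h1
    norm_num at h1
  · exact hs h3

theorem arg_lt_of_ne {s : Circle} (hs : s ≠ -1) : Complex.arg (s : ℂ) ∈ Ioo (-Real.pi) Real.pi := by
  refine ⟨Complex.neg_pi_lt_arg _, lt_of_le_of_ne (Complex.arg_le_pi _) ?_⟩
  intro h
  apply hs
  rw [← Circle.exp_arg s, h, exp_pi']

theorem cont_arg {A : Set Circle} (h : ∀ s ∈ A, s ≠ -1) :
    Continuous fun s : A => Complex.arg ((s : Circle) : ℂ) := by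
  have hc : Continuous fun s : A => ((s : Circle) : ℂ) :=
    AS.continuous_circle_coe.comp continuous_subtype_val
  rw [continuous_iff_continuousAt]
  intro s
  exact ContinuousAt.comp (g := Complex.arg) (f := fun s : A => ((s : Circle) : ℂ))
    (Complex.continuousAt_arg (slit_of_ne (h s.1 s.2))) hc.continuousAt

theorem exp_im (t : ℝ) : (Circle.exp t : ℂ).im = Real.sin t := by
  rw [Circle.coe_exp, Complex.exp_ofReal_mul_I_im]

theorem exp_re (t : ℝ) : (Circle.exp t : ℂ).re = Real.cos t := by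
  rw [Circle.coe_exp, Complex.exp_ofReal_mul_I_re]

/-- arc data -/
def arcP : Arc AP where
  J := Ioo (-Real.pi) Real.pi
  cv := convex_Ioo _ _
  ℓ s := Complex.arg ((s : Circle) : ℂ)
  cont := cont_arg fun _ h => h
  mem s := arg_lt_of_ne s.2
  exp s := Circle.exp_arg s.1
  sub t ht h := by
    rw [← exp_pi', Circle.exp_eq_exp] at h
    obtain ⟨m, hm⟩ := h
    have hpi := Real.pi_pos
    have h1 := ht.1
    have h2 := ht.2
    rw [hm] at h1 h2
    have h3 : (m : ℝ) < 0 := by nlinarith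
    have h4 : (-1 : ℝ) < m := by nlinarith
    have h5 : m < 0 := by exact_mod_cast h3
    have h6 : -1 < m := by exact_mod_cast h4
    omega

/-- arc data -/
def arcR : Arc AR where
  J := Ioo 0 (2 * Real.pi)
  cv := convex_Ioo _ _
  ℓ s := Real.pi + Complex.arg ((-(s : Circle) : Circle) : ℂ)
  cont := by
    refine continuous_const.add ?_
    rw [continuous_iff_continuousAt]
    intro s
    have hs : -(s : Circle) ≠ -1 := fun h => s.2 (neg_injective h)
    refine ContinuousAt.comp (g := Complex.arg) (f := fun s : AR => ((-(s : Circle) : Circle) : ℂ))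
      (Complex.continuousAt_arg (slit_of_ne hs)) ?_
    have : Continuous fun s : AR => ((-(s : Circle) : Circle) : ℂ) := by
      have e : (fun s : AR => ((-(s : Circle) : Circle) : ℂ)) = fun s : AR => -((s : Circle) : ℂ) := rfl
      rw [e]
      exact (AS.continuous_circle_coe.comp continuous_subtype_val).neg
    exact this.continuousAt
  mem s := by
    have hs : -(s : Circle) ≠ -1 := fun h => s.2 (neg_injective h)
    have := arg_lt_of_ne hs
    constructor
    · linarith [this.1]
    · linarith [this.2]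
  exp s := by
    rw [Circle.exp_add, Circle.exp_arg, exp_pi']
    apply Circle.ext
    show (-1 : ℂ) * -((s : Circle) : ℂ) = _
    ring
  sub t ht h := by
    rw [← Circle.exp_zero, Circle.exp_eq_exp] at h
    obtain ⟨m, hm⟩ := h
    have hpi := Real.pi_pos
    have h1 := ht.1
    have h2 := ht.2
    rw [hm] at h1 h2
    have h3 : (m : ℝ) < 1 := by nlinarith
    have h4 : (0 : ℝ) < m := by nlinarith
    have h5 : m < 1 := by exact_mod_cast h3
    have h6 : 0 < m := by exact_mod_cast h4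
    omega

theorem ne_of_im {s : Circle} (h : (s : ℂ).im ≠ 0) : s ≠ -1 := by
  rintro rfl
  apply h
  show (-1 : ℂ).im = 0
  simp

/-- arc data -/
def arc2 : Arc A2 where
  J := Ioo 0 Real.pi
  cv := convex_Ioo _ _
  ℓ s := Complex.arg ((s : Circle) : ℂ)
  cont := cont_arg fun s h => ne_of_im (ne_of_gt h)
  mem s := by
    have h1 := arg_lt_of_ne (ne_of_im (ne_of_gt s.2))
    refine ⟨?_, h1.2⟩
    have h2 : 0 ≤ Complex.arg ((s : Circle) : ℂ) := Complex.arg_nonneg_iff.2 (le_of_lt s.2)
    rcases h2.lt_or_eq with h | h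
    · exact h
    · exfalso
      have h3 : Circle.exp (Complex.arg ((s : Circle) : ℂ)) = s := Circle.exp_arg s.1
      rw [← h, Circle.exp_zero] at h3
      have h4 : 0 < ((s : Circle) : ℂ).im := s.2
      rw [← h3] at h4
      simp at h4
  exp s := Circle.exp_arg s.1
  sub t ht := by
    show 0 < (Circle.exp t : ℂ).im
    rw [exp_im]
    exact Real.sin_pos_of_pos_of_lt_pi ht.1 ht.2

/-- arc data -/
def arc1 : Arc A1 where
  J := Ioo (-Real.pi) 0
  cv := convex_Ioo _ _
  ℓ s := Complex.arg ((s : Circle) : ℂ)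
  cont := cont_arg fun s h => ne_of_im (ne_of_lt h)
  mem s := by
    have h1 := arg_lt_of_ne (ne_of_im (ne_of_lt s.2))
    exact ⟨h1.1, Complex.arg_neg_iff.2 s.2⟩
  exp s := Circle.exp_arg s.1
  sub t ht := by
    show (Circle.exp t : ℂ).im < 0
    rw [exp_im]
    exact Real.sin_neg_of_neg_of_neg_pi_lt ht.2 ht.1

/-- base point -/
def q1 : Circle := Circle.exp (-(Real.pi / 2))
/-- base point -/
def q2 : Circle := Circle.exp (Real.pi / 2)

theorem q1' : Circle.exp (3 * Real.pi / 2) = q1 := by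
  unfold q1
  rw [Circle.exp_eq_exp]
  exact ⟨1, by push_cast; ring⟩

theorem q1_im : (q1 : ℂ).im = -1 := by
  unfold q1
  rw [exp_im, Real.sin_neg, Real.sin_pi_div_two]

theorem q2_im : (q2 : ℂ).im = 1 := by
  unfold q2
  rw [exp_im, Real.sin_pi_div_two]

theorem ne_of_im' {s : Circle} (h : (s : ℂ).im ≠ 0) : s ≠ 1 := by
  rintro rfl
  apply h
  simp

theorem q1_1 : q1 ∈ A1 := by show (q1 : ℂ).im < 0; rw [q1_im]; norm_num
theorem q2_2 : q2 ∈ A2 := by show 0 < (q2 : ℂ).im; rw [q2_im]; norm_num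
theorem q1_P : q1 ∈ AP := ne_of_im (by rw [q1_im]; norm_num)
theorem q2_P : q2 ∈ AP := ne_of_im (by rw [q2_im]; norm_num)
theorem q1_R : q1 ∈ AR := ne_of_im' (by rw [q1_im]; norm_num)
theorem q2_R : q2 ∈ AR := ne_of_im' (by rw [q2_im]; norm_num)

theorem bP1 : -(Real.pi / 2) ∈ arcP.J := by
  have := Real.pi_pos
  constructor <;> linarith
theorem bP2 : Real.pi / 2 ∈ arcP.J := by
  have := Real.pi_pos
  constructor <;> linarith
theorem bP0 : (0 : ℝ) ∈ arcP.J := by
  have := Real.pi_pos
  constructor <;> linarith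
theorem bR1 : 3 * Real.pi / 2 ∈ arcR.J := by
  have := Real.pi_pos
  constructor <;> linarith
theorem bR2 : Real.pi / 2 ∈ arcR.J := by
  have := Real.pi_pos
  constructor <;> linarith
theorem b11 : -(Real.pi / 2) ∈ arc1.J := by
  have := Real.pi_pos
  constructor <;> linarith
theorem b22 : Real.pi / 2 ∈ arc2.J := by
  have := Real.pi_pos
  constructor <;> linarith

theorem cont_im : Continuous fun p : Circle × V => (p.1 : ℂ).im :=
  Complex.continuous_im.comp (continuous_subtype_val.comp continuous_fst)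

variable (V) in
/-- the mapping torus data of `Circle × V` -/
def circD : GD (Circle × V) V where
  P := cyS V AP
  R := cyS V AR
  S1 := cyS V A1
  S2 := cyS V A2
  openP := isOpen_ne.preimage continuous_fst
  openR := isOpen_ne.preimage continuous_fst
  openS1 := isOpen_lt cont_im continuous_const
  openS2 := isOpen_lt continuous_const cont_im
  cover p := by
    by_cases h : p.1 = 1
    · left
      show p.1 ≠ -1
      rw [h]
      intro h'
      have := congrArg (fun s : Circle => (s : ℂ).re) h'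
      norm_num at this
    · exact Or.inr h
  inter := by
    ext p
    constructor
    · rintro ⟨h1, h2⟩
      rcases lt_trichotomy (p.1 : ℂ).im 0 with h | h | h
      · exact Or.inl h
      · rcases AS.im_zero h with h3 | h3
        · exact absurd h3 h2
        · exact absurd h3 h1
      · exact Or.inr h
    · rintro (h | h)
      · exact ⟨ne_of_im (ne_of_lt h), ne_of_im' (ne_of_lt h)⟩
      · exact ⟨ne_of_im (ne_of_gt h), ne_of_im' (ne_of_gt h)⟩
  disj := by
    rw [Set.eq_empty_iff_forall_notMem]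
    rintro p ⟨h1, h2⟩
    have h1' : (p.1 : ℂ).im < 0 := h1
    have h2' : 0 < (p.1 : ℂ).im := h2
    exact lt_asymm h1' h2'
  g1 := csl V q1
  g2 := csl V q2
  mem1 _ := q1_1
  mem2 _ := q2_2
  memP1 _ := q1_P
  memP2 _ := q2_P
  memR1 _ := q1_R
  memR2 _ := q2_R
  iso1 := arc_HE arc1 b11 rfl q1_1
  iso2 := arc_HE arc2 b22 rfl q2_2
  isoR := arc_HE arcR bR1 q1' q1_R
  homR n t ht := arc_ho arcR bR1 bR2 q1' rfl q1_R q2_R ht

theorem circ_f {n : ℕ} {t : Cn V n} (ht : t ∈ Cyc V n) :
    Ho (push (circD V).f1 n t) (push (circD V).f2 n t) :=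
  arc_ho arcP bP1 bP2 rfl rfl q1_P q2_P ht

theorem circ_HE1 : HE (circD V).f1 := arc_HE arcP bP1 rfl q1_P

theorem one_P : (1 : Circle) ∈ AP := by
  intro h'
  have := congrArg (fun s : Circle => (s : ℂ).re) h'
  norm_num at this

theorem circ_HE0 : HE (cor (csl V 1) (cyS V AP) (csl_mem one_P)) :=
  arc_HE arcP bP0 Circle.exp_zero one_P

theorem circ_acy {n : ℕ} (h1 : Acy V (n + 1)) (h2 : Acy V n) : Acy (Circle × V) (n + 1) := by
  refine (circD V).acy_succ ?_ fun t ht _ => h2 t ht
  intro w hw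
  exact ⟨0, Submodule.zero_mem _, by
    rw [map_zero, map_zero, sub_zero]
    exact ho_zero.2 (h1.of_HE circ_HE1 w hw)⟩

theorem circ_slice {n : ℕ} {a : Cn V (n + 1)} (h1 : HZt V (n + 1) a) (h2 : Acy V n) :
    HZt (Circle × V) (n + 1) (push (csl V 1) (n + 1) a) := by
  have h := (circD V).gen_P (h1.of_HE circ_HE0) (fun t ht => circ_f ht) fun t ht _ => h2 t ht
  have e := push_push (cor (csl V 1) (cyS V AP) (csl_mem one_P)) (Helper922.HB.sub (cyS V AP))
    (n + 1) a
  have h' : HZt (Circle × V) (n + 1) (push (Helper922.HB.sub (cyS V AP)) (n + 1)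
    (push (cor (csl V 1) (cyS V AP) (csl_mem one_P)) (n + 1) a)) := h
  rw [e] at h'
  exact h'

theorem circ_top {n : ℕ} {t0 : Cn V n} (h1 : Acy V (n + 1)) (h2 : HZt V n t0)
    {z0 : Cn (Circle × V) (n + 1)} (hz : z0 ∈ Cyc _ (n + 1)) (hc : (circD V).Conn z0 t0) :
    HZt (Circle × V) (n + 1) z0 := by
  refine (circD V).gen_T ?_ h2 hz hc
  intro w hw
  exact ⟨0, Submodule.zero_mem _, by
    rw [map_zero, map_zero, sub_zero]
    exact ho_zero.2 (h1.of_HE circ_HE1 w hw)⟩

theorem circ_make {n : ℕ} {t0 : Cn V n} (ht : t0 ∈ Cyc V n) :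
    ∃ z0 ∈ Cyc (Circle × V) (n + 1), (circD V).Conn z0 t0 :=
  (circD V).conn_make ht (circ_f ht)

end

end Pool.Agent.TH650.MT
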