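import Pool.Agent.TH650.Emb.Circ2
import Pool.Agent.TH650.Emb.ModelPC

/-! Homology of the circle, cross products with 1-chains of the circle. -/

set_option autoImplicit false

open Set

namespace Pool.Agent.TH650.MT

open Pool.Agent.Helper922.HB Pool.Agent.TH650.Emb

noncomputable section

variable {V : Type} [TopologicalSpace V]

/-! ### the point -/

theorem unit_acy (n : ℕ) : Acy Unit (n + 1) := by
  refine Pool.Agent.H904R2.Sph.contr_acyc (⟨Prod.fst, continuous_fst⟩ : C(Unit × unitInterval, Unit))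
    () ?_ ?_ (n + 1)
  · apply ContinuousMap.ext; intro x; rfl
  · apply ContinuousMap.ext; intro x; rfl

/-- `Circle × Unit` -/
def cuF : C(Circle × Unit, Circle) := ⟨Prod.fst, continuous_fst⟩

theorem cuF_HE : HE cuF := by
  refine HE_of_homeo (Homeomorph.prodUnique Circle Unit) _ fun _ => rfl

theorem circle_acy (n : ℕ) : Acy Circle (n + 2) :=
  (circ_acy (unit_acy (n + 1)) (unit_acy n)).of_HE cuF_HE

theorem circle_gen : ∃ g, HZt Circle 1 g := by
  let σ : Sing Unit 0 := ContinuousMap.const _ ()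
  obtain ⟨z0, hz, hc⟩ := circ_make (V := Unit) (n := 0) (t0 := Finsupp.single σ 1)
    Submodule.mem_top
  exact ⟨_, (circ_top (unit_acy 0) (pc_HZt σ) hz hc).of_HE cuF_HE⟩

/-- the standard loop -/
abbrev lpc : Cn Circle 1 := Emb.lp

theorem lp_cyc' : lpc ∈ Cyc Circle 1 := lp_cyc

theorem wn_lpc : wn lpc = 1 := wn_lp

theorem sface_vertex' {X : Type} [TopologicalSpace X] (n : ℕ) (i : Fin (n + 2))
    (σ : Sing X (n + 1)) (j : Fin (n + 1)) :
    (Helper922.HB.sface n i σ) (stdSimplex.vertex j) = σ (stdSimplex.vertex (i.succAbove j)) :=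
  Emb.sface_vertex n i σ j

theorem wn_ho {a b : Cn Circle 1} (h : Ho a b) : wn a = wn b := by
  have : wn (a - b) = 0 := wn_bdy h
  rw [map_sub] at this
  linarith

/-- the winding number is injective on `H_1(Circle)` -/
theorem wn_inj {z : Cn Circle 1} (hz : z ∈ Cyc Circle 1) (h : wn z = 0) : z ∈ Bdy Circle 1 := by
  obtain ⟨g, hg⟩ := circle_gen
  obtain ⟨k, hk⟩ := hg.gen lpc lp_cyc'
  obtain ⟨m, hm⟩ := wn_int (z := g) hg.cyc
  have h1 := wn_ho hk
  rw [wn_lpc, map_smul, hm] at h1
  have h2 : (m : ℝ) ≠ 0 := by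
    intro h0
    rw [h0] at h1
    simp at h1
  obtain ⟨a, ha⟩ := hg.gen z hz
  have h3 := wn_ho ha
  rw [h, map_smul, hm, zsmul_eq_mul] at h3
  have h4 : a = 0 := by
    rcases mul_eq_zero.1 h3.symm with h5 | h5
    · exact_mod_cast h5
    · exact absurd h5 h2
  rw [h4, zero_smul] at ha
  exact ho_zero.1 ha

theorem wn_eq {z z' : Cn Circle 1} (hz : z ∈ Cyc Circle 1) (hz' : z' ∈ Cyc Circle 1)
    (h : wn z = wn z') : Ho z z' := by
  apply wn_inj ((Cyc Circle 1).sub_mem hz hz')
  rw [map_sub, h, sub_self]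

theorem wn_csq (z : Cn Circle 1) : wn (push csq 1 z) = 2 * wn z := by
  have e : csq = cpw 2 := by
    apply ContinuousMap.ext
    intro s
    show s * s = s ^ (2 : ℤ)
    rw [zpow_two]
  rw [e]
  have := wn_pow 2 z
  push_cast at this
  exact this

/-! ### projection to the circle -/

/-- the projection -/
def pr1 (V : Type) [TopologicalSpace V] : C(Circle × V, Circle) := ⟨Prod.fst, continuous_fst⟩

/-- if `V` is path connected and `H_1(V) = 0` then `H_1(Circle × V) → H_1(Circle)` is injective -/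
theorem pr1_inj [PathConnectedSpace V] (h1 : Acy V 1) {z : Cn (Circle × V) 1}
    (hz : z ∈ Cyc _ 1) (h : wn (push (pr1 V) 1 z) = 0) : z ∈ Bdy (Circle × V) 1 := by
  obtain ⟨v0⟩ := (inferInstance : Nonempty V)
  let σ : Sing V 0 := ContinuousMap.const _ v0
  obtain ⟨z0, hz0, hc⟩ := circ_make (V := V) (n := 0) (t0 := Finsupp.single σ 1)
    Submodule.mem_top
  have hg := circ_top h1 (pc_HZt σ) hz0 hc
  let s : C(Circle, Circle × V) := ⟨fun c => (c, v0), by fun_prop⟩
  have hs : (pr1 V).comp s = ContinuousMap.id Circle := rfl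
  obtain ⟨k, hk⟩ := hg.gen (push s 1 lpc) (push_mem_Cyc s 1 _ lp_cyc')
  have e1 := wn_ho (hk.push (pr1 V))
  rw [push_push, hs, push_id, wn_lpc, map_smul, map_smul, zsmul_eq_mul] at e1
  have hne : wn (push (pr1 V) 1 z0) ≠ 0 := by
    intro h0
    rw [h0, mul_zero] at e1
    exact one_ne_zero e1
  obtain ⟨a, ha⟩ := hg.gen z hz
  have e2 := wn_ho (ha.push (pr1 V))
  rw [h, map_smul, map_smul, zsmul_eq_mul] at e2
  have h4 : a = 0 := by
    rcases mul_eq_zero.1 e2.symm with h5 | h5
    · exact_mod_cast h5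
    · exact absurd h5 hne
  rw [h4, zero_smul] at ha
  exact ho_zero.1 ha

/-! ### cross product with 1-chains -/

variable {B B' : Type} [TopologicalSpace B] [TopologicalSpace B']

theorem push_PD {X Y Z : Type} [TopologicalSpace X] [TopologicalSpace Y] [TopologicalSpace Z]
    (g : C(Y, Z)) (H : C(X × unitInterval, Y)) (k : ℕ) (z : Cn X k) :
    push g (k + 1) (Sc.PD H k z) = Sc.PD (g.comp H) k z := by
  have : (push g (k + 1)).comp (Sc.PD H k) = Sc.PD (g.comp H) k := by
    apply Finsupp.lhom_ext'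
    intro σ
    apply LinearMap.ext_ring
    simp only [LinearMap.comp_apply, Finsupp.lsingle_apply]
    rw [Sc.PD_single, Sc.PD_single]
    simp only [push, Sc.ppush, Finsupp.lmapDomain_apply]
    rw [← Finsupp.mapDomain_comp]
    rfl
  exact LinearMap.congr_fun this z

/-- the path of a singular 1-simplex -/
def pth (σ : Sing B 1) : C(unitInterval, B) :=
  σ.comp ⟨stdSimplexHomeomorphUnitInterval.symm, stdSimplexHomeomorphUnitInterval.symm.continuous⟩

theorem pth_zero (σ : Sing B 1) : pth σ 0 = σ (stdSimplex.vertex 0) := by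
  show σ (stdSimplexHomeomorphUnitInterval.symm 0) = _
  congr 1
  apply (Homeomorph.symm_apply_eq _).2
  rfl

theorem pth_one (σ : Sing B 1) : pth σ 1 = σ (stdSimplex.vertex 1) := by
  show σ (stdSimplexHomeomorphUnitInterval.symm 1) = _
  congr 1
  apply (Homeomorph.symm_apply_eq _).2
  rfl

variable (V) in
/-- the homotopy of slices along a path -/
def Hm (γ : C(unitInterval, B)) : C(V × unitInterval, B × V) :=
  ⟨fun q => (γ q.2, q.1), by fun_prop⟩

/-- slices -/
def sli (V : Type) [TopologicalSpace V] (b : B) : C(V, B × V) := ⟨fun v => (b, v), by fun_prop⟩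

theorem slice_Hm (γ : C(unitInterval, B)) (u : unitInterval) :
    Sc.slice (Hm V γ) u = sli V (γ u) := rfl

variable {n : ℕ}

/-- cross product with a 1-chain -/
def XX (a : Cn V n) : Cn B 1 →ₗ[ℤ] Cn (B × V) (n + 1) :=
  Finsupp.linearCombination ℤ fun σ => Sc.PD (Hm V (pth σ)) n a

/-- cross product with a 0-chain -/
def X0 (a : Cn V n) : Cn B 0 →ₗ[ℤ] Cn (B × V) n :=
  Finsupp.linearCombination ℤ fun σ => push (sli V (σ (stdSimplex.vertex 0))) n a

theorem XX_single (a : Cn V n) (σ : Sing B 1) :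
    XX a (Finsupp.single σ 1) = Sc.PD (Hm V (pth σ)) n a := by
  rw [XX, Finsupp.linearCombination_single, one_smul]

theorem X0_single (a : Cn V n) (σ : Sing B 0) :
    X0 a (Finsupp.single σ 1) = push (sli V (σ (stdSimplex.vertex 0))) n a := by
  rw [X0, Finsupp.linearCombination_single, one_smul]

/-- boundary of a prism on a cycle -/
theorem bdry_PD {X Y : Type} [TopologicalSpace X] [TopologicalSpace Y]
    (H : C(X × unitInterval, Y)) {n : ℕ} {a : Cn X n} (ha : a ∈ Cyc X n) :
    bdry Y n (Sc.PD H n a) = push (Sc.slice H 1) n a - push (Sc.slice H 0) n a := by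
  cases n with
  | zero => exact Sc.sbd_PD_zero H a
  | succ n =>
    have h1 := Sc.sbd_PD H n a
    have h2 : Sc.sbd X n a = 0 := ha
    rw [h2, map_zero, add_zero] at h1
    exact h1

theorem bdry_single1 (σ : Sing B 1) : bdry B 0 (Finsupp.single σ 1) =
    Finsupp.single (sface 0 0 σ) 1 - Finsupp.single (sface 0 1 σ) 1 := by
  have h1 : bdry B 0 (Finsupp.single σ 1) =
      ∑ i : Fin 2, ((-1 : ℤ) ^ (i : ℕ)) • Finsupp.single (sface 0 i σ) (1 : ℤ) :=
    Pool.Agent.H904R2.Sph.sbd_single 0 σ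
  rw [h1, Fin.sum_univ_two]
  simp [sub_eq_add_neg]

theorem bdry_XX {a : Cn V n} (ha : a ∈ Cyc V n) (c : Cn B 1) :
    bdry _ n (XX a c) = X0 a (bdry B 0 c) := by
  induction c using Finsupp.induction_linear with
  | zero => simp
  | add x y hx hy => rw [map_add, map_add, map_add, map_add, hx, hy]
  | single σ m =>
    have e : (Finsupp.single σ m : Cn B 1) = m • Finsupp.single σ 1 := by simp
    rw [e, map_smul, map_smul, map_smul, map_smul, XX_single, bdry_PD _ ha, slice_Hm, slice_Hm,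
      bdry_single1, map_sub, X0_single, X0_single, sface_vertex', sface_vertex', pth_one, pth_zero]
    rfl

theorem XX_nat (f : C(B, B')) (a : Cn V n) (c : Cn B 1) :
    push (f.prodMap (ContinuousMap.id V)) (n + 1) (XX a c) = XX a (push f 1 c) := by
  induction c using Finsupp.induction_linear with
  | zero => simp
  | add x y hx hy => rw [map_add, map_add, map_add, map_add, hx, hy]
  | single σ m =>
    have e : (Finsupp.single σ m : Cn B 1) = m • Finsupp.single σ 1 := by simp
    rw [e, map_smul, map_smul, map_smul, map_smul, XX_single, push_single, XX_single, push_PD]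
    rfl

/-- the projection from `Δ × V` is a homology isomorphism -/
theorem simplex_HE (k : ℕ) :
    HE (⟨Prod.snd, continuous_snd⟩ : C(stdSimplex ℝ (Fin (k + 1)) × V, V)) := by
  refine HE_of_homotopyEquiv _ ⟨fun v => (stdSimplex.vertex 0, v), by fun_prop⟩
    ⟨fun q => (⟨_, seg_mem q.2 q.1.1 (stdSimplex.vertex 0)⟩, q.1.2), ?_⟩
    ⟨Prod.fst, continuous_fst⟩ ?_ ?_ (fun _ => rfl) (fun _ => rfl)
  · refine Continuous.prodMk (Continuous.subtype_mk ?_ _) (by fun_prop)
    fun_prop
  · rintro ⟨x, v⟩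
    apply Prod.ext
    · apply Subtype.ext
      show (1 - ((0 : unitInterval) : ℝ)) • (x : Fin (k + 1) → ℝ) +
        ((0 : unitInterval) : ℝ) • ((stdSimplex.vertex 0 : stdSimplex ℝ (Fin (k + 1))) :
          Fin (k + 1) → ℝ) = x
      simp
    · rfl
  · rintro ⟨x, v⟩
    apply Prod.ext
    · apply Subtype.ext
      show (1 - ((1 : unitInterval) : ℝ)) • (x : Fin (k + 1) → ℝ) +
        ((1 : unitInterval) : ℝ) • ((stdSimplex.vertex 0 : stdSimplex ℝ (Fin (k + 1))) :
          Fin (k + 1) → ℝ) = (stdSimplex.vertex 0 : stdSimplex ℝ (Fin (k + 1)))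
      simp
    · rfl

theorem XX_bdry (h : Acy V (n + 1)) {a : Cn V n} (ha : a ∈ Cyc V n) (y : Cn B 2) :
    XX a (bdry B 1 y) ∈ Bdy (B × V) (n + 1) := by
  induction y using Finsupp.induction_linear with
  | zero => simp
  | add x y hx hy => rw [map_add, map_add]; exact (Bdy _ _).add_mem hx hy
  | single τ m =>
    have e : (Finsupp.single τ m : Cn B 2) = m • Finsupp.single τ 1 := by simp
    rw [e, map_smul, map_smul]
    apply (Bdy _ _).smul_mem
    let ι : Cn (stdSimplex ℝ (Fin 3)) 2 := Finsupp.single (ContinuousMap.id _) 1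
    have e1 : (Finsupp.single τ 1 : Cn B 2) = push τ 2 ι := by
      rw [push_single]; rfl
    rw [e1, bdry_push, ← XX_nat]
    apply push_mem_Bdy
    have h2 : Acy (stdSimplex ℝ (Fin 3) × V) (n + 1) := h.of_HE' (simplex_HE 2)
    apply h2
    apply cyc_of_bdry
    rw [bdry_XX ha, bdry_bdry, map_zero]

theorem XX_ho (h : Acy V (n + 1)) {a : Cn V n} (ha : a ∈ Cyc V n) {c c' : Cn B 1} (hc : Ho c c') :
    Ho (XX a c) (XX a c') := by
  obtain ⟨y, hy⟩ := hc
  have := XX_bdry h ha y
  rw [hy, map_sub] at this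
  exact this

theorem XX_cyc {a : Cn V n} (ha : a ∈ Cyc V n) {c : Cn B 1} (hc : c ∈ Cyc B 1) :
    XX a c ∈ Cyc (B × V) (n + 1) := by
  apply cyc_of_bdry
  rw [bdry_XX ha, bdry_of_cyc hc, map_zero]

/-! ### the fundamental loop -/

/-- logarithm of the first half loop -/
def l1 : C(stdSimplex ℝ (Fin 2), ℝ) := ⟨fun x => -(Real.pi / 2) + Real.pi * x.1 1,
  continuous_const.add
    (continuous_const.mul ((continuous_apply (1 : Fin 2)).comp continuous_subtype_val))⟩

/-- logarithm of the second half loop -/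
def l2 : C(stdSimplex ℝ (Fin 2), ℝ) := ⟨fun x => Real.pi / 2 + Real.pi * x.1 1,
  continuous_const.add
    (continuous_const.mul ((continuous_apply (1 : Fin 2)).comp continuous_subtype_val))⟩

/-- half loops -/
def c1 : Sing Circle 1 := ⟨fun x => Circle.exp (l1 x), Circle.exp.continuous.comp l1.continuous⟩
/-- half loops -/
def c2 : Sing Circle 1 := ⟨fun x => Circle.exp (l2 x), Circle.exp.continuous.comp l2.continuous⟩

theorem x1_0 : (stdSimplex.vertex 0 : stdSimplex ℝ (Fin 2)).1 1 = 0 := by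
  simp [stdSimplex.vertex]

theorem x1_1 : (stdSimplex.vertex 1 : stdSimplex ℝ (Fin 2)).1 1 = 1 := by
  simp [stdSimplex.vertex]

theorem x1_mem (x : stdSimplex ℝ (Fin 2)) : x.1 1 ∈ Icc (0 : ℝ) 1 := by
  refine ⟨x.2.1 1, ?_⟩
  have h1 := x.2.2
  rw [Fin.sum_univ_two] at h1
  have h2 := x.2.1 0
  linarith

theorem c1_0 : c1 (stdSimplex.vertex 0) = q1 := by
  show Circle.exp (-(Real.pi / 2) + Real.pi * (stdSimplex.vertex 0 : stdSimplex ℝ (Fin 2)).1 1) = q1
  rw [x1_0, mul_zero, add_zero]; rfl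

theorem c1_1 : c1 (stdSimplex.vertex 1) = q2 := by
  show Circle.exp (-(Real.pi / 2) + Real.pi * (stdSimplex.vertex 1 : stdSimplex ℝ (Fin 2)).1 1) = q2
  rw [x1_1]
  unfold q2
  congr 1; ring

theorem c2_0 : c2 (stdSimplex.vertex 0) = q2 := by
  show Circle.exp (Real.pi / 2 + Real.pi * (stdSimplex.vertex 0 : stdSimplex ℝ (Fin 2)).1 1) = q2
  rw [x1_0, mul_zero, add_zero]; rfl

theorem c2_1 : c2 (stdSimplex.vertex 1) = q1 := by
  show Circle.exp (Real.pi / 2 + Real.pi * (stdSimplex.vertex 1 : stdSimplex ℝ (Fin 2)).1 1) = q1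
  rw [x1_1, ← q1']
  congr 1; ring

/-- the loop -/
def lam : Cn Circle 1 := Finsupp.single c1 1 + Finsupp.single c2 1

theorem sing0_eq {X : Type} [TopologicalSpace X] {ρ ρ' : Sing X 0}
    (h : ρ (stdSimplex.vertex 0) = ρ' (stdSimplex.vertex 0)) : ρ = ρ' := by
  apply ContinuousMap.ext
  intro x
  have : x = stdSimplex.vertex 0 := Subsingleton.elim _ _
  rw [this, h]

theorem lam_cyc : lam ∈ Cyc Circle 1 := by
  apply cyc_of_bdry
  have e1 : sface 0 0 c1 = sface 0 1 c2 := by
    apply sing0_eq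
    rw [sface_vertex', sface_vertex']
    exact c1_1.trans c2_0.symm
  have e2 : sface 0 1 c1 = sface 0 0 c2 := by
    apply sing0_eq
    rw [sface_vertex', sface_vertex']
    exact c1_0.trans c2_1.symm
  rw [lam, map_add, bdry_single1, bdry_single1, e1, e2]
  abel

theorem wn_lam : wn lam = 1 := by
  have hpi : Real.pi ≠ 0 := Real.pi_ne_zero
  have a1 : l1 (stdSimplex.vertex 1) = -(Real.pi / 2) + Real.pi := by
    show -(Real.pi / 2) + Real.pi * (stdSimplex.vertex 1 : stdSimplex ℝ (Fin 2)).1 1 = _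
    rw [x1_1, mul_one]
  have a0 : l1 (stdSimplex.vertex 0) = -(Real.pi / 2) := by
    show -(Real.pi / 2) + Real.pi * (stdSimplex.vertex 0 : stdSimplex ℝ (Fin 2)).1 1 = _
    rw [x1_0, mul_zero, add_zero]
  have b1 : l2 (stdSimplex.vertex 1) = Real.pi / 2 + Real.pi := by
    show Real.pi / 2 + Real.pi * (stdSimplex.vertex 1 : stdSimplex ℝ (Fin 2)).1 1 = _
    rw [x1_1, mul_one]
  have b0 : l2 (stdSimplex.vertex 0) = Real.pi / 2 := by
    show Real.pi / 2 + Real.pi * (stdSimplex.vertex 0 : stdSimplex ℝ (Fin 2)).1 1 = _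
    rw [x1_0, mul_zero, add_zero]
  rw [lam, map_add, wn_single, wn_single, wnS_eq c1 l1 (fun _ => rfl),
    wnS_eq c2 l2 (fun _ => rfl), a1, a0, b1, b0]
  push_cast
  field_simp
  ring

theorem pth_coe (σ : Sing B 1) (u : unitInterval) :
    ∃ x : stdSimplex ℝ (Fin 2), pth σ u = σ x := ⟨_, rfl⟩

theorem c1_P (x : stdSimplex ℝ (Fin 2)) : c1 x ∈ AP := by
  apply arcP.sub
  have h1 := x1_mem x
  have hpi := Real.pi_pos
  show -(Real.pi / 2) + Real.pi * x.1 1 ∈ Ioo (-Real.pi) Real.pi
  constructor <;> nlinarith [h1.1, h1.2]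

theorem c2_R (x : stdSimplex ℝ (Fin 2)) : c2 x ∈ AR := by
  apply arcR.sub
  have h1 := x1_mem x
  have hpi := Real.pi_pos
  show Real.pi / 2 + Real.pi * x.1 1 ∈ Ioo 0 (2 * Real.pi)
  constructor <;> nlinarith [h1.1, h1.2]

theorem conn_lam {a : Cn V n} (ha : a ∈ Cyc V n) : (circD V).Conn (XX a lam) (-a) := by
  let H1 : C(V × unitInterval, (circD V).P) :=
    cor (Hm V (pth c1)) (circD V).P (fun q => c1_P _)
  let H2 : C(V × unitInterval, (circD V).R) :=
    cor (Hm V (pth c2)) (circD V).R (fun q => c2_R _)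
  refine ⟨Sc.PD H1 n a, Sc.PD H2 n a, ?_, ?_, ?_⟩
  · rw [push_PD, push_PD, lam, map_add, XX_single, XX_single]
    exact Ho.refl _
  · rw [bdry_PD H1 ha, map_neg, map_neg]
    have e1 : Sc.slice H1 1 = (circD V).f2 := by
      apply ContinuousMap.ext
      intro v
      apply Subtype.ext
      apply Prod.ext
      · exact (pth_one c1).trans c1_1
      · rfl
    have e0 : Sc.slice H1 0 = (circD V).f1 := by
      apply ContinuousMap.ext
      intro v
      apply Subtype.ext
      apply Prod.ext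
      · exact (pth_zero c1).trans c1_0
      · rfl
    rw [e1, e0]
    abel
  · rw [bdry_PD H2 ha, map_neg, map_neg]
    have e1 : Sc.slice H2 1 = (circD V).r1 := by
      apply ContinuousMap.ext
      intro v
      apply Subtype.ext
      apply Prod.ext
      · exact (pth_one c2).trans c2_1
      · rfl
    have e0 : Sc.slice H2 0 = (circD V).r2 := by
      apply ContinuousMap.ext
      intro v
      apply Subtype.ext
      apply Prod.ext
      · exact (pth_zero c2).trans c2_0
      · rfl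
    rw [e1, e0]
    abel

theorem HZt.neg {X : Type} [TopologicalSpace X] {n : ℕ} {g : Cn X n} (h : HZt X n g) :
    HZt X n (-g) := by
  refine ⟨(Cyc X n).neg_mem h.cyc, ?_, ?_⟩
  · intro z hz
    obtain ⟨a, ha⟩ := h.gen z hz
    exact ⟨-a, by rw [neg_smul_neg]; exact ha⟩
  · intro a ha
    have := h.inf (-a) (by rw [neg_smul, ← smul_neg]; exact ha)
    linarith

/-- the top class of `Circle × V` -/
theorem top_HZt (h1 : Acy V (n + 1)) {a : Cn V n} (h2 : HZt V n a) :
    HZt (Circle × V) (n + 1) (XX a lam) :=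
  circ_top h1 h2.neg (XX_cyc h2.cyc lam_cyc) (conn_lam h2.cyc)

/-- the squaring map on the first factor -/
def psi (V : Type) [TopologicalSpace V] : C(Circle × V, Circle × V) :=
  csq.prodMap (ContinuousMap.id V)

theorem psi_top (h1 : Acy V (n + 1)) {a : Cn V n} (ha : a ∈ Cyc V n) :
    Ho (push (psi V) (n + 1) (XX a lam)) ((2 : ℤ) • XX a lam) := by
  unfold psi
  rw [XX_nat, ← map_smul]
  apply XX_ho h1 ha
  apply wn_eq (push_mem_Cyc _ _ _ lam_cyc) ((Cyc Circle 1).smul_mem 2 lam_cyc)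
  rw [wn_csq, map_smul, wn_lam]
  simp

end

end Pool.Agent.TH650.MT
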