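import Pool.Agent.TH650.Emb.HDefs

/-! Definitions for the Mayer-Vietoris sequence of mapping torus type.
`X = P ∪ R` open, `P ∩ R = S1 ⊔ S2` open and disjoint, and `T → S1`, `T → S2`, `T → R` are
homology isomorphisms, the two maps `T → S_i ⊆ R` being homologous. -/

set_option autoImplicit false

open scoped Manifold ContDiff Topology
open Set

namespace Pool.Agent.TH650.Emb

open Pool.Agent.H904R2 (Ch IsCyc IsBdy RAcyc psh)
open Pool.Agent.Helper922.HB.Sc (Sing sface sbd)

noncomputable section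

/-- the inclusion of a subset -/
def isub {X : Type} [TopologicalSpace X] (P : Set X) : C(P, X) :=
  ⟨Subtype.val, continuous_subtype_val⟩

/-- corestriction of a map -/
def crs {T X : Type} [TopologicalSpace T] [TopologicalSpace X] (f : C(T, X)) (P : Set X)
    (h : ∀ t, f t ∈ P) : C(T, P) := ⟨fun t => ⟨f t, h t⟩, by fun_prop⟩

/-- `f` is an isomorphism on (reduced) homology in degree `m` -/
def HIso {A B : Type} [TopologicalSpace A] [TopologicalSpace B] (f : C(A, B)) (m : ℕ) : Prop :=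
  (∀ z : Ch A m, IsCyc m z → IsBdy m (psh f m z) → IsBdy m z) ∧
  (∀ w : Ch B m, IsCyc m w → ∃ z : Ch A m, IsCyc m z ∧ IsBdy m (w - psh f m z))

/-- The data of the Mayer-Vietoris sequence of mapping torus type. -/
structure GData (X T : Type) [TopologicalSpace X] [TopologicalSpace T] where
  P : Set X
  R : Set X
  S1 : Set X
  S2 : Set X
  openP : IsOpen P
  openR : IsOpen R
  openS1 : IsOpen S1
  openS2 : IsOpen S2
  cover : ∀ x, x ∈ P ∨ x ∈ R
  inter : P ∩ R = S1 ∪ S2
  disj : Disjoint S1 S2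
  g1 : C(T, X)
  g2 : C(T, X)
  mem1 : ∀ t, g1 t ∈ S1
  mem2 : ∀ t, g2 t ∈ S2
  memP1 : ∀ t, g1 t ∈ P
  memP2 : ∀ t, g2 t ∈ P
  memR1 : ∀ t, g1 t ∈ R
  memR2 : ∀ t, g2 t ∈ R
  iso1 : ∀ m, HIso (crs g1 S1 mem1) m
  iso2 : ∀ m, HIso (crs g2 S2 mem2) m
  isoR : ∀ m, HIso (crs g1 R memR1) m
  homR : ∀ (m : ℕ) (z : Ch T m), IsCyc m z →
    IsBdy m (psh (crs g1 R memR1) m z - psh (crs g2 R memR2) m z)

variable {X T : Type} [TopologicalSpace X] [TopologicalSpace T]

namespace GData

/-- the first map `T → P` -/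
def f1 (D : GData X T) : C(T, D.P) := crs D.g1 D.P D.memP1
/-- the second map `T → P` -/
def f2 (D : GData X T) : C(T, D.P) := crs D.g2 D.P D.memP2

end GData

end

end Pool.Agent.TH650.Emb
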