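import Pool.Agent.TH650.Emb.Wr

/-! Homology of `X4`; the embedding `Y3 → X4` is onto on `H_1`. -/

set_option autoImplicit false

open Set

namespace Pool.Agent.TH650.MT

open Pool.Agent.Helper922.HB Pool.Agent.TH650.Emb
open Pool.Agent.H904R2 (Pc)

noncomputable section

section general

variable {V : Type} [NormedAddCommGroup V] [NormedSpace ℝ V]

theorem iter_lt (L : ℂ →ₗᵢ[ℝ] V) {p : Circle × V} (hp : ‖p.2‖ < 3 / 2) (j : ℕ) :
    ‖((sg L)^[j + 1] p).2‖ < 7 / 8 := by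
  rw [Function.iterate_succ_apply']
  have h1 : ‖((sg L)^[j] p).2‖ < 3 / 2 := iter_maps_t L j hp
  have h2 := norm_sg_le L ((sg L)^[j] p)
  linarith

theorem norm_Om (L : ℂ →ₗᵢ[ℝ] V) (p : Om L) : ‖p.1.2‖ < 3 / 2 := p.2.1

theorem mem_Om_of (L : ℂ →ₗᵢ[ℝ] V) {p : Circle × V} (h1 : 3 / 4 < ‖p.2‖) (h2 : ‖p.2‖ < 3 / 2) :
    p ∈ Om L := by
  refine ⟨h2, fun h => ?_⟩
  rw [Sol, mem_iInter] at h
  obtain ⟨q, hq, h3⟩ := h 2
  rw [Function.iterate_succ_apply'] at h3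
  have h4 : ‖((sg L)^[1] q).2‖ < 7 / 8 := iter_lt L hq 0
  have h5 := norm_sg_le L ((sg L)^[1] q)
  rw [h3] at h5
  linarith

theorem mk_sg (L : ℂ →ₗᵢ[ℝ] V) (p : Om L) : mk L ⟨sg L p.1, sg_mem_Om L p.2⟩ = mk L p :=
  (mk_eq_iff L _ _).2 ⟨1, Or.inr rfl⟩

end general

/-- image of a set in `X4` -/
def mkS (A : Set EE) : Set X4 := {y | ∃ p : Om L3, p.1 ∈ A ∧ mk L3 p = y}

theorem mkS_open {A : Set EE} (hA : IsOpen A) : IsOpen (mkS A) := by
  have e : mkS A = mk L3 '' (Subtype.val ⁻¹' A) := rfl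
  rw [e]
  exact isOpenMap_mk L3 _ (hA.preimage continuous_subtype_val)

/-- the map `A → mkS A` -/
def kA (A : Set EE) (hA : A ⊆ Om L3) : C(A, mkS A) :=
  ⟨fun p => ⟨mk L3 ⟨p.1, hA p.2⟩, ⟨p.1, hA p.2⟩, p.2, rfl⟩,
    ((continuous_mk L3).comp (continuous_subtype_val.subtype_mk _)).subtype_mk _⟩

theorem kA_HE {A : Set EE} (hA : A ⊆ Om L3) (ho : IsOpen A)
    (hi : ∀ p q : Om L3, p.1 ∈ A → q.1 ∈ A → mk L3 p = mk L3 q → p = q) : HE (kA A hA) := by
  apply HE_of_open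
  · apply isOpenMap_of_comp (i := fun y : mkS A => y.1) continuous_subtype_val
      Subtype.val_injective
    have h1 : IsOpenMap fun p : A => (⟨p.1, hA p.2⟩ : Om L3) := by
      apply isOpenMap_of_comp (i := fun y : Om L3 => y.1) continuous_subtype_val
        Subtype.val_injective
      exact ho.isOpenMap_subtype_val
    exact (isOpenMap_mk L3).comp h1
  · constructor
    · intro a b h
      have h1 := hi ⟨a.1, hA a.2⟩ ⟨b.1, hA b.2⟩ a.2 b.2 (congrArg (fun y : mkS A => y.1) h)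
      exact Subtype.ext (congrArg (fun y : Om L3 => y.1) h1)
    · rintro ⟨y, p, hp, rfl⟩
      exact ⟨⟨p.1, hp⟩, rfl⟩

theorem ann_sub {a b : ℝ} (ha : 7 / 8 ≤ a) (hb : b ≤ 3 / 2) : ann a b ⊆ Om L3 := fun p hp =>
  mem_Om_of L3 (by linarith [hp.1]) (by linarith [hp.2])

theorem ann_inj {a b : ℝ} (ha : 7 / 8 ≤ a) (p q : Om L3) (hp : p.1 ∈ ann a b)
    (hq : q.1 ∈ ann a b) (h : mk L3 p = mk L3 q) : p = q := by
  obtain ⟨j, h1 | h1⟩ := (mk_eq_iff L3 p q).1 h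
  · rcases j with _ | j
    · exact Subtype.ext h1
    · have h2 := iter_lt L3 (norm_Om L3 p) j
      rw [h1] at h2
      linarith [hq.1]
  · rcases j with _ | j
    · exact Subtype.ext h1.symm
    · have h2 := iter_lt L3 (norm_Om L3 q) j
      rw [h1] at h2
      linarith [hp.1]

theorem kann_HE {a b : ℝ} (ha : 7 / 8 ≤ a) (hb : b ≤ 3 / 2) : HE (kA (ann a b) (ann_sub ha hb)) :=
  kA_HE _ (ann_open a b) (ann_inj ha)

theorem W1_iff {p : EE} : p ∈ W1 ↔ ‖p.2‖ < 1 ∧ p ∉ sg L3 '' ctube (ℂ × ℝ) 1 := Iff.rfl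

theorem W1_sub : W1 ⊆ Om L3 := fun p hp =>
  Dom_sub_Om L3 ⟨le_of_lt (show ‖p.2‖ < 1 from hp.1), fun h =>
    hp.2 (image_mono tube_sub_ctube' h)⟩

theorem W1_open : IsOpen W1 :=
  (tube_open 1).sdiff ((ctube_compact' 1).image (continuous_sg L3)).isClosed

theorem iter_W1 {p q : EE} (hp : ‖p.2‖ < 1) (hq : q ∈ W1) {j : ℕ} (h : (sg L3)^[j] p = q) :
    j = 0 := by
  rcases j with _ | j
  · rfl
  · exfalso
    rw [Function.iterate_succ_apply'] at h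
    apply hq.2
    refine ⟨_, ?_, h⟩
    rcases j with _ | j
    · exact hp.le
    · have := iter_lt L3 (show ‖p.2‖ < 3 / 2 by linarith) j
      show ‖((sg L3)^[j + 1] p).2‖ ≤ 1
      linarith

theorem W1_inj (p q : Om L3) (hp : p.1 ∈ W1) (hq : q.1 ∈ W1) (h : mk L3 p = mk L3 q) : p = q := by
  obtain ⟨j, h1 | h1⟩ := (mk_eq_iff L3 p q).1 h
  · have := iter_W1 hp.1 hq h1
    subst this
    exact Subtype.ext h1
  · have := iter_W1 hq.1 hp h1
    subst this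
    exact Subtype.ext h1.symm

/-- the two descriptions of the region -/
def eW : WT ≃ₜ W1 where
  toFun x := ⟨x.1.1, x.1.2, x.2⟩
  invFun x := ⟨⟨x.1, x.2.1⟩, x.2.2⟩
  left_inv _ := rfl
  right_inv _ := rfl
  continuous_toFun := by fun_prop
  continuous_invFun := by fun_prop

/-- the map to `P` -/
def kP : C(WT, mkS W1) := (kA W1 W1_sub).comp ⟨eW, eW.continuous⟩

theorem kP_HE : HE kP := (kA_HE W1_sub W1_open W1_inj).comp (HE_of_homeo eW _ fun _ => rfl)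

theorem rmap_Om {r : ℝ} (h1 : 3 / 4 < r) (h2 : r < 3 / 2) (p : TT) : rmap r p ∈ Om L3 := by
  have h := norm_rmap (show 0 ≤ r by linarith) p
  exact mem_Om_of L3 (by rw [h]; exact h1) (by rw [h]; exact h2)

/-- the maps to `X4` -/
def gr {r : ℝ} (h1 : 3 / 4 < r) (h2 : r < 3 / 2) : C(TT, X4) :=
  ⟨fun p => mk L3 ⟨rmap r p, rmap_Om h1 h2 p⟩,
    (continuous_mk L3).comp ((rmap r).continuous.subtype_mk _)⟩

theorem gr_mem {r a b : ℝ} (h1 : 3 / 4 < r) (h2 : r < 3 / 2) (ha : a < r) (hb : r < b) (p : TT) :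
    gr h1 h2 p ∈ mkS (ann a b) := by
  have h := norm_rmap (show 0 ≤ r by linarith) p
  exact ⟨⟨rmap r p, rmap_Om h1 h2 p⟩, ⟨by rw [h]; exact ha, by rw [h]; exact hb⟩, rfl⟩

theorem gr_HE {r a b : ℝ} (h1 : 3 / 4 < r) (h2 : r < 3 / 2) (ha : a < r) (hb : r < b)
    (ha' : 7 / 8 ≤ a) (hb' : b ≤ 3 / 2) :
    HE (cor (gr h1 h2) (mkS (ann a b)) (gr_mem h1 h2 ha hb)) := by
  have ha0 : 0 ≤ a := by linarith
  have e : cor (gr h1 h2) (mkS (ann a b)) (gr_mem h1 h2 ha hb) =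
      (kA (ann a b) (ann_sub ha' hb')).comp (rA ha0 ha hb) := by
    apply ContinuousMap.ext
    intro p
    rfl
  rw [e]
  exact (kann_HE ha' hb').comp (ann_HE ha0 ha hb)

theorem mem1' (p : TT) : gr (r := 15 / 16) (by norm_num) (by norm_num) p ∈ mkS W1 :=
  (kP (wf1 p)).2

theorem g2_eq (p : TT) : gr (r := 5 / 4) (by norm_num) (by norm_num) p = (kP (wf2 p)).1 :=
  (mk_sg L3 ⟨rmap (5 / 4) p, rmap_Om (by norm_num) (by norm_num) p⟩).symm

theorem mem2' (p : TT) : gr (r := 5 / 4) (by norm_num) (by norm_num) p ∈ mkS W1 := by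
  rw [g2_eq]
  exact (kP (wf2 p)).2

theorem S1_P {y : X4} (h : y ∈ mkS (ann (7 / 8) 1)) : y ∈ mkS W1 := by
  obtain ⟨p, hp, rfl⟩ := h
  refine ⟨p, ⟨hp.2, ?_⟩, rfl⟩
  rintro ⟨q, hq, h⟩
  have h1 := norm_sg_le L3 q
  rw [h] at h1
  have h2 : ‖q.2‖ ≤ 1 := hq
  linarith [hp.1]

theorem S2_P {y : X4} (h : y ∈ mkS (ann 1 (3 / 2))) : y ∈ mkS W1 := by
  obtain ⟨p, hp, rfl⟩ := h
  exact ⟨⟨sg L3 p.1, sg_mem_Om L3 p.2⟩, ⟨sg_ann_UU hp, sg_ann_W hp⟩, mk_sg L3 p⟩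

theorem mkS_mono {A B : Set EE} (h : A ⊆ B) : mkS A ⊆ mkS B := by
  rintro _ ⟨p, hp, rfl⟩
  exact ⟨p, h hp, rfl⟩

theorem ann_mono {a b a' b' : ℝ} (ha : a' ≤ a) (hb : b ≤ b') : ann a b ⊆ ann a' b' := fun _ hp =>
  ⟨lt_of_le_of_lt ha hp.1, lt_of_lt_of_le hp.2 hb⟩

theorem PR_sub {y : X4} (h1 : y ∈ mkS W1) (h2 : y ∈ mkS (ann (7 / 8) (3 / 2))) :
    y ∈ mkS (ann (7 / 8) 1) ∪ mkS (ann 1 (3 / 2)) := by
  obtain ⟨p, hp, rfl⟩ := h1
  obtain ⟨q, hq, h⟩ := h2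
  have hp1 : ‖p.1.2‖ < 1 := hp.1
  obtain ⟨j, h1 | h1⟩ := (mk_eq_iff L3 p q).1 h.symm
  · left
    rcases j with _ | j
    · have h3 : p.1 = q.1 := h1
      exact ⟨p, ⟨by rw [h3]; exact hq.1, hp1⟩, rfl⟩
    · exfalso
      have h2 := iter_lt L3 (norm_Om L3 p) j
      rw [h1] at h2
      linarith [hq.1]
  · rcases j with _ | j
    · left
      have h3 : q.1 = p.1 := h1
      exact ⟨p, ⟨by rw [← h3]; exact hq.1, hp1⟩, rfl⟩
    · by_cases hq1 : ‖q.1.2‖ ≤ 1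
      · exfalso
        rw [Function.iterate_succ_apply'] at h1
        apply hp.2
        refine ⟨_, ?_, h1⟩
        rcases j with _ | j
        · exact hq1
        · have := iter_lt L3 (norm_Om L3 q) j
          show ‖((sg L3)^[j + 1] q.1).2‖ ≤ 1
          linarith
      · right
        exact ⟨q, ⟨not_le.1 hq1, hq.2⟩, h⟩

theorem S12 : mkS (ann (7 / 8) 1) ∩ mkS (ann 1 (3 / 2)) = ∅ := by
  ext y
  simp only [mem_inter_iff, mem_empty_iff_false, iff_false, not_and]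
  rintro ⟨p, hp, rfl⟩ ⟨q, hq, h⟩
  have h1 := ann_inj (a := 7 / 8) (b := 3 / 2) le_rfl q p (ann_mono (by norm_num) le_rfl hq)
    (ann_mono le_rfl (by norm_num) hp) h
  rw [h1] at hq
  linarith [hq.1, hp.2]

theorem X_cover (y : X4) : y ∈ mkS W1 ∨ y ∈ mkS (ann (7 / 8) (3 / 2)) := by
  obtain ⟨p, hp, rfl⟩ := exists_Dom L3 y
  by_cases h : p.1 ∈ sg L3 '' ctube (ℂ × ℝ) 1
  · right
    obtain ⟨q, hq, h1⟩ := h
    have hq1 : ‖q.2‖ ≤ 1 := hq
    have hq2 : ‖q.2‖ = 1 := by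
      rcases lt_or_eq_of_le hq1 with h2 | h2
      · exact absurd ⟨q, h2, h1⟩ hp.2
      · exact h2
    have hqO : q ∈ Om L3 := mem_Om_of L3 (by rw [hq2]; norm_num) (by rw [hq2]; norm_num)
    refine ⟨⟨q, hqO⟩, ⟨by rw [hq2]; norm_num, by rw [hq2]; norm_num⟩, ?_⟩
    rw [← mk_sg L3 ⟨q, hqO⟩]
    congr 1
    exact Subtype.ext h1
  · have hp1 : ‖p.1.2‖ ≤ 1 := hp.1
    rcases lt_or_eq_of_le hp1 with h2 | h2
    · left
      exact ⟨p, ⟨h2, h⟩, rfl⟩
    · right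
      exact ⟨p, ⟨by rw [h2]; norm_num, by rw [h2]; norm_num⟩, rfl⟩

/-- the Mayer-Vietoris data of `X4` -/
def DX : GD X4 TT where
  P := mkS W1
  R := mkS (ann (7 / 8) (3 / 2))
  S1 := mkS (ann (7 / 8) 1)
  S2 := mkS (ann 1 (3 / 2))
  openP := mkS_open W1_open
  openR := mkS_open (ann_open _ _)
  openS1 := mkS_open (ann_open _ _)
  openS2 := mkS_open (ann_open _ _)
  cover := X_cover
  inter := by
    apply Subset.antisymm
    · rintro y ⟨h1, h2⟩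
      exact PR_sub h1 h2
    · rintro y (h | h)
      · exact ⟨S1_P h, mkS_mono (ann_mono le_rfl (by norm_num)) h⟩
      · exact ⟨S2_P h, mkS_mono (ann_mono (by norm_num) le_rfl) h⟩
  disj := S12
  g1 := gr (r := 15 / 16) (by norm_num) (by norm_num)
  g2 := gr (r := 5 / 4) (by norm_num) (by norm_num)
  mem1 := gr_mem _ _ (by norm_num) (by norm_num)
  mem2 := gr_mem _ _ (by norm_num) (by norm_num)
  memP1 := mem1'
  memP2 := mem2'
  memR1 := gr_mem _ _ (by norm_num) (by norm_num)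
  memR2 := gr_mem _ _ (by norm_num) (by norm_num)
  iso1 := gr_HE _ _ (by norm_num) (by norm_num) (by norm_num) (by norm_num)
  iso2 := gr_HE _ _ (by norm_num) (by norm_num) (by norm_num) (by norm_num)
  isoR := gr_HE _ _ (by norm_num) (by norm_num) (by norm_num) (by norm_num)
  homR := by
    intro n t ht
    have h := (ann_ho (a := 7 / 8) (b := 3 / 2) (r := 15 / 16) (r' := 5 / 4) (by norm_num)
      (by norm_num) (by norm_num) (by norm_num) (by norm_num) ht).push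
      (kA (ann (7 / 8) (3 / 2)) (ann_sub le_rfl le_rfl))
    rw [push_push, push_push] at h
    exact h

theorem DX_f1 {n : ℕ} (t : Cn TT n) : push DX.f1 n t = push kP n (push wf1 n t) := by
  rw [push_push]; rfl

theorem DX_f2 {n : ℕ} (t : Cn TT n) : push DX.f2 n t = push kP n (push wf2 n t) := by
  rw [push_push]
  congr 2
  apply ContinuousMap.ext
  intro p
  exact Subtype.ext (g2_eq p)

theorem ho_of_kP {n : ℕ} {a b : Cn WT n} (ha : a ∈ Cyc WT n) (hb : b ∈ Cyc WT n)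
    (h : Ho (push kP n a) (push kP n b)) : Ho a b := by
  apply (kP_HE n).1 _ ((Cyc WT n).sub_mem ha hb)
  rw [map_sub]
  exact h

theorem DX_rel {n : ℕ} {t : Cn TT n} (ht : t ∈ Cyc TT n)
    (h : Ho (push DX.f1 n t) (push DX.f2 n t)) : Ho (push wf1 n t) (push wf2 n t) := by
  rw [DX_f1, DX_f2] at h
  exact ho_of_kP (push_mem_Cyc _ _ _ ht) (push_mem_Cyc _ _ _ ht) h

theorem DX_hP {n : ℕ}
    (hW : ∀ w ∈ Cyc WT n, ∃ t ∈ Cyc TT n, Ho w (push wf1 n t - push wf2 n t)) :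
    ∀ w ∈ Cyc DX.P n, ∃ t ∈ Cyc TT n, Ho w (push DX.f1 n t - push DX.f2 n t) := by
  intro w hw
  obtain ⟨w', hw', h1⟩ := (kP_HE n).2 w hw
  obtain ⟨t, ht, h2⟩ := hW w' hw'
  refine ⟨t, ht, ?_⟩
  have h3 := h2.push kP
  rw [map_sub, ← DX_f1, ← DX_f2] at h3
  exact Ho.trans (b := push kP n w') h1 h3

theorem DX_acyP (m : ℕ) : Acy DX.P (m + 4) := (W_4 m).of_HE kP_HE

theorem X_2 : Acy X4 2 := by
  refine DX.acy_succ (DX_hP fun w hw => W_2a hw) ?_
  intro t ht h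
  exact W_1b ht (DX_rel ht h)

theorem X_3 : ∃ g, HZt X4 3 g := by
  refine ⟨_, DX.gen_P (n := 2) (W_3Z.of_HE kP_HE) ?_ ?_⟩
  · intro t ht
    rw [DX_f1, DX_f2]
    exact (W3_rel ht).push kP
  · intro t ht h
    exact W_2b ht (DX_rel ht h)

theorem DX_P0 (m : ℕ) : ∀ w ∈ Cyc DX.P (m + 4), ∃ t ∈ Cyc TT (m + 4),
    Ho w (push DX.f1 (m + 4) t - push DX.f2 (m + 4) t) := by
  intro w hw
  refine ⟨0, Submodule.zero_mem _, ?_⟩
  rw [map_zero, map_zero, sub_zero]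
  exact ho_zero.2 (DX_acyP m w hw)

theorem X_4 : ∃ g, HZt X4 4 g := by
  have h1 : Ho (push DX.f1 3 top3) (push DX.f2 3 top3) := by
    rw [DX_f1, DX_f2]
    exact (W3_rel hzT3.cyc).push kP
  obtain ⟨z, hz, hc⟩ := DX.conn_make hzT3.cyc h1
  exact ⟨z, DX.gen_T (n := 3) (DX_P0 0) hzT3 hz hc⟩

theorem X_5 (m : ℕ) : Acy X4 (m + 5) := by
  refine DX.acy_succ (n := m + 4) (DX_P0 (m + 1)) ?_
  intro t ht _
  exact acyT4 m t ht

instance pathConnected_TT : PathConnectedSpace TT := by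
  have := pathConnected_circle
  infer_instance

/-- any cycle connecting to a point generates `H_1(X4)` -/
theorem X_1 {z : Cn X4 1} (hz : z ∈ Cyc X4 1) (σ : Sing TT 0)
    (hc : DX.Conn z (Finsupp.single σ 1)) : HZt X4 1 z :=
  DX.gen_T (n := 0) (DX_hP fun _ hw => W_1a hw) (pc_HZt σ) hz hc

/-! ### the loop -/

theorem bdry_path {X : Type} [TopologicalSpace X] (σ : Sing X 1) (ρ0 ρ1 : Sing X 0)
    (h0 : σ (stdSimplex.vertex 0) = ρ0 (stdSimplex.vertex 0))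
    (h1 : σ (stdSimplex.vertex 1) = ρ1 (stdSimplex.vertex 0)) :
    bdry X 0 (Finsupp.single σ 1) = Finsupp.single ρ1 1 - Finsupp.single ρ0 1 := by
  have e0 : sface 0 0 σ = ρ1 := by
    apply sing0_eq
    rw [sface_vertex', ← h1]
    rfl
  have e1 : sface 0 1 σ = ρ0 := by
    apply sing0_eq
    rw [sface_vertex', ← h0]
    rfl
  rw [bdry_single1, e0, e1]

/-- linear function on the simplex -/
def lin (a b : ℝ) : C(stdSimplex ℝ (Fin 2), ℝ) := ⟨fun x => a + (b - a) * x.1 1,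
  continuous_const.add
    (continuous_const.mul ((continuous_apply (1 : Fin 2)).comp continuous_subtype_val))⟩

theorem lin_0 (a b : ℝ) : lin a b (stdSimplex.vertex 0) = a := by
  show a + (b - a) * (stdSimplex.vertex 0 : stdSimplex ℝ (Fin 2)).1 1 = a
  rw [x1_0]; ring

theorem lin_1 (a b : ℝ) : lin a b (stdSimplex.vertex 1) = b := by
  show a + (b - a) * (stdSimplex.vertex 1 : stdSimplex ℝ (Fin 2)).1 1 = b
  rw [x1_1]; ring

theorem lin_mem {a b c d : ℝ} (hac : c < a) (hab : a ≤ b) (hbd : b < d)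
    (x : stdSimplex ℝ (Fin 2)) : c < lin a b x ∧ lin a b x < d := by
  have h := x1_mem x
  show c < a + (b - a) * x.1 1 ∧ a + (b - a) * x.1 1 < d
  constructor
  · have := mul_nonneg (sub_nonneg.2 hab) h.1
    linarith
  · have := mul_le_mul_of_nonneg_left h.2 (sub_nonneg.2 hab)
    linarith

/-- radial point in `Circle × ℂ` -/
def rp (r : ℝ) : Circle × ℂ := (1, (r : ℂ))

theorem rp_Om {r : ℝ} (h1 : 3 / 4 < r) (h2 : r < 3 / 2) : rp r ∈ Om L2 := by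
  have h : ‖(rp r).2‖ = r := by
    show ‖(r : ℂ)‖ = r
    rw [Complex.norm_real, Real.norm_of_nonneg (by linarith)]
  exact mem_Om_of L2 (by rw [h]; exact h1) (by rw [h]; exact h2)

/-- radial path in `Y3` -/
def rpath (a b : ℝ) (hac : 3 / 4 < a) (hab : a ≤ b) (hbd : b < 3 / 2) : Sing Y3 1 :=
  ⟨fun x => mk L2 ⟨rp (lin a b x), rp_Om (lin_mem hac hab hbd x).1 (lin_mem hac hab hbd x).2⟩, by
    refine (continuous_mk L2).comp (Continuous.subtype_mk ?_ _)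
    exact continuous_const.prodMk (Complex.continuous_ofReal.comp (lin a b).continuous)⟩

/-- radial point of `Y3` -/
def rpt (r : ℝ) (h1 : 3 / 4 < r) (h2 : r < 3 / 2) : Sing Y3 0 :=
  ContinuousMap.const _ (mk L2 ⟨rp r, rp_Om h1 h2⟩)

theorem mkrp_congr {r r' : ℝ} (h : r = r') (h1 : rp r ∈ Om L2) (h1' : rp r' ∈ Om L2) :
    mk L2 ⟨rp r, h1⟩ = mk L2 ⟨rp r', h1'⟩ := by
  subst h; rfl

theorem bdry_rpath (a b : ℝ) (hac : 3 / 4 < a) (hab : a ≤ b) (hbd : b < 3 / 2) :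
    bdry Y3 0 (Finsupp.single (rpath a b hac hab hbd) 1) =
      Finsupp.single (rpt b (by linarith) hbd) 1 - Finsupp.single (rpt a hac (by linarith)) 1 :=
  bdry_path _ _ _ (mkrp_congr (lin_0 a b) _ _) (mkrp_congr (lin_1 a b) _ _)

theorem sg_rp : sg L2 (rp (5 / 4)) = rp (13 / 16) := by
  apply Prod.ext
  · show (1 : Circle) * 1 = 1
    rw [one_mul]
  · show (1 / 4 : ℝ) • (((5 / 4 : ℝ) : ℂ)) + (1 / 2 : ℝ) • ((1 : Circle) : ℂ) = ((13 / 16 : ℝ) : ℂ)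
    rw [Complex.real_smul, Complex.real_smul, Circle.coe_one]
    push_cast
    norm_num

theorem rpt_eq : rpt (5 / 4) (by norm_num) (by norm_num) =
    rpt (13 / 16) (by norm_num) (by norm_num) := by
  apply sing0_eq
  show mk L2 ⟨rp (5 / 4), _⟩ = mk L2 ⟨rp (13 / 16), _⟩
  rw [← mk_sg L2 ⟨rp (5 / 4), rp_Om (by norm_num) (by norm_num)⟩]
  congr 1
  exact Subtype.ext sg_rp

/-- the first path -/
def pa : Sing Y3 1 := rpath (13 / 16) (15 / 16) (by norm_num) (by norm_num) (by norm_num)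
/-- the second path -/
def pb : Sing Y3 1 := rpath (15 / 16) (5 / 4) (by norm_num) (by norm_num) (by norm_num)

/-- the loop in `Y3` -/
def loop3 : Cn Y3 1 := Finsupp.single pa 1 + Finsupp.single pb 1

theorem loop3_cyc : loop3 ∈ Cyc Y3 1 := by
  apply cyc_of_bdry
  rw [loop3, map_add, pa, pb, bdry_rpath, bdry_rpath, rpt_eq]
  abel

theorem emb_rp {r : ℝ} (h1 : 3 / 4 < r) (h2 : r < 3 / 2) (v0 : Pc 3)
    (hv : vec v0.1 = ((1 : ℂ), (0 : ℝ))) :
    emb (mk L2 ⟨rp r, rp_Om h1 h2⟩) = gr h1 h2 (1, v0) := by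
  rw [emb_mk]
  show mk L3 _ = mk L3 _
  congr 1
  apply Subtype.ext
  show inc (rp r) = rmap r (1, v0)
  apply Prod.ext
  · rfl
  · show ((r : ℂ), (0 : ℝ)) = (r / ‖vec v0.1‖) • vec v0.1
    rw [hv]
    have : ‖((1 : ℂ), (0 : ℝ))‖ = 1 := by simp [Prod.norm_def]
    rw [this, div_one]
    apply Prod.ext
    · simp
    · simp

/-- the base vector -/
def v1 : Pc 3 := ⟨unv (1, 0), unv_ne (by simp)⟩

theorem vec_v1 : vec v1.1 = ((1 : ℂ), (0 : ℝ)) := vec_unv _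

theorem emb_mem {r : ℝ} {A : Set EE} (h1 : 3 / 4 < r) (h2 : r < 3 / 2) (h : inc (rp r) ∈ A) :
    emb (mk L2 ⟨rp r, rp_Om h1 h2⟩) ∈ mkS A := ⟨⟨inc (rp r), inc_mem_Om (rp_Om h1 h2)⟩, h, rfl⟩

theorem norm_inc_rp {r : ℝ} (hr : 0 ≤ r) : ‖(inc (rp r)).2‖ = r := by
  rw [norm_inc]
  show ‖(r : ℂ)‖ = r
  rw [Complex.norm_real, Real.norm_of_nonneg hr]

theorem pa_mem (x : stdSimplex ℝ (Fin 2)) : (emb.comp pa) x ∈ DX.P := by
  have h := lin_mem (a := 13 / 16) (b := 15 / 16) (c := 3 / 4) (d := 3 / 2) (by norm_num)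
    (by norm_num) (by norm_num) x
  have h' := lin_mem (a := 13 / 16) (b := 15 / 16) (c := 3 / 4) (d := 1) (by norm_num)
    (by norm_num) (by norm_num) x
  apply emb_mem h.1 h.2
  have hn := norm_inc_rp (r := lin (13 / 16) (15 / 16) x) (by linarith [h.1])
  refine ⟨?_, ?_⟩
  · show ‖(inc (rp (lin (13 / 16) (15 / 16) x))).2‖ < 1
    rw [hn]
    exact h'.2
  · rintro ⟨q, hq, h3⟩
    have h4 := norm_sg_le L3 q
    have h5 : ‖q.2‖ ≤ 1 := hq
    rw [h3, hn] at h4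
    linarith [h'.1]

theorem pb_mem (x : stdSimplex ℝ (Fin 2)) : (emb.comp pb) x ∈ DX.R := by
  have h := lin_mem (a := 15 / 16) (b := 5 / 4) (c := 3 / 4) (d := 3 / 2) (by norm_num)
    (by norm_num) (by norm_num) x
  have h' := lin_mem (a := 15 / 16) (b := 5 / 4) (c := 7 / 8) (d := 3 / 2) (by norm_num)
    (by norm_num) (by norm_num) x
  apply emb_mem h.1 h.2
  have hn := norm_inc_rp (r := lin (15 / 16) (5 / 4) x) (by linarith [h.1])
  refine ⟨?_, ?_⟩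
  · show 7 / 8 < ‖(inc (rp (lin (15 / 16) (5 / 4) x))).2‖
    rw [hn]
    exact h'.1
  · show ‖(inc (rp (lin (15 / 16) (5 / 4) x))).2‖ < 3 / 2
    rw [hn]
    exact h'.2

/-- base point -/
def t00 : Sing TT 0 := ContinuousMap.const _ (1, v1)

theorem loop_conn : DX.Conn (push emb 1 loop3) (Finsupp.single t00 1) := by
  have e1 : ∀ {r : ℝ} (h1 : 3 / 4 < r) (h2 : r < 3 / 2),
      emb (mk L2 ⟨rp r, rp_Om h1 h2⟩) = gr h1 h2 (1, v1) := fun h1 h2 => emb_rp h1 h2 v1 vec_v1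
  have e2 : emb (mk L2 ⟨rp (13 / 16), rp_Om (by norm_num) (by norm_num)⟩) =
      gr (r := 5 / 4) (by norm_num) (by norm_num) (1, v1) := by
    rw [← e1]
    congr 1
    exact congrArg (fun ρ : Sing Y3 0 => ρ (stdSimplex.vertex 0)) rpt_eq.symm
  refine ⟨Finsupp.single (cor (emb.comp pa) DX.P pa_mem) 1,
    Finsupp.single (cor (emb.comp pb) DX.R pb_mem) 1, ?_, ?_, ?_⟩
  · apply Ho.of_eq
    rw [loop3, map_add, push_single, push_single, push_single, push_single]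
    rfl
  · rw [push_single, push_single]
    apply bdry_path
    · apply Subtype.ext
      show emb (pa (stdSimplex.vertex 0)) = gr (r := 5 / 4) (by norm_num) (by norm_num) (1, v1)
      rw [← e2]
      congr 1
      exact mkrp_congr (lin_0 _ _) _ _
    · apply Subtype.ext
      show emb (pa (stdSimplex.vertex 1)) = gr (r := 15 / 16) (by norm_num) (by norm_num) (1, v1)
      rw [← e1 (r := 15 / 16) (by norm_num) (by norm_num)]
      congr 1
      exact mkrp_congr (lin_1 _ _) _ _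
  · rw [push_single, push_single, neg_sub]
    apply bdry_path
    · apply Subtype.ext
      show emb (pb (stdSimplex.vertex 0)) = gr (r := 15 / 16) (by norm_num) (by norm_num) (1, v1)
      rw [← e1 (r := 15 / 16) (by norm_num) (by norm_num)]
      congr 1
      exact mkrp_congr (lin_0 _ _) _ _
    · apply Subtype.ext
      show emb (pb (stdSimplex.vertex 1)) = gr (r := 5 / 4) (by norm_num) (by norm_num) (1, v1)
      rw [← e1 (r := 5 / 4) (by norm_num) (by norm_num)]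
      congr 1
      exact mkrp_congr (lin_1 _ _) _ _

theorem loop_gen : HZt X4 1 (push emb 1 loop3) :=
  X_1 (push_mem_Cyc _ _ _ loop3_cyc) t00 loop_conn

end

end Pool.Agent.TH650.MT

namespace Pool.Agent.TH650.Emb

open Pool.Agent.H904R2 (Ch IsCyc IsBdy RAcyc psh Pc)
open Pool.Agent.TH650.MT Pool.Agent.Helper922.HB

noncomputable section

theorem hom_X4 : HasZ X4 1 ∧ RAcyc X4 2 ∧ HasZ X4 3 ∧ HasZ X4 4 ∧ ∀ k, 5 ≤ k → RAcyc X4 k := by
  obtain ⟨g3, h3⟩ := X_3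
  obtain ⟨g4, h4⟩ := X_4
  refine ⟨loop_gen.hasZ, acy_iff.1 X_2, h3.hasZ, h4.hasZ, ?_⟩
  intro k hk
  obtain ⟨m, rfl⟩ := Nat.exists_eq_add_of_le' hk
  exact acy_iff.1 (X_5 m)

theorem onto_emb : H1Onto emb := by
  intro z hz
  obtain ⟨a, ha⟩ := loop_gen.gen z hz
  refine ⟨a • loop3, (Cyc Y3 1).smul_mem a loop3_cyc, ?_⟩
  have h : Ho z (push emb 1 (a • loop3)) := by rw [map_smul]; exact ha
  exact h

end

end Pool.Agent.TH650.Emb
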