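import Pool.Agent.TH650.Emb.Defs

/-! The embedding `Y3 → X4`. -/

set_option autoImplicit false

open scoped Manifold ContDiff Topology
open Set

namespace Pool.Agent.TH650.Emb

noncomputable section

/-- `(s, z) ↦ (s, (z, 0))` -/
def inc (p : Circle × ℂ) : Circle × (ℂ × ℝ) := (p.1, (p.2, 0))

theorem continuous_inc : Continuous inc := by
  unfold inc
  fun_prop

theorem inc_injective : Function.Injective inc := by
  rintro ⟨s, z⟩ ⟨s', z'⟩ h
  simp only [inc, Prod.mk.injEq] at h
  rw [h.1, h.2.1]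

theorem sg_inc (p : Circle × ℂ) : sg L3 (inc p) = inc (sg L2 p) := by
  simp [sg, inc, L2, L3]

theorem sg_iter_inc (j : ℕ) (p : Circle × ℂ) : (sg L3)^[j] (inc p) = inc ((sg L2)^[j] p) := by
  induction j with
  | zero => rfl
  | succ j ih => rw [Function.iterate_succ_apply', ih, sg_inc, Function.iterate_succ_apply']

theorem norm_inc (p : Circle × ℂ) : ‖(inc p).2‖ = ‖p.2‖ := by
  simp [inc, Prod.norm_def]

theorem sg_snd (p : Circle × (ℂ × ℝ)) : (sg L3 p).2.2 = p.2.2 / 4 := by
  simp only [sg, L3]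
  change (1 / 4 : ℝ) * p.2.2 + (1 / 2 : ℝ) * 0 = p.2.2 / 4
  ring

theorem sg_iter_snd (j : ℕ) (p : Circle × (ℂ × ℝ)) : ((sg L3)^[j] p).2.2 = p.2.2 / 4 ^ j := by
  induction j with
  | zero => simp
  | succ j ih =>
    rw [Function.iterate_succ_apply', sg_snd, ih, pow_succ]
    field_simp

theorem inc_mem_Om {p : Circle × ℂ} (hp : p ∈ Om L2) : inc p ∈ Om L3 := by
  refine ⟨?_, fun h => hp.2 ?_⟩
  · have := hp.1
    change ‖(inc p).2‖ < 3 / 2
    rw [norm_inc]
    exact this
  · rw [Sol, mem_iInter] at h ⊢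
    intro j
    obtain ⟨q, hq, hqp⟩ := h j
    have h0 : q.2.2 = 0 := by
      have h1 := sg_iter_snd j q
      rw [hqp] at h1
      have h2 : q.2.2 / 4 ^ j = 0 := h1.symm
      rcases div_eq_zero_iff.1 h2 with h3 | h3
      · exact h3
      · exact absurd h3 (by positivity)
    have hq' : q = inc (q.1, q.2.1) := by
      obtain ⟨s, z, h⟩ := q
      simp only [inc] at h0 ⊢
      rw [h0]
    refine ⟨(q.1, q.2.1), ?_, ?_⟩
    · have : ‖q.2‖ < 3 / 2 := hq
      rw [hq', norm_inc] at this
      exact this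
    · apply inc_injective
      rw [← sg_iter_inc, ← hq', hqp]

/-- the map `Y3 → X4` induced by `(s, z) ↦ (s, (z, 0))` -/
def embf : Y3 → X4 :=
  Quotient.map (fun p : Om L2 => (⟨inc p.1, inc_mem_Om p.2⟩ : Om L3)) (by
    rintro p q ⟨j, k, h⟩
    exact ⟨j, k, by simp only [sg_iter_inc, h]⟩)

theorem continuous_embf : Continuous embf := by
  apply Continuous.quotient_map'
  exact (continuous_inc.comp continuous_subtype_val).subtype_mk _

/-- the embedding `Y3 → X4` -/
def emb : C(Y3, X4) := ⟨embf, continuous_embf⟩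

theorem emb_mk (p : Om L2) : emb (mk L2 p) = mk L3 ⟨inc p.1, inc_mem_Om p.2⟩ := rfl

theorem emb_injective : Function.Injective emb := by
  intro x y h
  induction x using Quotient.inductionOn with | h p => ?_
  induction y using Quotient.inductionOn with | h q => ?_
  have h1 : mk L3 ⟨inc p.1, inc_mem_Om p.2⟩ = mk L3 ⟨inc q.1, inc_mem_Om q.2⟩ := h
  obtain ⟨j, k, h2⟩ := Quotient.exact h1
  apply Quotient.sound
  refine ⟨j, k, ?_⟩
  simp only [sg_iter_inc] at h2
  exact inc_injective h2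

end

end Pool.Agent.TH650.Emb
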