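import Pool.Agent.Helper922.HB.MV

/-! The Mayer-Vietoris sequence of mapping torus type, elementwise.
`X = P ∪ R` open, `P ∩ R = S1 ⊔ S2` open and disjoint, and `T → S1`, `T → S2`, `T → R` are
homology isomorphisms, the two maps `T → S_i ⊆ R` being homologous. -/

set_option autoImplicit false

open Set

namespace Pool.Agent.TH650.MT

open Pool.Agent.Helper922.HB

noncomputable section

variable {X Y T Z : Type} [TopologicalSpace X] [TopologicalSpace Y] [TopologicalSpace T]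
  [TopologicalSpace Z]

/-- chains -/
abbrev Cn (X : Type) [TopologicalSpace X] (n : ℕ) : Type := Sing X n →₀ ℤ

/-- homologous chains -/
def Ho {n : ℕ} (a b : Cn X n) : Prop := a - b ∈ Bdy X n

theorem Ho.refl {n : ℕ} (a : Cn X n) : Ho a a := by
  unfold Ho; rw [sub_self]; exact Submodule.zero_mem _

theorem Ho.of_eq {n : ℕ} {a b : Cn X n} (h : a = b) : Ho a b := h ▸ Ho.refl a

theorem Ho.symm {n : ℕ} {a b : Cn X n} (h : Ho a b) : Ho b a := by
  unfold Ho at *; rw [← neg_sub]; exact Submodule.neg_mem _ h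

theorem Ho.trans {n : ℕ} {a b c : Cn X n} (h : Ho a b) (h' : Ho b c) : Ho a c := by
  unfold Ho at *; rw [← sub_add_sub_cancel a b c]; exact Submodule.add_mem _ h h'

theorem Ho.add {n : ℕ} {a b a' b' : Cn X n} (h : Ho a b) (h' : Ho a' b') :
    Ho (a + a') (b + b') := by
  unfold Ho at *; rw [add_sub_add_comm]; exact Submodule.add_mem _ h h'

theorem Ho.neg {n : ℕ} {a b : Cn X n} (h : Ho a b) : Ho (-a) (-b) := by
  unfold Ho at *
  have e : -a - -b = -(a - b) := by abel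
  rw [e]; exact Submodule.neg_mem _ h

theorem Ho.sub {n : ℕ} {a b a' b' : Cn X n} (h : Ho a b) (h' : Ho a' b') :
    Ho (a - a') (b - b') := by
  rw [sub_eq_add_neg, sub_eq_add_neg]; exact h.add h'.neg

theorem Ho.smul {n : ℕ} {a b : Cn X n} (k : ℤ) (h : Ho a b) : Ho (k • a) (k • b) := by
  unfold Ho at *; rw [← smul_sub]; exact Submodule.smul_mem _ k h

theorem Ho.push {n : ℕ} {a b : Cn X n} (f : C(X, Y)) (h : Ho a b) :
    Ho (push f n a) (push f n b) := by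
  unfold Ho at *; rw [← map_sub]; exact push_mem_Bdy f n _ h

theorem ho_zero {n : ℕ} {a : Cn X n} : Ho a 0 ↔ a ∈ Bdy X n := by
  unfold Ho; rw [sub_zero]

theorem Ho.bdy {n : ℕ} {a b : Cn X n} (h : Ho a b) (hb : b ∈ Bdy X n) : a ∈ Bdy X n :=
  ho_zero.1 (h.trans (ho_zero.2 hb))

theorem Ho.cyc {n : ℕ} {a b : Cn X n} (h : Ho a b) (hb : b ∈ Cyc X n) : a ∈ Cyc X n := by
  have h1 := Bdy_le_Cyc n h
  have h2 := (Cyc X n).add_mem h1 hb
  rwa [sub_add_cancel] at h2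

theorem ho_bdry {n : ℕ} (a : Cn X (n + 1)) : Ho (bdry X n a) 0 := ho_zero.2 ⟨a, rfl⟩

/-- homotopic maps -/
theorem ho_homotopic (H : C(X × unitInterval, Y)) (f g : C(X, Y))
    (h0 : ∀ x, H (x, 0) = f x) (h1 : ∀ x, H (x, 1) = g x) {n : ℕ} {z : Cn X n}
    (hz : z ∈ Cyc X n) : Ho (push f n z) (push g n z) :=
  Ho.symm (push_sub_mem_of_homotopy H f g h0 h1 n z hz)

theorem cyc_of_bdry {n : ℕ} {a : Cn X (n + 1)} (h : bdry X n a = 0) : a ∈ Cyc X (n + 1) := h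

theorem bdry_of_cyc {n : ℕ} {a : Cn X (n + 1)} (h : a ∈ Cyc X (n + 1)) : bdry X n a = 0 := h

/-- chains of the empty space -/
theorem empty_chain {n : ℕ} [IsEmpty X] (a : Cn X n) : a = 0 := by
  have : IsEmpty (Sing X n) := ⟨fun σ => isEmptyElim (σ (stdSimplex.vertex 0))⟩
  exact Subsingleton.elim _ _

/-! ### disjoint unions -/

/-- every cycle of a disjoint union of two open sets is homologous to a sum -/
theorem disj_split (U V : Set X) (hU : IsOpen U) (hV : IsOpen V) (hUV : ∀ x, x ∈ U ∨ x ∈ V)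
    (hd : U ∩ V = ∅) (n : ℕ) (z : Cn X n) (hz : z ∈ Cyc X n) :
    ∃ u ∈ Cyc U n, ∃ v ∈ Cyc V n, Ho z (push (sub U) n u + push (sub V) n v) := by
  have hE : IsEmpty ↥(U ∩ V) := by rw [hd]; infer_instance
  cases n with
  | zero =>
    obtain ⟨u, v, h⟩ := mv_zero U V hUV z
    exact ⟨u, Submodule.mem_top, v, Submodule.mem_top, Ho.of_eq h⟩
  | succ n =>
    obtain ⟨u, v, d, _, h2, h3, h4⟩ := mv_split U V hU hV hUV n z hz
    rw [empty_chain d, map_zero] at h3 h4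
    rw [neg_zero] at h4
    exact ⟨u, h3, v, h4, h2⟩

theorem disj_inj (U V : Set X) (hU : IsOpen U) (hV : IsOpen V) (hUV : ∀ x, x ∈ U ∨ x ∈ V)
    (hd : U ∩ V = ∅) (n : ℕ) (u : Cn U n) (v : Cn V n) (hu : u ∈ Cyc U n) (hv : v ∈ Cyc V n)
    (h : push (sub U) n u + push (sub V) n v ∈ Bdy X n) : u ∈ Bdy U n ∧ v ∈ Bdy V n := by
  have hE : IsEmpty ↥(U ∩ V) := by rw [hd]; infer_instance
  obtain ⟨d, _, h1, h2⟩ := mv_inj U V hU hV hUV n u v hu hv h
  rw [empty_chain d, map_zero] at h1 h2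
  rw [sub_zero] at h1
  rw [add_zero] at h2
  exact ⟨h1, h2⟩

/-! ### the data -/

/-- corestriction of a map -/
def cor (f : C(T, X)) (P : Set X) (h : ∀ t, f t ∈ P) : C(T, P) := ⟨fun t => ⟨f t, h t⟩, by fun_prop⟩

/-- The data of the Mayer-Vietoris sequence of mapping torus type. -/
structure GD (X T : Type) [TopologicalSpace X] [TopologicalSpace T] where
  P : Set X
  R : Set X
  S1 : Set X
  S2 : Set X
  openP : IsOpen P
  openR : IsOpen R
  openS1 : IsOpen S1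
  openS2 : IsOpen S2
  cover : ∀ x, x ∈ P ∨ x ∈ R
  inter : P ∩ R = S1 ∪ S2
  disj : S1 ∩ S2 = ∅
  g1 : C(T, X)
  g2 : C(T, X)
  mem1 : ∀ t, g1 t ∈ S1
  mem2 : ∀ t, g2 t ∈ S2
  memP1 : ∀ t, g1 t ∈ P
  memP2 : ∀ t, g2 t ∈ P
  memR1 : ∀ t, g1 t ∈ R
  memR2 : ∀ t, g2 t ∈ R
  iso1 : HE (cor g1 S1 mem1)
  iso2 : HE (cor g2 S2 mem2)
  isoR : HE (cor g1 R memR1)
  homR : ∀ (n : ℕ) (t : Cn T n), t ∈ Cyc T n →
    Ho (push (cor g1 R memR1) n t) (push (cor g2 R memR2) n t)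

namespace GD

variable (D : GD X T)

/-- the first map `T → P` -/
def f1 : C(T, D.P) := cor D.g1 D.P D.memP1
/-- the second map `T → P` -/
def f2 : C(T, D.P) := cor D.g2 D.P D.memP2
/-- the first map `T → R` -/
def r1 : C(T, D.R) := cor D.g1 D.R D.memR1
/-- the second map `T → R` -/
def r2 : C(T, D.R) := cor D.g2 D.R D.memR2
/-- the first map to the intersection -/
def j1 : C(T, ↥(D.P ∩ D.R)) := cor D.g1 (D.P ∩ D.R) fun t => ⟨D.memP1 t, D.memR1 t⟩
/-- the second map to the intersection -/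
def j2 : C(T, ↥(D.P ∩ D.R)) := cor D.g2 (D.P ∩ D.R) fun t => ⟨D.memP2 t, D.memR2 t⟩

theorem inl_j1 {n : ℕ} (t : Cn T n) :
    push (inl D.P D.R) n (push D.j1 n t) = push D.f1 n t := by rw [push_push]; rfl
theorem inl_j2 {n : ℕ} (t : Cn T n) :
    push (inl D.P D.R) n (push D.j2 n t) = push D.f2 n t := by rw [push_push]; rfl
theorem inr_j1 {n : ℕ} (t : Cn T n) :
    push (inr D.P D.R) n (push D.j1 n t) = push D.r1 n t := by rw [push_push]; rfl
theorem inr_j2 {n : ℕ} (t : Cn T n) :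
    push (inr D.P D.R) n (push D.j2 n t) = push D.r2 n t := by rw [push_push]; rfl
theorem sub_f1 {n : ℕ} (t : Cn T n) : push (sub D.P) n (push D.f1 n t) = push D.g1 n t := by
  rw [push_push]; rfl
theorem sub_f2 {n : ℕ} (t : Cn T n) : push (sub D.P) n (push D.f2 n t) = push D.g2 n t := by
  rw [push_push]; rfl
theorem sub_r1 {n : ℕ} (t : Cn T n) : push (sub D.R) n (push D.r1 n t) = push D.g1 n t := by
  rw [push_push]; rfl
theorem sub_r2 {n : ℕ} (t : Cn T n) : push (sub D.R) n (push D.r2 n t) = push D.g2 n t := by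
  rw [push_push]; rfl

/-- the two pieces of the intersection -/
def Z1 : Set ↥(D.P ∩ D.R) := Subtype.val ⁻¹' D.S1
/-- the two pieces of the intersection -/
def Z2 : Set ↥(D.P ∩ D.R) := Subtype.val ⁻¹' D.S2

theorem openZ1 : IsOpen D.Z1 := D.openS1.preimage continuous_subtype_val
theorem openZ2 : IsOpen D.Z2 := D.openS2.preimage continuous_subtype_val

theorem coverZ (x : ↥(D.P ∩ D.R)) : x ∈ D.Z1 ∨ x ∈ D.Z2 := by
  have h : x.1 ∈ D.S1 ∪ D.S2 := by rw [← D.inter]; exact x.2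
  exact h

theorem disjZ : D.Z1 ∩ D.Z2 = ∅ := by
  rw [Z1, Z2, ← preimage_inter, D.disj, preimage_empty]

theorem memI1 {x : X} (h : x ∈ D.S1) : x ∈ D.P ∩ D.R := by rw [D.inter]; exact Or.inl h
theorem memI2 {x : X} (h : x ∈ D.S2) : x ∈ D.P ∩ D.R := by rw [D.inter]; exact Or.inr h

/-- identification of the piece -/
def eZ1 : D.Z1 ≃ₜ D.S1 where
  toFun x := ⟨x.1.1, x.2⟩
  invFun x := ⟨⟨x.1, D.memI1 x.2⟩, x.2⟩
  left_inv _ := rfl
  right_inv _ := rfl
  continuous_toFun := by fun_prop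
  continuous_invFun := by fun_prop

/-- identification of the piece -/
def eZ2 : D.Z2 ≃ₜ D.S2 where
  toFun x := ⟨x.1.1, x.2⟩
  invFun x := ⟨⟨x.1, D.memI2 x.2⟩, x.2⟩
  left_inv _ := rfl
  right_inv _ := rfl
  continuous_toFun := by fun_prop
  continuous_invFun := by fun_prop

/-- the map to the piece -/
def k1 : C(T, D.Z1) := cor D.j1 D.Z1 D.mem1
/-- the map to the piece -/
def k2 : C(T, D.Z2) := cor D.j2 D.Z2 D.mem2

theorem HEk1 : HE D.k1 := by
  have h : HE (⟨D.eZ1, D.eZ1.continuous⟩ : C(D.Z1, D.S1)) := HE_of_homeo D.eZ1 _ fun _ => rfl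
  exact h.of_comp_left D.iso1

theorem HEk2 : HE D.k2 := by
  have h : HE (⟨D.eZ2, D.eZ2.continuous⟩ : C(D.Z2, D.S2)) := HE_of_homeo D.eZ2 _ fun _ => rfl
  exact h.of_comp_left D.iso2

theorem sub_k1 {n : ℕ} (t : Cn T n) : push (sub D.Z1) n (push D.k1 n t) = push D.j1 n t := by
  rw [push_push]; rfl
theorem sub_k2 {n : ℕ} (t : Cn T n) : push (sub D.Z2) n (push D.k2 n t) = push D.j2 n t := by
  rw [push_push]; rfl

theorem I_split {n : ℕ} (d : Cn ↥(D.P ∩ D.R) n) (hd : d ∈ Cyc _ n) :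
    ∃ t1 ∈ Cyc T n, ∃ t2 ∈ Cyc T n, Ho d (push D.j1 n t1 + push D.j2 n t2) := by
  obtain ⟨u, hu, v, hv, h⟩ := disj_split D.Z1 D.Z2 D.openZ1 D.openZ2 D.coverZ D.disjZ n d hd
  obtain ⟨t1, ht1, e1⟩ := (D.HEk1 n).2 u hu
  obtain ⟨t2, ht2, e2⟩ := (D.HEk2 n).2 v hv
  refine ⟨t1, ht1, t2, ht2, h.trans ?_⟩
  have h1 := Ho.push (sub D.Z1) (a := u) (b := push D.k1 n t1) e1
  have h2 := Ho.push (sub D.Z2) (a := v) (b := push D.k2 n t2) e2
  rw [sub_k1] at h1
  rw [sub_k2] at h2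
  exact h1.add h2

theorem I_inj {n : ℕ} {t1 t2 : Cn T n} (h1 : t1 ∈ Cyc T n) (h2 : t2 ∈ Cyc T n)
    (h : push D.j1 n t1 + push D.j2 n t2 ∈ Bdy _ n) : t1 ∈ Bdy T n ∧ t2 ∈ Bdy T n := by
  rw [← sub_k1, ← sub_k2] at h
  obtain ⟨e1, e2⟩ := disj_inj D.Z1 D.Z2 D.openZ1 D.openZ2 D.coverZ D.disjZ n _ _
    (push_mem_Cyc D.k1 n _ h1) (push_mem_Cyc D.k2 n _ h2) h
  exact ⟨(D.HEk1 n).1 _ h1 e1, (D.HEk2 n).1 _ h2 e2⟩

/-- if `r1 t1 + r2 t2` bounds in `R` then `t2` is homologous to `-t1` -/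
theorem R_rel {n : ℕ} {t1 t2 : Cn T n} (h1 : t1 ∈ Cyc T n) (h2 : t2 ∈ Cyc T n)
    (h : push D.r1 n t1 + push D.r2 n t2 ∈ Bdy _ n) : Ho t2 (-t1) := by
  have h3 : Ho (push D.r1 n (t2 + t1)) 0 := by
    rw [map_add, add_comm]
    have := (Ho.refl (push D.r1 n t1)).add (D.homR n t2 h2)
    exact this.trans (ho_zero.2 h)
  have h4 := (D.isoR n).1 (t2 + t1) ((Cyc T n).add_mem h2 h1) (ho_zero.1 h3)
  unfold Ho
  rwa [sub_neg_eq_add]

/-- `t` is the boundary class of `z` -/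
def Conn {n : ℕ} (z : Cn X (n + 1)) (t : Cn T n) : Prop :=
  ∃ (u : Cn D.P (n + 1)) (v : Cn D.R (n + 1)),
    Ho z (push (sub D.P) (n + 1) u + push (sub D.R) (n + 1) v) ∧
    bdry _ n u = push D.f1 n t - push D.f2 n t ∧
    bdry _ n v = -(push D.r1 n t - push D.r2 n t)

theorem conn_exists {n : ℕ} (z : Cn X (n + 1)) (hz : z ∈ Cyc X (n + 1)) :
    ∃ t ∈ Cyc T n, D.Conn z t := by
  obtain ⟨u, v, d, hd, h2, h3, h4⟩ := mv_split D.P D.R D.openP D.openR D.cover n z hz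
  obtain ⟨t1, ht1, t2, ht2, ⟨e, he⟩⟩ := D.I_split d hd
  -- in `R`
  have hR : push D.r1 n t1 + push D.r2 n t2 ∈ Bdy _ n := by
    refine ⟨-(v + push (inr D.P D.R) (n + 1) e), ?_⟩
    rw [map_neg, map_add, h4, bdry_push, he, map_sub, map_add, inr_j1, inr_j2]
    abel
  obtain ⟨τ, hτ⟩ := D.R_rel ht1 ht2 hR
  refine ⟨t1, ht1, u - push (inl D.P D.R) (n + 1) e - push D.f2 (n + 1) τ,
    v + push (inr D.P D.R) (n + 1) e + push D.r2 (n + 1) τ, ?_, ?_, ?_⟩
  · have e1 : push (sub D.P) (n + 1) (u - push (inl D.P D.R) (n + 1) e - push D.f2 (n + 1) τ) +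
        push (sub D.R) (n + 1) (v + push (inr D.P D.R) (n + 1) e + push D.r2 (n + 1) τ) =
        push (sub D.P) (n + 1) u + push (sub D.R) (n + 1) v := by
      simp only [map_sub, map_add, mvx_push_inl, mvx_push_inr, sub_f2, sub_r2]
      abel
    rw [e1]
    exact h2
  · rw [map_sub, map_sub, h3, bdry_push, bdry_push, he, hτ]
    simp only [map_sub, map_add, map_neg, inl_j1, inl_j2]
    abel
  · rw [map_add, map_add, h4, bdry_push, bdry_push, he, hτ]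
    simp only [map_sub, map_add, map_neg, inr_j1, inr_j2]
    abel

theorem conn_zero {n : ℕ} {z : Cn X (n + 1)} {t : Cn T n}
    (h : D.Conn z t) (ht : t ∈ Bdy T n) : ∃ w ∈ Cyc D.P (n + 1), Ho z (push (sub D.P) (n + 1) w) := by
  obtain ⟨u, v, h1, h2, h3⟩ := h
  obtain ⟨τ, rfl⟩ := ht
  have hv : v + push D.r1 (n + 1) τ - push D.r2 (n + 1) τ ∈ Cyc D.R (n + 1) := by
    apply cyc_of_bdry
    rw [map_sub, map_add, bdry_push, bdry_push, h3]
    abel
  obtain ⟨s, hs, h4⟩ := (D.isoR (n + 1)).2 _ hv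
  have h4' : Ho (v + push D.r1 (n + 1) τ - push D.r2 (n + 1) τ) (push D.r1 (n + 1) s) := h4
  refine ⟨u - push D.f1 (n + 1) τ + push D.f2 (n + 1) τ + push D.f1 (n + 1) s, ?_, ?_⟩
  · apply cyc_of_bdry
    have hs0 : bdry T n s = 0 := hs
    rw [map_add, map_add, map_sub, bdry_push, bdry_push, bdry_push, h2, hs0, map_zero]
    abel
  · refine h1.trans ?_
    have h5 := h4'.push (sub D.R)
    rw [sub_r1] at h5
    simp only [map_sub, map_add, sub_r1, sub_r2] at h5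
    simp only [map_sub, map_add, sub_f1, sub_f2]
    have h6 := (Ho.refl (push (sub D.P) (n + 1) u - push D.g1 (n + 1) τ +
      push D.g2 (n + 1) τ)).add h5
    have e1 : push (sub D.P) (n + 1) u - push D.g1 (n + 1) τ + push D.g2 (n + 1) τ +
        (push (sub D.R) (n + 1) v + push D.g1 (n + 1) τ - push D.g2 (n + 1) τ) =
        push (sub D.P) (n + 1) u + push (sub D.R) (n + 1) v := by abel
    rwa [e1] at h6

theorem conn_bdy {n : ℕ} {z : Cn X (n + 1)} {t : Cn T n} (ht : t ∈ Cyc T n)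
    (h : D.Conn z t) (hz : z ∈ Bdy X (n + 1)) : t ∈ Bdy T n := by
  obtain ⟨u, v, h1, h2, h3⟩ := h
  have h4 := mv_conn D.P D.R D.openP D.openR D.cover n u v (push D.j1 n t + push D.j2 n (-t))
    (by rw [map_add, inl_j1, inl_j2, map_neg, h2]; abel)
    (by rw [map_add, inr_j1, inr_j2, map_neg, h3]; abel) (h1.symm.bdy hz)
  exact (D.I_inj ht ((Cyc T n).neg_mem ht) h4).1

theorem conn_make {n : ℕ} {t : Cn T n} (ht : t ∈ Cyc T n)
    (h : Ho (push D.f1 n t) (push D.f2 n t)) : ∃ z ∈ Cyc X (n + 1), D.Conn z t := by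
  obtain ⟨u, hu⟩ := h
  obtain ⟨v, hv⟩ := D.homR n t ht
  refine ⟨push (sub D.P) (n + 1) u + push (sub D.R) (n + 1) (-v), ?_, u, -v, Ho.refl _, hu, ?_⟩
  · apply cyc_of_bdry
    rw [map_add, bdry_push, bdry_push, map_neg, hu, hv]
    simp only [map_sub, map_neg, sub_f1, sub_f2, sub_r1, sub_r2]
    have e1 : push (sub D.R) n (push (cor D.g1 D.R D.memR1) n t) = push D.g1 n t := D.sub_r1 t
    have e2 : push (sub D.R) n (push (cor D.g2 D.R D.memR2) n t) = push D.g2 n t := D.sub_r2 t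
    rw [e1, e2]
    abel
  · rw [map_neg, hv]; rfl

theorem Conn.add {D : GD X T} {n : ℕ} {z z' : Cn X (n + 1)} {t t' : Cn T n} (h : D.Conn z t)
    (h' : D.Conn z' t') : D.Conn (z + z') (t + t') := by
  obtain ⟨u, v, h1, h2, h3⟩ := h
  obtain ⟨u', v', h1', h2', h3'⟩ := h'
  refine ⟨u + u', v + v', ?_, ?_, ?_⟩
  · rw [map_add, map_add, add_add_add_comm]
    exact h1.add h1'
  · rw [map_add, h2, h2', map_add, map_add]; abel
  · rw [map_add, h3, h3', map_add, map_add]; abel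

theorem Conn.smul {D : GD X T} {n : ℕ} {z : Cn X (n + 1)} {t : Cn T n} (k : ℤ) (h : D.Conn z t) :
    D.Conn (k • z) (k • t) := by
  obtain ⟨u, v, h1, h2, h3⟩ := h
  refine ⟨k • u, k • v, ?_, ?_, ?_⟩
  · rw [map_smul, map_smul, ← smul_add]
    exact h1.smul k
  · rw [map_smul, h2, map_smul, map_smul, smul_sub]
  · rw [map_smul, h3, map_smul, map_smul, smul_neg, smul_sub]

theorem Conn.sub {D : GD X T} {n : ℕ} {z z' : Cn X (n + 1)} {t t' : Cn T n} (h : D.Conn z t)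
    (h' : D.Conn z' t') : D.Conn (z - z') (t - t') := by
  have := h.add (h'.smul (-1))
  rwa [neg_one_smul, neg_one_smul, ← sub_eq_add_neg, ← sub_eq_add_neg] at this

theorem Conn.ho {D : GD X T} {n : ℕ} {z z' : Cn X (n + 1)} {t : Cn T n} (h : D.Conn z t)
    (h' : Ho z' z) : D.Conn z' t := by
  obtain ⟨u, v, h1, h2, h3⟩ := h
  exact ⟨u, v, h'.trans h1, h2, h3⟩

/-- cycles of `P` which bound in `X` -/
theorem P_bdy {n : ℕ} {w : Cn D.P n} (hw : w ∈ Cyc _ n) (h : push (sub D.P) n w ∈ Bdy X n) :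
    ∃ t ∈ Cyc T n, Ho w (push D.f1 n t - push D.f2 n t) := by
  obtain ⟨d, hd, h1, h2⟩ := mv_inj D.P D.R D.openP D.openR D.cover n w 0 hw
    (Submodule.zero_mem _) (by rw [map_zero, add_zero]; exact h)
  obtain ⟨t1, ht1, t2, ht2, h3⟩ := D.I_split d hd
  rw [zero_add] at h2
  have hR : push D.r1 n t1 + push D.r2 n t2 ∈ Bdy _ n := by
    have h4 := h3.push (inr D.P D.R)
    rw [map_add, inr_j1, inr_j2] at h4
    exact h4.symm.bdy h2
  have h5 := D.R_rel ht1 ht2 hR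
  refine ⟨t1, ht1, ?_⟩
  have h6 : Ho w (push (inl D.P D.R) n d) := h1
  have h7 := h3.push (inl D.P D.R)
  rw [map_add, inl_j1, inl_j2] at h7
  have h8 := (Ho.refl (push D.f1 n t1)).add (h5.push D.f2)
  rw [map_neg, ← sub_eq_add_neg] at h8
  exact h6.trans (h7.trans h8)

theorem P_van {n : ℕ} {t : Cn T n} (ht : t ∈ Cyc T n) :
    Ho (push (Helper922.HB.sub D.P) n (push D.f1 n t - push D.f2 n t)) 0 := by
  rw [map_sub, sub_f1, sub_f2]
  have h := (D.homR n t ht).push (Helper922.HB.sub D.R)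
  have e1 : push (Helper922.HB.sub D.R) n (push (cor D.g1 D.R D.memR1) n t) = push D.g1 n t :=
    D.sub_r1 t
  have e2 : push (Helper922.HB.sub D.R) n (push (cor D.g2 D.R D.memR2) n t) = push D.g2 n t :=
    D.sub_r2 t
  rw [e1, e2] at h
  exact ho_zero.2 h

end GD

end

end Pool.Agent.TH650.MT
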