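import Pool.Agent.TH650.Emb.MT
import Pool.Agent.TH650.Emb.HDefs

/-! Consequences of the mapping torus sequence. -/

set_option autoImplicit false

open Set

namespace Pool.Agent.TH650.MT

open Pool.Agent.Helper922.HB

noncomputable section

variable {X Y T Z : Type} [TopologicalSpace X] [TopologicalSpace Y] [TopologicalSpace T]
  [TopologicalSpace Z]

/-- vanishing of the (unreduced) homology -/
def Acy (X : Type) [TopologicalSpace X] (n : ℕ) : Prop := ∀ z : Cn X n, z ∈ Cyc X n → z ∈ Bdy X n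

/-- `g` generates `H_n(X) ≅ ℤ` -/
structure HZt (X : Type) [TopologicalSpace X] (n : ℕ) (g : Cn X n) : Prop where
  cyc : g ∈ Cyc X n
  gen : ∀ z : Cn X n, z ∈ Cyc X n → ∃ a : ℤ, Ho z (a • g)
  inf : ∀ a : ℤ, Ho (a • g) 0 → a = 0

theorem acy_iff {n : ℕ} : Acy X (n + 1) ↔ Pool.Agent.H904R2.RAcyc X (n + 1) := Iff.rfl

theorem HZt.hasZ {n : ℕ} {g : Cn X (n + 1)} (h : HZt X (n + 1) g) :
    Pool.Agent.TH650.Emb.HasZ X (n + 1) := by
  refine ⟨g, h.cyc, ?_, ?_⟩
  · intro z hz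
    obtain ⟨a, ha⟩ := h.gen z hz
    exact ⟨a, ha⟩
  · intro a ha
    exact h.inf a (ho_zero.2 ha)

theorem HZt.of_hasZ {n : ℕ} (h : Pool.Agent.TH650.Emb.HasZ X (n + 1)) :
    ∃ g, HZt X (n + 1) g := by
  obtain ⟨g, h1, h2, h3⟩ := h
  exact ⟨g, h1, fun z hz => h2 z hz, fun a ha => h3 a (ho_zero.1 ha)⟩

theorem Acy.of_HE {f : C(X, Y)} (hf : HE f) {n : ℕ} (h : Acy X n) : Acy Y n := by
  intro z hz
  obtain ⟨y, hy, h1⟩ := (hf n).2 z hz
  exact Ho.bdy (a := z) (b := push f n y) h1 (push_mem_Bdy f n _ (h y hy))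

theorem Acy.of_HE' {f : C(X, Y)} (hf : HE f) {n : ℕ} (h : Acy Y n) : Acy X n := by
  intro z hz
  exact (hf n).1 z hz (h _ (push_mem_Cyc f n z hz))

theorem HZt.of_HE {f : C(X, Y)} (hf : HE f) {n : ℕ} {g : Cn X n} (h : HZt X n g) :
    HZt Y n (push f n g) := by
  refine ⟨push_mem_Cyc f n g h.cyc, ?_, ?_⟩
  · intro z hz
    obtain ⟨y, hy, h1⟩ := (hf n).2 z hz
    obtain ⟨a, ha⟩ := h.gen y hy
    refine ⟨a, ?_⟩
    have h2 := ha.push f
    rw [map_smul] at h2
    exact Ho.trans (b := push f n y) h1 h2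
  · intro a ha
    apply h.inf a
    rw [ho_zero]
    apply (hf n).1 _ ((Cyc X n).smul_mem a h.cyc)
    rw [map_smul]
    exact ho_zero.1 ha

theorem HE_of_ho {f g : C(X, Y)} (hf : HE f)
    (h : ∀ (n : ℕ) (z : Cn X n), z ∈ Cyc X n → Ho (push f n z) (push g n z)) : HE g := by
  intro n
  constructor
  · intro z hz hg
    exact (hf n).1 z hz ((h n z hz).bdy hg)
  · intro b hb
    obtain ⟨z, hz, h1⟩ := (hf n).2 b hb
    exact ⟨z, hz, Ho.trans (b := push f n z) h1 (h n z hz)⟩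

namespace GD

variable (D : GD X T)

theorem acy_succ {n : ℕ}
    (hP : ∀ w ∈ Cyc D.P (n + 1), ∃ t ∈ Cyc T (n + 1),
      Ho w (push D.f1 (n + 1) t - push D.f2 (n + 1) t))
    (hT : ∀ t ∈ Cyc T n, Ho (push D.f1 n t) (push D.f2 n t) → t ∈ Bdy T n) : Acy X (n + 1) := by
  intro z hz
  obtain ⟨t, ht, hc⟩ := D.conn_exists z hz
  have hc' := hc
  obtain ⟨u, v, h1, h2, h3⟩ := hc'
  have ht' : t ∈ Bdy T n := hT t ht ⟨u, h2⟩
  obtain ⟨w, hw, h4⟩ := D.conn_zero hc ht'
  obtain ⟨s, hs, h5⟩ := hP w hw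
  exact ho_zero.1 (h4.trans ((h5.push _).trans (D.P_van hs)))

theorem gen_P {n : ℕ} {w0 : Cn D.P (n + 1)} (hw : HZt D.P (n + 1) w0)
    (hzero : ∀ t ∈ Cyc T (n + 1), Ho (push D.f1 (n + 1) t) (push D.f2 (n + 1) t))
    (hT : ∀ t ∈ Cyc T n, Ho (push D.f1 n t) (push D.f2 n t) → t ∈ Bdy T n) :
    HZt X (n + 1) (push (Helper922.HB.sub D.P) (n + 1) w0) := by
  refine ⟨push_mem_Cyc _ _ _ hw.cyc, ?_, ?_⟩
  · intro z hz
    obtain ⟨t, ht, hc⟩ := D.conn_exists z hz
    have hc' := hc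
    obtain ⟨u, v, h1, h2, h3⟩ := hc'
    have ht' : t ∈ Bdy T n := hT t ht ⟨u, h2⟩
    obtain ⟨w, hw', h4⟩ := D.conn_zero hc ht'
    obtain ⟨a, ha⟩ := hw.gen w hw'
    refine ⟨a, h4.trans ?_⟩
    have := ha.push (Helper922.HB.sub D.P)
    rwa [map_smul] at this
  · intro a ha
    apply hw.inf a
    rw [← map_smul] at ha
    obtain ⟨t, ht, h1⟩ := D.P_bdy ((Cyc D.P (n + 1)).smul_mem a hw.cyc) (ho_zero.1 ha)
    refine h1.trans ?_
    exact ho_zero.2 (hzero t ht)

theorem gen_T {n : ℕ}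
    (hP : ∀ w ∈ Cyc D.P (n + 1), ∃ t ∈ Cyc T (n + 1),
      Ho w (push D.f1 (n + 1) t - push D.f2 (n + 1) t))
    {t0 : Cn T n} (ht0 : HZt T n t0) {z0 : Cn X (n + 1)} (hz0 : z0 ∈ Cyc X (n + 1))
    (hc0 : D.Conn z0 t0) : HZt X (n + 1) z0 := by
  refine ⟨hz0, ?_, ?_⟩
  · intro z hz
    obtain ⟨t, ht, hc⟩ := D.conn_exists z hz
    obtain ⟨a, ha⟩ := ht0.gen t ht
    refine ⟨a, ?_⟩
    have h1 := Conn.sub hc (Conn.smul a hc0)
    obtain ⟨w, hw, h2⟩ := D.conn_zero h1 ha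
    obtain ⟨s, hs, h3⟩ := hP w hw
    have h4 := h2.trans ((h3.push _).trans (D.P_van hs))
    exact ho_zero.1 h4
  · intro a ha
    apply ht0.inf a
    rw [ho_zero] at ha ⊢
    exact D.conn_bdy ((Cyc T n).smul_mem a ht0.cyc) (Conn.smul a hc0) ha

end GD

/-! ### degree zero -/

/-- points are homologous in a path connected space -/
theorem ho_points [PathConnectedSpace X] (σ τ : Sing X 0) :
    Ho (Finsupp.single σ 1 : Cn X 0) (Finsupp.single τ 1) := by
  obtain ⟨γ⟩ := PathConnectedSpace.joined (σ (stdSimplex.vertex 0)) (τ (stdSimplex.vertex 0))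
  have hc : Continuous fun x : stdSimplex ℝ (Fin 2) => γ.extend (x.1 1) :=
    γ.continuous_extend.comp ((continuous_apply (1 : Fin 2)).comp continuous_subtype_val)
  let s : Sing X 1 := ⟨fun x => γ.extend (x.1 1), hc⟩
  refine ⟨-Finsupp.single s 1, ?_⟩
  have hpt : ∀ (ρ : Sing X 0), ρ = ContinuousMap.const _ (ρ (stdSimplex.vertex 0)) := by
    intro ρ
    apply ContinuousMap.ext
    intro x
    have : x = stdSimplex.vertex 0 := Subsingleton.elim _ _
    rw [this]; rfl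
  have e : bdry X 0 (Finsupp.single s 1) = Finsupp.single τ 1 - Finsupp.single σ 1 := by
    have h1 : bdry X 0 (Finsupp.single s 1) =
        ∑ i : Fin 2, ((-1 : ℤ) ^ (i : ℕ)) • Finsupp.single (sface 0 i s) (1 : ℤ) :=
      Pool.Agent.H904R2.Sph.sbd_single 0 s
    rw [h1, Fin.sum_univ_two]
    have h2 : sface 0 0 s = τ := by
      rw [hpt (sface 0 0 s), hpt τ]
      congr 1
      show γ.extend ((stdSimplex.map (0 : Fin 2).succAbove
        (stdSimplex.vertex (0 : Fin 1) : stdSimplex ℝ (Fin 1))).1 1) = _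
      rw [stdSimplex.map_vertex]
      simp [stdSimplex.vertex]
    have h3 : sface 0 1 s = σ := by
      rw [hpt (sface 0 1 s), hpt σ]
      congr 1
      show γ.extend ((stdSimplex.map (1 : Fin 2).succAbove
        (stdSimplex.vertex (0 : Fin 1) : stdSimplex ℝ (Fin 1))).1 1) = _
      rw [stdSimplex.map_vertex]
      simp [stdSimplex.vertex]
    rw [h2, h3]
    simp [sub_eq_add_neg]
  rw [map_neg, e]
  abel

theorem pc_HZt [PathConnectedSpace X] (σ : Sing X 0) : HZt X 0 (Finsupp.single σ 1) := by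
  refine ⟨Submodule.mem_top, ?_, ?_⟩
  · intro z hz
    clear hz
    induction z using Finsupp.induction_linear with
    | zero => exact ⟨0, Ho.of_eq (by simp)⟩
    | add a b ha hb =>
      obtain ⟨m, hm⟩ := ha
      obtain ⟨k, hk⟩ := hb
      exact ⟨m + k, by rw [add_smul]; exact hm.add hk⟩
    | single τ m =>
      refine ⟨m, ?_⟩
      have := (ho_points τ σ).smul m
      have e : (Finsupp.single τ m : Cn X 0) = m • Finsupp.single τ 1 := by simp
      rw [e]
      exact this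
  · intro a ha
    rw [ho_zero] at ha
    obtain ⟨y, hy⟩ := ha
    have h1 : Pool.Agent.H904R2.Sph.aug X 0 (bdry X 0 y) = 0 := Pool.Agent.H904R2.Sph.aug_sbd y
    rw [hy, map_smul, Pool.Agent.H904R2.Sph.aug_single] at h1
    simpa using h1

theorem ho_zero_dim [PathConnectedSpace Y] (f g : C(X, Y)) (z : Cn X 0) :
    Ho (push f 0 z) (push g 0 z) := by
  induction z using Finsupp.induction_linear with
  | zero => exact Ho.of_eq (by simp)
  | add a b ha hb => rw [map_add, map_add]; exact ha.add hb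
  | single τ m =>
    rw [push_single, push_single]
    have := (ho_points (f.comp τ) (g.comp τ)).smul m
    have e : ∀ σ : Sing Y 0, (Finsupp.single σ m : Cn Y 0) = m • Finsupp.single σ 1 := by simp
    rw [e, e (g.comp τ)]
    exact this

end

end Pool.Agent.TH650.MT
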