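import Pool.Agent.TH650.Emb.AS6
import Pool.Agent.TH650.Emb.AS8

/-! A rotation invariant cyclic chain of fundamental domains in `Circle × S3` does not separate. -/

set_option autoImplicit false

open Set

namespace Pool.Agent.TH650.AS

open Pool.Agent.Helper554.Smith Pool.Agent.TH650.Emb

noncomputable section

variable {n : ℕ}

/-- coordinates at `F 0` of the classes on `C.A ∪ W` -/
def LL (C : Chain XX n) (W : Set XX) (b : ZMod 3 × ZMod 3) : Prop :=
  ∃ v : List XX → ZMod 3, Coc (C.A ∪ W) 2 v ∧ Crd (C.F 0) v b.1 b.2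

/-- a separation of the complement -/
structure Sepn (A W W' : Set XX) : Prop where
  o1 : IsOpen W
  o2 : IsOpen W'
  d : Disjoint W W'
  u : W ∪ W' = Aᶜ
  n1 : W.Nonempty
  n2 : W'.Nonempty

theorem Sepn.symm {A W W' : Set XX} (h : Sepn A W W') : Sepn A W' W :=
  ⟨h.o2, h.o1, h.d.symm, by rw [union_comm]; exact h.u, h.n2, h.n1⟩

theorem Sepn.eq {A W W' : Set XX} (h : Sepn A W W') : A ∪ W = W'ᶜ := by
  ext x
  have h1 : x ∈ W ∪ W' ↔ x ∈ Aᶜ := by rw [h.u]
  have h2 : x ∈ W → x ∉ W' := fun hx => Set.disjoint_left.1 h.d hx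
  simp only [mem_union, mem_compl_iff] at h1 ⊢
  tauto

theorem Sepn.cpt {A W W' : Set XX} (h : Sepn A W W') : IsCompact (A ∪ W) := by
  rw [h.eq]
  exact h.o2.isClosed_compl.isCompact

theorem Sepn.ne {A W W' : Set XX} (h : Sepn A W W') : A ∪ W ≠ univ := by
  rw [h.eq]
  intro h1
  obtain ⟨x, hx⟩ := h.n2
  have : x ∈ W'ᶜ := by rw [h1]; trivial
  exact this hx

theorem Sepn.inter {A W W' : Set XX} (h : Sepn A W W') : (A ∪ W) ∩ (A ∪ W') = A := by
  rw [← union_inter_distrib_left, h.d.inter_eq, union_empty]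

theorem Sepn.union {A W W' : Set XX} (h : Sepn A W W') : (A ∪ W) ∪ (A ∪ W') = univ := by
  rw [h.eq, h.symm.eq, ← compl_inter, inter_comm, h.d.inter_eq, compl_empty]

section

variable {C : Chain XX n}

theorem LL_add {W : Set XX} {b b' : ZMod 3 × ZMod 3} (h : LL C W b) (h' : LL C W b') :
    LL C W (b + b') := by
  obtain ⟨v, h1, h2⟩ := h
  obtain ⟨v', h1', h2'⟩ := h'
  exact ⟨v + v', h1.add h1', Crd_add h2 h2'⟩

theorem LL_smul {W : Set XX} {b : ZMod 3 × ZMod 3} (t : ZMod 3) (h : LL C W b) :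
    LL C W (t • b) := by
  obtain ⟨v, h1, h2⟩ := h
  exact ⟨t • v, h1.smul t, Crd_smul t h2⟩

theorem LL_mono {W W' : Set XX} {b : ZMod 3 × ZMod 3} (h : LL C W b) (hs : W' ⊆ W) :
    LL C W' b := by
  obtain ⟨v, h1, h2⟩ := h
  exact ⟨v, h1.mono (union_subset_union_right _ hs), h2⟩

/-- generation -/
theorem LL_gen {W : Set XX} {x x' z' : ZMod 3} (hx : x ≠ 0) (hz : z' ≠ 0) (h : LL C W (x, 0))
    (h' : LL C W (x', z')) : LL C W (1, 0) ∧ LL C W (0, 1) := by
  obtain ⟨r, hr⟩ := inv_mul3 hx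
  obtain ⟨s, hs⟩ := inv_mul3 hz
  have h1 : LL C W (1, 0) := by
    have := LL_smul r h
    have e : r • ((x, 0) : ZMod 3 × ZMod 3) = (1, 0) := by
      apply Prod.ext
      · exact hr
      · exact mul_zero r
    rwa [e] at this
  refine ⟨h1, ?_⟩
  have h2 := LL_add (LL_smul s h') (LL_smul (-(s * x')) h1)
  have e : s • ((x', z') : ZMod 3 × ZMod 3) + (-(s * x')) • ((1, 0) : ZMod 3 × ZMod 3) =
      (0, 1) := by
    apply Prod.ext
    · show s * x' + -(s * x') * 1 = 0
      ring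
    · show s * z' + -(s * x') * 0 = 1
      rw [hs]
      ring
  rwa [e] at h2

variable [NeZero n] (hn : 6 ∣ n)

include hn in
/-- P1 : not all classes extend -/
theorem P1 {k : ℤ} {G : Circle × ℂ → ℝ} (hA : Ang C (a1 (Z := S3)) G k) {W W' : Set XX}
    (h : Sepn C.A W W') : ¬ (LL C W (1, 0) ∧ LL C W (0, 1)) := by
  rintro ⟨⟨v1, a1', b1⟩, ⟨v2, a2, b2⟩⟩
  apply X_ne5
  rw [← h.union]
  have hu : Coc (C.A ∪ W) 2 (wc (a1 (Z := S3))) := coc_wc h.cpt (CM_a1 _)
  refine hv_glue h.cpt h.symm.cpt (X_proper _ h.cpt h.ne) (X_proper _ h.symm.cpt h.symm.ne)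
    (y := cup (wc a1) (cup v1 v2)) (coc_cup hu (coc_cup a1' a2)) ?_
  rw [h.inter]
  intro c hc
  exact C.top_gen hn hA v1 v2 (a1'.mono subset_union_left) (a2.mono subset_union_left) b1 b2 c hc

include hn in
/-- P2 : every pair of coordinates is a sum -/
theorem P2 {W W' : Set XX} (h : Sepn C.A W W') (b : ZMod 3 × ZMod 3) :
    ∃ c c', LL C W c ∧ LL C W' c' ∧ c + c' = b := by
  obtain ⟨v, hv, hb⟩ := C.ex hn 0 b.1 b.2
  obtain ⟨u, a, a', k1, k2, k3, k4⟩ := MVc.mv_connect (C.A ∪ W) (C.A ∪ W') h.cpt h.symm.cpt 2 v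
    (by rw [h.inter]; exact hv)
  rw [h.union] at k1
  obtain ⟨w, hw⟩ := X_hv3 u k1
  have c1 : Coc (C.A ∪ W) 2 (a - w) := coc_two k2 (hw.mono (subset_univ _))
  have c2 : Coc (C.A ∪ W') 2 (a' - w) := coc_two k3 (hw.mono (subset_univ _))
  obtain ⟨x1, z1, r1⟩ := C.crd_exists (a - w) (c1.mono subset_union_left) 0
  obtain ⟨x2, z2, r2⟩ := C.crd_exists (a' - w) (c2.mono subset_union_left) 0
  refine ⟨(x1, z1), (-1 : ZMod 3) • (x2, z2), ⟨a - w, c1, r1⟩, LL_smul _ ⟨a' - w, c2, r2⟩, ?_⟩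
  have r3 := Crd_add r1 (Crd_smul (-1) r2)
  have e : a - w + (-1 : ZMod 3) • (a' - w) = a - a' := by
    rw [neg_one_smul]; abel
  rw [e] at r3
  rw [h.inter] at k4
  have r4 := Crd_mono (C.contT 0) ((C.mapsT 0).mono_right ((C.T_sub 0).trans (C.P_sub 0)))
    k4.cob hb
  obtain ⟨e1, e2⟩ := Crd_unique r3 r4
  exact Prod.ext e1 e2

/-- P4 -/
theorem P4 {t t' : XX → XX} (ht : Continuous t)
    (htt : ∀ x, t (t' x) = x) (htt' : ∀ x, t' (t x) = x)
    (hF : ∀ i, ∀ p, t (C.F i p) = C.F (i + 1) p) {W : Set XX} (hW : IsCompact (C.A ∪ W))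
    {b : ZMod 3 × ZMod 3} (h : LL C (t' ⁻¹' W) b) : LL C W (N b) := by
  obtain ⟨v, h1, h2⟩ := h
  have hm : MapsTo t (C.A ∪ W) (C.A ∪ t' ⁻¹' W) := by
    rintro x (hx | hx)
    · left
      obtain ⟨i, p, hp, rfl⟩ := mem_iUnion.1 hx
      rw [hF]
      exact C.P_sub (i + 1) ⟨p, hp, rfl⟩
    · right
      show t' (t x) ∈ W
      rwa [htt']
  refine ⟨pb t v, Coc_pb hW ht.continuousOn hm h1, ?_⟩
  have h3 := C.prop v (h1.mono subset_union_left) 0 _ _ h2
  unfold Crd at h3 ⊢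
  rw [pb_pb]
  have e : t ∘ C.F 0 = C.F (0 + 1) := by
    funext p
    exact hF 0 p
  rw [e]
  exact h3

theorem P4' {t t' : XX → XX} (ht' : Continuous t')
    (htt : ∀ x, t (t' x) = x) (htt' : ∀ x, t' (t x) = x)
    (hF : ∀ i, ∀ p, t (C.F i p) = C.F (i + 1) p) {W : Set XX}
    (hW' : IsCompact (C.A ∪ t' ⁻¹' W))
    {b : ZMod 3 × ZMod 3} (h : LL C W b) : ∃ c, LL C (t' ⁻¹' W) c ∧ N c = b := by
  obtain ⟨v, h1, h2⟩ := h
  have hF' : ∀ i, ∀ p, t' (C.F i p) = C.F (i - 1) p := by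
    intro i p
    have := hF (i - 1) p
    rw [sub_add_cancel] at this
    rw [← this, htt']
  have hm : MapsTo t' (C.A ∪ t' ⁻¹' W) (C.A ∪ W) := by
    rintro x (hx | hx)
    · left
      obtain ⟨i, p, hp, rfl⟩ := mem_iUnion.1 hx
      rw [hF']
      exact C.P_sub (i - 1) ⟨p, hp, rfl⟩
    · right
      exact hx
  have h3 : Coc (C.A ∪ t' ⁻¹' W) 2 (pb t' v) := Coc_pb hW' ht'.continuousOn hm h1
  obtain ⟨x, z, h4⟩ := C.crd_exists _ (h3.mono subset_union_left) 0
  refine ⟨(x, z), ⟨_, h3, h4⟩, ?_⟩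
  have h5 := C.prop _ (h3.mono subset_union_left) 0 x z h4
  unfold Crd at h5
  rw [pb_pb] at h5
  have e : t' ∘ C.F (0 + 1) = C.F 0 := by
    funext p
    show t' (C.F (0 + 1) p) = C.F 0 p
    rw [hF', add_sub_cancel_right]
  rw [e] at h5
  obtain ⟨e1, e2⟩ := Crd_unique h5 h2
  exact Prod.ext e1 e2

theorem pre_sepn {A W W' : Set XX} (h : Sepn A W W') {t' : XX → XX} (ht' : Continuous t')
    (hs : Function.Surjective t') (hA : t' ⁻¹' A = A) : Sepn A (t' ⁻¹' W) (t' ⁻¹' W') :=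
  ⟨h.o1.preimage ht', h.o2.preimage ht', h.d.preimage t', by
    rw [← preimage_union, h.u, preimage_compl, hA], h.n1.preimage hs, h.n2.preimage hs⟩

include hn in
/-- the complement of a rotation invariant chain is connected -/
theorem no_sep {k : ℤ} {G : Circle × ℂ → ℝ} (hA : Ang C (a1 (Z := S3)) G k)
    {t t' : XX → XX} (ht : Continuous t) (ht' : Continuous t')
    (htt : ∀ x, t (t' x) = x) (htt' : ∀ x, t' (t x) = x)
    (hF : ∀ i, ∀ p, t (C.F i p) = C.F (i + 1) p) : IsPreconnected (C.A)ᶜ := by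
  by_contra hcon
  -- a separation
  have hsep : ∃ O O', Sepn C.A O O' := by
    unfold IsPreconnected at hcon
    push Not at hcon
    obtain ⟨u, v, hu, hv, h1, h2, h3, h4⟩ := hcon
    have hAo : IsOpen (C.A)ᶜ := C.compact.isClosed.isOpen_compl
    refine ⟨(C.A)ᶜ ∩ u, (C.A)ᶜ ∩ v, hAo.inter hu, hAo.inter hv, ?_, ?_, h2, h3⟩
    · rw [Set.disjoint_left]
      rintro x ⟨hx, hxu⟩ ⟨_, hxv⟩
      have : x ∈ (C.A)ᶜ ∩ (u ∩ v) := ⟨hx, hxu, hxv⟩
      rw [h4] at this
      exact this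
    · rw [← inter_union_distrib_left]
      exact inter_eq_left.2 h1
  -- invariance of `A`
  have hinv : t' ⁻¹' C.A = C.A := by
    have hF' : ∀ i, ∀ p, t' (C.F i p) = C.F (i - 1) p := by
      intro i p
      have := hF (i - 1) p
      rw [sub_add_cancel] at this
      rw [← this, htt']
    ext x
    constructor
    · intro hx
      obtain ⟨i, p, hp, he⟩ := mem_iUnion.1 hx
      have : x = C.F (i + 1) p := by
        have := congrArg t he
        rw [hF, htt] at this
        exact this.symm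
      rw [this]
      exact C.P_sub (i + 1) ⟨p, hp, rfl⟩
    · intro hx
      obtain ⟨i, p, hp, rfl⟩ := mem_iUnion.1 hx
      show t' (C.F i p) ∈ C.A
      rw [hF']
      exact C.P_sub (i - 1) ⟨p, hp, rfl⟩
  have hsur : Function.Surjective t' := fun x => ⟨t x, htt' x⟩
  -- main step
  have key : ∀ O O', Sepn C.A O O' → ∀ x z, LL C O (x, z) → z ≠ 0 → False := by
    intro O O' h x z ha hz
    have hp1 := P1 hn hA h
    have ht1 := pre_sepn h ht' hsur hinv
    obtain ⟨⟨x', z'⟩, hb, hNb⟩ := P4' ht' htt htt' hF ht1.cpt ha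
    have e1 : -x' - z' = x := congrArg Prod.fst hNb
    have e2 : -z' = z := congrArg Prod.snd hNb
    have hz' : z' ≠ 0 := by
      rintro rfl
      apply hz
      rw [← e2, neg_zero]
    by_cases c1 : (t' ⁻¹' O ∩ O).Nonempty
    · -- case 1
      have hs : Sepn C.A (t' ⁻¹' O ∩ O) (t' ⁻¹' O' ∪ O') := by
        refine ⟨ht1.o1.inter h.o1, ht1.o2.union h.o2, ?_, ?_, c1, h.n2.inr⟩
        · rw [Set.disjoint_left]
          rintro y ⟨hy1, hy2⟩ (hy3 | hy3)
          · exact Set.disjoint_left.1 ht1.d hy1 hy3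
          · exact Set.disjoint_left.1 h.d hy2 hy3
        · ext y
          have u1 : y ∈ t' ⁻¹' O ∪ t' ⁻¹' O' ↔ y ∈ (C.A)ᶜ := by rw [ht1.u]
          have u2 : y ∈ O ∪ O' ↔ y ∈ (C.A)ᶜ := by rw [h.u]
          simp only [mem_union, mem_inter_iff] at u1 u2 ⊢
          tauto
      have l1 : LL C (t' ⁻¹' O ∩ O) (x, z) := LL_mono ha inter_subset_right
      have l2 : LL C (t' ⁻¹' O ∩ O) (x', z') := LL_mono hb inter_subset_left
      have l3 := LL_add l1 l2
      have e3 : ((x, z) : ZMod 3 × ZMod 3) + (x', z') = (-z', 0) := by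
        apply Prod.ext
        · show x + x' = -z'
          rw [← e1]; ring
        · show z + z' = 0
          rw [← e2]; ring
      rw [e3] at l3
      exact P1 hn hA hs (LL_gen (neg_ne_zero.2 hz') hz l3 l1)
    by_cases c2 : (t' ⁻¹' O' ∩ O').Nonempty
    · -- case 2
      have hs : Sepn C.A (t' ⁻¹' O ∪ O) (t' ⁻¹' O' ∩ O') := by
        refine ⟨ht1.o1.union h.o1, ht1.o2.inter h.o2, ?_, ?_, h.n1.inr, c2⟩
        · rw [Set.disjoint_left]
          rintro y (hy3 | hy3) ⟨hy1, hy2⟩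
          · exact Set.disjoint_left.1 ht1.d hy3 hy1
          · exact Set.disjoint_left.1 h.d hy3 hy2
        · ext y
          have u1 : y ∈ t' ⁻¹' O ∪ t' ⁻¹' O' ↔ y ∈ (C.A)ᶜ := by rw [ht1.u]
          have u2 : y ∈ O ∪ O' ↔ y ∈ (C.A)ᶜ := by rw [h.u]
          simp only [mem_union, mem_inter_iff] at u1 u2 ⊢
          tauto
      have hzero : ∀ c, LL C (t' ⁻¹' O ∪ O) c → c = 0 := by
        rintro ⟨cx, cz⟩ hc
        have m1 : LL C O (cx, cz) := LL_mono hc subset_union_right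
        have m2 : LL C (t' ⁻¹' O) (cx, cz) := LL_mono hc subset_union_left
        have m3 : LL C O (N (cx, cz)) := P4 ht htt htt' hF h.cpt m2
        have hcz : cz = 0 := by
          by_contra hcz
          have m4 := LL_add m1 m3
          have e3 : ((cx, cz) : ZMod 3 × ZMod 3) + N (cx, cz) = (-cz, 0) := by
            apply Prod.ext
            · show cx + (-cx - cz) = -cz
              ring
            · show cz + -cz = 0
              ring
          rw [e3] at m4
          exact hp1 (LL_gen (neg_ne_zero.2 hcz) hz m4 ha)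
        subst hcz
        have hcx : cx = 0 := by
          by_contra hcx
          exact hp1 (LL_gen hcx hz m1 ha)
        rw [hcx]
        rfl
      refine P1 hn hA hs.symm ⟨?_, ?_⟩
      · obtain ⟨c, c', q1, q2, q3⟩ := P2 hn hs (1, 0)
        rw [hzero c q1, zero_add] at q3
        rwa [← q3]
      · obtain ⟨c, c', q1, q2, q3⟩ := P2 hn hs (0, 1)
        rw [hzero c q1, zero_add] at q3
        rwa [← q3]
    · -- case 3
      have hOt : t' ⁻¹' O' = O := by
        apply Subset.antisymm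
        · intro y hy
          have u1 : y ∈ t' ⁻¹' O ∪ t' ⁻¹' O' := Or.inr hy
          rw [ht1.u, ← h.u] at u1
          rcases u1 with h1 | h1
          · exact h1
          · exact absurd ⟨y, hy, h1⟩ c2
        · intro y hy
          have u1 : y ∈ O ∪ O' := Or.inl hy
          rw [h.u, ← ht1.u] at u1
          rcases u1 with h1 | h1
          · exact absurd ⟨y, h1, hy⟩ c1
          · exact h1
      have hOt' : t' ⁻¹' O = O' := by
        apply Subset.antisymm
        · intro y hy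
          have u1 : y ∈ t' ⁻¹' O ∪ t' ⁻¹' O' := Or.inl hy
          rw [ht1.u, ← h.u] at u1
          rcases u1 with h1 | h1
          · exact absurd ⟨y, hy, h1⟩ c1
          · exact h1
        · intro y hy
          have u1 : y ∈ O ∪ O' := Or.inr hy
          rw [h.u, ← ht1.u] at u1
          rcases u1 with h1 | h1
          · exact h1
          · exact absurd ⟨y, h1, hy⟩ c2
      rw [hOt'] at hb
      have ht2 := pre_sepn h.symm ht' hsur hinv
      obtain ⟨⟨x2, z2⟩, hb2, hNb2⟩ := P4' ht' htt htt' hF ht2.cpt hb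
      rw [hOt] at hb2
      have f1 : -x2 - z2 = x' := congrArg Prod.fst hNb2
      have f2 : -z2 = z' := congrArg Prod.snd hNb2
      have l3 := LL_add ha (LL_smul (-1) hb2)
      have e3 : ((x, z) : ZMod 3 × ZMod 3) + (-1 : ZMod 3) • (x2, z2) = (-z', 0) + (-z', 0) := by
        apply Prod.ext
        · show x + -1 * x2 = -z' + -z'
          rw [← e1, ← f1, ← f2]; ring
        · show z + -1 * z2 = 0 + 0
          rw [← e2, ← f2]; ring
      have e4 : ((-z', 0) + (-z', 0) : ZMod 3 × ZMod 3) = (z', 0) := by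
        apply Prod.ext
        · show -z' + -z' = z'
          clear * -
          revert z'; decide
        · show (0 : ZMod 3) + 0 = 0
          ring
      rw [e3, e4] at l3
      exact hp1 (LL_gen hz' hz l3 ha)
  obtain ⟨O, O', h⟩ := hsep
  obtain ⟨⟨x, z⟩, ⟨x', z'⟩, h1, h2, h3⟩ := P2 hn h (0, 1)
  have h4 : z + z' = 1 := congrArg Prod.snd h3
  by_cases hz : z = 0
  · rw [hz, zero_add] at h4
    exact key O' O h.symm x' z' h2 (by rw [h4]; decide)
  · exact key O O' h x z h1 hz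

end

end

end Pool.Agent.TH650.AS
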