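import Pool.Agent.TH650.Emb.AS5
import Pool.Agent.TH650.Emb.Log

/-! Circle valued functions on the fundamental domain which are compatible with the glueing have a
continuous logarithm. -/

set_option autoImplicit false

open Set

namespace Pool.Agent.TH650.Emb

open Pool.Agent.TH650.AS Pool.Agent.TH650.Log

noncomputable section

/-- the direction of a complex number -/
def un (z : ℂ) : Circle := Circle.exp (Complex.arg z)

theorem un_coe (s : Circle) : un (s : ℂ) = s := Circle.exp_arg s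

theorem un_mul {x y : ℂ} (hx : x ≠ 0) (hy : y ≠ 0) : un (x * y) = un x * un y := by
  obtain ⟨m, hm⟩ := arg_mul_mod hx hy
  unfold un
  rw [← Circle.exp_add, Circle.exp_eq_exp]
  refine ⟨m, ?_⟩
  have hpi : (2 * Real.pi) ≠ 0 := by positivity
  field_simp at hm
  linarith

theorem un_real {r : ℝ} (hr : 0 < r) (z : ℂ) : un ((r : ℂ) * z) = un z := by
  unfold un
  rw [Complex.arg_real_mul _ hr]

theorem un_cont {X : Type} [TopologicalSpace X] {K : Set X} {f : X → ℂ} (hf : ContinuousOn f K)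
    (h : ∀ x ∈ K, f x ≠ 0) : ContinuousOn (fun x => un (f x)) K := by
  have h1 := CM_arg hf h
  unfold CM at h1
  refine h1.congr fun x _ => ?_
  unfold un
  congr 1
  field_simp

/-- the point of the torus -/
def tp (q : Circle × Circle) : Circle × ℂ := (q.1, (q.2 : ℂ))

theorem tp_mem (q : Circle × Circle) : tp q ∈ TT := by
  show ‖(q.2 : ℂ)‖ = 1
  exact Circle.norm_coe _

theorem tp_cont : Continuous tp := by
  unfold tp
  exact continuous_fst.prodMk (continuous_circle_coe.comp continuous_snd)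

theorem exists_tp {p : Circle × ℂ} (hp : p ∈ TT) : ∃ q, tp q = p :=
  ⟨(p.1, ⟨p.2, by simpa [Submonoid.unitSphere] using (show ‖p.2‖ = 1 from hp)⟩), rfl⟩

theorem arg_cont {X : Type} [TopologicalSpace X] {f : X → ℂ} (hf : Continuous f)
    (h : ∀ x, ‖f x‖ < 1) : Continuous fun x => Complex.arg (1 + f x) := by
  rw [continuous_iff_continuousAt]
  intro x
  exact ContinuousAt.comp (g := Complex.arg) (f := fun x => 1 + f x)
    (Complex.continuousAt_arg (slit_of_norm (h x))) (continuous_const.add hf).continuousAt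

/-- `arg (1 + w/(4s))` -/
def al (q : Circle × Circle) : ℝ := Complex.arg (1 + (q.2 : ℂ) / (4 * (q.1 : ℂ)))

/-- `arg (1 - s/(4w²))` -/
def be (q : Circle × Circle) : ℝ := Complex.arg (1 + -(q.1 : ℂ) / (4 * (q.2 : ℂ) ^ 2))

theorem al_norm (q : Circle × Circle) : ‖(q.2 : ℂ) / (4 * (q.1 : ℂ))‖ < 1 := by
  rw [norm_div, norm_mul, Circle.norm_coe, Circle.norm_coe]
  norm_num

theorem be_norm (q : Circle × Circle) : ‖-(q.1 : ℂ) / (4 * (q.2 : ℂ) ^ 2)‖ < 1 := by
  rw [norm_div, norm_mul, norm_neg, norm_pow, Circle.norm_coe, Circle.norm_coe]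
  norm_num

theorem al_cont : Continuous al := by
  refine arg_cont ?_ al_norm
  refine Continuous.div (continuous_circle_coe.comp continuous_snd)
    (continuous_const.mul (continuous_circle_coe.comp continuous_fst)) ?_
  intro q
  exact mul_ne_zero (by norm_num) (Circle.coe_ne_zero _)

theorem be_cont : Continuous be := by
  refine arg_cont ?_ be_norm
  refine Continuous.div (continuous_circle_coe.comp continuous_fst).neg
    (continuous_const.mul ((continuous_circle_coe.comp continuous_snd).pow 2)) ?_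
  intro q
  exact mul_ne_zero (by norm_num) (pow_ne_zero 2 (Circle.coe_ne_zero _))

theorem un_Ph_sg (q : Circle × Circle) : un (Ph (sg2 (tp q))) = q.1 * q.2 * Circle.exp (al q) := by
  have hs := Circle.coe_ne_zero q.1
  have hw := Circle.coe_ne_zero q.2
  have hz : (1 : ℂ) + (q.2 : ℂ) / (4 * (q.1 : ℂ)) ≠ 0 :=
    Complex.slitPlane_ne_zero (slit_of_norm (al_norm q))
  have e : Ph (sg2 (tp q)) = ((1 / 4 : ℝ) : ℂ) * (((q.1 : ℂ) * q.2) *
      (1 + (q.2 : ℂ) / (4 * (q.1 : ℂ)))) := by
    unfold Ph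
    rw [sg2_snd, sg2_fst, Circle.coe_mul]
    unfold tp
    push_cast
    field_simp
    ring
  rw [e, un_real (by norm_num), un_mul (mul_ne_zero hs hw) hz, un_mul hs hw, un_coe, un_coe]
  rfl

theorem un_Ph (q : Circle × Circle) : un (Ph (tp q)) = q.2 * q.2 * Circle.exp (be q) := by
  have hw := Circle.coe_ne_zero q.2
  have hz : (1 : ℂ) + -(q.1 : ℂ) / (4 * (q.2 : ℂ) ^ 2) ≠ 0 :=
    Complex.slitPlane_ne_zero (slit_of_norm (be_norm q))
  have e : Ph (tp q) = ((q.2 : ℂ) * q.2) * (1 + -(q.1 : ℂ) / (4 * (q.2 : ℂ) ^ 2)) := by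
    unfold Ph tp
    field_simp
    ring
  rw [e, un_mul (mul_ne_zero hw hw) hz, un_mul hw hw, un_coe]
  rfl

/-- the retraction of `ℂ` to the disc -/
def rt (z : ℂ) : ℂ := ((max 1 ‖z‖)⁻¹ : ℝ) • z

theorem rt_cont : Continuous rt := by
  have h1 : Continuous fun z : ℂ => max (1 : ℝ) ‖z‖ := continuous_const.max continuous_norm
  have h2 : Continuous fun z : ℂ => (max (1 : ℝ) ‖z‖)⁻¹ := h1.inv₀ fun z => by positivity
  exact h2.smul continuous_id

theorem rt_norm (z : ℂ) : ‖rt z‖ ≤ 1 := by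
  unfold rt
  have h : 0 < max 1 ‖z‖ := by positivity
  rw [norm_smul, norm_inv, Real.norm_eq_abs, abs_of_pos h, inv_mul_le_iff₀ h, mul_one]
  exact le_max_right _ _

theorem rt_of {z : ℂ} (hz : ‖z‖ ≤ 1) : rt z = z := by
  unfold rt
  rw [max_eq_left hz, inv_one, one_smul]

/-- circle valued functions on the fundamental domain compatible with the glueing have a
continuous logarithm -/
theorem lift_Dom (g : Circle × ℂ → Circle) (hg : ContinuousOn g (Dom L2))
    (hσ : ∀ p ∈ btube ℂ 1, g (sg L2 p) = g p) :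
    ∃ (G : Circle × ℂ → ℝ) (k : ℤ), ContinuousOn G (Dom L2) ∧
      (∀ p ∈ Dom L2, Circle.exp (2 * Real.pi * G p) = g p) ∧
      ∀ p ∈ btube ℂ 1, G (sg L2 p) = G p + k := by
  classical
  -- the inner torus
  have htp : Continuous fun q => sg2 (tp q) := (continuous_sg L2).comp tp_cont
  obtain ⟨X', b, φ, hφ, h1⟩ := torus_class (fun q => g (sg2 (tp q)))
    (hg.comp_continuous htp fun q => sgTT_sub_DD (tp_mem q))
  -- corrected function
  let g' : Circle × ℂ → Circle := fun p => g p * (un (Ph p) ^ b)⁻¹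
  have hPh : ContinuousOn (fun p => un (Ph p)) DD := un_cont Ph_cont.continuousOn fun _ => Ph_ne
  have hg' : ContinuousOn g' DD := hg.mul (hPh.zpow b).inv
  have h2 : ∀ q, g' (sg2 (tp q)) = q.1 ^ (X' - b) * Circle.exp (φ q - b * al q) := by
    rintro ⟨s, w⟩
    show g (sg2 (tp (s, w))) * (un (Ph (sg2 (tp (s, w)))) ^ b)⁻¹ = _
    have e1 := h1 s w
    rw [e1, un_Ph_sg, Circle.exp_sub, exp_zmul, mul_zpow, mul_zpow, zpow_sub]
    simp only
    rw [mul_inv_eq_iff_eq_mul, div_eq_mul_inv]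
    generalize Circle.exp (al (s, w)) ^ b = A3
    generalize Circle.exp (φ (s, w)) = A1
    generalize s ^ b = a2
    generalize w ^ b = a3
    generalize s ^ X' = a1
    have : a1 * a2⁻¹ * (A1 * A3⁻¹) * (a2 * a3 * A3) =
        a1 * a3 * A1 * (a2⁻¹ * a2) * (A3⁻¹ * A3) := by
      ac_rfl
    rw [this, inv_mul_cancel, inv_mul_cancel, mul_one, mul_one]
  -- extension to the solid torus
  have hTTc : IsClosed TT := TT_compact.isClosed
  let f0 : C(TT, ℝ) := ⟨fun p => φ (p.1.1, un p.1.2) - b * al (p.1.1, un p.1.2), by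
    have hu : Continuous fun p : TT => un p.1.2 := by
      rw [← continuousOn_univ]
      refine un_cont (continuous_snd.comp continuous_subtype_val).continuousOn ?_
      intro p _ h
      have : ‖p.1.2‖ = 1 := p.2
      rw [h, norm_zero] at this
      exact zero_ne_one this
    have hpair : Continuous fun p : TT => (p.1.1, un p.1.2) :=
      (continuous_fst.comp continuous_subtype_val).prodMk hu
    exact (hφ.comp hpair).sub (continuous_const.mul (al_cont.comp hpair))⟩
  obtain ⟨F, hF⟩ := f0.exists_restrict_eq hTTc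
  have hF' : ∀ q, F (tp q) = φ q - b * al q := by
    intro q
    have := DFunLike.congr_fun hF ⟨tp q, tp_mem q⟩
    rw [ContinuousMap.restrict_apply] at this
    rw [this]
    show φ ((tp q).1, un (tp q).2) - b * al ((tp q).1, un (tp q).2) = _
    unfold tp
    simp only [un_coe]
  let E : Circle × ℂ → Circle := fun p => p.1 ^ (X' - b) * Circle.exp (F p)
  have hE : Continuous E := (continuous_fst.zpow _).mul (Circle.exp.continuous.comp F.continuous)
  have h3 : ∀ p ∈ TT, g' (sg2 p) = E p := by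
    intro p hp
    obtain ⟨q, rfl⟩ := exists_tp hp
    rw [h2]
    show _ = (tp q).1 ^ (X' - b) * Circle.exp (F (tp q))
    rw [hF']
    rfl
  obtain ⟨ψ, k1, k2, k3, k4⟩ := exists_inv
  let h : Circle × ℂ → Circle := fun p => if p ∈ DD then g' p else E (ψ p)
  have hh1 : ContinuousOn h DD := hg'.congr fun p hp => if_pos hp
  have hh2 : ContinuousOn h (sg2 '' ctube ℂ 1) := by
    refine (hE.comp_continuousOn k1).congr ?_
    intro p hp
    by_cases hpD : p ∈ DD
    · have hp' : p ∈ sg2 '' TT := by rw [← DD_inter]; exact ⟨hpD, hp⟩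
      obtain ⟨q, hq, rfl⟩ := hp'
      have e1 : h (sg2 q) = g' (sg2 q) := if_pos hpD
      rw [e1, h3 q hq, Function.comp_apply, k3 q (TT_sub_ctube hq)]
    · exact if_neg hpD
  have hh : ContinuousOn h (ctube ℂ 1) := by
    rw [← DD_union]
    exact hh1.union_of_isClosed hh2 DD_compact.isClosed sgctube_compact.isClosed
  have hH : Continuous fun p : Circle × ℂ => h (p.1, rt p.2) := by
    refine hh.comp_continuous (continuous_fst.prodMk (rt_cont.comp continuous_snd)) ?_
    intro p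
    exact rt_norm p.2
  obtain ⟨γ, ψ', hψ', h4⟩ := solid_class _ hH
  have h5 : ∀ p ∈ DD, g p = p.1 ^ γ * un (Ph p) ^ b * Circle.exp (ψ' p) := by
    intro p hp
    have e1 := h4 p.1 p.2
    have e2 : rt p.2 = p.2 := rt_of hp.1
    simp only [e2] at e1
    have e3 : h p = g' p := if_pos hp
    have e4 : (p.1, p.2) = p := rfl
    rw [e4, e3] at e1
    have e5 : g p * (un (Ph p) ^ b)⁻¹ = p.1 ^ γ * Circle.exp (ψ' p) := e1
    rw [mul_inv_eq_iff_eq_mul] at e5
    rw [e5, mul_assoc, mul_assoc, mul_comm (Circle.exp _)]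
  -- compare the two tori
  have h6 : ∀ s w : Circle, s ^ (γ + b) * w ^ (-b) *
      Circle.exp (ψ' (sg2 (tp (s, w))) - ψ' (tp (s, w)) + b * al (s, w) - b * be (s, w)) = 1 := by
    intro s w
    have e1 := h5 (tp (s, w)) (TT_sub_DD (tp_mem _))
    have e2 := h5 (sg2 (tp (s, w))) (sgTT_sub_DD (tp_mem _))
    rw [hσ _ (tp_mem _), e1, un_Ph, un_Ph_sg, sg2_fst] at e2
    simp only [tp] at e2 ⊢
    rw [Circle.exp_sub, Circle.exp_add, Circle.exp_sub, exp_zmul, exp_zmul, zpow_add, zpow_neg]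
    rw [mul_zpow, mul_zpow, mul_zpow, mul_zpow, mul_zpow] at e2
    generalize sg2 (s, (w : ℂ)) = P at e2 ⊢
    generalize Circle.exp (ψ' P) = A1 at *
    generalize Circle.exp (ψ' (s, (w : ℂ))) = A2 at *
    generalize Circle.exp (al (s, w)) ^ b = A3 at *
    generalize Circle.exp (be (s, w)) ^ b = A4 at *
    generalize s ^ γ = a1 at *
    generalize s ^ b = a2 at *
    generalize w ^ b = a3 at *
    have e3 : a1 * a2 * a3⁻¹ * (A1 / A2 * A3 / A4) =
        (a1 * a1 * (a2 * a3 * A3) * A1) * (a1 * (a3 * a3 * A4) * A2)⁻¹ := by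
      simp only [div_eq_mul_inv, mul_inv]
      have : a1 * a1 * (a2 * a3 * A3) * A1 * (a1⁻¹ * (a3⁻¹ * a3⁻¹ * A4⁻¹) * A2⁻¹) =
        (a1 * a1⁻¹) * (a3 * a3⁻¹) * (a1 * a2 * a3⁻¹ * (A1 * A2⁻¹ * A3 * A4⁻¹)) := by ac_rfl
      rw [this, mul_inv_cancel, mul_inv_cancel, one_mul, one_mul]
    rw [e3, ← e2, mul_inv_cancel]
  have hψs : Continuous fun q : Circle × Circle => ψ' (sg2 (tp q)) := hψ'.comp htp
  have hψt : Continuous fun q : Circle × Circle => ψ' (tp q) := hψ'.comp tp_cont
  obtain ⟨e1, e2⟩ := torus_unique (γ + b) (-b)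
    (fun q => ψ' (sg2 (tp q)) - ψ' (tp q) + b * al q - b * be q)
    (((hψs.sub hψt).add (continuous_const.mul al_cont)).sub (continuous_const.mul be_cont)) h6
  have hb : b = 0 := by linarith
  have hγ : γ = 0 := by linarith
  rw [hb, hγ] at h5
  simp only [zpow_zero, one_mul] at h5
  have hpi : (2 * Real.pi) ≠ 0 := by positivity
  obtain ⟨k, hk⟩ := const_int (fun q : Circle × Circle => ψ' (sg2 (tp q)) - ψ' (tp q))
    (hψs.sub hψt) (by
      intro q
      rw [Circle.exp_sub, ← h5 _ (sgTT_sub_DD (tp_mem q)), ← h5 _ (TT_sub_DD (tp_mem q)),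
        hσ _ (tp_mem q), div_self']) (1, 1)
  refine ⟨fun p => ψ' p / (2 * Real.pi), k, (hψ'.div_const _).continuousOn, ?_, ?_⟩
  · intro p hp
    rw [h5 p hp, mul_div_cancel₀ _ hpi]
  · intro p hp
    obtain ⟨q, rfl⟩ := exists_tp hp
    have := hk q
    have e3 : ψ' (sg L2 (tp q)) = ψ' (tp q) + k * (2 * Real.pi) := by
      have e4 : ψ' (sg L2 (tp q)) - ψ' (tp q) = k * (2 * Real.pi) := this
      linarith
    simp only
    rw [e3]
    field_simp

end

end Pool.Agent.TH650.Emb
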