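import Pool.Agent.TH650.Emb.Circ3

/-! The transfer of the double covering `{(t, b) : t² = q(b)}` of a space `B` over the circle. -/

set_option autoImplicit false

open Set

namespace Pool.Agent.TH650.MT

open Pool.Agent.Helper922.HB Pool.Agent.TH650.Emb

noncomputable section

variable {A B B' Z : Type} [TopologicalSpace A] [TopologicalSpace B] [TopologicalSpace B']
  [TopologicalSpace Z]

/-- the double covering of `B` -/
def D2 (q : C(B, Circle)) : Set (Circle × B) := {p | p.1 * p.1 = q p.2}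

theorem exp_two_pi_int (X : ℤ) : Circle.exp (X * (2 * Real.pi)) = 1 :=
  Circle.exp_int_mul_two_pi X

theorem hS_mem {m : ℕ} {q : C(B, Circle)} (k : ℤ) (θ : C(stdSimplex ℝ (Fin (m + 1)), ℝ))
    (σ : Sing B m) (h : ∀ x, Circle.exp (θ x) = q (σ x)) (x : stdSimplex ℝ (Fin (m + 1))) :
    (Circle.exp (θ x / 2 + k * Real.pi), σ x) ∈ D2 q := by
  show Circle.exp (θ x / 2 + k * Real.pi) * Circle.exp (θ x / 2 + k * Real.pi) = q (σ x)
  rw [← Circle.exp_add, ← h]
  have : θ x / 2 + k * Real.pi + (θ x / 2 + k * Real.pi) = θ x + k * (2 * Real.pi) := by ring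
  rw [this, Circle.exp_add, exp_two_pi_int, mul_one]

/-- the simplex `x ↦ (exp(θ(x)/2 + kπ), σ(x))` -/
def hS {m : ℕ} {q : C(B, Circle)} (k : ℤ) (θ : C(stdSimplex ℝ (Fin (m + 1)), ℝ))
    (σ : Sing B m) (h : ∀ x, Circle.exp (θ x) = q (σ x)) : Sing (D2 q) m :=
  ⟨fun x => ⟨(Circle.exp (θ x / 2 + k * Real.pi), σ x), hS_mem k θ σ h x⟩, by
    have h : Continuous fun x => Circle.exp (θ x / 2 + k * Real.pi) :=
      Circle.exp.continuous.comp ((θ.continuous.div_const 2).add continuous_const)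
    exact (h.prodMk σ.continuous).subtype_mk _⟩

/-- the two lifts -/
def twoS {m : ℕ} {q : C(B, Circle)} (θ : C(stdSimplex ℝ (Fin (m + 1)), ℝ))
    (σ : Sing B m) (h : ∀ x, Circle.exp (θ x) = q (σ x)) : Cn (D2 q) m :=
  Finsupp.single (hS 0 θ σ h) (1 : ℤ) + Finsupp.single (hS 1 θ σ h) (1 : ℤ)

theorem hS_congr {m : ℕ} {q : C(B, Circle)} (k l : ℤ) (θ θ' : C(stdSimplex ℝ (Fin (m + 1)), ℝ))
    (σ : Sing B m) (h : ∀ x, Circle.exp (θ x) = q (σ x)) (h' : ∀ x, Circle.exp (θ' x) = q (σ x))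
    (a : ℤ) (e : ∀ x, θ x / 2 + k * Real.pi = (θ' x / 2 + l * Real.pi) + a * (2 * Real.pi)) :
    hS k θ σ h = hS l θ' σ h' := by
  apply ContinuousMap.ext
  intro x
  apply Subtype.ext
  apply Prod.ext
  · show Circle.exp (θ x / 2 + k * Real.pi) = Circle.exp (θ' x / 2 + l * Real.pi)
    rw [e x, Circle.exp_add, exp_two_pi_int, mul_one]
  · rfl

theorem twoS_eq {m : ℕ} {q : C(B, Circle)} (θ θ' : C(stdSimplex ℝ (Fin (m + 1)), ℝ))
    (σ : Sing B m) (h : ∀ x, Circle.exp (θ x) = q (σ x)) (h' : ∀ x, Circle.exp (θ' x) = q (σ x)) :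
    twoS θ σ h = twoS θ' σ h' := by
  obtain ⟨X, hX⟩ := lift_diff θ θ' (fun x => (h x).trans (h' x).symm)
  obtain ⟨k, hk | hk⟩ := Int.even_or_odd' X
  · have e : ∀ c : ℤ, hS c θ σ h = hS c θ' σ h' := by
      intro c
      apply hS_congr c c θ θ' σ h h' k
      intro x
      have := hX x
      rw [hk] at this
      push_cast at this
      linarith
    rw [twoS, twoS, e, e]
  · have e1 : hS 0 θ σ h = hS 1 θ' σ h' := by
      apply hS_congr 0 1 θ θ' σ h h' k
      intro x
      have := hX x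
      rw [hk] at this
      push_cast at this ⊢
      linarith
    have e2 : hS 1 θ σ h = hS 0 θ' σ h' := by
      apply hS_congr 1 0 θ θ' σ h h' (k + 1)
      intro x
      have := hX x
      rw [hk] at this
      push_cast at this ⊢
      linarith
    rw [twoS, twoS, e1, e2, add_comm]

/-- the transfer -/
def trq (q : C(B, Circle)) (m : ℕ) : Cn B m →ₗ[ℤ] Cn (D2 q) m :=
  Finsupp.linearCombination ℤ (fun σ : Sing B m =>
    twoS (exists_lift_simplex (q.comp σ)).choose σ
      (fun x => (exists_lift_simplex (q.comp σ)).choose_spec x))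

theorem trq_single {q : C(B, Circle)} {m : ℕ} (σ : Sing B m)
    (θ : C(stdSimplex ℝ (Fin (m + 1)), ℝ)) (hθ : ∀ x, Circle.exp (θ x) = q (σ x)) :
    trq q m (Finsupp.single σ 1) = twoS θ σ hθ := by
  rw [trq, Finsupp.linearCombination_single, one_smul]
  apply twoS_eq

theorem bdry_single {X : Type} [TopologicalSpace X] {n : ℕ} (σ : Sing X (n + 1)) :
    bdry X n (Finsupp.single σ 1) =
      ∑ i : Fin (n + 2), ((-1 : ℤ) ^ (i : ℕ)) • Finsupp.single (sface n i σ) (1 : ℤ) :=
  Pool.Agent.H904R2.Sph.sbd_single n σ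

theorem single_smul_one {X : Type} [TopologicalSpace X] {n : ℕ} (σ : Sing X n) (k : ℤ) :
    (Finsupp.single σ k : Cn X n) = k • Finsupp.single σ 1 := by simp

/-- the transfer is a chain map -/
theorem bdry_trq (q : C(B, Circle)) (m : ℕ) (z : Cn B (m + 1)) :
    bdry _ m (trq q (m + 1) z) = trq q m (bdry _ m z) := by
  induction z using Finsupp.induction_linear with
  | zero => simp
  | add x y hx hy => rw [map_add, map_add, map_add, map_add, hx, hy]
  | single σ k =>
    rw [single_smul_one, map_smul, map_smul, map_smul, map_smul]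
    congr 1
    obtain ⟨θ, hθ⟩ := exists_lift_simplex (q.comp σ)
    have hθ' : ∀ x, Circle.exp (θ x) = q (σ x) := hθ
    rw [trq_single σ θ hθ', twoS, map_add, bdry_single, bdry_single, bdry_single, map_sum,
      ← Finset.sum_add_distrib]
    apply Finset.sum_congr rfl
    intro i _
    rw [map_smul, ← smul_add]
    congr 1
    rw [trq_single (sface m i σ)
      (θ.comp ⟨stdSimplex.map i.succAbove, stdSimplex.continuous_map _⟩) (fun x => hθ _)]
    rfl

theorem trq_cyc {q : C(B, Circle)} {m : ℕ} {z : Cn B m} (hz : z ∈ Cyc _ m) :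
    trq q m z ∈ Cyc _ m := by
  cases m with
  | zero => exact Submodule.mem_top
  | succ m =>
    apply cyc_of_bdry
    rw [bdry_trq, bdry_of_cyc hz, map_zero]

theorem trq_ho (q : C(B, Circle)) {m : ℕ} {z z' : Cn B m} (h : Ho z z') :
    Ho (trq q m z) (trq q m z') := by
  obtain ⟨y, hy⟩ := h
  exact ⟨trq q (m + 1) y, by rw [bdry_trq, hy, map_sub]⟩

/-- projection of the double covering -/
def pj (q : C(B, Circle)) : C(D2 q, B) := ⟨fun p => p.1.2, by fun_prop⟩

theorem pj_trq (q : C(B, Circle)) {m : ℕ} (z : Cn B m) :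
    push (pj q) m (trq q m z) = (2 : ℤ) • z := by
  induction z using Finsupp.induction_linear with
  | zero => simp
  | add x y hx hy => rw [map_add, map_add, hx, hy, smul_add]
  | single σ k =>
    rw [single_smul_one, map_smul, map_smul, smul_comm]
    congr 1
    obtain ⟨θ, hθ⟩ := exists_lift_simplex (q.comp σ)
    have hθ' : ∀ x, Circle.exp (θ x) = q (σ x) := hθ
    rw [trq_single σ θ hθ', twoS, map_add, push_single, push_single]
    have e0 : (pj q).comp (hS 0 θ σ hθ') = σ := rfl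
    have e1 : (pj q).comp (hS 1 θ σ hθ') = σ := rfl
    rw [e0, e1, two_smul]

/-- the induced map of double coverings -/
def D2m {q : C(B, Circle)} {q' : C(B', Circle)} (f : C(B, B')) (h : ∀ b, q' (f b) = q b) :
    C(D2 q, D2 q') :=
  ⟨fun p => ⟨(p.1.1, f p.1.2), by
    show p.1.1 * p.1.1 = q' (f p.1.2)
    rw [h]; exact p.2⟩, by fun_prop⟩

theorem trq_nat {q : C(B, Circle)} {q' : C(B', Circle)} (f : C(B, B'))
    (h : ∀ b, q' (f b) = q b) {m : ℕ} (z : Cn B m) :
    trq q' m (push f m z) = push (D2m f h) m (trq q m z) := by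
  induction z using Finsupp.induction_linear with
  | zero => simp
  | add x y hx hy => rw [map_add, map_add, map_add, map_add, hx, hy]
  | single σ k =>
    rw [single_smul_one, map_smul, map_smul, map_smul, map_smul]
    congr 1
    obtain ⟨θ, hθ⟩ := exists_lift_simplex (q.comp σ)
    have hθ' : ∀ x, Circle.exp (θ x) = q (σ x) := hθ
    rw [trq_single σ θ hθ', push_single, trq_single (f.comp σ) θ (fun x => (hθ' x).trans (h _).symm),
      twoS, twoS, map_add, push_single, push_single]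
    rfl

/-- lift through a square root -/
def D2s {q : C(B, Circle)} (f : C(A, B)) (u : C(A, Circle)) (h : ∀ a, u a * u a = q (f a)) :
    C(A, D2 q) :=
  ⟨fun a => ⟨(u a, f a), h a⟩, by fun_prop⟩

/-- negation on the circle -/
def negc : C(Circle, Circle) := ⟨fun s => Circle.exp Real.pi * s, by fun_prop⟩

theorem exp_pi_sq : Circle.exp Real.pi * Circle.exp Real.pi = 1 := by
  rw [← Circle.exp_add]
  have : Real.pi + Real.pi = 2 * Real.pi := by ring
  rw [this, Circle.exp_two_pi]

theorem negc_sq {q : C(B, Circle)} {f : C(A, B)} {u : C(A, Circle)}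
    (h : ∀ a, u a * u a = q (f a)) (a : A) :
    (negc.comp u) a * (negc.comp u) a = q (f a) := by
  rw [← h a]
  show (Circle.exp Real.pi * u a) * (Circle.exp Real.pi * u a) = _
  rw [mul_mul_mul_comm, exp_pi_sq, one_mul]

theorem trq_sec {q : C(B, Circle)} (f : C(A, B)) (u : C(A, Circle))
    (h : ∀ a, u a * u a = q (f a)) {m : ℕ} (z : Cn A m) :
    trq q m (push f m z) = push (D2s f u h) m z + push (D2s f (negc.comp u) (negc_sq h)) m z := by
  induction z using Finsupp.induction_linear with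
  | zero => simp
  | add x y hx hy =>
    rw [map_add, map_add, map_add, map_add, hx, hy]; abel
  | single σ k =>
    rw [single_smul_one, map_smul, map_smul, map_smul, map_smul, ← smul_add]
    congr 1
    obtain ⟨θ, hθ⟩ := exists_lift_simplex (u.comp σ)
    have hθ' : ∀ x, Circle.exp (θ x) = u (σ x) := hθ
    let θ2 : C(stdSimplex ℝ (Fin (m + 1)), ℝ) := ⟨fun x => θ x + θ x, by fun_prop⟩
    have h2 : ∀ x, Circle.exp (θ2 x) = q ((f.comp σ) x) := by
      intro x
      show Circle.exp (θ x + θ x) = q (f (σ x))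
      rw [Circle.exp_add, hθ', h]
    rw [push_single, push_single, push_single, trq_single (f.comp σ) θ2 h2, twoS]
    congr 2
    · apply ContinuousMap.ext
      intro x
      apply Subtype.ext
      apply Prod.ext
      · show Circle.exp ((θ x + θ x) / 2 + ((0 : ℤ) : ℝ) * Real.pi) = u (σ x)
        rw [← hθ']
        congr 1
        push_cast; ring
      · rfl
    · apply ContinuousMap.ext
      intro x
      apply Subtype.ext
      apply Prod.ext
      · show Circle.exp ((θ x + θ x) / 2 + ((1 : ℤ) : ℝ) * Real.pi) = Circle.exp Real.pi * u (σ x)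
        rw [← hθ', ← Circle.exp_add]
        congr 1
        push_cast; ring
      · rfl

/-! ### products -/

/-- `(t, (s, z)) ↦ (t, z)` -/
def dl (Z : Type) [TopologicalSpace Z] : C(D2 (pr1 Z), Circle × Z) :=
  ⟨fun p => (p.1.1, p.1.2.2), by fun_prop⟩

/-- the transfer on `Circle × Z` -/
def tr (Z : Type) [TopologicalSpace Z] (m : ℕ) : Cn (Circle × Z) m →ₗ[ℤ] Cn (Circle × Z) m :=
  (push (dl Z) m).comp (trq (pr1 Z) m)

theorem tr_cyc {m : ℕ} {z : Cn (Circle × Z) m} (hz : z ∈ Cyc _ m) : tr Z m z ∈ Cyc _ m :=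
  push_mem_Cyc _ _ _ (trq_cyc hz)

theorem tr_ho {m : ℕ} {z z' : Cn (Circle × Z) m} (h : Ho z z') : Ho (tr Z m z) (tr Z m z') :=
  (trq_ho _ h).push _

theorem psi_tr {m : ℕ} (z : Cn (Circle × Z) m) : push (psi Z) m (tr Z m z) = (2 : ℤ) • z := by
  rw [← pj_trq (pr1 Z) z]
  show push (psi Z) m (push (dl Z) m (trq (pr1 Z) m z)) = _
  rw [push_push]
  congr 2
  apply ContinuousMap.ext
  intro p
  apply Prod.ext
  · exact p.2
  · rfl

/-- slices at different points are homologous -/
theorem csl_ho (c c' : Circle) {n : ℕ} {a : Cn Z n} (ha : a ∈ Cyc Z n) :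
    Ho (push (csl Z c) n a) (push (csl Z c') n a) := by
  obtain ⟨θ, hθ⟩ : ∃ θ : ℝ, Circle.exp θ = c := ⟨_, Circle.exp_arg c⟩
  obtain ⟨θ', hθ'⟩ : ∃ θ : ℝ, Circle.exp θ = c' := ⟨_, Circle.exp_arg c'⟩
  have hc : Continuous fun q : Z × unitInterval =>
      Circle.exp ((1 - (q.2 : ℝ)) * θ + (q.2 : ℝ) * θ') :=
    Circle.exp.continuous.comp (by fun_prop)
  refine ho_homotopic ⟨fun q => (Circle.exp ((1 - (q.2 : ℝ)) * θ + (q.2 : ℝ) * θ'), q.1),
    hc.prodMk continuous_fst⟩ _ _ ?_ ?_ ha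
  · intro x
    apply Prod.ext
    · show Circle.exp ((1 - ((0 : unitInterval) : ℝ)) * θ + ((0 : unitInterval) : ℝ) * θ') = c
      rw [← hθ]; simp
    · rfl
  · intro x
    apply Prod.ext
    · show Circle.exp ((1 - ((1 : unitInterval) : ℝ)) * θ + ((1 : unitInterval) : ℝ) * θ') = c'
      rw [← hθ']; simp
    · rfl

theorem tr_slice {n : ℕ} (a : Cn Z n) :
    tr Z n (push (csl Z 1) n a) =
      push (csl Z 1) n a + push (csl Z (Circle.exp Real.pi * 1)) n a := by
  show push (dl Z) n (trq (pr1 Z) n (push (csl Z 1) n a)) = _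
  rw [trq_sec (csl Z 1) (ContinuousMap.const _ 1) (fun a => one_mul 1), map_add, push_push,
    push_push]
  rfl

/-- the transfer on the slice classes -/
theorem tr_two {n : ℕ} {a : Cn Z (n + 1)} (h1 : HZt Z (n + 1) a) (h2 : Acy Z n)
    {z : Cn (Circle × Z) (n + 1)} (hz : z ∈ Cyc _ (n + 1)) :
    Ho (tr Z (n + 1) z) ((2 : ℤ) • z) := by
  obtain ⟨k, hk⟩ := (circ_slice h1 h2).gen z hz
  refine (tr_ho hk).trans ?_
  refine Ho.trans ?_ (hk.smul 2).symm
  rw [map_smul, tr_slice, smul_comm]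
  apply Ho.smul
  rw [two_smul]
  exact (Ho.refl _).add (csl_ho _ _ h1.cyc)

/-- the transfer on the top class -/
theorem tr_one {n : ℕ} {a : Cn Z n} (h1 : Acy Z (n + 1)) (h2 : HZt Z n a)
    {z : Cn (Circle × Z) (n + 1)} (hz : z ∈ Cyc _ (n + 1)) :
    Ho (tr Z (n + 1) z) z := by
  have hg := top_HZt h1 h2
  obtain ⟨c, hc⟩ := hg.gen _ (tr_cyc hg.cyc)
  have e1 := hc.push (psi Z)
  rw [psi_tr, map_smul] at e1
  have e2 := e1.trans ((psi_top h1 h2.cyc).smul c)
  have e3 : Ho (((2 : ℤ) - c * 2) • XX a lam) 0 := by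
    rw [sub_smul, ← sub_self (((c * 2 : ℤ)) • XX a lam)]
    have := e2.sub (Ho.refl ((c * 2 : ℤ) • XX a lam))
    rw [← mul_smul c 2 (XX a lam)] at this
    exact this
  have e4 := hg.inf _ e3
  have e5 : c = 1 := by linarith
  rw [e5, one_smul] at hc
  obtain ⟨k, hk⟩ := hg.gen z hz
  refine (tr_ho hk).trans ?_
  rw [map_smul]
  exact (hc.smul k).trans hk.symm

end

end Pool.Agent.TH650.MT
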