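import Pool.Agent.TH650.Emb.Ann

/-! The region `W = tube 1 ∖ σ(ctube 1)` in `Circle × (ℂ × ℝ)`. -/

set_option autoImplicit false

open Set

namespace Pool.Agent.TH650.MT

open Pool.Agent.Helper922.HB Pool.Agent.TH650.Emb
open Pool.Agent.H904R2 (Pc)

noncomputable section

/-- the open solid torus -/
abbrev UU : Type := ↥(tube (ℂ × ℝ) 1)

/-- the region -/
def WT : Set UU := {x | x.1 ∉ sg L3 '' ctube (ℂ × ℝ) 1}

/-- the inner solid torus -/
def NT : Set UU := {x | x.1 ∈ sg L3 '' tube (ℂ × ℝ) (3 / 2)}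

theorem WT_open : IsOpen WT := by
  have h : IsClosed (sg L3 '' ctube (ℂ × ℝ) 1) :=
    ((ctube_compact' 1).image (continuous_sg L3)).isClosed
  exact h.isOpen_compl.preimage continuous_subtype_val

theorem NT_open : IsOpen NT :=
  ((isOpenMap_sg L3) _ (tube_open (3 / 2))).preimage continuous_subtype_val

theorem WN_cover (x : UU) : x ∈ WT ∨ x ∈ NT := by
  by_cases h : x ∈ WT
  · exact Or.inl h
  · right
    have h' : x.1 ∈ sg L3 '' ctube (ℂ × ℝ) 1 := not_not.1 h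
    obtain ⟨p, hp, h2⟩ := h'
    exact ⟨p, ctube_sub_tube (by norm_num) hp, h2⟩

theorem sg_ann_UU {p : EE} (hp : p ∈ ann 1 (3 / 2)) : sg L3 p ∈ tube (ℂ × ℝ) 1 :=
  sg_tube1 L3 (show ‖p.2‖ ≤ 3 / 2 from hp.2.le)

theorem sg_ann_W {p : EE} (hp : p ∈ ann 1 (3 / 2)) : (⟨sg L3 p, sg_ann_UU hp⟩ : UU) ∈ WT := by
  rintro ⟨q, hq, h⟩
  have hq' : ‖q.2‖ ≤ 1 := hq
  have h1 : q = p := injOn_sg L3 (show ‖q.2‖ < 2 by linarith)
    (show ‖p.2‖ < 2 by linarith [hp.2]) h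
  rw [h1] at hq'
  linarith [hp.1]

theorem sg_ann_N {p : EE} (hp : p ∈ ann 1 (3 / 2)) : (⟨sg L3 p, sg_ann_UU hp⟩ : UU) ∈ NT :=
  ⟨p, hp.2, rfl⟩

/-- `σ` on the annulus -/
def sA : C(ann 1 (3 / 2), ↥(WT ∩ NT)) :=
  ⟨fun p => ⟨⟨sg L3 p.1, sg_ann_UU p.2⟩, sg_ann_W p.2, sg_ann_N p.2⟩,
    (((continuous_sg L3).comp continuous_subtype_val).subtype_mk _).subtype_mk _⟩

theorem isOpenMap_of_comp {X Y Z : Type} [TopologicalSpace X] [TopologicalSpace Y]
    [TopologicalSpace Z] {f : X → Y} {i : Y → Z} (hi : Continuous i) (hinj : Function.Injective i)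
    (h : IsOpenMap (i ∘ f)) : IsOpenMap f := by
  intro O hO
  have e : f '' O = i ⁻¹' ((i ∘ f) '' O) := by
    ext y
    constructor
    · rintro ⟨x, hx, rfl⟩
      exact ⟨x, hx, rfl⟩
    · rintro ⟨x, hx, h2⟩
      exact ⟨x, hx, hinj h2⟩
  rw [e]
  exact (h O hO).preimage hi

theorem HE_of_open {X Y : Type} [TopologicalSpace X] [TopologicalSpace Y] (f : C(X, Y))
    (ho : IsOpenMap f) (hb : Function.Bijective f) : HE f := by
  have h : IsHomeomorph f := ⟨f.continuous, ho, hb⟩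
  exact HE_of_homeo (h.homeomorph f) f fun _ => rfl

theorem sA_HE : HE sA := by
  apply HE_of_open
  · apply isOpenMap_of_comp (i := fun y : ↥(WT ∩ NT) => y.1.1)
      (continuous_subtype_val.comp continuous_subtype_val)
    · intro a b h
      exact Subtype.ext (Subtype.ext h)
    · exact (isOpenMap_sg L3).comp (ann_open _ _).isOpenMap_subtype_val
  · constructor
    · intro a b h
      apply Subtype.ext
      apply injOn_sg L3 (show ‖a.1.2‖ < 2 by linarith [a.2.2])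
        (show ‖b.1.2‖ < 2 by linarith [b.2.2])
      exact congrArg (fun y : ↥(WT ∩ NT) => y.1.1) h
    · rintro ⟨⟨y, hy1⟩, hyW, ⟨p, hp, hpy⟩⟩
      have hp1 : 1 < ‖p.2‖ := by
        by_contra h
        exact hyW ⟨p, not_lt.1 h, hpy⟩
      exact ⟨⟨p, hp1, hp⟩, Subtype.ext (Subtype.ext hpy)⟩

/-- `TT → W ∩ N` -/
def jj : C(TT, ↥(WT ∩ NT)) :=
  sA.comp (rA (a := 1) (b := 3 / 2) (r := 5 / 4) (by norm_num) (by norm_num) (by norm_num))

theorem jj_HE : HE jj := sA_HE.comp (ann_HE _ _ _)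

/-- the inner map -/
def wf2 : C(TT, WT) := (inl WT NT).comp jj

theorem rmap_UU (p : TT) : rmap (15 / 16) p ∈ tube (ℂ × ℝ) 1 := by
  show ‖(rmap (15 / 16) p).2‖ < 1
  rw [norm_rmap (by norm_num)]
  norm_num

theorem rmap_WT (p : TT) : (⟨rmap (15 / 16) p, rmap_UU p⟩ : UU) ∈ WT := by
  rintro ⟨q, hq, h⟩
  have h1 := norm_sg_le L3 q
  have h2 : ‖q.2‖ ≤ 1 := hq
  have h3 : sg L3 q = rmap (15 / 16) p := h
  rw [h3, norm_rmap (by norm_num)] at h1
  linarith

/-- the outer map -/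
def wf1 : C(TT, WT) :=
  ⟨fun p => ⟨⟨rmap (15 / 16) p, rmap_UU p⟩, rmap_WT p⟩,
    ((rmap (15 / 16)).continuous.subtype_mk _).subtype_mk _⟩

/-! ### homology of the solid torus -/

/-- projection -/
def pU : C(UU, Circle) := ⟨fun x => x.1.1, by fun_prop⟩

theorem pU_HE : HE pU := by
  refine HE_of_homotopyEquiv pU ⟨fun s => ⟨(s, 0), by simp [tube]⟩, by fun_prop⟩
    ⟨fun q => ⟨(q.1.1.1, (1 - (q.2 : ℝ)) • q.1.1.2), ?_⟩, ?_⟩
    ⟨Prod.fst, continuous_fst⟩ ?_ ?_ (fun _ => rfl) (fun _ => rfl)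
  · show ‖(1 - (q.2 : ℝ)) • q.1.1.2‖ < 1
    have h1 : ‖q.1.1.2‖ < 1 := q.1.2
    have h5 := q.2.2.1
    have h6 := q.2.2.2
    rw [norm_smul, Real.norm_of_nonneg (by linarith)]
    have h7 := norm_nonneg q.1.1.2
    nlinarith
  · refine Continuous.subtype_mk (Continuous.prodMk (by fun_prop) ?_) _
    have hu : Continuous fun q : UU × unitInterval => ((q.2 : unitInterval) : ℝ) :=
      continuous_subtype_val.comp continuous_snd
    exact (continuous_const.sub hu).smul (by fun_prop)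
  · intro x
    apply Subtype.ext
    apply Prod.ext
    · rfl
    · show (1 - ((0 : unitInterval) : ℝ)) • x.1.2 = x.1.2
      simp
  · intro x
    apply Subtype.ext
    apply Prod.ext
    · rfl
    · show (1 - ((1 : unitInterval) : ℝ)) • x.1.2 = 0
      simp

theorem acyUU (m : ℕ) : Acy UU (m + 2) := (circle_acy m).of_HE' pU_HE

/-- projection of the region -/
def qW : C(WT, Circle) := ⟨fun x => x.1.1.1, by fun_prop⟩

theorem wf2_surj (m : ℕ) {w : Cn WT (m + 2)} (hw : w ∈ Cyc _ (m + 2)) :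
    ∃ t ∈ Cyc TT (m + 2), Ho w (push wf2 (m + 2) t) := by
  have h1 := acyUU m (push (sub WT) (m + 2) w) (push_mem_Cyc _ _ _ hw)
  obtain ⟨d, hd, h2, h3⟩ := mv_inj WT NT WT_open NT_open WN_cover (m + 2) w 0 hw
    (Submodule.zero_mem _) (by rw [map_zero, add_zero]; exact h1)
  obtain ⟨t, ht, h4⟩ := (jj_HE (m + 2)).2 d hd
  refine ⟨t, ht, ?_⟩
  have h5 : Ho d (push jj (m + 2) t) := h4
  have h6 := h5.push (inl WT NT)
  rw [push_push] at h6
  exact Ho.trans (b := push (inl WT NT) (m + 2) d) h2 h6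

/-! ### the transfer -/

theorem bt_ne (p : D2 qW) : p.1.2.1.1.2 - (1 / 2 : ℝ) • L3 (p.1.1 : ℂ) ≠ 0 := by
  intro h
  apply p.1.2.2
  refine ⟨(p.1.1, 0), ?_, ?_⟩
  · show ‖(0 : ℂ × ℝ)‖ ≤ 1
    simp
  · apply Prod.ext
    · exact p.2
    · show (1 / 4 : ℝ) • (0 : ℂ × ℝ) + (1 / 2 : ℝ) • L3 (p.1.1 : ℂ) = p.1.2.1.1.2
      rw [smul_zero, zero_add]
      exact (sub_eq_zero.1 h).symm

theorem cont_L3 {X : Type} [TopologicalSpace X] {f : X → Circle} (hf : Continuous f) :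
    Continuous fun x => L3 (f x : ℂ) :=
  L3.continuous.comp (continuous_subtype_val.comp hf)

/-- the retraction of the double covering to `TT` -/
def bt : C(D2 qW, TT) :=
  ⟨fun p => (p.1.1, ⟨unv (p.1.2.1.1.2 - (1 / 2 : ℝ) • L3 (p.1.1 : ℂ)), unv_ne (bt_ne p)⟩), by
    refine Continuous.prodMk (by fun_prop) (Continuous.subtype_mk ?_ _)
    refine continuous_unv.comp (Continuous.sub (by fun_prop) ?_)
    have h : Continuous fun p : D2 qW => L3 (p.1.1 : ℂ) := cont_L3 (by fun_prop)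
    exact h.const_smul (1 / 2 : ℝ)⟩

/-- the transfer of the region -/
def TW (m : ℕ) : Cn WT m →ₗ[ℤ] Cn TT m := (push bt m).comp (trq qW m)

theorem TW_ho {m : ℕ} {z z' : Cn WT m} (h : Ho z z') : Ho (TW m z) (TW m z') :=
  (trq_ho _ h).push _

theorem norm_L3 (c : Circle) : ‖L3 (c : ℂ)‖ = 1 := by
  rw [L3.norm_map, Circle.norm_coe]

/-- nonvanishing sums -/
theorem ne_of_norm {x y : ℂ × ℝ} (h : ‖y‖ < ‖x‖) : x - y ≠ 0 := by
  intro h0
  rw [sub_eq_zero.1 h0] at h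
  exact lt_irrefl _ h

/-- `TW` of the outer map -/
theorem TW_f1 {m : ℕ} {t : Cn TT m} (ht : t ∈ Cyc TT m) :
    Ho (TW m (push wf1 m t)) (tr (Pc 3) m t) := by
  have e : TW m (push wf1 m t) = push (bt.comp (D2m wf1 (fun _ => rfl))) m
      (trq (pr1 (Pc 3)) m t) := by
    show push bt m (trq qW m (push wf1 m t)) = _
    rw [trq_nat wf1 (q := pr1 (Pc 3)) (q' := qW) (fun _ => rfl), push_push]
  rw [e]
  apply Ho.symm
  show Ho (push (dl (Pc 3)) m (trq (pr1 (Pc 3)) m t)) _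
  -- the homotopy
  let cf : (D2 (pr1 (Pc 3))) × unitInterval → ℝ := fun q =>
    (1 - (q.2 : ℝ)) + q.2 * ((15 / 16) / ‖vec q.1.1.2.2.1‖)
  have hv : Continuous fun q : (D2 (pr1 (Pc 3))) × unitInterval => vec q.1.1.2.2.1 :=
    continuous_vec.comp (by fun_prop)
  have hu : Continuous fun q : (D2 (pr1 (Pc 3))) × unitInterval => ((q.2 : unitInterval) : ℝ) :=
    continuous_subtype_val.comp continuous_snd
  have hcf : Continuous cf :=
    (continuous_const.sub hu).add (hu.mul (continuous_const.div hv.norm fun q =>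
      norm_ne_zero_iff.2 (vec_ne_zero q.1.1.2.2)))
  have hL : Continuous fun q : (D2 (pr1 (Pc 3))) × unitInterval => L3 (q.1.1.1 : ℂ) :=
    cont_L3 (by fun_prop)
  have hne : ∀ q : (D2 (pr1 (Pc 3))) × unitInterval,
      cf q • vec q.1.1.2.2.1 - ((q.2 : ℝ) * (1 / 2)) • L3 (q.1.1.1 : ℂ) ≠ 0 := by
    intro q
    apply ne_of_norm
    have h0 := norm_pos_iff.2 (vec_ne_zero q.1.1.2.2)
    have h5 := q.2.2.1
    have h6 := q.2.2.2
    rw [norm_smul, norm_smul, norm_L3, Real.norm_of_nonneg (by positivity),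
      Real.norm_of_nonneg (by
        have : 0 ≤ (15 / 16) / ‖vec q.1.1.2.2.1‖ := by positivity
        show 0 ≤ (1 - (q.2 : ℝ)) + q.2 * ((15 / 16) / ‖vec q.1.1.2.2.1‖)
        nlinarith)]
    have h7 : cf q * ‖vec q.1.1.2.2.1‖ = (1 - (q.2 : ℝ)) * ‖vec q.1.1.2.2.1‖ + q.2 * (15 / 16) := by
      show ((1 - (q.2 : ℝ)) + q.2 * ((15 / 16) / ‖vec q.1.1.2.2.1‖)) * _ = _
      field_simp
    rw [h7]
    rcases eq_or_lt_of_le h6 with h9 | h9
    · rw [h9]; linarith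
    · nlinarith
  have hc : Continuous fun q : (D2 (pr1 (Pc 3))) × unitInterval =>
      ((q.1.1.1, ⟨unv (cf q • vec q.1.1.2.2.1 - ((q.2 : ℝ) * (1 / 2)) • L3 (q.1.1.1 : ℂ)),
        unv_ne (hne q)⟩) : TT) := by
    refine Continuous.prodMk (by fun_prop) (Continuous.subtype_mk ?_ _)
    exact continuous_unv.comp ((hcf.smul hv).sub ((hu.mul continuous_const).smul hL))
  refine ho_homotopic ⟨_, hc⟩ _ _ ?_ ?_ (trq_cyc ht)
  · intro x
    apply Prod.ext
    · rfl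
    · apply Subtype.ext
      show unv (((1 - ((0 : unitInterval) : ℝ)) + ((0 : unitInterval) : ℝ) *
        ((15 / 16) / ‖vec x.1.2.2.1‖)) • vec x.1.2.2.1 -
        (((0 : unitInterval) : ℝ) * (1 / 2)) • L3 (x.1.1 : ℂ)) = x.1.2.2.1
      rw [Set.Icc.coe_zero, sub_zero, zero_mul, add_zero, one_smul, zero_mul, zero_smul, sub_zero,
        unv_vec]
  · intro x
    apply Prod.ext
    · rfl
    · apply Subtype.ext
      show unv (((1 - ((1 : unitInterval) : ℝ)) + ((1 : unitInterval) : ℝ) *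
        ((15 / 16) / ‖vec x.1.2.2.1‖)) • vec x.1.2.2.1 -
        (((1 : unitInterval) : ℝ) * (1 / 2)) • L3 (x.1.1 : ℂ)) =
        unv (((15 / 16) / ‖vec x.1.2.2.1‖) • vec x.1.2.2.1 - (1 / 2 : ℝ) • L3 (x.1.1 : ℂ))
      rw [Set.Icc.coe_one, sub_self, zero_add, one_mul, one_mul]

theorem wf2_sq (p : TT) : (pr1 (Pc 3)) p * (pr1 (Pc 3)) p = qW (wf2 p) := rfl

/-- first branch -/
theorem TW_f2a {m : ℕ} {t : Cn TT m} (ht : t ∈ Cyc TT m) :
    Ho t (push (bt.comp (D2s wf2 (pr1 (Pc 3)) wf2_sq)) m t) := by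
  have hv : Continuous fun q : TT × unitInterval => vec q.1.2.1 :=
    continuous_vec.comp (continuous_subtype_val.comp (continuous_snd.comp continuous_fst))
  have hu : Continuous fun q : TT × unitInterval => ((q.2 : unitInterval) : ℝ) :=
    continuous_subtype_val.comp continuous_snd
  have hpos : ∀ q : TT × unitInterval,
      0 < (1 - (q.2 : ℝ)) + q.2 * ((5 / 16) / ‖vec q.1.2.1‖) := by
    intro q
    have h3 := norm_pos_iff.2 (vec_ne_zero q.1.2)
    have h4 : 0 < (5 / 16) / ‖vec q.1.2.1‖ := by positivity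
    have h5 := q.2.2.1
    have h6 := q.2.2.2
    rcases eq_or_lt_of_le h6 with h7 | h7
    · rw [h7]; linarith
    · nlinarith
  have hc : Continuous fun q : TT × unitInterval =>
      ((q.1.1, ⟨((1 - (q.2 : ℝ)) + q.2 * ((5 / 16) / ‖vec q.1.2.1‖)) • q.1.2.1,
        smul_ne_zero (hpos q).ne' q.1.2.2⟩) : TT) := by
    refine Continuous.prodMk (by fun_prop) (Continuous.subtype_mk ?_ _)
    refine Continuous.smul ((continuous_const.sub hu).add (hu.mul ?_)) (by fun_prop)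
    exact continuous_const.div hv.norm fun q => norm_ne_zero_iff.2 (vec_ne_zero q.1.2)
  have h := ho_homotopic ⟨_, hc⟩ (ContinuousMap.id TT)
    (bt.comp (D2s wf2 (pr1 (Pc 3)) wf2_sq)) ?_ ?_ ht
  · rw [push_id] at h
    exact h
  · intro x
    apply Prod.ext
    · rfl
    · apply Subtype.ext
      show ((1 - ((0 : unitInterval) : ℝ)) + ((0 : unitInterval) : ℝ) *
        ((5 / 16) / ‖vec x.2.1‖)) • x.2.1 = x.2.1
      simp
  · intro x
    apply Prod.ext
    · rfl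
    · apply Subtype.ext
      show ((1 - ((1 : unitInterval) : ℝ)) + ((1 : unitInterval) : ℝ) *
        ((5 / 16) / ‖vec x.2.1‖)) • x.2.1 =
        unv (((1 / 4 : ℝ) • (((5 / 4) / ‖vec x.2.1‖) • vec x.2.1) + (1 / 2 : ℝ) • L3 (x.1 : ℂ)) -
          (1 / 2 : ℝ) • L3 (x.1 : ℂ))
      rw [add_sub_cancel_right, smul_smul, unv_smul, unv_vec, Set.Icc.coe_one, sub_self, zero_add,
        one_mul]
      congr 1
      ring

/-- the map of the circle -/
def zet : C(Circle, TT) :=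
  ⟨fun s => (Circle.exp Real.pi * s, ⟨unv (L3 (s : ℂ)), unv_ne (by
    intro h
    have := norm_L3 s
    rw [h, norm_zero] at this
    exact zero_ne_one this)⟩), by
    refine Continuous.prodMk (by fun_prop) (Continuous.subtype_mk ?_ _)
    exact continuous_unv.comp (cont_L3 continuous_id)⟩

/-- second branch -/
theorem TW_f2b {m : ℕ} {t : Cn TT m} (ht : t ∈ Cyc TT m) :
    Ho (push (bt.comp (D2s wf2 (negc.comp (pr1 (Pc 3))) (negc_sq wf2_sq))) m t)
      (push (zet.comp (pr1 (Pc 3))) m t) := by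
  have hv : Continuous fun q : TT × unitInterval => vec q.1.2.1 :=
    continuous_vec.comp (continuous_subtype_val.comp (continuous_snd.comp continuous_fst))
  have hu : Continuous fun q : TT × unitInterval => ((q.2 : unitInterval) : ℝ) :=
    continuous_subtype_val.comp continuous_snd
  have hL : Continuous fun q : TT × unitInterval => L3 (q.1.1 : ℂ) := cont_L3 (by fun_prop)
  have hne : ∀ q : TT × unitInterval, L3 (q.1.1 : ℂ) -
      (-((1 - (q.2 : ℝ)) * ((5 / 16) / ‖vec q.1.2.1‖))) • vec q.1.2.1 ≠ 0 := by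
    intro q
    apply ne_of_norm
    have h0 := norm_pos_iff.2 (vec_ne_zero q.1.2)
    have h5 := q.2.2.1
    have h6 := q.2.2.2
    rw [norm_L3, norm_smul, norm_neg, Real.norm_of_nonneg (by
      apply mul_nonneg (by linarith) (by positivity))]
    have h7 : (1 - (q.2 : ℝ)) * ((5 / 16) / ‖vec q.1.2.1‖) * ‖vec q.1.2.1‖ =
      (1 - (q.2 : ℝ)) * (5 / 16) := by field_simp
    rw [h7]
    linarith
  have hc : Continuous fun q : TT × unitInterval =>
      ((Circle.exp Real.pi * q.1.1, ⟨unv (L3 (q.1.1 : ℂ) -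
      (-((1 - (q.2 : ℝ)) * ((5 / 16) / ‖vec q.1.2.1‖))) • vec q.1.2.1),
        unv_ne (hne q)⟩) : TT) := by
    refine Continuous.prodMk (by fun_prop) (Continuous.subtype_mk ?_ _)
    have hs : Continuous fun q : TT × unitInterval =>
        -((1 - (q.2 : ℝ)) * ((5 / 16) / ‖vec q.1.2.1‖)) :=
      ((continuous_const.sub hu).mul (continuous_const.div hv.norm
        fun q => norm_ne_zero_iff.2 (vec_ne_zero q.1.2))).neg
    exact continuous_unv.comp (hL.sub (hs.smul hv))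
  refine ho_homotopic ⟨_, hc⟩ _ _ ?_ ?_ ht
  · intro x
    apply Prod.ext
    · rfl
    · apply Subtype.ext
      show unv (L3 (x.1 : ℂ) - (-((1 - ((0 : unitInterval) : ℝ)) *
        ((5 / 16) / ‖vec x.2.1‖))) • vec x.2.1) =
        unv (((1 / 4 : ℝ) • (((5 / 4) / ‖vec x.2.1‖) • vec x.2.1) + (1 / 2 : ℝ) • L3 (x.1 : ℂ)) -
          (1 / 2 : ℝ) • L3 ((Circle.exp Real.pi * x.1 : Circle) : ℂ))
      have e1 : L3 ((Circle.exp Real.pi * x.1 : Circle) : ℂ) = - L3 (x.1 : ℂ) := by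
        rw [← map_neg]
        congr 1
        rw [exp_pi', Circle.coe_mul]
        simp
      rw [e1, Set.Icc.coe_zero, sub_zero, one_mul]
      congr 1
      rw [smul_smul]
      have e2 : (1 / 4 : ℝ) * ((5 / 4) / ‖vec x.2.1‖) = (5 / 16) / ‖vec x.2.1‖ := by ring
      rw [e2]
      module
  · intro x
    apply Prod.ext
    · rfl
    · apply Subtype.ext
      show unv (L3 (x.1 : ℂ) - (-((1 - ((1 : unitInterval) : ℝ)) *
        ((5 / 16) / ‖vec x.2.1‖))) • vec x.2.1) = unv (L3 (x.1 : ℂ))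
      rw [Set.Icc.coe_one, sub_self, zero_mul, neg_zero, zero_smul, sub_zero]

/-- `TW` of the inner map -/
theorem TW_f2 {m : ℕ} {t : Cn TT (m + 2)} (ht : t ∈ Cyc TT (m + 2)) :
    Ho (TW (m + 2) (push wf2 (m + 2) t)) t := by
  show Ho (push bt (m + 2) (trq qW (m + 2) (push wf2 (m + 2) t))) t
  rw [trq_sec wf2 (pr1 (Pc 3)) wf2_sq, map_add, push_push, push_push]
  have h2 := circle_acy m _ (push_mem_Cyc (pr1 (Pc 3)) (m + 2) t ht)
  have h3 := (TW_f2b ht).trans (ho_zero.2 (by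
    rw [← push_push]
    exact push_mem_Bdy zet (m + 2) _ h2))
  have h4 := (TW_f2a ht).symm.add h3
  rw [add_zero] at h4
  exact h4

theorem wf2_inj {m : ℕ} {t : Cn TT (m + 2)} (ht : t ∈ Cyc TT (m + 2))
    (h : Ho (push wf2 (m + 2) t) 0) : t ∈ Bdy TT (m + 2) := by
  have h1 := TW_ho h
  rw [map_zero] at h1
  exact ho_zero.1 ((TW_f2 ht).symm.trans h1)

theorem f1_f2 {m : ℕ} {t : Cn TT (m + 2)} (ht : t ∈ Cyc TT (m + 2)) :
    Ho (push wf1 (m + 2) t) (push wf2 (m + 2) (tr (Pc 3) (m + 2) t)) := by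
  obtain ⟨t', ht', h1⟩ := wf2_surj m (push_mem_Cyc wf1 (m + 2) t ht)
  have h2 := (TW_f1 ht).symm.trans ((TW_ho h1).trans (TW_f2 ht'))
  exact h1.trans (h2.symm.push wf2)

theorem W2_rel {t : Cn TT 2} (ht : t ∈ Cyc TT 2) :
    Ho (push wf1 2 t) ((2 : ℤ) • push wf2 2 t) := by
  have h := (f1_f2 ht).trans ((tr_two' ht).push wf2)
  rwa [map_smul] at h

theorem W3_rel {t : Cn TT 3} (ht : t ∈ Cyc TT 3) :
    Ho (push wf1 3 t) (push wf2 3 t) :=
  (f1_f2 ht).trans ((tr_one' ht).push wf2)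

theorem W2_sub {t : Cn TT 2} (ht : t ∈ Cyc TT 2) :
    Ho (push wf1 2 t - push wf2 2 t) (push wf2 2 t) := by
  have h := (W2_rel ht).sub (Ho.refl (push wf2 2 t))
  rwa [two_smul, add_sub_cancel_right] at h

theorem W_2a {w : Cn WT 2} (hw : w ∈ Cyc WT 2) :
    ∃ t ∈ Cyc TT 2, Ho w (push wf1 2 t - push wf2 2 t) := by
  obtain ⟨t, ht, h⟩ := wf2_surj 0 hw
  exact ⟨t, ht, h.trans (W2_sub ht).symm⟩

theorem W_2b {t : Cn TT 2} (ht : t ∈ Cyc TT 2) (h : Ho (push wf1 2 t) (push wf2 2 t)) :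
    t ∈ Bdy TT 2 := by
  apply wf2_inj ht
  have h1 := h.sub (Ho.refl (push wf2 2 t))
  rw [sub_self] at h1
  exact (W2_sub ht).symm.trans h1

theorem W_3Z : HZt WT 3 (push wf2 3 top3) := by
  refine ⟨push_mem_Cyc _ _ _ hzT3.cyc, ?_, ?_⟩
  · intro w hw
    obtain ⟨t, ht, h⟩ := wf2_surj 1 hw
    obtain ⟨a, ha⟩ := hzT3.gen t ht
    refine ⟨a, h.trans ?_⟩
    have := ha.push wf2
    rwa [map_smul] at this
  · intro a ha
    apply hzT3.inf a
    rw [← map_smul] at ha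
    exact ho_zero.2 (wf2_inj (m := 1) ((Cyc TT 3).smul_mem a hzT3.cyc) ha)

theorem W_4 (m : ℕ) : Acy WT (m + 4) := by
  intro w hw
  obtain ⟨t, ht, h⟩ := wf2_surj (m + 2) hw
  exact h.bdy (push_mem_Bdy _ _ _ (acyT4 m t ht))

/-! ### degree one -/

theorem wn_f1 (t : Cn TT 1) : wn (push qW 1 (push wf1 1 t)) = wn (push (pr1 (Pc 3)) 1 t) := by
  rw [push_push]; rfl

theorem wn_f2 (t : Cn TT 1) :
    wn (push qW 1 (push wf2 1 t)) = 2 * wn (push (pr1 (Pc 3)) 1 t) := by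
  rw [← wn_csq, push_push, push_push]; rfl

theorem W_inj1 {w : Cn WT 1} (hw : w ∈ Cyc WT 1) (h : wn (push qW 1 w) = 0) : w ∈ Bdy WT 1 := by
  have h1 : push qW 1 w ∈ Bdy Circle 1 := wn_inj (push_mem_Cyc _ _ _ hw) h
  have h2 : push (sub WT) 1 w ∈ Bdy UU 1 := by
    apply (pU_HE 1).1 _ (push_mem_Cyc _ _ _ hw)
    rw [push_push]
    exact h1
  obtain ⟨d, hd, h3, h4⟩ := mv_inj WT NT WT_open NT_open WN_cover 1 w 0 hw
    (Submodule.zero_mem _) (by rw [map_zero, add_zero]; exact h2)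
  obtain ⟨t, ht, h5⟩ := (jj_HE 1).2 d hd
  have h5' : Ho d (push jj 1 t) := h5
  rw [zero_add] at h4
  have h6 : push (inr WT NT) 1 (push jj 1 t) ∈ Bdy NT 1 := (h5'.push (inr WT NT)).symm.bdy h4
  have h7 : wn (push (pU.comp (sub NT)) 1 (push (inr WT NT) 1 (push jj 1 t))) = 0 :=
    wn_bdy (push_mem_Bdy _ _ _ h6)
  have h8 : wn (push csq 1 (push (pr1 (Pc 3)) 1 t)) = 0 := by
    rw [push_push, push_push] at h7
    rw [push_push]
    exact h7
  rw [wn_csq] at h8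
  have h9 : t ∈ Bdy TT 1 := pr1_inj acyP1 ht (by linarith)
  have h10 : Ho w (push (inl WT NT) 1 d) := h3
  have h11 := h10.trans (h5'.push (inl WT NT))
  exact h11.bdy (push_mem_Bdy _ _ _ (push_mem_Bdy _ _ _ h9))

theorem W_1a {w : Cn WT 1} (hw : w ∈ Cyc WT 1) :
    ∃ t ∈ Cyc TT 1, Ho w (push wf1 1 t - push wf2 1 t) := by
  obtain ⟨k, hk⟩ := wn_int (z := push qW 1 w) (push_mem_Cyc _ _ _ hw)
  let v0 : Pc 3 := Classical.arbitrary _
  let s : C(Circle, TT) := ⟨fun c => (c, v0), by fun_prop⟩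
  have hs : (pr1 (Pc 3)).comp s = ContinuousMap.id Circle := rfl
  refine ⟨(-k) • push s 1 lpc, (Cyc TT 1).smul_mem _ (push_mem_Cyc _ _ _ lp_cyc'), ?_⟩
  have ht : (-k) • push s 1 lpc ∈ Cyc TT 1 :=
    (Cyc TT 1).smul_mem _ (push_mem_Cyc _ _ _ lp_cyc')
  apply W_inj1
  · exact (Cyc _ _).sub_mem hw ((Cyc _ _).sub_mem (push_mem_Cyc _ _ _ ht) (push_mem_Cyc _ _ _ ht))
  · rw [map_sub, map_sub, map_sub, map_sub, wn_f1, wn_f2, hk, map_smul, push_push, hs, push_id,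
      map_smul, wn_lpc, zsmul_eq_mul]
    push_cast
    ring

theorem W_1b {t : Cn TT 1} (ht : t ∈ Cyc TT 1) (h : Ho (push wf1 1 t) (push wf2 1 t)) :
    t ∈ Bdy TT 1 := by
  have h1 := wn_ho (h.push qW)
  rw [wn_f1, wn_f2] at h1
  exact pr1_inj acyP1 ht (by linarith)

end

end Pool.Agent.TH650.MT
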